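import Pool.Agent.Work.MP_8c604c_gt.O.Jac
import Pool.Agent.Work.MP_8c604c_gt.ODE
import Mathlib

-- merged part: Pool.Agent.Work.MP_8c604c_gt.O.NC
section
-- merged part: Pool.Agent.Work.MP_8c604c_gt.O.Dist
section
/-!
The distance along geodesics of a Blaschke metric.
-/

set_option maxSynthPendingDepth 3
set_option linter.unusedSectionVars false

open Set Filter Topology MeasureTheory
open scoped ContDiff

noncomputable section
namespace Pool.Agent.Work.MP_8c604c_gt.O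

open Model

variable {E : Type} [NormedAddCommGroup E] [InnerProductSpace ℝ E] [FiniteDimensional ℝ E] {d : ℕ}
  {μ : Model E d} {g : Met E}

theorem dist_quad {A C : ℝ} (hA : 0 ≤ A) (h : ∀ k : ℝ, 0 ≤ k * (k * A) - 2 * (k * C)) : C = 0 := by
  have h1 := h (C / (A + 1))
  obtain ⟨k, hk⟩ : ∃ k, k = C / (A + 1) := ⟨_, rfl⟩
  have h2 : C = k * (A + 1) := by rw [hk, div_mul_cancel₀ _ (by linarith)]
  rw [← hk, h2] at h1
  have h3 : k ^ 2 ≤ 0 := by nlinarith [mul_nonneg (sq_nonneg k) hA]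
  rw [h2, pow_eq_zero_iff two_ne_zero |>.1 (le_antisymm h3 (sq_nonneg k)), zero_mul]

/-- A unit speed geodesic is determined by a point and the velocity there. -/
theorem Geo.Z_congr (G : Geo μ g) (h : IsMetric μ g) {x x' : E × E} (hx : x ∈ μ.OO) (hx' : x' ∈ μ.OO)
    {s s' : ℝ} (e1 : G.Z s x = G.Z s' x') (e2 : vel g (G.psi s x) = vel g (G.psi s' x')) (t : ℝ) :
    G.Z (t + s) x = G.Z (t + s') x' := by
  rw [← G.Z_add t s hx, ← G.Z_add t s' hx', ← G.Z_vel h t (G.psi_mem h s hx),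
    ← G.Z_vel h t (G.psi_mem h s' hx'), e2]
  exact congrArg (fun z => G.Z t (z, vel g (G.psi s' x'))) e1

theorem Geo.vel_congr (G : Geo μ g) (h : IsMetric μ g) {x x' : E × E} (hx : x ∈ μ.TT)
    (hx' : x' ∈ μ.TT) (e : ∀ t, G.Z t x = G.Z t x') : vel g x = vel g x' := by
  have h1 := G.hasDerivAt_Z h 0 (TT_OO hx)
  have h2 := G.hasDerivAt_Z h 0 (TT_OO hx')
  rw [G.psi_zero' hx, funext e] at h1
  rw [G.psi_zero' hx'] at h2
  exact h1.unique h2

namespace Bl
variable {G : Geo μ g} (B : Bl g G)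
include B

theorem dist_dd_Z {x : E × E} (hx : x ∈ μ.OO) {s t : ℝ} (h0 : s ≤ t) (hst : t - s ≤ Real.pi / 2) :
    t - s ≤ dd μ g (G.Z s x) (G.Z t x) := by
  obtain ⟨c, hc⟩ := B.met.exists_joins (G.Z_U s hx) (G.Z_U t hx)
  refine le_csInf ⟨_, c, hc, rfl⟩ ?_
  rintro _ ⟨c, hc, rfl⟩
  refine B.min _ (G.psi_mem B.met s hx) (t - s) ⟨by linarith, hst⟩ c ?_
  rwa [G.Z_add _ _ hx, sub_add_cancel]

theorem dd_Z {x : E × E} (hx : x ∈ μ.OO) {s t : ℝ} (hst : |t - s| ≤ Real.pi / 2) :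
    dd μ g (G.Z s x) (G.Z t x) = |t - s| := by
  refine le_antisymm (B.met.dd_Z_le G hx s t) ?_
  rcases le_total s t with h | h
  · rw [abs_of_nonneg (by linarith)] at hst ⊢
    exact B.dist_dd_Z hx h hst
  · rw [abs_sub_comm, abs_of_nonneg (by linarith)] at hst ⊢
    rw [dd_symm]
    exact B.dist_dd_Z hx h hst

theorem dd_Z_zero {x : E × E} (hx : x ∈ μ.OO) {t : ℝ} (ht : |t| ≤ Real.pi / 2) :
    dd μ g x.1 (G.Z t x) = |t| := by
  have := B.dd_Z hx (s := 0) (t := t) (by rwa [sub_zero])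
  rwa [G.Z_zero hx, dd_r_left hx.1, sub_zero] at this

theorem dd_ex {q u : E} (hq : q ∈ μ.U) (hu : √(g q u u) ≤ Real.pi / 2) :
    dd μ g q (G.ex q u) = √(g q u u) := by
  by_cases h : μ.P q u = 0
  · rw [G.ex_congr hq (h.trans (map_zero _).symm), G.ex_zero hq, dd_r_right _ hq, dd_self hq,
      B.met.vert hq h, Real.sqrt_zero]
  · have hx : (q, u) ∈ μ.OO := ⟨hq, h⟩
    have h1 : |spd g (q, u)| = √(g q u u) := abs_of_nonneg (Real.sqrt_nonneg _)
    have h2 := B.dd_Z_zero hx (h1.trans_le hu)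
    rwa [← G.ex_eq_Z B.met hx, h1] at h2

theorem Z_not_mem {x : E × E} (hx : x ∈ μ.OO) {t : ℝ} (ht : t ∈ Ioo 0 Real.pi) :
    G.Z t x ≠ G.Z 0 x := by
  intro e
  rcases le_total t (Real.pi / 2) with h | h
  · have h1 := B.dist_dd_Z hx ht.1.le (by linarith)
    rw [e, dd_self (G.Z_U 0 hx)] at h1
    linarith [ht.1]
  · have h1 := B.dist_dd_Z hx ht.2.le (by linarith)
    have e' := B.per x hx 0
    rw [zero_add] at e'
    rw [e, e', dd_self (G.Z_U 0 hx)] at h1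
    linarith [ht.2]

/-- First variation at a point of maximal distance. -/
theorem orth {x : E × E} (hx : x ∈ μ.TT) {q : ℝ → E} {a : E} (hq : HasDerivAt q a 0)
    (h0 : q 0 = x.1) (hd : ∀ᶠ τ in 𝓝 (0 : ℝ), dd μ g (q τ) (G.Z (Real.pi / 2) x) = Real.pi / 2) :
    g x.1 a x.2 = 0 := by
  have ho := TT_OO hx
  have key : ∀ k : ℝ, 1 ≤ √(g x.1 (k • a - vel g x) (k • a - vel g x)) := by
    intro k
    refine le_of_forall_pos_le_add fun η hη => ?_
    have hk : HasDerivAt (fun ε : ℝ => k * ε) k 0 := by simpa using (hasDerivAt_id 0).const_mul k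
    have h1 : HasDerivAt (fun ε : ℝ => q (k * ε)) (k • a) 0 :=
      HasDerivAt.scomp_of_eq 0 hq hk (by simp)
    have h2 := G.hasDerivAt_Z B.met 0 ho
    rw [G.psi_zero' hx] at h2
    have h3 := B.met.dd_local ho.1 h1 h2 (by simpa using h0) (G.Z_zero' hx) hη
    have h4 : ∀ᶠ ε in 𝓝 (0 : ℝ), q (k * ε) ∈ μ.U :=
      h1.continuousAt.eventually (μ.isOpen.mem_nhds (by simpa [h0] using ho.1))
    have ht : Tendsto (fun ε : ℝ => k * ε) (𝓝 0) (𝓝 0) := by
      simpa using hk.continuousAt.tendsto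
    have h5 : ∀ᶠ ε in 𝓝[>] (0 : ℝ), ε ∈ Ioo 0 (Real.pi / 2) :=
      Ioo_mem_nhdsGT (by linarith [Real.pi_pos])
    obtain ⟨ε, e3, e5, e4, e6⟩ := (h3.and (h5.and
      ((h4.and (ht.eventually hd)).filter_mono nhdsWithin_le_nhds))).exists
    have e7 := B.met.dd_triangle e4 (G.Z_U ε ho) (G.Z_U (Real.pi / 2) ho)
    have e8 := B.met.dd_Z_le G ho ε (Real.pi / 2)
    rw [abs_of_nonneg (by linarith [e5.2])] at e8
    refine le_of_mul_le_mul_left ?_ e5.1
    linarith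
  have hv : g x.1 a (vel g x) = 0 := by
    refine dist_quad (B.met.nonneg ho.1 a) fun k => ?_
    have h1 := Real.one_le_sqrt.1 (key k)
    simp only [map_sub, map_smul, sub_apply, smul_apply,
      smul_eq_mul, B.met.vel_unit ho, B.met.symm x.1 (vel g x) a ho.1] at h1
    linarith
  rw [B.met.snd_eq ho, map_smul, hv, smul_zero]

/-- Two geodesics from the same point that meet at a time `r < π/2` coincide. -/
theorem Z_inj {x x' : E × E} (hx : x ∈ μ.TT) (hx' : x' ∈ μ.TT) (e0 : x'.1 = x.1) {r : ℝ}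
    (hr : r ∈ Ioo 0 (Real.pi / 2)) (e : G.Z r x = G.Z r x') : vel g x = vel g x' := by
  have ho := TT_OO hx
  have ho' := TT_OO hx'
  have hv : vel g (G.psi r x) = vel g (G.psi r x') := by
    by_contra hv
    have h1 := B.met.corner G (G.psi_TT B.met r ho') (G.psi_TT B.met r ho) e hv hr.1 (sub_pos.2 hr.2)
    have h2 := B.dist_dd_Z ho (s := 0) (t := Real.pi / 2) (by linarith [hr.1, hr.2]) (by linarith)
    rw [G.Z_add _ _ ho', G.Z_add _ _ ho, neg_add_cancel, sub_add_cancel, G.Z_zero' hx', e0] at h1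
    rw [G.Z_zero' hx] at h2
    linarith
  refine G.vel_congr B.met hx hx' fun t => ?_
  have := G.Z_congr B.met ho ho' e hv (t - r)
  rwa [sub_add_cancel] at this

/-- The exponential map is injective on the open ball of radius `π/2`. -/
theorem ex_inj {q u u' : E} (hq : q ∈ μ.U) (hu : √(g q u u) < Real.pi / 2)
    (hu' : √(g q u' u') < Real.pi / 2) (e : G.ex q u = G.ex q u') : μ.P q u = μ.P q u' := by
  have hr : √(g q u u) = √(g q u' u') := by rw [← B.dd_ex hq hu.le, ← B.dd_ex hq hu'.le, e]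
  have hz : ∀ w, μ.P q w = 0 ↔ √(g q w w) = 0 := fun w => by
    rw [Real.sqrt_eq_zero (B.met.nonneg hq w)]
    exact ⟨fun h => B.met.vert hq h w, B.met.P_eq_zero hq⟩
  by_cases h : μ.P q u = 0
  · have h' : μ.P q u' = 0 := by rwa [hz, ← hr, ← hz]
    exact h.trans h'.symm
  have h' : μ.P q u' ≠ 0 := by rwa [Ne, hz, ← hr, ← hz]
  have hx : (q, u) ∈ μ.OO := ⟨hq, h⟩
  have hx' : (q, u') ∈ μ.OO := ⟨hq, h'⟩
  have hr2 : spd g (q, u') = spd g (q, u) := hr.symm
  have e2 := G.ex_eq_Z B.met hx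
  have e3 := G.ex_eq_Z B.met hx'
  have h3 := B.Z_inj (R_mem_TT hx) (R_mem_TT hx') rfl ⟨B.met.spd_pos hx, hu⟩ (by
    rw [G.Z_R B.met _ hx, G.Z_R B.met _ hx', ← e2, ← hr2, ← e3]
    exact e)
  rw [vel, vel, B.met.spd_R hx.1, B.met.spd_R hx'.1, hr2] at h3
  exact smul_right_injective _ (inv_ne_zero (B.met.spd_pos hx).ne') h3

end Bl

end Pool.Agent.Work.MP_8c604c_gt.O
end
end

-- merged part: Pool.Agent.Work.MP_8c604c_gt.O.NCAux
section
/-!
Second variation estimate for one smooth piece of a varied geodesic.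
-/

set_option maxSynthPendingDepth 3
set_option linter.unusedSectionVars false

open Set Filter Topology MeasureTheory
open scoped ContDiff

noncomputable section
namespace Pool.Agent.Work.MP_8c604c_gt.O

open Model

variable {E : Type} [NormedAddCommGroup E] [InnerProductSpace ℝ E] [FiniteDimensional ℝ E] {d : ℕ}
  {μ : Model E d} {g : Met E}

theorem IsMetric.nc_cont_D1 (h : IsMetric μ g) :
    ContinuousOn (fderiv ℝ (Lg g)) μ.UU :=
  h.contDiffOn_Lg.continuousOn_fderiv_of_isOpen μ.isOpen_UU (by simp)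

theorem IsMetric.nc_cont_D2 (h : IsMetric μ g) :
    ContinuousOn (fderiv ℝ (fderiv ℝ (Lg g))) μ.UU := by
  have h1 : ContDiffOn ℝ ∞ (fderiv ℝ (Lg g)) μ.UU :=
    h.contDiffOn_Lg.fderiv_of_isOpen μ.isOpen_UU (by simp)
  exact h1.continuousOn_fderiv_of_isOpen μ.isOpen_UU (by simp)

namespace Geo
variable (G : Geo μ g) (h : IsMetric μ g)
include h

theorem nc_cont_Z {x : E × E} (hx : x ∈ μ.OO) : Continuous fun t => G.Z t x :=
  continuous_iff_continuousAt.2 fun t => (G.hasDerivAt_Z h t hx).continuousAt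

theorem nc_cont_vel {x : E × E} (hx : x ∈ μ.OO) : Continuous fun t => vel g (G.psi t x) := by
  have h1 : Continuous fun t => G.psi t x :=
    (G.contDiffOn_psi h).continuousOn.comp_continuous (f := fun t : ℝ => (t, x)) (by fun_prop)
      (fun _ => hx)
  exact h.contDiffOn_vel.continuousOn.comp_continuous h1 (fun t => G.psi_mem h t hx)

theorem nc_cont_JD {x : E × E} (hx : x ∈ μ.OO) (ξ : E × E) : Continuous fun t => G.JD t x ξ := by
  have h1 : Continuous fun t => G.JD t x :=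
    (G.contDiffOn_JD h).continuousOn.comp_continuous (f := fun t : ℝ => (t, x)) (by fun_prop)
      (fun _ => hx)
  exact h1.clm_apply continuous_const

theorem nc_cont_p {x : E × E} (hx : x ∈ μ.OO) :
    Continuous fun t => ((G.Z t x, vel g (G.psi t x)) : E × E) :=
  (G.nc_cont_Z h hx).prodMk (G.nc_cont_vel h hx)

theorem nc_cont_second {x : E × E} (hx : x ∈ μ.OO) :
    Continuous fun t => fderiv ℝ (fderiv ℝ (Lg g)) ((G.Z t x, vel g (G.psi t x)) : E × E) :=
  h.nc_cont_D2.comp_continuous (G.nc_cont_p h hx) (fun t => G.Z_U t hx)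

theorem nc_cont_DD {x : E × E} (hx : x ∈ μ.OO) {η η' : ℝ → E} (hη : Continuous η)
    (hη' : Continuous η') :
    Continuous fun t => D2 g (G.Z t x, vel g (G.psi t x)) (η t, η' t) (η t, η' t) :=
  ((G.nc_cont_second h hx).clm_apply (hη.prodMk hη')).clm_apply (hη.prodMk hη')

theorem nc_piece {x : E × E} (hx : x ∈ μ.OO) {a b : ℝ} (hab : a ≤ b) {η η' : ℝ → E}
    (hη : ∀ t, HasDerivAt η (η' t) t) (hη' : Continuous η') :
    ∃ C δ : ℝ, 0 < δ ∧ ∀ ε : ℝ, 0 ≤ ε → ε ≤ δ →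
      (G.Z a x + ε • η a ∈ μ.U ∧ G.Z b x + ε • η b ∈ μ.U) ∧
      dd μ g (G.Z a x + ε • η a) (G.Z b x + ε • η b) ≤ (b - a) +
        ε * (g (G.Z b x) (vel g (G.psi b x)) (η b) - g (G.Z a x) (vel g (G.psi a x)) (η a)) +
        ε ^ 2 / 2 * (∫ t in a..b, D2 g (G.Z t x, vel g (G.psi t x)) (η t, η' t) (η t, η' t)) +
        C * ε ^ 3 := by
  have hηc : Continuous η := continuous_iff_continuousAt.2 fun t => (hη t).continuousAt
  have hp := G.nc_cont_p h hx
  have hξ : Continuous fun t => ((η t, η' t) : E × E) := hηc.prodMk hη'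
  obtain ⟨C₀, δ₀, hC₀, hδ₀, hT⟩ := taylor_two μ.isOpen_UU h.contDiffOn_Lg
    (isCompact_Icc (a := a) (b := b) |>.image hp)
    (by rintro _ ⟨t, _, rfl⟩; exact G.Z_U t hx)
  obtain ⟨M, hM⟩ := (isCompact_Icc (a := a) (b := b)).exists_bound_of_continuousOn hξ.continuousOn
  have hM0 : 0 ≤ M := (norm_nonneg _).trans (hM a ⟨le_rfl, hab⟩)
  refine ⟨(b - a) * (C₀ * M ^ 3), δ₀ / (M + 1), by positivity, fun ε hε hεδ => ?_⟩
  have key : ∀ t ∈ Icc a b, G.Z t x + ε • η t ∈ μ.U ∧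
      Lg g (G.Z t x + ε • η t, vel g (G.psi t x) + ε • η' t) ≤ 1 / 2 +
        ε * fderiv ℝ (Lg g) (G.Z t x, vel g (G.psi t x)) (η t, η' t) +
        ε ^ 2 / 2 * D2 g (G.Z t x, vel g (G.psi t x)) (η t, η' t) (η t, η' t) +
        C₀ * M ^ 3 * ε ^ 3 := by
    intro t ht
    have hm := hM t ht
    have h1 : ε * ‖((η t, η' t) : E × E)‖ ≤ δ₀ := by
      calc ε * ‖((η t, η' t) : E × E)‖ ≤ δ₀ / (M + 1) * (M + 1) := by
            apply mul_le_mul hεδ (by linarith) (norm_nonneg _) (by positivity)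
        _ = δ₀ := by field_simp
    obtain ⟨h2, h3⟩ := hT (G.Z t x, vel g (G.psi t x)) ⟨t, ht, rfl⟩ 0 (η t, η' t) ε hε
      (by simpa using h1)
    have e1 : ((G.Z t x, vel g (G.psi t x)) : E × E) + 0 + ε • ((η t, η' t) : E × E) =
        (G.Z t x + ε • η t, vel g (G.psi t x) + ε • η' t) := by simp
    rw [e1] at h2 h3
    refine ⟨h2, ?_⟩
    have e2 : Lg g ((G.Z t x, vel g (G.psi t x)) + 0) = 1 / 2 := by
      rw [add_zero]
      have := h.vel_unit (G.psi_mem h t hx)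
      show 1 / 2 * g (G.psi t x).1 (vel g (G.psi t x)) (vel g (G.psi t x)) = 1 / 2
      rw [this]; norm_num
    rw [e2] at h3
    simp only [map_zero, zero_apply, mul_zero, add_zero, norm_zero,
      zero_add] at h3
    have h4 : C₀ * ε * (ε * ‖((η t, η' t) : E × E)‖) ^ 2 * ‖((η t, η' t) : E × E)‖ ≤
        C₀ * M ^ 3 * ε ^ 3 := by
      have : ‖((η t, η' t) : E × E)‖ ^ 3 ≤ M ^ 3 := pow_le_pow_left₀ (norm_nonneg _) hm 3
      calc C₀ * ε * (ε * ‖((η t, η' t) : E × E)‖) ^ 2 * ‖((η t, η' t) : E × E)‖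
          = C₀ * ‖((η t, η' t) : E × E)‖ ^ 3 * ε ^ 3 := by ring
        _ ≤ C₀ * M ^ 3 * ε ^ 3 := by gcongr
    unfold D2
    linarith
  refine ⟨⟨(key a ⟨le_rfl, hab⟩).1, (key b ⟨hab, le_rfl⟩).1⟩, ?_⟩
  have hc : ∀ t, HasDerivAt (fun s => G.Z s x + ε • η s) (vel g (G.psi t x) + ε • η' t) t :=
    fun t => (G.hasDerivAt_Z h t hx).add ((hη t).const_smul ε)
  have hcc : Continuous fun s => G.Z s x + ε • η s := (G.nc_cont_Z h hx).add (hηc.const_smul ε)
  have hcc' : Continuous fun t => vel g (G.psi t x) + ε • η' t :=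
    (G.nc_cont_vel h hx).add (hη'.const_smul ε)
  have i1 := h.dd_le_curve (c := fun s => G.Z s x + ε • η s)
    (c' := fun t => vel g (G.psi t x) + ε • η' t) hab (fun t _ => hc t) hcc'.continuousOn
    (fun t ht => (key t ht).1)
  have i2 := h.len_le_energy (c := fun s => G.Z s x + ε • η s)
    (c' := fun t => vel g (G.psi t x) + ε • η' t) hab hcc.continuousOn hcc'.continuousOn
    (fun t ht => (key t ht).1)
  have c1 : Continuous fun t => fderiv ℝ (Lg g) (G.Z t x, vel g (G.psi t x)) (η t, η' t) :=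
    (h.nc_cont_D1.comp_continuous hp (fun t => G.Z_U t hx)).clm_apply hξ
  have c2 := G.nc_cont_DD h hx hηc hη'
  have c3 : ContinuousOn (fun t => Lg g (G.Z t x + ε • η t, vel g (G.psi t x) + ε • η' t))
      (Icc a b) :=
    h.contDiffOn_Lg.continuousOn.comp (hcc.prodMk hcc').continuousOn (fun t ht => (key t ht).1)
  have i3 : (∫ t in a..b, Lg g (G.Z t x + ε • η t, vel g (G.psi t x) + ε • η' t)) ≤
      ∫ t in a..b, (1 / 2 +
        ε * fderiv ℝ (Lg g) (G.Z t x, vel g (G.psi t x)) (η t, η' t) +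
        ε ^ 2 / 2 * D2 g (G.Z t x, vel g (G.psi t x)) (η t, η' t) (η t, η' t) +
        C₀ * M ^ 3 * ε ^ 3) := by
    apply intervalIntegral.integral_mono_on hab
    · exact (c3.mono (by rw [uIcc_of_le hab])).intervalIntegrable
    · exact Continuous.intervalIntegrable (by fun_prop) _ _
    · exact fun t ht => (key t ht).2
  have i4 : (∫ t in a..b, fderiv ℝ (Lg g) (G.Z t x, vel g (G.psi t x)) (η t, η' t)) =
      g (G.Z b x) (vel g (G.psi b x)) (η b) - g (G.Z a x) (vel g (G.psi a x)) (η a) :=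
    intervalIntegral.integral_eq_sub_of_hasDerivAt
      (f := fun s => g (G.Z s x) (vel g (G.psi s x)) (η s))
      (fun t _ => G.first_var h t hx (hη t)) (c1.intervalIntegrable _ _)
  rw [intervalIntegral.integral_add (Continuous.intervalIntegrable (by fun_prop) _ _)
      (Continuous.intervalIntegrable (by fun_prop) _ _),
    intervalIntegral.integral_add (Continuous.intervalIntegrable (by fun_prop) _ _)
      (Continuous.intervalIntegrable (by fun_prop) _ _),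
    intervalIntegral.integral_add (Continuous.intervalIntegrable (by fun_prop) _ _)
      (Continuous.intervalIntegrable (by fun_prop) _ _),
    intervalIntegral.integral_const_mul, intervalIntegral.integral_const_mul, i4,
    intervalIntegral.integral_const, intervalIntegral.integral_const, smul_eq_mul,
    smul_eq_mul] at i3
  nlinarith [i1, i2, i3]

end Geo

end Pool.Agent.Work.MP_8c604c_gt.O
end
end

-- merged part: Pool.Agent.Work.MP_8c604c_gt.O.NC
section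
/-!
No conjugate points before `π/2` (Jacobi).
-/

set_option maxSynthPendingDepth 3
set_option linter.unusedSectionVars false

open Set Filter Topology MeasureTheory
open scoped ContDiff

noncomputable section
namespace Pool.Agent.Work.MP_8c604c_gt.O

open Model

variable {E : Type} [NormedAddCommGroup E] [InnerProductSpace ℝ E] [FiniteDimensional ℝ E] {d : ℕ}
  {μ : Model E d} {g : Met E}

namespace Geo
variable (G : Geo μ g) (h : IsMetric μ g)
include h

omit G in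
/-- A fibre vector in the kernel of the symplectic form is trivial. -/
theorem nc_fibre_ker {x : E × E} (hx : x ∈ μ.OO) {u : E} (hu : ∀ δ, om g x (0, u) δ = 0) :
    u ∈ μ.Bs x := by
  have hs := h.spd_pos hx
  have h1 := hu (u - g x.1 (vel g x) u • vel g x, 0)
  rw [h.om_fibre hx] at h1
  have h2 := (mul_eq_zero.1 h1).resolve_left (inv_ne_zero hs.ne')
  have hv := h.vel_unit hx
  have hsym := h.symm x.1 u (vel g x) hx.1
  have h3 : g x.1 (u - g x.1 (vel g x) u • vel g x) (u - g x.1 (vel g x) u • vel g x) = 0 := by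
    simp only [map_sub, map_smul, sub_apply, smul_apply,
      smul_eq_mul] at h2 ⊢
    rw [hv, hsym] at h2 ⊢
    linarith
  have hc := h.P_eq_zero hx.1 h3
  rw [map_sub, sub_eq_zero, vel, smul_smul, map_smul] at hc
  exact mem_Bs.2 ⟨_, hc⟩

/-- At a zero of a nontrivial Jacobi field the derivative does not vanish. -/
theorem nc_pos {x : E × E} (hx : x ∈ μ.OO) {t : ℝ} {u : E}
    (h0 : G.JJ t x (0, u) = 0) (hu : u ∉ μ.Bs x) :
    0 < g (G.Z t x) (G.JD t x (0, u)) (G.JD t x (0, u)) := by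
  have hZ := G.Z_U t hx
  refine lt_of_le_of_ne (h.nonneg hZ _) fun e => hu ?_
  refine nc_fibre_ker h hx fun δ => ?_
  rw [← G.star h t hx h0, h.vert hZ (h.P_eq_zero hZ e.symm)]

/-- The second variation of the linear piece is quadratically small. -/
theorem nc_lin_bound {x : E × E} (hx : x ∈ μ.OO) {t₀ t₁ : ℝ} (h01 : t₀ < t₁) :
    ∃ C : ℝ, ∀ s ∈ Icc 0 t₀, ∀ w : E,
      (∫ t in s..t₁, D2 g (G.Z t x, vel g (G.psi t x))
        (((t₁ - t) / (t₁ - s)) • w, (-1 / (t₁ - s)) • w)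
        (((t₁ - t) / (t₁ - s)) • w, (-1 / (t₁ - s)) • w)) ≤ C * ‖w‖ ^ 2 := by
  obtain ⟨M, hM⟩ := (isCompact_Icc (a := 0) (b := t₁)).exists_bound_of_continuousOn
    (G.nc_cont_second h hx).continuousOn
  refine ⟨t₁ * (|M| * (1 + 1 / (t₁ - t₀)) ^ 2), fun s hs w => ?_⟩
  have hst : s < t₁ := lt_of_le_of_lt hs.2 h01
  have hd : 0 < t₁ - s := by linarith
  have hd0 : 0 < t₁ - t₀ := by linarith
  have key : ∀ t ∈ Icc s t₁, D2 g (G.Z t x, vel g (G.psi t x))
        (((t₁ - t) / (t₁ - s)) • w, (-1 / (t₁ - s)) • w)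
        (((t₁ - t) / (t₁ - s)) • w, (-1 / (t₁ - s)) • w) ≤
        |M| * (1 + 1 / (t₁ - t₀)) ^ 2 * ‖w‖ ^ 2 := by
    intro t ht
    have hm := (hM t ⟨hs.1.trans ht.1, ht.2⟩).trans (le_abs_self M)
    have hq : 0 < 1 / (t₁ - t₀) := by positivity
    have hn : ‖((((t₁ - t) / (t₁ - s)) • w, (-1 / (t₁ - s)) • w) : E × E)‖ ≤
        (1 + 1 / (t₁ - t₀)) * ‖w‖ := by
      rw [Prod.norm_def]
      apply max_le
      · rw [norm_smul, Real.norm_eq_abs, abs_of_nonneg (div_nonneg (by linarith [ht.2]) hd.le)]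
        have : (t₁ - t) / (t₁ - s) ≤ 1 := (div_le_one hd).2 (by linarith [ht.1])
        exact mul_le_mul_of_nonneg_right (by linarith) (norm_nonneg _)
      · rw [norm_smul, Real.norm_eq_abs, abs_div, abs_neg, abs_one, abs_of_pos hd]
        have : 1 / (t₁ - s) ≤ 1 / (t₁ - t₀) := one_div_le_one_div_of_le hd0 (by linarith [hs.2])
        exact mul_le_mul_of_nonneg_right (by linarith) (norm_nonneg _)
    refine (le_abs_self _).trans ?_
    rw [← Real.norm_eq_abs]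
    refine (ContinuousLinearMap.le_opNorm₂ _ _ _).trans ?_
    calc _ ≤ |M| * ((1 + 1 / (t₁ - t₀)) * ‖w‖) * ((1 + 1 / (t₁ - t₀)) * ‖w‖) := by gcongr
      _ = _ := by ring
  have hc := G.nc_cont_DD h hx (η := fun t => ((t₁ - t) / (t₁ - s)) • w)
    (η' := fun _ => (-1 / (t₁ - s)) • w) (by fun_prop) (by fun_prop)
  have i1 := intervalIntegral.integral_mono_on (μ := volume) hst.le (hc.intervalIntegrable _ _)
    (continuous_const.intervalIntegrable _ _) key
  refine i1.trans ?_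
  rw [intervalIntegral.integral_const, smul_eq_mul, mul_assoc t₁]
  exact mul_le_mul_of_nonneg_right (by linarith [hs.1]) (by positivity)

end Geo

theorem nc_neg_left {F : ℝ → ℝ} {F' t₀ : ℝ} (hF : HasDerivAt F F' t₀) (hp : 0 < F')
    (h0 : F t₀ = 0) (ht : 0 < t₀) : ∃ s ∈ Ioo 0 t₀, F s < 0 := by
  have h1 : Tendsto (slope F t₀) (𝓝[<] t₀) (𝓝 F') :=
    (hasDerivAt_iff_tendsto_slope.1 hF).mono_left (nhdsLT_le_nhdsNE t₀)
  have h2 : ∀ᶠ s in 𝓝[<] t₀, 0 < slope F t₀ s := h1.eventually (lt_mem_nhds hp)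
  obtain ⟨s, hs1, hs2⟩ := (h2.and (Ioo_mem_nhdsLT ht)).exists
  refine ⟨s, hs2, ?_⟩
  rw [slope_def_field, h0, sub_zero] at hs1
  have : s - t₀ < 0 := by linarith [hs2.2]
  rcases div_pos_iff.1 hs1 with h | h
  · linarith [h.2]
  · exact h.1

theorem nc_small {A C δ : ℝ} (hA : A < 0) (hδ : 0 < δ) :
    ∃ ε : ℝ, 0 ≤ ε ∧ ε ≤ δ ∧ ε ^ 2 / 2 * A + C * ε ^ 3 < 0 := by
  have hq : 0 < -A / (4 * (|C| + 1)) := div_pos (by linarith) (by positivity)
  refine ⟨min δ (-A / (4 * (|C| + 1))), (lt_min hδ hq).le, min_le_left _ _, ?_⟩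
  set ε := min δ (-A / (4 * (|C| + 1)))
  have hε : 0 < ε := lt_min hδ hq
  have h1 : ε ≤ -A / (4 * (|C| + 1)) := min_le_right _ _
  rw [le_div_iff₀ (by positivity)] at h1
  have h2 : C * ε ≤ (|C| + 1) * ε :=
    mul_le_mul_of_nonneg_right (by linarith [le_abs_self C]) hε.le
  have h3 : A / 2 + C * ε < 0 := by linarith
  have h4 : ε ^ 2 / 2 * A + C * ε ^ 3 = ε ^ 2 * (A / 2 + C * ε) := by ring
  rw [h4]
  exact mul_neg_of_pos_of_neg (by positivity) h3

namespace Bl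
variable {G : Geo μ g} (B : Bl g G)
include B

theorem no_conj {x : E × E} (hx : x ∈ μ.OO) {t : ℝ} (ht : t ∈ Ioo 0 (Real.pi / 2)) {u : E}
    (h0 : G.JJ t x (0, u) = 0) : u ∈ μ.Bs x := by
  by_contra hB
  have h := B.met
  have hZ := G.Z_U t hx
  have hpos := G.nc_pos h hx h0 hB
  set ξ : E × E := (0, u) with hξ
  have hJ0 : G.JJ 0 x ξ = 0 := by rw [G.JJ_zero hx, hξ, map_zero]
  obtain ⟨C, hC⟩ := G.nc_lin_bound h hx ht.2
  have hd := fun s => G.hasDerivAt_JJ h s hx ξ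
  have hF : HasDerivAt (fun s => G.PP s x ξ (G.JJ s x ξ) + C * ‖G.JJ s x ξ‖ ^ 2)
      (g (G.Z t x) (G.JD t x ξ) (G.JD t x ξ)) t := by
    have h1 := G.var h t hx ξ (hd t)
    have h2 := ((hd t).norm_sq).const_mul C
    refine (h1.add h2).congr_deriv ?_
    rw [h.D2_apply (p := (G.Z t x, vel g (G.psi t x))) hZ, h0]
    simp
  obtain ⟨s, hs, hneg⟩ := nc_neg_left hF hpos (by simp [h0]) ht.1
  have hsp : s < Real.pi / 2 := hs.2.trans ht.2
  have hd' : 0 < Real.pi / 2 - s := by linarith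
  obtain ⟨C₁, δ₁, hδ₁, p₁⟩ := G.nc_piece h hx hs.1.le hd (G.nc_cont_JD h hx ξ)
  obtain ⟨C₂, δ₂, hδ₂, p₂⟩ := G.nc_piece h hx hsp.le
    (η := fun τ => ((Real.pi / 2 - τ) / (Real.pi / 2 - s)) • G.JJ s x ξ)
    (η' := fun _ => (-1 / (Real.pi / 2 - s)) • G.JJ s x ξ)
    (fun τ => by
      have := (((hasDerivAt_id τ).const_sub (Real.pi / 2)).div_const
        (Real.pi / 2 - s)).smul_const (G.JJ s x ξ)
      simpa using this) continuous_const
  obtain ⟨ε, hε0, hε1, hε⟩ := nc_small (C := C₁ + C₂) hneg (lt_min hδ₁ hδ₂)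
  obtain ⟨⟨n₁, n₂⟩, q₁⟩ := p₁ ε hε0 (hε1.trans (min_le_left _ _))
  obtain ⟨-, q₂⟩ := p₂ ε hε0 (hε1.trans (min_le_right _ _))
  have i1 : (∫ τ in (0 : ℝ)..s, D2 g (G.Z τ x, vel g (G.psi τ x)) (G.JJ τ x ξ, G.JD τ x ξ)
      (G.JJ τ x ξ, G.JD τ x ξ)) = G.PP s x ξ (G.JJ s x ξ) - G.PP 0 x ξ (G.JJ 0 x ξ) :=
    intervalIntegral.integral_eq_sub_of_hasDerivAt (f := fun τ => G.PP τ x ξ (G.JJ τ x ξ))
      (fun τ _ => G.var h τ hx ξ (hd τ))
      ((G.nc_cont_DD h hx (continuous_iff_continuousAt.2 fun τ => (hd τ).continuousAt)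
        (G.nc_cont_JD h hx ξ)).intervalIntegrable _ _)
  rw [hJ0, map_zero, sub_zero] at i1
  have i2 := hC s ⟨hs.1.le, hs.2.le⟩ (G.JJ s x ξ)
  rw [i1] at q₁
  simp only [div_self hd'.ne', one_smul, sub_self, zero_div, zero_smul, smul_zero, add_zero,
    map_zero] at q₂
  have tri := h.dd_triangle n₁ n₂ (G.Z_U (Real.pi / 2) hx)
  have e2 : dd μ g (G.Z 0 x + ε • G.JJ 0 x ξ) (G.Z (Real.pi / 2) x) = Real.pi / 2 := by
    have hp : (0 : ℝ) ≤ Real.pi / 2 := by positivity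
    rw [hJ0, smul_zero, add_zero, B.dd_Z hx (by rw [sub_zero, abs_of_nonneg hp]), sub_zero,
      abs_of_nonneg hp]
  have e1 : g (G.Z 0 x) (vel g (G.psi 0 x)) (G.JJ 0 x ξ) = 0 := by rw [hJ0, map_zero]
  rw [e1] at q₁
  rw [e2] at tri
  have i3 := mul_le_mul_of_nonneg_left i2 (by positivity : (0 : ℝ) ≤ ε ^ 2 / 2)
  nlinarith [q₁, q₂, tri, i3, hε]

theorem nc_pair_small {x : E × E} (hx : x ∈ μ.OO) {s t : ℝ} (hst : t - s ∈ Ioo 0 (Real.pi / 2))
    {ξ : E × E} (hs : G.JJ s x ξ = 0) (ht : G.JJ t x ξ = 0) : ξ ∈ μ.Bdir x := by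
  have h := B.met
  have hy := G.psi_mem h s hx
  set y := G.psi s x with hyd
  set ξ' := fderiv ℝ (G.psi s) x ξ with hξ'
  have hJH : ∀ τ, G.JJ τ y ξ' = G.JJ (τ + s) x ξ := fun τ => (G.JJ_add h τ s hx ξ).symm
  have h1 : ξ'.1 = 0 := by rw [hξ', G.fst_fderiv_psi h s hx, hs]
  have e : ((0, ξ'.2) : E × E) = ξ' := by rw [← h1]
  have h2 : G.JJ (t - s) y (0, ξ'.2) = 0 := by rw [e, hJH, sub_add_cancel, ht]
  have h3 := (fibre_mem_Bdir hy.1).2 (B.no_conj hy hst h2)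
  rw [e] at h3
  exact G.Bdir_of_fderiv_psi h s hx h3

/-- A field vanishing at two times whose difference is not a multiple of `π/2` is trivial. -/
theorem no_conj_pair {x : E × E} (hx : x ∈ μ.OO) {s t : ℝ} (hst : t - s ∈ Ioo 0 Real.pi)
    (hne : t - s ≠ Real.pi / 2) {ξ : E × E} (hs : G.JJ s x ξ = 0) (ht : G.JJ t x ξ = 0) :
    ξ ∈ μ.Bdir x := by
  rcases lt_or_gt_of_ne hne with hlt | hgt
  · exact B.nc_pair_small hx ⟨hst.1, hlt⟩ hs ht
  · refine B.nc_pair_small hx (s := t) (t := s + Real.pi) ⟨by linarith [hst.2], by linarith⟩ ht ?_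
    rw [B.JJ_add_pi s hx, hs]

theorem no_conj' {x : E × E} (hx : x ∈ μ.OO) {t : ℝ} (ht : t ∈ Ioo 0 Real.pi)
    (hne : t ≠ Real.pi / 2) {u : E} (hu : G.JJ t x (0, u) = 0) : u ∈ μ.Bs x := by
  have h0 : G.JJ 0 x (0, u) = 0 := by rw [G.JJ_zero hx, map_zero]
  exact (fibre_mem_Bdir hx.1).1
    (B.no_conj_pair hx (s := 0) (t := t) (by simpa using ht) (by simpa using hne) h0 hu)

/-- The exponential map is an immersion on the open ball. -/
theorem ex_immersion {q u₀ u : E} (hq : q ∈ μ.M) (h0 : √(g q u₀ u₀) < Real.pi / 2)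
    (hu : fderiv ℝ (G.ex q) u₀ u = 0) : μ.P q u = 0 := by
  have h := B.met
  by_cases hh : μ.P q u₀ = 0
  · rw [← G.fderiv_ex_P hq, hh, (G.hasFDerivAt_ex_zero hq.1).fderiv, P_idem hq] at hu
    exact hu
  · have hx : ((q, u₀) : E × E) ∈ μ.OO := ⟨hq.1, hh⟩
    set x : E × E := (q, u₀) with hxd
    have hs := h.spd_pos hx
    have hlt : spd g x < Real.pi / 2 := h0
    have e : u₀ = spd g x • vel g x := h.snd_eq hx
    have e1 : fderiv ℝ (G.ex q) u₀ = fderiv ℝ (G.ex x.1) (spd g x • vel g x) := by rw [← e]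
    rw [e1, G.fderiv_ex h _ hx hs, div_self hs.ne', one_smul] at hu
    have hv : g (G.Z (spd g x) x) (vel g (G.psi (spd g x) x)) (vel g (G.psi (spd g x) x)) = 1 :=
      h.vel_unit (G.psi_mem h _ hx)
    have h1 := congrArg (g (G.Z (spd g x) x) (vel g (G.psi (spd g x) x))) hu
    rw [map_add, map_smul, hv, G.al_inv h _ hx] at h1
    have h2 : g x.1 (vel g x) u = 0 := by simpa [al] using h1
    rw [h2, zero_smul, zero_add] at hu
    obtain ⟨a, hb⟩ := mem_Bs.1 (B.no_conj hx ⟨hs, hlt⟩ hu)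
    rw [← h.P_right hq, hb, map_smul, h.P_right hq, h.g_vel_snd hx, smul_eq_mul] at h2
    have ha : a = 0 := (mul_eq_zero.1 h2).resolve_right hs.ne'
    rw [ha, zero_smul] at hb
    exact hb

end Bl

end Pool.Agent.Work.MP_8c604c_gt.O
end
end
end

-- merged part: Pool.Agent.Work.MP_8c604c_gt.O.KS
section
-- merged part: Pool.Agent.Work.MP_8c604c_gt.IdxA
section
/-!
The multiplicity of the middle conjugate point is constant.
Hints. jump: if q t0 has signature (p, k, m) then for t > t0 it is nonnegative on a subspace of dimension p + k and (near t0)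
negative definite on one of dimension m; use sigPos, QuadraticForm.sigPos_add_sigNeg_add_radical. sigPos is locally constant on
nondegenerate forms. Geometry: y = psi (pi/4) x; for t in (pi/4, 3pi/4) and b in E let a(b) be the solution, GG-orthogonal to Bs y, of
JH t x (0,b) + JH (t - pi/4) y (0,a) = 0 (JH_surj, no_conj; solve with the inverse of the positive form g(J a, J a') + penalty).
q t (b,b') = om y (0,a(b)) (D psi (0,b')) + penalty on Bs x. It is symmetric, nondecreasing in t (differentiate and use star),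
nondegenerate for t not pi/2, with radical of dimension kdim x - 3 at pi/2, continuous in x.
-/

set_option maxSynthPendingDepth 3

open Set Filter Topology MeasureTheory
open scoped ContDiff

noncomputable section
namespace Pool.Agent.Work.MP_8c604c_gt

open Real

section Pure
variable {V : Type} [NormedAddCommGroup V] [NormedSpace ℝ V] [FiniteDimensional ℝ V]

/-- Number of positive squares of a bilinear form. -/
def npos (q : V →L[ℝ] V →L[ℝ] ℝ) : ℕ :=
  sigPos (LinearMap.BilinMap.toQuadraticMap (q.toLinearMap₁₂ : V →ₗ[ℝ] V →ₗ[ℝ] ℝ))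

omit [FiniteDimensional ℝ V] in
theorem idxA_apply (q : V →L[ℝ] V →L[ℝ] ℝ) (u : V) :
    LinearMap.BilinMap.toQuadraticMap (q.toLinearMap₁₂ : V →ₗ[ℝ] V →ₗ[ℝ] ℝ) u = q u u := rfl

theorem idxA_ex (q : V →L[ℝ] V →L[ℝ] ℝ) : ∃ W : Submodule ℝ V, Module.finrank ℝ W = npos q ∧
    ∀ u ∈ W, u ≠ 0 → 0 < q u u := by
  obtain ⟨W, h1, h2⟩ := exists_finrank_eq_sigPos_and_posDef
    (LinearMap.BilinMap.toQuadraticMap (q.toLinearMap₁₂ : V →ₗ[ℝ] V →ₗ[ℝ] ℝ))
  exact ⟨W, h1, fun u hu h0 => h2 ⟨u, hu⟩ fun h => h0 (congrArg Subtype.val h)⟩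

theorem idxA_le {q : V →L[ℝ] V →L[ℝ] ℝ} {W : Submodule ℝ V} (h : ∀ u ∈ W, u ≠ 0 → 0 < q u u) :
    Module.finrank ℝ W ≤ npos q :=
  le_sigPos_of_posDef _ fun u hu => h u u.2 fun h0 => hu (Subtype.ext h0)

theorem idxA_mono {q q' : V →L[ℝ] V →L[ℝ] ℝ} (h : ∀ u, q u u ≤ q' u u) : npos q ≤ npos q' := by
  obtain ⟨W, h1, h2⟩ := idxA_ex q
  exact h1 ▸ idxA_le fun u hu h0 => (h2 u hu h0).trans_le (h u)

theorem idxA_sum {q : V →L[ℝ] V →L[ℝ] ℝ} (hs : ∀ u w, q u w = q w u) :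
    npos q + npos (-q) + Module.finrank ℝ (LinearMap.ker (q : V →ₗ[ℝ] V →L[ℝ] ℝ)) =
      Module.finrank ℝ V := by
  have h := QuadraticForm.sigPos_add_sigNeg_add_radical
    (Q := LinearMap.BilinMap.toQuadraticMap (q.toLinearMap₁₂ : V →ₗ[ℝ] V →ₗ[ℝ] ℝ))
  have h1 : (LinearMap.BilinMap.toQuadraticMap (q.toLinearMap₁₂ : V →ₗ[ℝ] V →ₗ[ℝ] ℝ)).radical =
      LinearMap.ker (q : V →ₗ[ℝ] V →L[ℝ] ℝ) := by
    ext u
    rw [QuadraticMap.mem_radical_iff', LinearMap.mem_ker]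
    simp only [idxA_apply]
    constructor
    · rintro ⟨h0, h2⟩
      ext w
      have h3 := h2 w
      simp only [map_add, add_apply, hs w u] at h3
      change q u w = 0
      linarith
    · intro h0
      have h2 : ∀ w, q u w = 0 := fun w => by
        rw [show q u = 0 from h0]
        rfl
      refine ⟨h2 u, fun w => ?_⟩
      simp only [map_add, add_apply, hs w u, h2, zero_add]
  rw [h1, ← sigPos_neg] at h
  exact h

theorem idxA_lsc (q₀ : V →L[ℝ] V →L[ℝ] ℝ) : ∀ᶠ q in 𝓝 q₀, npos q₀ ≤ npos q := by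
  obtain ⟨W, h1, h2⟩ := idxA_ex q₀
  have := FiniteDimensional.proper ℝ V
  have hK : IsCompact ((W : Set V) ∩ Metric.sphere 0 1) :=
    (isCompact_sphere 0 1).inter_left W.closed_of_finiteDimensional
  have hc : Continuous fun z : (V →L[ℝ] V →L[ℝ] ℝ) × V => z.1 z.2 z.2 := by fun_prop
  have h3 := hK.eventually_forall_of_forall_eventually (x₀ := q₀)
    (P := fun (q : V →L[ℝ] V →L[ℝ] ℝ) u => 0 < q u u) fun u hu =>
      hc.continuousAt.eventually (lt_mem_nhds (h2 u hu.1 fun h0 => by simpa [h0] using hu.2))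
  filter_upwards [h3] with q hq
  refine h1 ▸ idxA_le fun u hu h0 => ?_
  have h4 : 0 < ‖u‖ := norm_pos_iff.2 h0
  have h5 := hq (‖u‖⁻¹ • u) ⟨W.smul_mem _ hu, by simp [norm_smul, h4.ne']⟩
  simp only [map_smul, smul_apply, smul_eq_mul] at h5
  exact (mul_pos_iff_of_pos_left (inv_pos.2 h4)).1 ((mul_pos_iff_of_pos_left (inv_pos.2 h4)).1 h5)

theorem idxA_nd {q : V →L[ℝ] V →L[ℝ] ℝ} (hs : ∀ u w, q u w = q w u) (hn : ∀ u, q u = 0 → u = 0) :
    npos q + npos (-q) = Module.finrank ℝ V := by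
  have h := idxA_sum hs
  rwa [LinearMap.ker_eq_bot'.2 hn, finrank_bot, add_zero] at h

theorem idxA_ev {X : Type} {l : Filter X} {q : X → V →L[ℝ] V →L[ℝ] ℝ} {q₀ : V →L[ℝ] V →L[ℝ] ℝ}
    (hq : Tendsto q l (𝓝 q₀)) (hs : ∀ᶠ x in l, ∀ u w, q x u w = q x w u)
    (hs0 : ∀ u w, q₀ u w = q₀ w u) (hn : ∀ u, q₀ u = 0 → u = 0) :
    ∀ᶠ x in l, npos (q x) = npos q₀ := by
  filter_upwards [hs, hq.eventually (idxA_lsc q₀), hq.neg.eventually (idxA_lsc (-q₀))]
    with x h1 h2 h3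
  have := idxA_sum h1
  have := idxA_nd hs0 hn
  omega

theorem npos_eventually {X : Type} [TopologicalSpace X] {q : X → V →L[ℝ] V →L[ℝ] ℝ} {x₀ : X}
    (hq : ContinuousAt q x₀) (hs : ∀ᶠ x in 𝓝 x₀, ∀ u w, q x u w = q x w u)
    (hn : ∀ u, q x₀ u = 0 → u = 0) : ∀ᶠ x in 𝓝 x₀, npos (q x) = npos (q x₀) := by
  exact idxA_ev hq hs hs.self_of_nhds hn

theorem npos_jump {q : ℝ → V →L[ℝ] V →L[ℝ] ℝ} {a t₀ b : ℝ} (ha : a < t₀) (hb : t₀ < b)
    (hq : ContinuousOn q (Icc a b)) (hs : ∀ t ∈ Icc a b, ∀ u w, q t u w = q t w u)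
    (hm : ∀ u, MonotoneOn (fun t => q t u u) (Icc a b))
    (hn : ∀ t ∈ Icc a b, t ≠ t₀ → ∀ u, q t u = 0 → u = 0) :
    npos (q b) = npos (q a) +
      Module.finrank ℝ (LinearMap.ker (q t₀ : V →ₗ[ℝ] V →L[ℝ] ℝ)) := by
  have ht : t₀ ∈ Icc a b := ⟨ha.le, hb.le⟩
  have hc : ∀ S ⊆ Icc a b, t₀ ∉ S → ContinuousOn (fun t => npos (q t)) S := by
    intro S hS h0 t h
    refine tendsto_nhds_of_eventually_eq (idxA_ev ((hq t (hS h)).mono hS) ?_ (hs t (hS h))
      (hn t (hS h) fun e => h0 (e ▸ h)))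
    filter_upwards [self_mem_nhdsWithin] with x hx using hs x (hS hx)
  have s1 : Ioc t₀ b ⊆ Icc a b := fun t h => ⟨ha.le.trans h.1.le, h.2⟩
  have s2 : Ico a t₀ ⊆ Icc a b := fun t h => ⟨h.1, h.2.le.trans hb.le⟩
  have := left_nhdsWithin_Ioc_neBot hb
  have := right_nhdsWithin_Ico_neBot ha
  obtain ⟨t, h1, h2⟩ := ((((hq t₀ ht).mono s1).tendsto.neg.eventually (idxA_lsc (-q t₀))).and
    self_mem_nhdsWithin).exists
  obtain ⟨s, h3, h4⟩ := ((((hq t₀ ht).mono s2).tendsto.eventually (idxA_lsc (q t₀))).and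
    self_mem_nhdsWithin).exists
  have e1 : npos (q b) = npos (q t) :=
    isPreconnected_Ioc.constant (hc _ s1 (by simp)) ⟨hb, le_rfl⟩ h2
  have e2 : npos (q a) = npos (q s) :=
    isPreconnected_Ico.constant (hc _ s2 (by simp)) ⟨le_rfl, ha⟩ h4
  have e3 : npos (q s) ≤ npos (q t₀) := idxA_mono fun u => hm u (s2 h4) ht h4.2.le
  have e4 : npos (-q t) ≤ npos (-q t₀) := idxA_mono fun u => neg_le_neg (hm u ht (s1 h2) h2.1.le)
  have e5 := idxA_nd (hs t (s1 h2)) (hn t (s1 h2) h2.1.ne')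
  have e6 := idxA_sum (hs t₀ ht)
  omega

end Pure

end Pool.Agent.Work.MP_8c604c_gt
end
end

-- merged part: Pool.Agent.Work.MP_8c604c_gt.O.Idx
section
/-!
The multiplicity of the middle conjugate point is constant.
-/

set_option maxSynthPendingDepth 3
set_option linter.unusedSectionVars false

open Set Filter Topology MeasureTheory
open scoped ContDiff

noncomputable section
namespace Pool.Agent.Work.MP_8c604c_gt.O

open Real

section Pure
variable {V : Type} [NormedAddCommGroup V] [NormedSpace ℝ V]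

/-- Penalty form attached to a finite family of vectors. -/
def idxPen {ι : Type} [Fintype ι] (β : V →L[ℝ] V →L[ℝ] ℝ) (v : ι → V) : V →L[ℝ] V →L[ℝ] ℝ :=
  ∑ i, (β (v i)).smulRight (β (v i))

theorem idxPen_apply {ι : Type} [Fintype ι] (β : V →L[ℝ] V →L[ℝ] ℝ) (v : ι → V) (a b : V) :
    idxPen β v a b = ∑ i, β (v i) a * β (v i) b := by
  simp [idxPen]

theorem idxPen_eq {ι : Type} [Fintype ι] (β : V →L[ℝ] V →L[ℝ] ℝ) (v : ι → V) (a b : V) :
    idxPen β v a b = β (∑ i, β (v i) a • v i) b := by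
  simp [idxPen_apply]

theorem idxPen_nonneg {ι : Type} [Fintype ι] (β : V →L[ℝ] V →L[ℝ] ℝ) (v : ι → V) (a : V) :
    0 ≤ idxPen β v a a := by
  rw [idxPen_apply]
  exact Finset.sum_nonneg fun i _ => mul_self_nonneg _

theorem idxPen_self {ι : Type} [Fintype ι] {β : V →L[ℝ] V →L[ℝ] ℝ} {v : ι → V} {a : V}
    (h : idxPen β v a a = 0) {w : V} (hw : w ∈ Submodule.span ℝ (range v)) : β w a = 0 := by
  rw [idxPen_apply, Finset.sum_eq_zero_iff_of_nonneg fun i _ => mul_self_nonneg _] at h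
  induction hw using Submodule.span_induction with
  | mem w hw =>
    obtain ⟨i, rfl⟩ := hw
    exact mul_self_eq_zero.1 (h i (Finset.mem_univ i))
  | zero => simp
  | add u w _ _ h1 h2 => rw [map_add, add_apply, h1, h2, add_zero]
  | smul c w _ h1 => rw [map_smul, smul_apply, h1, smul_zero]

theorem idxPen_zero {ι : Type} [Fintype ι] {β : V →L[ℝ] V →L[ℝ] ℝ} (hβ : ∀ v, β v v = 0 → v = 0)
    {v : ι → V} {a : V} (h : ∀ w ∈ Submodule.span ℝ (range v), idxPen β v a w = 0) (b : V) :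
    idxPen β v a b = 0 := by
  have h1 := h _ (Submodule.sum_mem _ fun i (_ : i ∈ Finset.univ) =>
    Submodule.smul_mem _ (β (v i) a) (Submodule.subset_span ⟨i, rfl⟩))
  rw [idxPen_eq] at h1 ⊢
  rw [hβ _ h1]
  simp

theorem idx_invertible [FiniteDimensional ℝ V] {M : V →L[ℝ] V →L[ℝ] ℝ}
    (h : ∀ a, M a a = 0 → a = 0) : M.IsInvertible := by
  have h1 : Function.Injective (M : V →ₗ[ℝ] V →L[ℝ] ℝ) :=
    (injective_iff_map_eq_zero _).2 fun a ha => h a (by
      rw [show M a = 0 from ha]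
      rfl)
  have h2 : Module.finrank ℝ V = Module.finrank ℝ (V →L[ℝ] ℝ) := by
    rw [← (LinearMap.toContinuousLinearMap (𝕜 := ℝ) (E := V) (F' := ℝ)).finrank_eq]
    exact Subspace.dual_finrank_eq.symm
  exact ⟨(LinearMap.linearEquivOfInjective _ h1 h2).toContinuousLinearEquiv, by ext; rfl⟩

/-- Smooth solution operators for families of linear systems with a known kernel. -/
theorem idx_solve [FiniteDimensional ℝ V] {X W B : Type} [NormedAddCommGroup X] [NormedSpace ℝ X]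
    [NormedAddCommGroup W] [NormedSpace ℝ W] [NormedAddCommGroup B] [NormedSpace ℝ B]
    [FiniteDimensional ℝ B] {β : V →L[ℝ] V →L[ℝ] ℝ} (hβ : ∀ v, β v v = 0 → v = 0)
    {γ : W →L[ℝ] W →L[ℝ] ℝ} (hγ : ∀ w, γ w w = 0 → w = 0) (hγ0 : ∀ w, 0 ≤ γ w w)
    {ι : Type} [Fintype ι] {U : Set X} {T : X → V →L[ℝ] W} {R : X → B →L[ℝ] W} {v : X → ι → V}
    (hT : ContDiffOn ℝ 1 T U) (hR : ContDiffOn ℝ 1 R U)
    (hv : ∀ i, ContDiffOn ℝ 1 (fun p => v p i) U)
    (hker : ∀ p ∈ U, ∀ a, T p a = 0 ↔ a ∈ Submodule.span ℝ (range (v p)))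
    (hr : ∀ p ∈ U, ∀ b, ∃ a, T p a = R p b) :
    ∃ A : X → B →L[ℝ] V, ContDiffOn ℝ 1 A U ∧ ∀ p ∈ U, ∀ b, T p (A p b) = R p b := by
  let M : X → V →L[ℝ] V →L[ℝ] ℝ := fun p => γ.bilinearComp (T p) (T p) + idxPen β (v p)
  let N : X → B →L[ℝ] V →L[ℝ] ℝ := fun p => γ.bilinearComp (R p) (T p)
  have eM : ∀ p a a', M p a a' = γ (T p a) (T p a') + idxPen β (v p) a a' := fun _ _ _ => rfl
  have eN : ∀ p b a', N p b a' = γ (R p b) (T p a') := fun _ _ _ => rfl
  have hM : ContDiffOn ℝ 1 M U := by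
    refine contDiffOn_clm_apply.2 fun a => contDiffOn_clm_apply.2 fun a' => ?_
    simp only [eM, idxPen_apply]
    refine ((contDiffOn_const.clm_apply (hT.clm_apply contDiffOn_const)).clm_apply
      (hT.clm_apply contDiffOn_const)).add (ContDiffOn.sum fun i _ => ?_)
    exact ((contDiffOn_const.clm_apply (hv i)).clm_apply contDiffOn_const).mul
      ((contDiffOn_const.clm_apply (hv i)).clm_apply contDiffOn_const)
  have hN : ContDiffOn ℝ 1 N U := by
    refine contDiffOn_clm_apply.2 fun a => contDiffOn_clm_apply.2 fun a' => ?_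
    simp only [eN]
    exact (contDiffOn_const.clm_apply (hR.clm_apply contDiffOn_const)).clm_apply
      (hT.clm_apply contDiffOn_const)
  have hI : ∀ p ∈ U, (M p).IsInvertible := fun p hp => idx_invertible fun a ha => by
    rw [eM] at ha
    have h1 := hγ0 (T p a)
    have h2 := idxPen_nonneg β (v p) a
    exact hβ a (idxPen_self (by linarith) ((hker p hp a).1 (hγ _ (by linarith))))
  refine ⟨fun p => (M p).inverse.comp (N p), ContDiffOn.clm_comp (fun p hp =>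
    (hI p hp).contDiffAt_map_inverse.comp_contDiffWithinAt p (hM p hp)) hN, fun p hp b => ?_⟩
  have e1 : ∀ a', M p ((M p).inverse (N p b)) a' = N p b a' := fun a' => by
    rw [(hI p hp).self_apply_inverse]
  change T p ((M p).inverse (N p b)) = R p b
  generalize (M p).inverse (N p b) = a at e1 ⊢
  simp only [eM, eN] at e1
  have e2 := idxPen_zero hβ (v := v p) (a := a) fun w hw => by
    have := e1 w
    rw [(hker p hp w).2 hw] at this
    simpa using this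
  obtain ⟨a₁, h1⟩ := hr p hp b
  have e3 := e1 (a - a₁)
  rw [e2, map_sub, h1] at e3
  refine sub_eq_zero.1 (hγ _ ?_)
  rw [map_sub γ, sub_apply]
  linarith

/-- Generators of the range of `T` and one more vector. -/
def idxG [FiniteDimensional ℝ V] (T : V →L[ℝ] V) (w : V) (o : Option (Fin (Module.finrank ℝ V))) : V :=
  o.elim w fun j => T (Module.finBasis ℝ V j)

theorem mem_idxG [FiniteDimensional ℝ V] {T : V →L[ℝ] V} {w u : V} :
    u ∈ Submodule.span ℝ (range (idxG T w)) ↔ ∃ v, ∃ a : ℝ, u = T v + a • w := by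
  rw [Submodule.mem_span_range_iff_exists_fun]
  simp only [Fintype.sum_option, idxG, Option.elim]
  constructor
  · rintro ⟨c, rfl⟩
    exact ⟨∑ j, c (some j) • Module.finBasis ℝ V j, c none, by simp [add_comm]⟩
  · rintro ⟨v, a, rfl⟩
    refine ⟨fun o => o.elim a ((Module.finBasis ℝ V).repr v), ?_⟩
    conv_rhs => rw [← (Module.finBasis ℝ V).sum_repr v, map_sum]
    simp only [map_smul, add_comm, Option.elim]

theorem idxG_smooth [FiniteDimensional ℝ V] {X : Type} [NormedAddCommGroup X] [NormedSpace ℝ X]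
    {U : Set X} {T : X → V →L[ℝ] V} {w : X → V} (hT : ContDiffOn ℝ ∞ T U) (hw : ContDiffOn ℝ ∞ w U)
    (o : Option (Fin (Module.finrank ℝ V))) : ContDiffOn ℝ 1 (fun x => idxG (T x) (w x) o) U := by
  cases o with
  | none => exact hw.of_le (by simp)
  | some j => exact (hT.clm_apply contDiffOn_const).of_le (by simp)

end Pure

open Model

variable {E : Type} [NormedAddCommGroup E] [InnerProductSpace ℝ E] [FiniteDimensional ℝ E] {d : ℕ}
  {μ : Model E d} {g : Met E}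

/-- The Euclidean form on `E × E`. -/
def idxV (E : Type) [NormedAddCommGroup E] [InnerProductSpace ℝ E] : E × E →L[ℝ] E × E →L[ℝ] ℝ :=
  (inL E).bilinearComp (ContinuousLinearMap.fst ℝ _ _) (ContinuousLinearMap.fst ℝ _ _) +
    (inL E).bilinearComp (ContinuousLinearMap.snd ℝ _ _) (ContinuousLinearMap.snd ℝ _ _)

theorem idxV_apply (u w : E × E) : idxV E u w = inner ℝ u.1 w.1 + inner ℝ u.2 w.2 := rfl

theorem idxV_nonneg (u : E × E) : 0 ≤ idxV E u u := by
  rw [idxV_apply]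
  exact add_nonneg real_inner_self_nonneg real_inner_self_nonneg

theorem idxV_pos (u : E × E) (h : idxV E u u = 0) : u = 0 := by
  rw [idxV_apply] at h
  have h1 : 0 ≤ inner ℝ u.1 u.1 := real_inner_self_nonneg
  have h2 : 0 ≤ inner ℝ u.2 u.2 := real_inner_self_nonneg
  exact Prod.ext ((inner_self_eq_zero (𝕜 := ℝ)).1 (by linarith))
    ((inner_self_eq_zero (𝕜 := ℝ)).1 (by linarith))

/-- Generators of `Bdir x`. -/
def idxGen (μ : Model E d) (x : E × E) := idxG (ContinuousLinearMap.id ℝ _ - μ.DR x) (0, x.2)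

/-- Generators of `Bs x`. -/
def idxGen' (μ : Model E d) (x : E × E) := idxG (μ.Q x.1) x.2

theorem idxGen_span {x : E × E} (hx : x ∈ μ.TT) :
    Submodule.span ℝ (range (idxGen μ x)) = μ.Bdir x := by
  ext u
  rw [idxGen, mem_idxG]
  constructor
  · rintro ⟨v, a, rfl⟩
    exact add_mem (sub_DR_mem (TT_TM hx) v)
      (Submodule.smul_mem _ _ ((fibre_mem_Bdir hx.1.1).2 (snd_mem_Bs x)))
  · intro hu
    obtain ⟨a, ha⟩ := mem_Bdir.1 hu
    exact ⟨u, a, by simp [ha, hx.2.1]⟩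

theorem idxGen'_span {x : E × E} (hx : x ∈ μ.TT) :
    Submodule.span ℝ (range (idxGen' μ x)) = μ.Bs x := by
  ext u
  rw [idxGen', mem_idxG]
  constructor
  · rintro ⟨v, a, rfl⟩
    exact add_mem (mem_Bs_of_P (P_Q hx.1 v)) (Submodule.smul_mem _ _ (snd_mem_Bs x))
  · intro hu
    obtain ⟨a, ha⟩ := mem_Bs.1 hu
    exact ⟨u, a, by simp [Q_apply, ha, hx.2.1]⟩

theorem idxGen_smooth (i) : ContDiffOn ℝ 1 (fun x : E × E => idxGen μ x i) μ.UU :=
  idxG_smooth (contDiffOn_const.sub contDiffOn_DR) (contDiffOn_const.prodMk contDiffOn_snd) i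

theorem idxGen'_smooth (i) : ContDiffOn ℝ 1 (fun x : E × E => idxGen' μ x i) μ.UU :=
  idxG_smooth (contDiffOn_Q.comp contDiffOn_fst fun _ hx => hx) contDiffOn_snd i

namespace Geo
variable (G : Geo μ g) (h : IsMetric μ g)

include h

theorem idx_lag (t : ℝ) {x : E × E} (hx : x ∈ μ.OO) {ξ η : E × E} (hξ : G.JJ t x ξ = 0)
    (hη : G.JJ t x η = 0) : om g x ξ η = 0 := by
  rw [← G.star h t hx hξ, hη, map_zero]

theorem idx_fibre (t : ℝ) {x : E × E} (hx : x ∈ μ.OO) {δ : E × E} (hδ : G.JJ t x δ = 0) (u : E) :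
    om g x (0, u) δ = (spd g x)⁻¹ * g x.1 u δ.1 := by
  have h1 : g x.1 (vel g x) δ.1 = 0 := by
    have := G.al_inv h t hx δ
    rw [hδ, map_zero] at this
    exact this.symm
  rw [h.om_fibre hx, h1, mul_zero, sub_zero]

end Geo

/-- The parameter domain. -/
def idxU (μ : Model E d) : Set (ℝ × E × E) := {p | p.1 ∈ Ioo (π / 4) (3 * π / 4) ∧ p.2 ∈ μ.TT}

namespace Bl
variable {G : Geo μ g} (B : Bl g G)
include B

theorem idx_pair {p : ℝ × E × E} (hp : p ∈ idxU μ) {a : E × E} (h1 : G.JJ (π / 4) p.2 a = 0)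
    (h2 : G.JJ p.1 p.2 a = 0) : a ∈ μ.Bdir p.2 :=
  B.no_conj_pair (TT_OO hp.2) ⟨by linarith [hp.1.1], by linarith [hp.1.2, pi_pos]⟩
    (by linarith [hp.1.2] : p.1 - π / 4 < π / 2).ne h1 h2

theorem idx_range {p : ℝ × E × E} (hp : p ∈ idxU μ) (b : E) :
    ∃ a, G.JJ (π / 4) p.2 a = 0 ∧ G.JJ p.1 p.2 a = -G.JJ p.1 p.2 (0, b) := by
  obtain ⟨t, x⟩ := p
  obtain ⟨ht, hx'⟩ := hp
  dsimp only at ht hx' ⊢
  have hx := TT_OO hx'
  have h := B.met
  have hy := G.psi_mem h (π / 4) hx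
  have e0 : G.psi (t - π / 4) (G.psi (π / 4) x) = G.psi t x := by
    rw [← G.psi_add _ _ hx, sub_add_cancel]
  have e1 : G.psi (-(π / 4)) (G.psi (π / 4) x) = x := by
    rw [← G.psi_add _ _ hx, neg_add_cancel, G.psi_zero' hx']
  obtain ⟨u, hu⟩ := G.JJ_surj h (t - π / 4) (G.psi_TT h _ hx)
    (fun u hu => B.no_conj hy ⟨by linarith [ht.1], by linarith [ht.2]⟩ hu)
    (y := -G.JJ t x (0, b))
    (by rw [Geo.Z, e0, map_neg]; exact congrArg _ (G.JJ_tan h t hx _))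
    (by
      rw [Geo.Z, e0, map_neg, neg_eq_zero]
      exact (G.al_inv h t hx (0, b)).trans (map_zero (g x.1 (vel g x))))
  have e2 : ∀ s, G.JJ (s + π / 4) x (fderiv ℝ (G.psi (-(π / 4))) (G.psi (π / 4) x) (0, u)) =
      G.JJ s (G.psi (π / 4) x) (0, u) := fun s => by
    have := G.JJ_add h (s + π / 4) (-(π / 4)) hy (0, u)
    rw [e1, add_neg_cancel_right] at this
    exact this.symm
  refine ⟨fderiv ℝ (G.psi (-(π / 4))) (G.psi (π / 4) x) (0, u), ?_, ?_⟩
  · have := e2 0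
    rwa [zero_add, G.JJ_zero hy, map_zero] at this
  · have := e2 (t - π / 4)
    rwa [sub_add_cancel, hu] at this

theorem idx_exists : ∃ A : ℝ × E × E → E →L[ℝ] E × E, ContDiffOn ℝ 1 A (idxU μ) ∧
    ∀ p ∈ idxU μ, ∀ b, G.JJ (π / 4) p.2 (A p b) = 0 ∧ G.JJ p.1 p.2 ((0, b) + A p b) = 0 := by
  have h := B.met
  have hJ := (G.contDiffOn_JJ h).of_le (m := 1) (by exact_mod_cast le_top)
  have hJ1 : ContDiffOn ℝ 1 (fun p : ℝ × E × E => G.JJ p.1 p.2) (idxU μ) :=
    hJ.mono fun p hp => TT_OO hp.2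
  have hJ0 : ContDiffOn ℝ 1 (fun p : ℝ × E × E => G.JJ (π / 4) p.2) (idxU μ) :=
    hJ.comp (f := fun p : ℝ × E × E => (π / 4, p.2)) (contDiffOn_const.prodMk contDiffOn_snd)
      fun p hp => TT_OO hp.2
  obtain ⟨A, hA, h1⟩ := idx_solve (U := idxU μ) idxV_pos idxV_pos idxV_nonneg
    (T := fun p => (G.JJ (π / 4) p.2).prod (G.JJ p.1 p.2))
    (R := fun p => (0 : E →L[ℝ] E).prod
      (-(G.JJ p.1 p.2).comp (ContinuousLinearMap.inr ℝ E E)))
    (v := fun p => idxGen μ p.2)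
    (contDiffOn_clm_apply.2 fun a =>
      (hJ0.clm_apply contDiffOn_const).prodMk (hJ1.clm_apply contDiffOn_const))
    (contDiffOn_clm_apply.2 fun b =>
      contDiffOn_const.prodMk (hJ1.clm_apply (contDiffOn_const (c := ((0, b) : E × E)))).neg)
    (fun i => (idxGen_smooth i).comp contDiffOn_snd fun p hp => hp.2.1.1)
    (fun p hp a => by
      rw [idxGen_span hp.2]
      exact ⟨fun ha => B.idx_pair hp (congrArg Prod.fst ha) (congrArg Prod.snd ha),
        fun ha => Prod.ext (G.JJ_Bdir h _ (TT_OO hp.2) ha) (G.JJ_Bdir h _ (TT_OO hp.2) ha)⟩)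
    (fun p hp b => by
      obtain ⟨a, h1, h2⟩ := B.idx_range hp b
      exact ⟨a, Prod.ext h1 h2⟩)
  refine ⟨A, hA, fun p hp b => ⟨congrArg Prod.fst (h1 p hp b), ?_⟩⟩
  have h2 : G.JJ p.1 p.2 (A p b) = -G.JJ p.1 p.2 (0, b) := congrArg Prod.snd (h1 p hp b)
  rw [map_add, h2, add_neg_cancel]

end Bl

/-- The family of forms. -/
def idxQ (μ : Model E d) (g : Met E) (A : ℝ × E × E → E →L[ℝ] E × E) (p : ℝ × E × E) : E →L[ℝ] E →L[ℝ] ℝ :=
  idxPen (inL E) (idxGen' μ p.2) - (g p.2.1).comp ((ContinuousLinearMap.fst ℝ _ _).comp (A p))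

theorem idxQ_apply (A : ℝ × E × E → E →L[ℝ] E × E) (p : ℝ × E × E) (b b' : E) :
    idxQ μ g A p b b' = idxPen (inL E) (idxGen' μ p.2) b b' - g p.2.1 (A p b).1 b' := rfl

section Q
variable {G : Geo μ g} (B : Bl g G) {A : ℝ × E × E → E →L[ℝ] E × E}
  (hA : ContDiffOn ℝ 1 A (idxU μ))
  (hS : ∀ p ∈ idxU μ, ∀ b, G.JJ (π / 4) p.2 (A p b) = 0 ∧ G.JJ p.1 p.2 ((0, b) + A p b) = 0)

include B hA in
theorem idxQ_cont : ContinuousOn (idxQ μ g A) (idxU μ) := by
  refine continuousOn_clm_apply.2 fun b => continuousOn_clm_apply.2 fun b' => ?_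
  simp only [idxQ_apply, idxPen_apply, inL_apply]
  refine ContinuousOn.sub (continuousOn_finsetSum _ fun i _ => ?_) ?_
  · have := (idxGen'_smooth (μ := μ) i).continuousOn.comp
      (continuousOn_snd (s := idxU μ)) fun p hp => hp.2.1.1
    exact (this.inner (𝕜 := ℝ) continuousOn_const).mul (this.inner (𝕜 := ℝ) continuousOn_const)
  · have h1 : ContinuousOn (fun p : ℝ × E × E => g p.2.1) (idxU μ) :=
      B.met.smooth.continuousOn.comp (f := fun p : ℝ × E × E => p.2.1)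
        continuous_snd.fst.continuousOn fun p hp => hp.2.1.1
    exact (h1.clm_apply (hA.continuousOn.clm_apply continuousOn_const).fst).clm_apply
      continuousOn_const

include B hS in
theorem idxQ_symm {p : ℝ × E × E} (hp : p ∈ idxU μ) (b b' : E) :
    idxQ μ g A p b b' = idxQ μ g A p b' b := by
  have h := B.met
  have hx := TT_OO hp.2
  have e := G.idx_lag h p.1 hx (hS p hp b).2 (hS p hp b').2
  rw [om_add, om_skew p.2 (0, b), om_skew p.2 (A p b), om_add,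
    om_add, G.idx_lag h _ hx (hS p hp b').1 (hS p hp b).1,
    G.idx_fibre h _ hx (hS p hp b).1, om_skew p.2 (A p b'),
    G.idx_fibre h _ hx (hS p hp b').1, h.om_fibre hx] at e
  simp only [map_zero, mul_zero, sub_zero] at e
  have e1 : g p.2.1 b (A p b').1 = g p.2.1 b' (A p b).1 :=
    mul_left_cancel₀ (inv_ne_zero (h.spd_pos hx).ne') (by linarith)
  rw [idxQ_apply, idxQ_apply, h.symm _ _ b' hx.1, h.symm _ _ b hx.1, e1, idxPen_apply,
    idxPen_apply]
  simp only [mul_comm]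

include B hS in
theorem idxQ_ker {p : ℝ × E × E} (hp : p ∈ idxU μ) (b : E) :
    idxQ μ g A p b = 0 ↔ b ∈ (μ.Bs p.2)ᗮ ∧ G.JJ p.1 p.2 (0, b) = 0 := by
  have h := B.met
  have hx := TT_OO hp.2
  have e0 : A p b ∈ μ.Bdir p.2 → ∀ b', g p.2.1 (A p b).1 b' = 0 := fun ha b' => by
    obtain ⟨a, e⟩ := mem_Bdir.1 ha
    exact h.vert hx.1 ((DR_fst hx.1 _).symm.trans (congrArg Prod.fst e)) _
  constructor
  · intro hq
    have e1 : ∀ b', idxPen (inL E) (idxGen' μ p.2) b b' = g p.2.1 (A p b).1 b' := fun b' => by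
      rw [← sub_eq_zero, ← idxQ_apply, hq]
      rfl
    have e2 := idxPen_zero (β := inL E) (fun v hv => (inner_self_eq_zero (𝕜 := ℝ)).1 hv)
      (v := idxGen' μ p.2) (a := b) fun w hw => by
        rw [idxGen'_span hp.2] at hw
        have := G.idx_fibre h _ hx (hS p hp b).1 w
        rw [h.om_Bdir hx ((fibre_mem_Bdir hx.1).2 hw)] at this
        rw [e1, h.symm _ _ _ hx.1]
        exact (mul_eq_zero.1 this.symm).resolve_left (inv_ne_zero (h.spd_pos hx).ne')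
    refine ⟨(Submodule.mem_orthogonal _ _).2 fun w hw =>
      idxPen_self (e2 b) (by rwa [idxGen'_span hp.2]), ?_⟩
    have e3 : G.JJ 0 p.2 (A p b) = 0 := by
      rw [G.JJ_zero hx]
      exact h.P_eq_zero hx.1 (by rw [← e1, e2])
    have e4 : A p b ∈ μ.Bdir p.2 :=
      B.no_conj_pair hx (s := 0) (t := π / 4) ⟨by linarith [pi_pos], by linarith [pi_pos]⟩
        (by linarith [pi_pos] : π / 4 - 0 < π / 2).ne e3 (hS p hp b).1
    have := (hS p hp b).2
    rwa [map_add, G.JJ_Bdir h _ hx e4, add_zero] at this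
  · rintro ⟨h1, h2⟩
    have e4 : A p b ∈ μ.Bdir p.2 := B.idx_pair hp (hS p hp b).1 (by
      have := (hS p hp b).2
      rwa [map_add, h2, zero_add] at this)
    ext b'
    rw [idxQ_apply, e0 e4, idxPen_apply, sub_zero]
    refine Finset.sum_eq_zero fun i _ => mul_eq_zero_of_left ?_ _
    exact (Submodule.mem_orthogonal _ _).1 h1 _
      (idxGen'_span hp.2 ▸ Submodule.subset_span ⟨i, rfl⟩)

include B hS in
theorem idxQ_nondeg {p : ℝ × E × E} (hp : p ∈ idxU μ) (hne : p.1 ≠ π / 2) (b : E)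
    (hb : idxQ μ g A p b = 0) : b = 0 := by
  obtain ⟨h1, h2⟩ := (idxQ_ker B hS hp b).1 hb
  have h3 := B.no_conj' (TT_OO hp.2) ⟨by linarith [hp.1.1, pi_pos], by linarith [hp.1.2, pi_pos]⟩ hne h2
  exact (inner_self_eq_zero (𝕜 := ℝ)).1 ((Submodule.mem_orthogonal _ _).1 h1 b h3)

include B hA hS in
theorem idxQ_deriv {t : ℝ} {x : E × E} (hp : (t, x) ∈ idxU μ) (b : E) :
    ∃ d, 0 ≤ d ∧ HasDerivAt (fun s => idxQ μ g A (s, x) b b) d t := by
  have h := B.met
  have hx : x ∈ μ.OO := TT_OO hp.2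
  have hc : ContDiff ℝ 1 (fun s : ℝ => (s, x)) := contDiff_id.prodMk contDiff_const
  have hI : Ioo (π / 4) (3 * π / 4) ∈ 𝓝 t := isOpen_Ioo.mem_nhds hp.1
  have hev : ∀ᶠ s in 𝓝 t, (s, x) ∈ idxU μ := eventually_of_mem hI fun s hs => ⟨hs, hp.2⟩
  obtain ⟨a', ha⟩ : ∃ a', HasDerivAt (fun s => A (s, x) b) a' t :=
    ⟨_, ((((hA.comp hc.contDiffOn fun s hs => ⟨hs, hp.2⟩).contDiffAt hI).clm_apply
      (contDiffAt_const (c := b))).differentiableAt one_ne_zero).hasDerivAt⟩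
  have hJ1 : ContDiffAt ℝ 1 (fun p : ℝ × E × E => G.JJ p.1 p.2) (t, x) :=
    (jac_at isOpen_OO (G.contDiffOn_JJ h) t hx).of_le (by exact_mod_cast le_top)
  obtain ⟨J', hJ⟩ : ∃ J', HasDerivAt (fun s => G.JJ s x) J' t :=
    ⟨_, ((ContDiffAt.comp (g := fun p : ℝ × E × E => G.JJ p.1 p.2) t hJ1
      hc.contDiffAt).differentiableAt one_ne_zero).hasDerivAt⟩
  have e1 : G.JJ (π / 4) x a' = 0 := by
    have h1 := (G.JJ (π / 4) x).hasFDerivAt.comp_hasDerivAt t ha
    exact h1.unique ((hasDerivAt_const t (0 : E)).congr_of_eventuallyEq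
      (hev.mono fun s hs => (hS _ hs b).1))
  have e2 : J' ((0, b) + A (t, x) b) + G.JJ t x a' = 0 := by
    have h1 := hJ.clm_apply (ha.const_add ((0, b) : E × E))
    exact h1.unique ((hasDerivAt_const t (0 : E)).congr_of_eventuallyEq
      (hev.mono fun s hs => (hS _ hs b).2))
  have e3 : G.JD t x ((0, b) + A (t, x) b) = J' ((0, b) + A (t, x) b) := by
    have := (G.hasDerivAt_JJ h t hx _).unique
      (hJ.clm_apply (hasDerivAt_const t ((0, b) + A (t, x) b)))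
    rwa [map_zero, add_zero] at this
  have e4 := G.star h t hx (hS _ hp b).2 a'
  rw [e3, eq_neg_of_add_eq_zero_right e2, map_neg, om_add,
    G.idx_lag h _ hx (hS _ hp b).1 e1, G.idx_fibre h _ hx e1, add_zero] at e4
  have e5 := h.nonneg (G.Z_U t hx) (J' ((0, b) + A (t, x) b))
  have e6 : g x.1 b a'.1 ≤ 0 := by
    by_contra hc
    have := mul_pos (inv_pos.2 (h.spd_pos hx)) (not_le.1 hc)
    linarith
  refine ⟨-g x.1 a'.1 b, by rw [h.symm _ _ _ hx.1]; linarith, ?_⟩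
  exact ((((g x.1).flip b).comp (ContinuousLinearMap.fst ℝ E E)).hasFDerivAt.comp_hasDerivAt
    t ha).const_sub (idxPen (inL E) (idxGen' μ x) b b)

end Q

/-- Dimension of the space of `u` with `JJ (π/2) x (0,u) = 0` (it contains `μ.Bs x`). -/
def Geo.kdim (G : Geo μ g) (x : E × E) : ℕ := Module.finrank ℝ (LinearMap.ker (G.JM x : E →ₗ[ℝ] E))

theorem Bl.kdim_const {G : Geo μ g} (B : Bl g G) {x y : E × E} (hx : x ∈ μ.TT) (hy : y ∈ μ.TT) :
    G.kdim x = G.kdim y := by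
  obtain ⟨A, hA, hS⟩ := B.idx_exists
  have hU : ∀ t ∈ Icc (3 * π / 8) (5 * π / 8), ∀ x ∈ μ.TT, (t, x) ∈ idxU μ := fun t ht x hx =>
    ⟨⟨by linarith [ht.1, pi_pos], by linarith [ht.2, pi_pos]⟩, hx⟩
  have ha : 3 * π / 8 < π / 2 := by linarith [pi_pos]
  have hb : π / 2 < 5 * π / 8 := by linarith [pi_pos]
  have hcont := idxQ_cont B hA
  have jump : ∀ x ∈ μ.TT, npos (idxQ μ g A (5 * π / 8, x)) + (Module.finrank ℝ E + 1) =
      npos (idxQ μ g A (3 * π / 8, x)) + G.kdim x + d := by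
    intro x hx
    have h1 := npos_jump (q := fun t => idxQ μ g A (t, x)) ha hb
      (hcont.comp (f := fun t : ℝ => (t, x)) (continuous_id.prodMk continuous_const).continuousOn
        fun t ht => hU t ht x hx)
      (fun t ht => idxQ_symm B hS (hU t ht x hx))
      (fun u => by
        choose! d hd using fun t (ht : t ∈ Icc (3 * π / 8) (5 * π / 8)) =>
          idxQ_deriv B hA hS (hU t ht x hx) u
        exact monotoneOn_of_hasDerivWithinAt_nonneg (convex_Icc _ _) (f' := d)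
          (fun t ht => (hd t ht).2.continuousAt.continuousWithinAt)
          (fun t ht => (hd t (interior_subset ht)).2.hasDerivWithinAt)
          fun t ht => (hd t (interior_subset ht)).1)
      fun t ht hne => idxQ_nondeg B hS (hU t ht x hx) hne
    have h2 := Submodule.finrank_add_inf_finrank_orthogonal (𝕜 := ℝ) (K₁ := μ.Bs x)
      (K₂ := LinearMap.ker (G.JM x : E →ₗ[ℝ] E)) fun u hu => G.JJ_Bs B.met _ (TT_OO hx) hu
    have h3 : LinearMap.ker (idxQ μ g A (π / 2, x) : E →ₗ[ℝ] E →L[ℝ] ℝ) = (μ.Bs x)ᗮ ⊓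
        LinearMap.ker (G.JM x : E →ₗ[ℝ] E) :=
      Submodule.ext fun b => idxQ_ker B hS (hU _ ⟨ha.le, hb.le⟩ x hx) b
    rw [← h3] at h2
    have h4 := finrank_Bs hx
    unfold Geo.kdim
    omega
  have const : ∀ t ∈ Icc (3 * π / 8) (5 * π / 8), t ≠ π / 2 →
      npos (idxQ μ g A (t, x)) = npos (idxQ μ g A (t, y)) := by
    intro t ht hne
    refine μ.isPreconnected_TT.constant (f := fun z => npos (idxQ μ g A (t, z))) (fun z hz => ?_) hx hy
    exact tendsto_const_nhds.congr' ((idxA_ev (q := fun z => idxQ μ g A (t, z))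
      ((hcont.comp (f := fun z => (t, z)) (continuous_const.prodMk continuous_id).continuousOn
        fun w hw => hU t ht w hw) z hz)
      (eventually_of_mem self_mem_nhdsWithin fun w hw => idxQ_symm B hS (hU t ht w hw))
      (idxQ_symm B hS (hU t ht z hz)) (idxQ_nondeg B hS (hU t ht z hz) hne)).mono fun w hw => hw.symm)
  have e1 := const _ ⟨le_rfl, (ha.trans hb).le⟩ ha.ne
  have e2 := const _ ⟨(ha.trans hb).le, le_rfl⟩ hb.ne'
  have e3 := jump x hx
  have e4 := jump y hy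
  omega

end Pool.Agent.Work.MP_8c604c_gt.O
end
end

-- merged part: Pool.Agent.Work.MP_8c604c_gt.B.Ker
section
/-!
Kernels of constant dimension: smooth local projections and linearity of the leaves.
Plan. ker_proj: P0 = starProjection (ker (L x0)), M x = (L x)* (L x) + P0 is invertible at x0, hence near x0 (ContinuousLinearMap.inverse or Ring.inverse,
contDiffAt_ringInverse); T x = (M x)^(-1) P0 fixes ker (L x), and its range has dimension <= dim ker (L x0) = dim ker (L x), so the range is the kernel.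
leaf_curve: for kappa in V solve w' = T w kappa, w 0 = x (Picard-Lindelof for a C^1 field: ContDiffAt.exists_forall_mem_closedBall_exists_eq_forall_mem_Ioo_hasDerivAt0
or the variant used in ../CircB.lean), shrink the interval so that w stays in U.
leaf_ker: R x y gives ker (L x) <= ker (L y): for kappa in ker (L x) the curve w has R x (w s), so R y (w s), so w s in ker (L y) near 0 (closed subspace), and
kappa = w'(0) is in ker (L y). leaf_line: along the curve ker (L (w s)) = ker (L x) contains kappa, so w' = kappa and w s = x + s kappa near 0.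
leaf_seg: the set of s in [0,1] with R x (x + s kappa) is closed (hc) and open (leaf_line at x + s kappa, whose kernel is that of x).
-/

open Set Filter Topology
open scoped ContDiff

noncomputable section
namespace Pool.Agent.Work.MP_8c604c_gt.B

variable {X V W : Type} [NormedAddCommGroup X] [NormedSpace ℝ X]
  [NormedAddCommGroup V] [InnerProductSpace ℝ V] [FiniteDimensional ℝ V]
  [NormedAddCommGroup W] [InnerProductSpace ℝ W] [FiniteDimensional ℝ W]

theorem Ker_ginv (f : V →L[ℝ] W) : ∃ g : W →L[ℝ] V, ∀ v, f (g (f v)) = f v := by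
  obtain ⟨s, hs⟩ := (f : V →ₗ[ℝ] W).rangeRestrict.exists_rightInverse_of_surjective
    (LinearMap.range_rangeRestrict _)
  obtain ⟨g, hg⟩ := s.exists_extend
  refine ⟨g.toContinuousLinearMap, fun v => ?_⟩
  have h1 : g (f v) = s ⟨f v, v, rfl⟩ := LinearMap.congr_fun hg ⟨f v, v, rfl⟩
  exact (congrArg f h1).trans (congrArg Subtype.val (LinearMap.congr_fun hs ⟨f v, v, rfl⟩))

/-- A smooth local family of projections onto kernels of constant dimension. -/
theorem ker_proj {O : Set X} (hO : IsOpen O) {L : X → V →L[ℝ] W} (hL : ContDiffOn ℝ ∞ L O) {k : ℕ}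
    (hk : ∀ x ∈ O, Module.finrank ℝ (LinearMap.ker (L x : V →ₗ[ℝ] W)) = k) {x₀ : X} (hx : x₀ ∈ O) :
    ∃ (U : Set X) (T : X → V →L[ℝ] V), IsOpen U ∧ x₀ ∈ U ∧ U ⊆ O ∧ ContDiffOn ℝ ∞ T U ∧
      ∀ x ∈ U, ∀ v, L x (T x v) = 0 ∧ (L x v = 0 → T x v = v) := by
  have := FiniteDimensional.complete ℝ V
  obtain ⟨g, hg⟩ := Ker_ginv (L x₀)
  let P : V →L[ℝ] V := 1 - g ∘L L x₀
  let M : X → V →L[ℝ] V := fun x => g ∘L L x + P
  have hM : ContDiffOn ℝ ∞ M O := (contDiffOn_const.clm_comp hL).add contDiffOn_const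
  have hP : ∀ v, L x₀ (P v) = 0 := fun v => by simp [P, hg]
  refine ⟨O ∩ M ⁻¹' {A | IsUnit A}, fun x => Ring.inverse (M x) * P,
    hM.continuousOn.isOpen_inter_preimage hO Units.isOpen, ⟨hx, ?_⟩, inter_subset_left,
    fun x hx' => ?_, fun x hx' => ?_⟩
  · simp [M, P]
  · obtain ⟨u, hu⟩ := hx'.2
    have h1 : ContDiffAt ℝ ∞ Ring.inverse (M x) := hu ▸ contDiffAt_ringInverse ℝ u
    exact ((h1.comp x (hM.contDiffAt (hO.mem_nhds hx'.1))).mul contDiffAt_const).contDiffWithinAt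
  · have h1 : ∀ v, L x v = 0 → (Ring.inverse (M x) * P) v = v := fun v hv => by
      have e : P v = M x v := by simp [M, hv]
      rw [mul_apply_eq_comp, e, ← mul_apply_eq_comp,
        Ring.inverse_mul_cancel _ hx'.2, one_apply_eq_self]
    have h2 : LinearMap.ker (L x : V →ₗ[ℝ] W) = (LinearMap.ker (L x₀ : V →ₗ[ℝ] W)).map
        ((Ring.inverse (M x) : V →L[ℝ] V) : V →ₗ[ℝ] V) :=
      Submodule.eq_of_le_of_finrank_le (fun v hv => ⟨P v, hP v, h1 v hv⟩)
        ((Submodule.finrank_map_le _ _).trans ((hk x₀ hx).trans (hk x hx'.1).symm).le)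
    exact fun v => ⟨(h2.ge ⟨P v, hP v, rfl⟩ :), h1 v⟩

/-- The data of a foliation of an open set by the kernels of `L`, whose leaves `R` lie in the kernels. -/
structure Leaf (O : Set V) (L : V → V →L[ℝ] W) (R : V → V → Prop) (k : ℕ) : Prop where
  op : IsOpen O
  smooth : ContDiffOn ℝ ∞ L O
  dim : ∀ x ∈ O, Module.finrank ℝ (LinearMap.ker (L x : V →ₗ[ℝ] W)) = k
  symm : ∀ x ∈ O, ∀ y ∈ O, R x y → R y x
  trans : ∀ x ∈ O, ∀ y ∈ O, ∀ z ∈ O, R x y → R y z → R x z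
  refl : ∀ x ∈ O, R x x
  curve : ∀ w : ℝ → V, (∀ᶠ s in 𝓝 (0 : ℝ), w s ∈ O ∧ ∃ v, HasDerivAt w v s ∧ L (w s) v = 0) →
    ∀ᶠ s in 𝓝 (0 : ℝ), R (w 0) (w s)
  mem : ∀ x ∈ O, ∀ y ∈ O, R x y → L x y = 0
  closed : ∀ x ∈ O, ∀ y ∈ O, y ∈ closure {z ∈ O | R x z} → R x y

variable {O : Set V} {L : V → V →L[ℝ] W} {R : V → V → Prop} {k : ℕ}

theorem Ker_curve (h : Leaf O L R k) {x : V} (hx : x ∈ O) (κ : V) :
    ∃ w : ℝ → V, w 0 = x ∧ ∀ᶠ s in 𝓝 (0 : ℝ), w s ∈ O ∧ R x (w s) ∧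
      (L (w s) κ = 0 → HasDerivAt w κ s) := by
  have := FiniteDimensional.complete ℝ V
  obtain ⟨U, T, h1, h2, h3, h4, h5⟩ := ker_proj h.op h.smooth h.dim hx
  have h6 : ContDiffAt ℝ 1 (fun y => T y κ) x :=
    ((h4.contDiffAt (h1.mem_nhds h2)).of_le (by simp)).clm_apply contDiffAt_const
  obtain ⟨w, w0, ε, hε, hw⟩ :=
    h6.exists_forall_mem_closedBall_exists_eq_forall_mem_Ioo_hasDerivAt₀ 0
  have h7 : ∀ᶠ s in 𝓝 (0 : ℝ), HasDerivAt w (T (w s) κ) s :=
    eventually_of_mem (Ioo_mem_nhds (by linarith) (by linarith)) hw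
  have h8 : ∀ᶠ s in 𝓝 (0 : ℝ), w s ∈ U :=
    h7.self_of_nhds.continuousAt.eventually_mem (h1.mem_nhds (w0.symm ▸ h2))
  have h9 := h.curve w ((h7.and h8).mono fun s hs => ⟨h3 hs.2, _, hs.1, (h5 _ hs.2 κ).1⟩)
  refine ⟨w, w0, ?_⟩
  filter_upwards [h7, h8, h9] with s a b c
  exact ⟨h3 b, w0 ▸ c, fun e => (h5 _ b κ).2 e ▸ a⟩

theorem Ker_le (h : Leaf O L R k) {x y : V} (hx : x ∈ O) (hy : y ∈ O) (hR : R x y) {v : V}
    (hv : L x v = 0) : L y v = 0 := by
  obtain ⟨w, w0, hw⟩ := Ker_curve h hx v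
  have h1 := (L y).hasFDerivAt.comp_hasDerivAt 0 (hw.self_of_nhds.2.2 (w0.symm ▸ hv))
  refine h1.unique ((hasDerivAt_const (0 : ℝ) (0 : W)).congr_of_eventuallyEq ?_)
  filter_upwards [hw] with s hs
  exact h.mem y hy _ hs.1 (h.trans y hy x hx _ hs.1 (h.symm x hx y hy hR) hs.2.1)

theorem Leaf.ker (h : Leaf O L R k) {x y : V} (hx : x ∈ O) (hy : y ∈ O) (hR : R x y) (v : V) :
    L x v = 0 ↔ L y v = 0 := by
  exact ⟨Ker_le h hx hy hR, Ker_le h hy hx (h.symm x hx y hy hR)⟩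

theorem Leaf.line (h : Leaf O L R k) {x κ : V} (hx : x ∈ O) (hκ : L x κ = 0) :
    ∀ᶠ s in 𝓝 (0 : ℝ), R x (x + s • κ) := by
  obtain ⟨w, w0, hw⟩ := Ker_curve h hx κ
  obtain ⟨ε, hε, h1⟩ := Metric.eventually_nhds_iff_ball.1 hw
  have h2 : ∀ s ∈ Metric.ball (0 : ℝ) ε, HasDerivAt w κ s := fun s hs =>
    (h1 s hs).2.2 ((h.ker hx (h1 s hs).1 (h1 s hs).2.1 κ).1 hκ)
  have h3 : ∀ s : ℝ, HasDerivAt (fun s : ℝ => x + s • κ) κ s := fun s => by
    simpa using ((hasDerivAt_id s).smul_const κ).const_add x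
  have h4 := Metric.isOpen_ball.eqOn_of_deriv_eq (convex_ball (0 : ℝ) ε).isPreconnected
    (fun s hs => (h2 s hs).differentiableAt.differentiableWithinAt)
    (fun s _ => (h3 s).differentiableAt.differentiableWithinAt)
    (fun s hs => (h2 s hs).deriv.trans (h3 s).deriv.symm) (Metric.mem_ball_self hε)
    (by simp [w0])
  filter_upwards [Metric.ball_mem_nhds (0 : ℝ) hε] with s hs
  exact (show w s = x + s • κ from h4 hs) ▸ (h1 s hs).2.1

theorem Leaf.seg (h : Leaf O L R k) {x κ : V} (hκ : L x κ = 0)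
    (hs : ∀ s ∈ Icc (0 : ℝ) 1, x + s • κ ∈ O) : R x (x + κ) := by
  have hx : x ∈ O := by simpa using hs 0 (left_mem_Icc.2 zero_le_one)
  have hc : Continuous fun s : ℝ => x + s • κ := by fun_prop
  have h1 : IsClosed ({s : ℝ | s ∈ Icc (0 : ℝ) 1 → R x (x + s • κ)} ∩ Icc 0 1) := by
    refine isClosed_of_closure_subset fun s m => ?_
    have m1 : s ∈ Icc (0 : ℝ) 1 := closure_minimal inter_subset_right isClosed_Icc m
    exact ⟨fun _ => h.closed x hx _ (hs s m1)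
      (map_mem_closure (f := fun s : ℝ => x + s • κ) hc m fun t ht => ⟨hs t ht.2, ht.1 ht.2⟩), m1⟩
  have h2 := h1.Icc_subset_of_forall_mem_nhdsWithin (fun _ => by simpa using h.refl x hx)
    fun t ht => by
      have m := Ico_subset_Icc_self ht.2
      have h3 := h.line (hs t m) ((h.ker hx (hs t m) (ht.1 m) κ).1 hκ)
      have h4 : Tendsto (fun s : ℝ => s - t) (𝓝 t) (𝓝 0) :=
        (continuous_sub_right t).tendsto' t 0 (sub_self t)
      filter_upwards [mem_nhdsWithin_of_mem_nhds (h4.eventually h3)] with s a b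
      rw [add_assoc, ← add_smul, add_sub_cancel] at a
      exact h.trans x hx _ (hs t m) _ (hs s b) (ht.1 m) a
  simpa using h2 (right_mem_Icc.2 zero_le_one) (right_mem_Icc.2 zero_le_one)

end Pool.Agent.Work.MP_8c604c_gt.B
end
end

-- merged part: Pool.Agent.Work.MP_8c604c_gt.O.KS
section
/-!
The space `KS x` of conjugate directions: dimension, orthonormal frames, the orthogonal projector `KP`.
-/

set_option maxSynthPendingDepth 3
set_option linter.unusedSectionVars false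

open Set Filter Topology MeasureTheory
open scoped ContDiff

noncomputable section
namespace Pool.Agent.Work.MP_8c604c_gt.O

open Real

open Model

variable {E : Type} [NormedAddCommGroup E] [InnerProductSpace ℝ E] [FiniteDimensional ℝ E] {d : ℕ}
  {μ : Model E d} {g : Met E}

/-- Orthonormal bases for a positive form on a subspace. -/
theorem KS_onb {V : Type} [AddCommGroup V] [Module ℝ V] [FiniteDimensional ℝ V]
    (B : V →ₗ[ℝ] V →ₗ[ℝ] ℝ) (hs : ∀ u w, B u w = B w u) (hp : ∀ u, u ≠ 0 → 0 < B u u) :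
    ∃ b : Fin (Module.finrank ℝ V) → V, (∀ i j, B (b i) (b j) = if i = j then 1 else 0) ∧
      ∀ u, u = ∑ i, B (b i) u • b i := by
  let c : InnerProductSpace.Core ℝ V :=
    { inner := fun u w => B u w
      conj_inner_symm := fun u w => hs w u
      re_inner_nonneg := fun u => by
        by_cases h : u = 0
        · simp [h]
        · exact (hp u h).le
      add_left := fun u w y => by simp
      smul_left := fun u w r => by simp
      definite := fun u h => by_contra fun h' => (hp u h').ne' h }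
  let : NormedAddCommGroup V := c.toNormedAddCommGroup
  let : InnerProductSpace ℝ V := InnerProductSpace.ofCore c.toCore
  exact ⟨stdOrthonormalBasis ℝ V, orthonormal_iff_ite.1 (stdOrthonormalBasis ℝ V).orthonormal,
    fun u => ((stdOrthonormalBasis ℝ V).sum_repr' u).symm⟩

theorem nrm_apply (x : E × E) (u : E) :
    nrm μ g x u = μ.P x.1 u - g x.1 (vel g x) u • vel g x := rfl

theorem vel_mem_Bs (g : Met E) (x : E × E) : vel g x ∈ μ.Bs x :=
  Submodule.smul_mem _ _ (snd_mem_Bs x)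

theorem sub_nrm_mem {x : E × E} (hx : x.1 ∈ μ.M) (u : E) : u - nrm μ g x u ∈ μ.Bs x := by
  rw [nrm_apply, ← sub_add]
  exact add_mem (mem_Bs_of_P (P_Q hx u)) (Submodule.smul_mem _ _ (vel_mem_Bs g x))

theorem Bs_sc {x : E × E} {m : ℝ} (hm : m ≠ 0) : μ.Bs (sc m x) = μ.Bs x := by
  simp only [Bs, sc, map_smul]
  rw [Submodule.span_singleton_smul_eq (IsUnit.mk0 m hm)]

namespace IsMetric
variable (h : IsMetric μ g) {x : E × E}
include h

theorem g_Bs (hx : x ∈ μ.TT) {u r : E} (hu : g x.1 u x.2 = 0) (hr : r ∈ μ.Bs x) :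
    g x.1 u r = 0 := by
  obtain ⟨a, ha⟩ := mem_Bs.1 hr
  rw [← h.P_right hx.1, ha, map_smul, hx.2.1, hu, smul_zero]

theorem Bs_zero (hx : x ∈ μ.TT) {u : E} (hu : u ∈ μ.Bs x) (h1 : μ.P x.1 u = u)
    (h2 : g x.1 u x.2 = 0) : u = 0 :=
  h.eq_zero_of_tan hx.1.1 h1 (h.g_Bs hx h2 hu)

omit h in
theorem _root_.Pool.Agent.Work.MP_8c604c_gt.O.P_nrm (hx : x ∈ μ.TT) (u : E) :
    μ.P x.1 (nrm μ g x u) = nrm μ g x u := by
  rw [nrm_apply, map_sub, map_smul, P_idem hx.1, P_vel hx]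

theorem nrm_perp (hx : x ∈ μ.TT) (u : E) : g x.1 (nrm μ g x u) x.2 = 0 := by
  have h1 : g x.1 (vel g x) (nrm μ g x u) = 0 := by
    rw [nrm_apply, map_sub, map_smul, h.P_right hx.1, h.vel_unit (TT_OO hx), smul_eq_mul, mul_one,
      sub_self]
  rwa [h.g_vel (TT_OO hx), mul_eq_zero, or_iff_right (inv_ne_zero (h.spd_pos (TT_OO hx)).ne')] at h1

theorem nrm_of (hx : x ∈ μ.TT) {u : E} (h1 : μ.P x.1 u = u) (h2 : g x.1 u x.2 = 0) :
    nrm μ g x u = u := by
  rw [nrm_apply, h1, h.g_vel (TT_OO hx), h2, mul_zero, zero_smul, sub_zero]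

theorem g_nrm (hx : x ∈ μ.TT) {k : E} (hk : g x.1 k x.2 = 0) (u : E) :
    g x.1 k (nrm μ g x u) = g x.1 k u := by
  have := h.g_Bs hx hk (sub_nrm_mem (g := g) hx.1 u)
  rw [map_sub, sub_eq_zero] at this
  exact this.symm

theorem contDiffOn_nrm : ContDiffOn ℝ ∞ (nrm μ g) μ.OO :=
  (contDiffOn_P.comp contDiffOn_fst fun _ hx => hx.1).sub
    (((h.smooth.comp contDiffOn_fst fun _ hx => hx.1).clm_apply h.contDiffOn_vel).smulRight
      h.contDiffOn_vel)

end IsMetric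

namespace Geo
variable (G : Geo μ g)

theorem mem_KS' {x : E × E} {u : E} :
    u ∈ G.KS x ↔ μ.P x.1 u = u ∧ g x.1 x.2 u = 0 ∧ G.JJ (π / 2) x (0, u) = 0 := by
  simp only [KS, Submodule.mem_inf, LinearMap.mem_ker, and_assoc, ← Q_eq_zero]
  rfl

open Classical in
/-- The `g`-orthogonal projector onto `KS x`. -/
def KP (x : E × E) : E →L[ℝ] E :=
  if h : ∃ K : Fin (G.kk x) → E, G.IsK x K then
    ∑ i, (g x.1 (h.choose i)).smulRight (h.choose i) else 0

variable (h : IsMetric μ g) {x : E × E} (hx : x ∈ μ.TT)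
include h hx

theorem mem_KS {u : E} :
    u ∈ G.KS x ↔ μ.P x.1 u = u ∧ g x.1 u x.2 = 0 ∧ G.JJ (π / 2) x (0, u) = 0 := by
  rw [G.mem_KS', h.symm _ _ _ hx.1.1]

theorem JJ_nrm (t : ℝ) (u : E) : G.JJ t x (0, nrm μ g x u) = G.JJ t x (0, u) := by
  have := G.JJ_Bs h t (TT_OO hx) (sub_nrm_mem (g := g) hx.1 u)
  rw [show ((0, u - nrm μ g x u) : E × E) = (0, u) - (0, nrm μ g x u) by simp, map_sub, sub_eq_zero] at this
  exact this.symm

theorem nrm_mem_KS {u : E} : nrm μ g x u ∈ G.KS x ↔ G.JJ (π / 2) x (0, u) = 0 := by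
  rw [G.mem_KS h hx, G.JJ_nrm h hx]
  exact ⟨fun e => e.2.2, fun e => ⟨P_nrm hx u, h.nrm_perp hx u, e⟩⟩

theorem ker_iff {u : E} : G.JJ (π / 2) x (0, u) = 0 ↔ ∃ k ∈ G.KS x, u - k ∈ μ.Bs x := by
  refine ⟨fun e => ⟨_, (G.nrm_mem_KS h hx).2 e, sub_nrm_mem hx.1 u⟩, fun ⟨k, hk, e⟩ => ?_⟩
  have := G.JJ_Bs h (π / 2) (TT_OO hx) e
  rwa [show ((0, u - k) : E × E) = (0, u) - (0, k) by simp, map_sub, ((G.mem_KS h hx).1 hk).2.2,
    sub_zero] at this

theorem kdim_eq : d + G.kdim x = G.kk x + (Module.finrank ℝ E + 1) := by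
  rw [← finrank_Bs hx, add_left_comm, add_right_inj, kk, ← Submodule.finrank_sup_add_finrank_inf_eq,
    show G.KS x ⊓ μ.Bs x = ⊥ from (Submodule.eq_bot_iff _).2 fun u hu =>
      h.Bs_zero hx hu.2 ((G.mem_KS h hx).1 hu.1).1 ((G.mem_KS h hx).1 hu.1).2.1,
    finrank_bot, add_zero, kdim]
  refine congrArg (fun S : Submodule ℝ E => Module.finrank ℝ S) (Submodule.ext fun u => ?_)
  refine (G.ker_iff h hx).trans ⟨fun ⟨k, hk, e⟩ => ?_, fun hu => ?_⟩
  · exact Submodule.mem_sup.2 ⟨k, hk, _, e, add_sub_cancel _ _⟩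
  · obtain ⟨k, hk, r, hr, rfl⟩ := Submodule.mem_sup.1 hu
    exact ⟨k, hk, (add_sub_cancel_left k r).symm ▸ hr⟩

theorem exists_isK : ∃ K : Fin (G.kk x) → E, G.IsK x K := by
  obtain ⟨b, b1, b2⟩ := KS_onb ((g x.1).toLinearMap₁₂.domRestrict₁₂ (G.KS x) (G.KS x))
    (fun u w => h.symm _ _ _ hx.1.1) fun u hu => (h.nonneg hx.1.1 _).lt_of_ne' fun e =>
      hu (Subtype.ext (h.eq_zero_of_tan hx.1.1 ((G.mem_KS h hx).1 u.2).1 e))
  refine ⟨fun i => b i, fun i => ((G.mem_KS h hx).1 (b i).2).1,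
    fun i => ((G.mem_KS h hx).1 (b i).2).2.1, b1, fun u => (G.ker_iff h hx).trans
      ⟨fun ⟨k, hk, e⟩ => ⟨fun i => g x.1 (b i) k, ?_⟩, fun ⟨a, e⟩ =>
        ⟨_, Submodule.sum_mem _ fun i _ => Submodule.smul_mem _ _ (b i).2, e⟩⟩⟩
  have := congrArg Subtype.val (b2 ⟨k, hk⟩)
  rw [Submodule.coe_sum] at this
  exact this ▸ e

variable {G}

theorem IsK.mem {κ : Type} [Fintype κ] [DecidableEq κ] {K : κ → E} (hK : G.IsK x K) (i : κ) :
    K i ∈ G.KS x :=
  (G.mem_KS h hx).2 ⟨hK.tan i, hK.perp i, (hK.ker _).2 ⟨Pi.single i 1, by simp [Pi.single_apply]⟩⟩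

theorem IsK.sum_mem {κ : Type} [Fintype κ] [DecidableEq κ] {K : κ → E} (hK : G.IsK x K)
    (a : κ → ℝ) : ∑ i, a i • K i ∈ G.KS x :=
  Submodule.sum_mem _ fun i _ => Submodule.smul_mem _ _ (hK.mem h hx i)

theorem IsK.expand {κ : Type} [Fintype κ] [DecidableEq κ] {K : κ → E} (hK : G.IsK x K)
    {u : E} (hu : u ∈ G.KS x) : u = ∑ i, g x.1 (K i) u • K i := by
  obtain ⟨a, ha⟩ := (hK.ker u).1 ((G.mem_KS h hx).1 hu).2.2
  have h1 := (G.mem_KS h hx).1 (sub_mem hu (hK.sum_mem h hx a))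
  have h2 := sub_eq_zero.1 (h.Bs_zero hx ha h1.1 h1.2.1)
  have h3 : ∀ i, g x.1 (K i) u = a i := fun i => by
    rw [h2]
    simp [hK.on]
  simpa only [h3] using h2

theorem IsK.card {κ : Type} [Fintype κ] [DecidableEq κ] {K : κ → E} (hK : G.IsK x K) :
    Fintype.card κ = G.kk x := by
  have h1 : LinearIndependent ℝ K := Fintype.linearIndependent_iff.2 fun a ha i => by
    simpa [hK.on] using congrArg (g x.1 (K i)) ha
  rw [← finrank_span_eq_card h1, kk]
  refine congrArg (fun S : Submodule ℝ E => Module.finrank ℝ S)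
    (le_antisymm (Submodule.span_le.2 (range_subset_iff.2 (hK.mem h hx))) fun u hu => ?_)
  rw [hK.expand h hx hu]
  exact Submodule.sum_mem _ fun i _ => Submodule.smul_mem _ _ (Submodule.subset_span ⟨i, rfl⟩)

theorem IsK.reindex {κ κ' : Type} [Fintype κ] [DecidableEq κ] [Fintype κ'] [DecidableEq κ']
    {K : κ → E} (hK : G.IsK x K) (e : κ' ≃ κ) : G.IsK x (K ∘ e) := by
  refine ⟨fun i => hK.tan _, fun i => hK.perp _, fun i j => by simp [hK.on], fun u => ?_⟩
  rw [hK.ker]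
  refine ⟨fun ⟨a, ha⟩ => ⟨a ∘ e, ?_⟩, fun ⟨a, ha⟩ => ⟨a ∘ e.symm, ?_⟩⟩
  · rwa [← e.sum_comp] at ha
  · rw [← e.sum_comp]
    simpa using ha

variable (G)

theorem exists_isK' {κ : Type} [Fintype κ] [DecidableEq κ] (hκ : Fintype.card κ = G.kk x) :
    ∃ K : κ → E, G.IsK x K := by
  obtain ⟨K, hK⟩ := G.exists_isK h hx
  exact ⟨_, hK.reindex h hx (Fintype.equivFinOfCardEq hκ)⟩

theorem KP_mem (u : E) : G.KP x u ∈ G.KS x := by
  have e := G.exists_isK h hx
  rw [KP, dif_pos e]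
  simpa using e.choose_spec.sum_mem h hx fun i => g x.1 (e.choose i) u

theorem g_KP {k : E} (hk : k ∈ G.KS x) (u : E) : g x.1 k (G.KP x u) = g x.1 k u := by
  have e := G.exists_isK h hx
  rw [KP, dif_pos e]
  conv_rhs => rw [e.choose_spec.expand h hx hk]
  simp [mul_comm, h.symm _ k _ hx.1.1]

theorem KP_eq {u a : E} (ha : a ∈ G.KS x) (e : ∀ k ∈ G.KS x, g x.1 k a = g x.1 k u) :
    G.KP x u = a := by
  have h1 := sub_mem (G.KP_mem h hx u) ha
  refine sub_eq_zero.1 (h.eq_zero_of_tan hx.1.1 ((G.mem_KS h hx).1 h1).1 ?_)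
  rw [(g x.1 _).map_sub, G.g_KP h hx h1, e _ h1, sub_self]

theorem KP_of_mem {k : E} (hk : k ∈ G.KS x) : G.KP x k = k := G.KP_eq h hx hk fun _ _ => rfl

theorem KP_symm (u w : E) : g x.1 (G.KP x u) w = g x.1 u (G.KP x w) := by
  rw [← G.g_KP h hx (G.KP_mem h hx u), h.symm _ u _ hx.1.1, ← G.g_KP h hx (G.KP_mem h hx w) u,
    h.symm _ _ _ hx.1.1]

theorem KP_Bs {u : E} (hu : u ∈ μ.Bs x) : G.KP x u = 0 :=
  G.KP_eq h hx (zero_mem _) fun k hk => by
    rw [map_zero, h.g_Bs hx ((G.mem_KS h hx).1 hk).2.1 hu]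

theorem IsK.KP {G : Geo μ g} {κ : Type} [Fintype κ] [DecidableEq κ] {K : κ → E} (hK : G.IsK x K)
    (u : E) : G.KP x u = ∑ i, g x.1 (K i) u • K i :=
  G.KP_eq h hx (hK.sum_mem h hx _) fun k hk => by
    conv_rhs => rw [hK.expand h hx hk]
    simp [mul_comm, h.symm _ k _ hx.1.1]

theorem KS_sc {m : ℝ} (hm : 0 < m) : G.KS (sc m x) = G.KS x := by
  ext u
  rw [G.mem_KS', G.mem_KS', G.JJ_sc_fibre h _ hm (TT_OO hx)]
  simp [sc, hm.ne']

theorem KP_sc {m : ℝ} (hm : 0 < m) : G.KP (sc m x) = G.KP x := by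
  ext1 u
  refine G.KP_eq h (sc_mem_TT hm.ne' hx) ((G.KS_sc h hx hm).symm ▸ G.KP_mem h hx u) fun k hk => ?_
  exact G.g_KP h hx (G.KS_sc h hx hm ▸ hk) u

theorem IsK.sc {G : Geo μ g} {κ : Type} [Fintype κ] [DecidableEq κ] {K : κ → E} (hK : G.IsK x K)
    {m : ℝ} (hm : 0 < m) : G.IsK (sc m x) K := by
  refine ⟨hK.tan, fun i => ?_, hK.on, fun u => ?_⟩
  · simp [O.sc, hK.perp i]
  · rw [G.JJ_sc_fibre h _ hm (TT_OO hx), smul_eq_zero_iff_right (inv_ne_zero hm.ne'), hK.ker,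
      Bs_sc hm.ne']

end Geo

namespace Bl
variable {G : Geo μ g} (B : Bl g G)
include B

theorem kk_const {x y : E × E} (hx : x ∈ μ.TT) (hy : y ∈ μ.TT) : G.kk x = G.kk y := by
  have := B.kdim_const hx hy
  have h1 := G.kdim_eq B.met hx
  have h2 := G.kdim_eq B.met hy
  omega

theorem contDiffOn_KP_R : ContDiffOn ℝ ∞ (fun x => G.KP (μ.R x)) μ.OO := by
  have h := B.met
  intro x₀ hx₀
  have hR : ContDiffOn ℝ ∞ μ.R μ.OO := contDiffOn_R.mono fun x hx => hx.1
  have hg : ContDiffOn ℝ ∞ (fun x : E × E => g (μ.R x).1) μ.OO :=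
    h.smooth.comp hR.fst fun x hx => (R_mem_TT hx).1.1
  obtain ⟨U, T, h1, h2, h3, h4, h5⟩ := MP_8c604c_gt.B.ker_proj isOpen_OO
    (L := fun x : E × E => G.JM (μ.R x))
    (((G.contDiffOn_JJ h).comp (contDiffOn_const.prodMk hR)
      fun x hx => TT_OO (R_mem_TT hx)).clm_comp contDiffOn_const) (k := G.kdim (μ.R x₀))
    (fun x hx => B.kdim_const (R_mem_TT hx) (R_mem_TT hx₀)) hx₀
  have h3' := fun x (hx : x ∈ U) => R_mem_TT (h3 hx)
  obtain ⟨S, hS⟩ : ∃ S : E × E → E →L[ℝ] E, S = fun x => (nrm μ g (μ.R x)).comp (T x) := ⟨_, rfl⟩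
  have s1 : ContDiffOn ℝ ∞ S U := hS ▸ ((h.contDiffOn_nrm.comp hR
    fun x hx => TT_OO (R_mem_TT hx)).mono h3).clm_comp h4
  have s2 : ∀ x ∈ U, ∀ v, S x v ∈ G.KS (μ.R x) := fun x hx v =>
    hS ▸ (G.nrm_mem_KS h (h3' x hx)).2 (h5 x hx v).1
  have s3 : ∀ x ∈ U, ∀ v ∈ G.KS (μ.R x), S x v = v := fun x hx v hv => by
    have h6 := (G.mem_KS h (h3' x hx)).1 hv
    simp only [hS, ContinuousLinearMap.comp_apply]
    rw [(h5 x hx v).2 h6.2.2, h.nrm_of (h3' x hx) h6.1 h6.2.1]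
  obtain ⟨M, hM⟩ : ∃ M : E × E → E →L[ℝ] E →L[ℝ] ℝ, M = fun x =>
      (g (μ.R x).1).bilinearComp (S x) (S x) + (inL E).bilinearComp (1 - S x) (1 - S x) := ⟨_, rfl⟩
  have m0 : ∀ x a b, M x a b = g (μ.R x).1 (S x a) (S x b) + inner ℝ (a - S x a) (b - S x b) :=
    fun x a b => by rw [hM]; rfl
  have m1 : ContDiffOn ℝ ∞ M U := contDiffOn_clm_apply.2 fun a => contDiffOn_clm_apply.2 fun b => by
    simp only [m0]
    exact (((hg.mono h3).clm_apply (s1.clm_apply contDiffOn_const)).clm_apply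
      (s1.clm_apply contDiffOn_const)).add ((contDiffOn_const.sub (s1.clm_apply contDiffOn_const)).inner ℝ
        (contDiffOn_const.sub (s1.clm_apply contDiffOn_const)))
  have m2 : ∀ x ∈ U, (M x).IsInvertible := fun x hx => idx_invertible fun a ha => by
    rw [m0] at ha
    have h6 := h.nonneg (h3' x hx).1.1 (S x a)
    have h7 : 0 ≤ inner ℝ (a - S x a) (a - S x a) := real_inner_self_nonneg
    have h8 := h.eq_zero_of_tan (h3' x hx).1.1 ((G.mem_KS h (h3' x hx)).1 (s2 x hx a)).1 (by linarith)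
    have h9 : a - S x a = 0 := inner_self_eq_zero.1 (by linarith : inner ℝ (a - S x a) (a - S x a) = 0)
    rwa [h8, sub_zero] at h9
  have m3 : ContDiffOn ℝ ∞ (fun x => (M x).inverse) U := fun x hx =>
    (m2 x hx).contDiffAt_map_inverse.comp_contDiffWithinAt x (m1 x hx)
  refine (ContDiffOn.contDiffAt (s := U) (contDiffOn_clm_apply.2 fun u => ?_)
    (h1.mem_nhds h2)).contDiffWithinAt
  refine (m3.clm_apply (((hg.mono h3).clm_apply (contDiffOn_const (c := u))).clm_comp s1)).congr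
    fun x hx => ((m2 x hx).inverse_apply_eq.2 ?_).symm
  ext b
  rw [m0, s3 x hx _ (G.KP_mem h (h3' x hx) u), sub_self, inner_zero_left, add_zero,
    G.KP_symm h (h3' x hx), G.KP_of_mem h (h3' x hx) (s2 x hx b)]
  rfl

theorem contDiffOn_KP : ContDiffOn ℝ ∞ G.KP μ.TT :=
  (B.contDiffOn_KP_R.mono fun _ hx => TT_OO hx).congr fun x hx => by rw [R_of_TT hx]

end Bl

end Pool.Agent.Work.MP_8c604c_gt.O
end
end
end
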