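import Mathlib

-- merged part: Pool.Agent.Work.MP_8c604c_gt.O.Defs
section
/-!
Block A of the Blaschke theorem for a compact manifold `M` given as the fixed set of a smooth retraction `r` of an open
set `U` of a Euclidean space `E`. A metric is written upstairs, as its pull-back by `r`. Definitions.
-/

set_option maxSynthPendingDepth 3
set_option linter.unusedSectionVars false

open Set Filter Topology MeasureTheory
open scoped ContDiff

noncomputable section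
namespace Pool.Agent.Work.MP_8c604c_gt.O

/-- The model space of the charts. -/
abbrev RF (d : ℕ) : Type := EuclideanSpace ℝ (Fin d)

/-- Families of real bilinear forms on `V`. -/
abbrev Met (V : Type) [NormedAddCommGroup V] [InnerProductSpace ℝ V] : Type :=
  V → V →L[ℝ] V →L[ℝ] ℝ

/-- A compact `d`-manifold: the fixed set of a smooth retraction, covered by charts onto `RF d`;
the chart number `0` has full measure. -/
structure Model (E : Type) [NormedAddCommGroup E] [InnerProductSpace ℝ E] (d : ℕ) where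
  U : Set E
  r : E → E
  isOpen : IsOpen U
  smooth : ContDiffOn ℝ ∞ r U
  maps : ∀ z ∈ U, r z ∈ U
  idem : ∀ z ∈ U, r (r z) = r z
  compact : IsCompact {z | z ∈ U ∧ r z = z}
  N : ℕ
  χ : Fin (N + 1) → RF d → E
  ρ : Fin (N + 1) → E → RF d
  W : Fin (N + 1) → Set E
  χ_smooth : ∀ i, ContDiff ℝ ∞ (χ i)
  W_open : ∀ i, IsOpen (W i)
  W_sub : ∀ i, W i ⊆ U
  ρ_smooth : ∀ i, ContDiffOn ℝ ∞ (ρ i) (W i)
  χ_mem : ∀ i a, χ i a ∈ W i
  χ_fix : ∀ i a, r (χ i a) = χ i a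
  ρχ : ∀ i a, ρ i (χ i a) = a
  χρ : ∀ i, ∀ z ∈ W i, r z = z → χ i (ρ i z) = z
  cover : ∀ z ∈ U, r z = z → ∃ i, z ∈ W i
  null : ∀ i, ∀ᵐ a, χ i a ∈ W 0
  two : 2 ≤ d

/-- Gram determinant in a Euclidean orthonormal basis. -/
def bdet {V : Type} [NormedAddCommGroup V] [InnerProductSpace ℝ V] [FiniteDimensional ℝ V]
    (B : V →L[ℝ] V →L[ℝ] ℝ) : ℝ :=
  (Matrix.of fun i j => B (stdOrthonormalBasis ℝ V i) (stdOrthonormalBasis ℝ V j)).det

/-- The Euclidean product as a bilinear form. -/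
def inL (V : Type) [NormedAddCommGroup V] [InnerProductSpace ℝ V] : V →L[ℝ] V →L[ℝ] ℝ := innerSL ℝ (E := V)

variable {E : Type} [NormedAddCommGroup E] [InnerProductSpace ℝ E] [FiniteDimensional ℝ E] {d : ℕ}

namespace Model
variable (μ : Model E d)

/-- The manifold. -/
def M : Set E := {z | z ∈ μ.U ∧ μ.r z = z}

/-- The derivative of the retraction; on `M` a projector onto the tangent space. -/
def P (z : E) : E →L[ℝ] E := fderiv ℝ μ.r z

/-- The complementary map. -/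
def Q (z : E) : E →L[ℝ] E := ContinuousLinearMap.id ℝ E - μ.P z

/-- The retraction onto the tangent bundle. -/
def R (x : E × E) : E × E := (μ.r x.1, μ.P x.1 x.2)

/-- Its derivative. -/
def DR (x : E × E) : E × E →L[ℝ] E × E := fderiv ℝ μ.R x

/-- Pairs with foot point in `U`. -/
def UU : Set (E × E) := {x | x.1 ∈ μ.U}

/-- The tangent bundle. -/
def TM : Set (E × E) := {x | x.1 ∈ μ.M ∧ μ.P x.1 x.2 = x.2}

/-- The open set of pairs that project to nonzero tangent vectors. -/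
def OO : Set (E × E) := {x | x.1 ∈ μ.U ∧ μ.P x.1 x.2 ≠ 0}

/-- Nonzero tangent vectors. -/
def TT : Set (E × E) := {x | x.1 ∈ μ.M ∧ μ.P x.1 x.2 = x.2 ∧ x.2 ≠ 0}

/-- The directions of `E` that do not move the geodesic. -/
def Bs (x : E × E) : Submodule ℝ E :=
  (Submodule.span ℝ {μ.P x.1 x.2}).comap (μ.P x.1 : E →ₗ[ℝ] E)

/-- The directions of `E × E` that do not move the unit vector. -/
def Bdir (x : E × E) : Submodule ℝ (E × E) :=
  (Submodule.span ℝ {((0, μ.P x.1 x.2) : E × E)}).comap (μ.DR x : E × E →ₗ[ℝ] E × E)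

/-- The Euclidean product of the complementary parts. -/
def NN : Met E := fun z => (inL E).bilinearComp (μ.Q z) (μ.Q z)

/-- Positive definite completion of `g`. -/
def GG (g : Met E) : Met E := fun z => g z + μ.NN z

/-- Determinant of the completed metric. -/
def detG (g : Met E) (z : E) : ℝ := bdet (μ.GG g z)

end Model

/-- Scaling of the vector. -/
def sc (m : ℝ) (x : E × E) : E × E := (x.1, m • x.2)

/-- `g` is the pull-back by `r` of a smooth Riemannian metric on `M`. -/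
structure IsMetric (μ : Model E d) (g : Met E) : Prop where
  smooth : ContDiffOn ℝ ∞ g μ.U
  symm : ∀ z u w, z ∈ μ.U → g z u w = g z w u
  inv : ∀ z u w, z ∈ μ.U → g (μ.r z) (μ.P z u) (μ.P z w) = g z u w
  pos : ∀ z u, z ∈ μ.U → μ.P z u ≠ 0 → 0 < g z u u

/-- `z` is a unit speed geodesic of `M`: Euler-Lagrange equation of the energy. -/
structure IsUnitGeodesic (μ : Model E d) (g : Met E) (z : ℝ → E) : Prop where
  smooth : ContDiff ℝ ∞ z
  mem : ∀ t, z t ∈ μ.M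
  el : ∀ t η, HasDerivAt (fun s => g (z s) (deriv z s) η)
    (1 / 2 * fderiv ℝ g (z t) η (deriv z t) (deriv z t)) t
  unit : ∀ t, g (z t) (deriv z t) (deriv z t) = 1

/-- Length of the projection of `c` restricted to `[0, 1]`. -/
def len (g : Met E) (c : ℝ → E) : ℝ :=
  ∫ t in (0 : ℝ)..1, √(g (c t) (deriv c t) (deriv c t))

/-- `c` is a `C^1` path in `U` whose projection joins `r y` to `r y'`. -/
structure Joins (μ : Model E d) (c : ℝ → E) (y y' : E) : Prop where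
  smooth : ContDiff ℝ 1 c
  mem : ∀ s, c s ∈ μ.U
  start : μ.r (c 0) = μ.r y
  stop : μ.r (c 1) = μ.r y'

/-- The Riemannian distance of the projections. -/
def dd (μ : Model E d) (g : Met E) (y y' : E) : ℝ := sInf {l | ∃ c, Joins μ c y y' ∧ l = len g c}

/-- Pairs at distance less than `π/2`. -/
def DD (μ : Model E d) (g : Met E) : Set (E × E) :=
  {p | p.1 ∈ μ.U ∧ p.2 ∈ μ.U ∧ dd μ g p.1 p.2 < Real.pi / 2}

/-- Speed. -/
def spd (g : Met E) (x : E × E) : ℝ := √(g x.1 x.2 x.2)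

/-- Unit velocity. -/
def vel (g : Met E) (x : E × E) : E := (spd g x)⁻¹ • x.2

/-- The Lagrangian. -/
def Lg (g : Met E) (p : E × E) : ℝ := 1 / 2 * g p.1 p.2 p.2

/-- Hessian of the Lagrangian. -/
def D2 (g : Met E) (p a b : E × E) : ℝ := fderiv ℝ (fderiv ℝ (Lg g)) p a b

/-- The contact form. -/
def al (g : Met E) (x : E × E) : E × E →L[ℝ] ℝ :=
  (g x.1 (vel g x)).comp (ContinuousLinearMap.fst ℝ E E)

/-- Its exterior derivative. -/
def om (g : Met E) (x δ₁ δ₂ : E × E) : ℝ :=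
  fderiv ℝ (fun y : E × E => g y.1 (vel g y)) x δ₁ δ₂.1 -
    fderiv ℝ (fun y : E × E => g y.1 (vel g y)) x δ₂ δ₁.1

/-- The part of a vector that is tangent and normal to the geodesic. -/
def nrm (μ : Model E d) (g : Met E) (x : E × E) : E →L[ℝ] E :=
  μ.P x.1 - (g x.1 (vel g x)).smulRight (vel g x)

/-- The geodesic flow of `M` composed with the retraction `R`. -/
structure Geo (μ : Model E d) (g : Met E) where
  φ : ℝ → E × E → E × E
  smooth : ContDiffOn ℝ ∞ (fun p : ℝ × E × E => φ p.1 p.2) {p | p.2 ∈ μ.UU}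
  zero : ∀ x, x.1 ∈ μ.U → φ 0 x = μ.R x
  mem : ∀ t x, x.1 ∈ μ.U → (φ t x).1 ∈ μ.M
  tan : ∀ t x, x.1 ∈ μ.U → μ.P (φ t x).1 (φ t x).2 = (φ t x).2
  add : ∀ s t x, x.1 ∈ μ.U → φ (s + t) x = φ s (φ t x)
  energy : ∀ t x, x.1 ∈ μ.U → g (φ t x).1 (φ t x).2 (φ t x).2 = g x.1 x.2 x.2
  deriv_fst : ∀ t x, x.1 ∈ μ.U → HasDerivAt (fun s => (φ s x).1) (φ t x).2 t
  el : ∀ t x η, x.1 ∈ μ.U → HasDerivAt (fun s => g (φ s x).1 (φ s x).2 η)
    (1 / 2 * fderiv ℝ g (φ t x).1 η (φ t x).2 (φ t x).2) t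
  scale : ∀ (m : ℝ) t x, x.1 ∈ μ.U → φ t (sc m x) = sc m (φ (m * t) x)
  uniq : ∀ (c : ℝ → E) (a b t₀ : ℝ), t₀ ∈ Ioo a b → ContDiffOn ℝ ∞ c (Ioo a b) →
    (∀ t ∈ Ioo a b, c t ∈ μ.M) →
    (∀ t ∈ Ioo a b, ∀ η, HasDerivAt (fun s => g (c s) (deriv c s) η)
      (1 / 2 * fderiv ℝ g (c t) η (deriv c t) (deriv c t)) t) →
    ∀ t ∈ Ioo a b, c t = (φ (t - t₀) (c t₀, deriv c t₀)).1

namespace Geo
variable {μ : Model E d} {g : Met E} (G : Geo μ g)

/-- Unit speed flow on `OO`. -/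
def psi (t : ℝ) (x : E × E) : E × E := G.φ (t / spd g x) x

/-- Foot point of the unit speed flow. -/
def Z (t : ℝ) (x : E × E) : E := (G.psi t x).1

/-- Exponential map at `q`. -/
def ex (q u : E) : E := (G.φ 1 (q, u)).1

/-- Jacobi fields. -/
def JJ (t : ℝ) (x : E × E) : E × E →L[ℝ] E := fderiv ℝ (G.Z t) x

/-- Their ordinary time derivatives. -/
def JD (t : ℝ) (x : E × E) : E × E →L[ℝ] E := fderiv ℝ (fun y => vel g (G.psi t y)) x

/-- Variation of the momentum. -/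
def PP (t : ℝ) (x : E × E) : E × E →L[ℝ] E →L[ℝ] ℝ :=
  fderiv ℝ (fun y => g (G.Z t y) (vel g (G.psi t y))) x

/-- Riemannian Jacobian of the exponential map at a point `q` of `M`. -/
def jac (q u : E) : ℝ :=
  √(bdet ((g (G.ex q u)).bilinearComp (fderiv ℝ (G.ex q) u) (fderiv ℝ (G.ex q) u) + μ.NN q)) /
    √(μ.detG g q)

/-- Volume density in geodesic polar coordinates. -/
def th (x : E × E) (τ : ℝ) : ℝ := τ ^ (d - 1) * G.jac x.1 (τ • vel g x)

/-- Fields from the fibre at time `π/2`. -/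
def JM (x : E × E) : E →L[ℝ] E := (G.JJ (Real.pi / 2) x).comp (ContinuousLinearMap.inr ℝ E E)

/-- Tangent vectors whose Jacobi fields vanish at `0` and at `π/2`. -/
def WS (x : E × E) : Submodule ℝ E :=
  LinearMap.ker (μ.Q x.1 : E →ₗ[ℝ] E) ⊓ LinearMap.ker (G.JM x : E →ₗ[ℝ] E)

/-- The same, normal to the geodesic. -/
def KS (x : E × E) : Submodule ℝ E :=
  LinearMap.ker (μ.Q x.1 : E →ₗ[ℝ] E) ⊓ LinearMap.ker (g x.1 x.2 : E →ₗ[ℝ] ℝ) ⊓
    LinearMap.ker (G.JM x : E →ₗ[ℝ] E)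

/-- The multiplicity of the middle conjugate point. -/
def kk (x : E × E) : ℕ := Module.finrank ℝ (G.KS x)

/-- `K` is an orthonormal frame of `KS x`. -/
structure IsK {κ : Type} [Fintype κ] [DecidableEq κ] (x : E × E) (K : κ → E) : Prop where
  tan : ∀ i, μ.P x.1 (K i) = K i
  perp : ∀ i, g x.1 (K i) x.2 = 0
  on : ∀ i j, g x.1 (K i) (K j) = if i = j then 1 else 0
  ker : ∀ u, G.JJ (Real.pi / 2) x (0, u) = 0 ↔ ∃ a : κ → ℝ, u - ∑ i, a i • K i ∈ μ.Bs x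

end Geo

/-- The model density in dimension `d` for multiplicity `k`. -/
def thk (d k : ℕ) (τ : ℝ) : ℝ := Real.sin τ ^ (d - 1 - k) * (Real.sin (2 * τ) / 2) ^ k

/-- The density of the volume in the chart number `i`. -/
def Model.den (μ : Model E d) (g : Met E) (i : Fin (μ.N + 1)) (a : RF d) : ℝ :=
  √(bdet ((g (μ.χ i a)).bilinearComp (fderiv ℝ (μ.χ i) a) (fderiv ℝ (μ.χ i) a)))

/-- The volume of `M`. -/
def vol (μ : Model E d) (g : Met E) : ENNReal := ∫⁻ a, ENNReal.ofReal (μ.den g 0 a)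

/-- The volume of the model with polar density `thk d k`. -/
def vmod (d k : ℕ) : ENNReal :=
  ∫⁻ y : RF d, ENNReal.ofReal ((Ioo 0 (Real.pi / 2)).indicator (fun τ => thk d k τ / τ ^ (d - 1)) ‖y‖)

/-- The Blaschke hypotheses with period `π`. -/
structure Bl {μ : Model E d} (g : Met E) (G : Geo μ g) : Prop where
  met : IsMetric μ g
  per : ∀ x ∈ μ.OO, ∀ t, G.Z (t + Real.pi) x = G.Z t x
  min : ∀ x ∈ μ.OO, ∀ t ∈ Icc 0 (Real.pi / 2), ∀ c, Joins μ c x.1 (G.Z t x) → t ≤ len g c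

/-- The logarithm on pairs at distance less than `π/2`. -/
structure Lgm {μ : Model E d} (g : Met E) (G : Geo μ g) where
  lg : E → E → E
  smooth : ContDiffOn ℝ ∞ (fun p : E × E => lg p.1 p.2) (DD μ g)
  tan : ∀ q y, (q, y) ∈ DD μ g → μ.P (μ.r q) (lg q y) = lg q y
  norm_lg : ∀ q y, (q, y) ∈ DD μ g → √(g (μ.r q) (lg q y) (lg q y)) = dd μ g q y
  eq : ∀ q y, (q, y) ∈ DD μ g → G.ex (μ.r q) (lg q y) = μ.r y
  uniq : ∀ q u, q ∈ μ.U → √(g q u u) < Real.pi / 2 → lg q (G.ex q u) = μ.P q u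
  inv : ∀ q y, (q, y) ∈ DD μ g → lg (μ.r q) (μ.r y) = lg q y

end Pool.Agent.Work.MP_8c604c_gt.O
end
end

-- merged part: Pool.Agent.Work.MP_8c604c_gt.O.Base
section
/-!
Elementary lemmas: the retraction, its derivative, the charts, the metric.
-/

set_option maxSynthPendingDepth 3
set_option linter.unusedSectionVars false

open Set Filter Topology MeasureTheory
open scoped ContDiff

noncomputable section
namespace Pool.Agent.Work.MP_8c604c_gt.O

theorem two_le_infty : (2 : WithTop ℕ∞) ≤ ∞ := by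
  exact WithTop.coe_le_coe.2 (le_top : (2 : ℕ∞) ≤ ⊤)

theorem inL_apply {V : Type} [NormedAddCommGroup V] [InnerProductSpace ℝ V] (u w : V) :
    inL V u w = inner ℝ u w := rfl

section bdet
variable {V : Type} [NormedAddCommGroup V] [InnerProductSpace ℝ V] [FiniteDimensional ℝ V]

theorem bdet_comp (B : V →L[ℝ] V →L[ℝ] ℝ) (T : V →L[ℝ] V) :
    bdet (B.bilinearComp T T) = T.det ^ 2 * bdet B := by
  set b := (stdOrthonormalBasis ℝ V).toBasis with hb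
  have e : ∀ C : V →L[ℝ] V →L[ℝ] ℝ, bdet C = (LinearMap.toMatrix₂ b b C.toLinearMap₁₂).det :=
    fun C => by
      unfold bdet; congr 1; ext i j; simp [hb]
  have e2 : (B.bilinearComp T T).toLinearMap₁₂ =
      B.toLinearMap₁₂.compl₁₂ (T : V →ₗ[ℝ] V) (T : V →ₗ[ℝ] V) := by
    ext u w; rfl
  rw [e, e, e2, LinearMap.toMatrix₂_compl₁₂ b b b b, Matrix.det_mul, Matrix.det_mul,
    Matrix.det_transpose, LinearMap.det_toMatrix]
  change T.det * _ * T.det = _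
  ring

theorem bdet_inner : bdet (inL V) = 1 := by
  have : (Matrix.of fun i j => inL V (stdOrthonormalBasis ℝ V i) (stdOrthonormalBasis ℝ V j)) = 1 := by
    ext i j
    exact (orthonormal_iff_ite.1 (stdOrthonormalBasis ℝ V).orthonormal i j).trans
      (Matrix.one_apply ..).symm
  rw [bdet, this, Matrix.det_one]

theorem bdet_smul (r : ℝ) (B : V →L[ℝ] V →L[ℝ] ℝ) :
    bdet (r • B) = r ^ Module.finrank ℝ V * bdet B := by
  have : (Matrix.of fun i j => (r • B) (stdOrthonormalBasis ℝ V i) (stdOrthonormalBasis ℝ V j))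
      = r • Matrix.of fun i j => B (stdOrthonormalBasis ℝ V i) (stdOrthonormalBasis ℝ V j) := rfl
  rw [bdet, this, Matrix.det_smul, Fintype.card_fin, bdet]

theorem bdet_pos {B : V →L[ℝ] V →L[ℝ] ℝ} (hs : ∀ u w, B u w = B w u) (hp : ∀ u, u ≠ 0 → 0 < B u u) :
    0 < bdet B := by
  refine Matrix.PosDef.det_pos (Matrix.PosDef.of_dotProduct_mulVec_pos ?_ fun v hv => ?_)
  · ext i j
    exact hs _ _
  · have hu : ∑ i, v i • stdOrthonormalBasis ℝ V i ≠ 0 := fun h0 => hv (funext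
      (Fintype.linearIndependent_iff.1 (stdOrthonormalBasis ℝ V).orthonormal.linearIndependent v h0))
    refine (hp _ hu).trans_eq ?_
    simp only [dotProduct, Matrix.mulVec, map_sum, map_smul, ContinuousLinearMap.sum_apply,
      ContinuousLinearMap.smul_apply, smul_eq_mul, Finset.mul_sum, Matrix.of_apply, star_trivial]
    rw [Finset.sum_comm]
    exact Finset.sum_congr rfl fun i _ => Finset.sum_congr rfl fun j _ => by ring

theorem continuous_bdet : Continuous (bdet : (V →L[ℝ] V →L[ℝ] ℝ) → ℝ) := by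
  refine Continuous.matrix_det (continuous_pi fun i => continuous_pi fun j => ?_)
  exact (continuous_id.clm_apply continuous_const).clm_apply continuous_const

end bdet

variable {E : Type} [NormedAddCommGroup E] [InnerProductSpace ℝ E] [FiniteDimensional ℝ E] {d : ℕ}

theorem sc_one (x : E × E) : sc 1 x = x := by simp [sc]

theorem sc_sc (m m' : ℝ) (x : E × E) : sc m (sc m' x) = sc (m * m') x := by simp [sc, smul_smul]

namespace Model
variable (μ : Model E d)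

theorem isOpen_UU : IsOpen μ.UU := μ.isOpen.preimage continuous_fst

theorem isCompact_M : IsCompact μ.M := μ.compact

variable {μ}

theorem r_mem {z : E} (hz : z ∈ μ.U) : μ.r z ∈ μ.M := ⟨μ.maps z hz, μ.idem z hz⟩

theorem contDiffAt_r {z : E} (hz : z ∈ μ.U) : ContDiffAt ℝ ∞ μ.r z :=
  μ.smooth.contDiffAt (μ.isOpen.mem_nhds hz)

theorem hasFDerivAt_r {z : E} (hz : z ∈ μ.U) : HasFDerivAt μ.r (μ.P z) z :=
  ((contDiffAt_r hz).differentiableAt (by simp)).hasFDerivAt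

theorem contDiffOn_P : ContDiffOn ℝ ∞ μ.P μ.U := μ.smooth.fderiv_of_isOpen μ.isOpen (by simp)

theorem contDiffAt_P {z : E} (hz : z ∈ μ.U) : ContDiffAt ℝ ∞ μ.P z :=
  contDiffOn_P.contDiffAt (μ.isOpen.mem_nhds hz)

theorem hasFDerivAt_P {z : E} (hz : z ∈ μ.U) : HasFDerivAt μ.P (fderiv ℝ μ.P z) z :=
  ((contDiffAt_P hz).differentiableAt (by simp)).hasFDerivAt

theorem contDiffOn_Q : ContDiffOn ℝ ∞ μ.Q μ.U := contDiffOn_const.sub contDiffOn_P

theorem Q_apply (z u : E) : μ.Q z u = u - μ.P z u := rfl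

theorem Q_eq_zero {z u : E} : μ.Q z u = 0 ↔ μ.P z u = u := by rw [Q_apply, sub_eq_zero, eq_comm]

theorem P_add_Q (z u : E) : μ.P z u + μ.Q z u = u := by rw [Q_apply, add_sub_cancel]

theorem NN_apply (z u w : E) : μ.NN z u w = inner ℝ (μ.Q z u) (μ.Q z w) := rfl

theorem GG_apply (g : Met E) (z u w : E) :
    μ.GG g z u w = g z u w + inner ℝ (μ.Q z u) (μ.Q z w) := rfl

theorem contDiffOn_NN : ContDiffOn ℝ ∞ μ.NN μ.U :=
  contDiffOn_clm_apply.2 fun u => contDiffOn_clm_apply.2 fun w =>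
    (contDiffOn_Q.clm_apply contDiffOn_const).inner ℝ (contDiffOn_Q.clm_apply contDiffOn_const)

theorem P_P {z : E} (hz : z ∈ μ.U) (u : E) : μ.P (μ.r z) (μ.P z u) = μ.P z u := by
  have h1 := (hasFDerivAt_r (μ.maps z hz)).comp z (hasFDerivAt_r hz)
  have h2 : μ.r =ᶠ[𝓝 z] μ.r ∘ μ.r := by
    filter_upwards [μ.isOpen.mem_nhds hz] with y hy using (μ.idem y hy).symm
  exact congrArg (fun L => L u) ((h1.congr_of_eventuallyEq h2).unique (hasFDerivAt_r hz))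

theorem P_idem {z : E} (hz : z ∈ μ.M) (u : E) : μ.P z (μ.P z u) = μ.P z u := by
  have := P_P hz.1 u
  rwa [hz.2] at this

theorem Q_P {z : E} (hz : z ∈ μ.M) (u : E) : μ.Q z (μ.P z u) = 0 := Q_eq_zero.2 (P_idem hz u)

theorem P_Q {z : E} (hz : z ∈ μ.M) (u : E) : μ.P z (μ.Q z u) = 0 := by
  rw [Q_apply, map_sub, P_idem hz, sub_self]

theorem Q_of_P {z u : E} (h : μ.P z u = 0) : μ.Q z u = u := by rw [Q_apply, h, sub_zero]

theorem fderiv_P_symm {z : E} (hz : z ∈ μ.U) (u w : E) :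
    fderiv ℝ μ.P z u w = fderiv ℝ μ.P z w u :=
  ((contDiffAt_r hz).isSymmSndFDerivAt (by
    simp only [minSmoothness_of_isRCLikeNormedField]; exact two_le_infty)).eq u w

/-- The derivative of `P_P`. -/
theorem fderiv_P_P {z : E} (hz : z ∈ μ.U) (u w : E) :
    fderiv ℝ μ.P (μ.r z) (μ.P z u) (μ.P z w) + μ.P (μ.r z) (fderiv ℝ μ.P z u w) =
      fderiv ℝ μ.P z u w := by
  have h0 := (hasFDerivAt_P hz).clm_apply (hasFDerivAt_const w z)
  have h1 := ((hasFDerivAt_P (μ.maps z hz)).comp z (hasFDerivAt_r hz)).clm_apply h0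
  have h2 : (fun y => μ.P y w) =ᶠ[𝓝 z] fun y => (μ.P ∘ μ.r) y (μ.P y w) := by
    filter_upwards [μ.isOpen.mem_nhds hz] with y hy using (P_P hy w).symm
  have h3 := congrArg (fun L => L u) ((h1.congr_of_eventuallyEq h2).unique h0)
  simpa [add_comm] using h3

/-- The second fundamental form is normal. -/
theorem P_fderiv_P {z u w : E} (hz : z ∈ μ.M) (hu : μ.P z u = u) (hw : μ.P z w = w) :
    μ.P z (fderiv ℝ μ.P z u w) = 0 := by
  have := fderiv_P_P hz.1 u w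
  rw [hz.2, hu, hw] at this
  exact add_eq_left.1 this

/-- The velocity of a curve in `M` is tangent. -/
theorem tan_of_curve {c : ℝ → E} {c' : E} {t : ℝ} (hc : HasDerivAt c c' t)
    (hM : ∀ᶠ s in 𝓝 t, c s ∈ μ.M) : μ.P (c t) c' = c' := by
  have h1 := (hasFDerivAt_r hM.self_of_nhds.1).comp_hasDerivAt t hc
  exact (h1.congr_of_eventuallyEq (hM.mono fun s hs => hs.2.symm)).unique hc

/-- The derivative of a map into `M` is tangent. -/
theorem tan_of_map {X : Type} [NormedAddCommGroup X] [NormedSpace ℝ X] {f : X → E} {f' : X →L[ℝ] E}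
    {x : X} (hf : HasFDerivAt f f' x) (hM : ∀ᶠ y in 𝓝 x, f y ∈ μ.M) (v : X) :
    μ.P (f x) (f' v) = f' v := by
  have h1 := (hasFDerivAt_r hM.self_of_nhds.1).comp x hf
  exact congrArg (fun L => L v)
    ((h1.congr_of_eventuallyEq (hM.mono fun s hs => hs.2.symm)).unique hf)

theorem contDiffOn_R : ContDiffOn ℝ ∞ μ.R μ.UU :=
  (μ.smooth.comp contDiffOn_fst fun _ hx => hx).prodMk
    ((contDiffOn_P.comp contDiffOn_fst fun _ hx => hx).clm_apply contDiffOn_snd)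

theorem contDiffAt_R {x : E × E} (hx : x.1 ∈ μ.U) : ContDiffAt ℝ ∞ μ.R x :=
  contDiffOn_R.contDiffAt (μ.isOpen_UU.mem_nhds hx)

theorem hasFDerivAt_R {x : E × E} (hx : x.1 ∈ μ.U) : HasFDerivAt μ.R (μ.DR x) x :=
  ((contDiffAt_R hx).differentiableAt (by simp)).hasFDerivAt

theorem contDiffOn_DR : ContDiffOn ℝ ∞ μ.DR μ.UU :=
  contDiffOn_R.fderiv_of_isOpen μ.isOpen_UU (by simp)

theorem DR_apply {x : E × E} (hx : x.1 ∈ μ.U) (δ : E × E) :
    μ.DR x δ = (μ.P x.1 δ.1, fderiv ℝ μ.P x.1 δ.1 x.2 + μ.P x.1 δ.2) := by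
  have h1 := ((hasFDerivAt_r hx).comp x hasFDerivAt_fst).prodMk
    (((hasFDerivAt_P hx).comp x hasFDerivAt_fst).clm_apply hasFDerivAt_snd)
  have h2 := congrArg (fun L => L δ) ((hasFDerivAt_R hx).unique h1)
  simpa [add_comm] using h2

theorem DR_fst {x : E × E} (hx : x.1 ∈ μ.U) (δ : E × E) : (μ.DR x δ).1 = μ.P x.1 δ.1 := by
  rw [DR_apply hx]

theorem DR_fibre {x : E × E} (hx : x.1 ∈ μ.U) (u : E) : μ.DR x (0, u) = (0, μ.P x.1 u) := by
  rw [DR_apply hx]; simp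

theorem R_mem {x : E × E} (hx : x.1 ∈ μ.U) : μ.R x ∈ μ.TM := ⟨r_mem hx, P_P hx _⟩

theorem R_of_TM {x : E × E} (hx : x ∈ μ.TM) : μ.R x = x := Prod.ext hx.1.2 hx.2

theorem R_R {x : E × E} (hx : x.1 ∈ μ.U) : μ.R (μ.R x) = μ.R x := R_of_TM (R_mem hx)

theorem DR_DR {x : E × E} (hx : x.1 ∈ μ.U) (δ : E × E) : μ.DR (μ.R x) (μ.DR x δ) = μ.DR x δ := by
  have h1 := (hasFDerivAt_R (x := μ.R x) (μ.maps _ hx)).comp x (hasFDerivAt_R hx)
  have h2 : μ.R =ᶠ[𝓝 x] μ.R ∘ μ.R := by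
    filter_upwards [μ.isOpen_UU.mem_nhds hx] with y hy using (R_R hy).symm
  exact congrArg (fun L => L δ) ((h1.congr_of_eventuallyEq h2).unique (hasFDerivAt_R hx))

theorem DR_idem {x : E × E} (hx : x ∈ μ.TM) (δ : E × E) : μ.DR x (μ.DR x δ) = μ.DR x δ := by
  have := DR_DR hx.1.1 δ
  rwa [R_of_TM hx] at this

theorem R_sc (m : ℝ) (x : E × E) : μ.R (sc m x) = sc m (μ.R x) := by simp [R, sc]

theorem isOpen_OO : IsOpen μ.OO := by
  have : μ.OO = μ.UU ∩ (fun x : E × E => μ.P x.1 x.2) ⁻¹' {0}ᶜ := rfl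
  rw [this]
  exact ContinuousOn.isOpen_inter_preimage contDiffOn_R.continuousOn.snd μ.isOpen_UU
    isOpen_compl_singleton

theorem TT_OO {x : E × E} (hx : x ∈ μ.TT) : x ∈ μ.OO := ⟨hx.1.1, hx.2.1.symm ▸ hx.2.2⟩

theorem TT_TM {x : E × E} (hx : x ∈ μ.TT) : x ∈ μ.TM := ⟨hx.1, hx.2.1⟩

theorem mem_TT {x : E × E} (h1 : x ∈ μ.TM) (h2 : x ∈ μ.OO) : x ∈ μ.TT := ⟨h1.1, h1.2, h1.2 ▸ h2.2⟩

theorem R_mem_TT {x : E × E} (hx : x ∈ μ.OO) : μ.R x ∈ μ.TT := ⟨r_mem hx.1, P_P hx.1 _, hx.2⟩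

theorem R_of_TT {x : E × E} (hx : x ∈ μ.TT) : μ.R x = x := R_of_TM (TT_TM hx)

theorem sc_mem_OO {m : ℝ} (hm : m ≠ 0) {x : E × E} (hx : x ∈ μ.OO) : sc m x ∈ μ.OO :=
  ⟨hx.1, by simpa [sc, hm] using hx.2⟩

theorem sc_mem_TT {m : ℝ} (hm : m ≠ 0) {x : E × E} (hx : x ∈ μ.TT) : sc m x ∈ μ.TT :=
  ⟨hx.1, by simp [sc, hx.2.1], smul_ne_zero hm hx.2.2⟩

theorem mem_Bs {x : E × E} {u : E} : u ∈ μ.Bs x ↔ ∃ a : ℝ, μ.P x.1 u = a • μ.P x.1 x.2 := by
  rw [Bs, Submodule.mem_comap, Submodule.mem_span_singleton]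
  exact exists_congr fun a => eq_comm

theorem mem_Bdir {x v : E × E} :
    v ∈ μ.Bdir x ↔ ∃ a : ℝ, μ.DR x v = (0, a • μ.P x.1 x.2) := by
  rw [Bdir, Submodule.mem_comap, Submodule.mem_span_singleton]
  refine exists_congr fun a => ?_
  rw [eq_comm, Prod.smul_mk, smul_zero]
  rfl

theorem fibre_mem_Bdir {x : E × E} (hx : x.1 ∈ μ.U) {u : E} : (0, u) ∈ μ.Bdir x ↔ u ∈ μ.Bs x := by
  rw [mem_Bdir, mem_Bs, DR_fibre hx]
  simp

theorem snd_mem_Bs (x : E × E) : x.2 ∈ μ.Bs x := mem_Bs.2 ⟨1, (one_smul _ _).symm⟩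

theorem mem_Bs_of_P {x : E × E} {u : E} (h : μ.P x.1 u = 0) : u ∈ μ.Bs x :=
  mem_Bs.2 ⟨0, by rw [h, zero_smul]⟩

theorem sub_DR_mem {x : E × E} (hx : x ∈ μ.TM) (δ : E × E) : δ - μ.DR x δ ∈ μ.Bdir x :=
  mem_Bdir.2 ⟨0, by rw [map_sub, DR_idem hx, sub_self, zero_smul]; rfl⟩

theorem Bdir_R {x : E × E} (hx : x.1 ∈ μ.U) {δ : E × E} :
    μ.DR x δ ∈ μ.Bdir (μ.R x) ↔ δ ∈ μ.Bdir x := by
  rw [mem_Bdir, mem_Bdir, DR_DR hx]
  simp only [R, P_P hx]

/-! ### Charts -/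

theorem χ_M (i : Fin (μ.N + 1)) (a : RF d) : μ.χ i a ∈ μ.M := ⟨μ.W_sub i (μ.χ_mem i a), μ.χ_fix i a⟩

theorem hasFDerivAt_χ (i : Fin (μ.N + 1)) (a : RF d) : HasFDerivAt (μ.χ i) (fderiv ℝ (μ.χ i) a) a :=
  ((μ.χ_smooth i).differentiable (by simp) a).hasFDerivAt

theorem contDiffAt_ρ {i : Fin (μ.N + 1)} {z : E} (hz : z ∈ μ.W i) : ContDiffAt ℝ ∞ (μ.ρ i) z :=
  (μ.ρ_smooth i).contDiffAt ((μ.W_open i).mem_nhds hz)

theorem hasFDerivAt_ρ {i : Fin (μ.N + 1)} {z : E} (hz : z ∈ μ.W i) :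
    HasFDerivAt (μ.ρ i) (fderiv ℝ (μ.ρ i) z) z :=
  ((contDiffAt_ρ hz).differentiableAt (by simp)).hasFDerivAt

theorem P_χ (i : Fin (μ.N + 1)) (a b : RF d) :
    μ.P (μ.χ i a) (fderiv ℝ (μ.χ i) a b) = fderiv ℝ (μ.χ i) a b :=
  tan_of_map (hasFDerivAt_χ i a) (Eventually.of_forall (χ_M i)) b

theorem Dρ_Dχ (i : Fin (μ.N + 1)) (a b : RF d) :
    fderiv ℝ (μ.ρ i) (μ.χ i a) (fderiv ℝ (μ.χ i) a b) = b := by
  have h1 := (hasFDerivAt_ρ (μ.χ_mem i a)).comp a (hasFDerivAt_χ i a)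
  rw [show μ.ρ i ∘ μ.χ i = id from funext (μ.ρχ i)] at h1
  exact congrArg (fun L => L b) (h1.unique (hasFDerivAt_id a))

theorem χρ_r {i : Fin (μ.N + 1)} {z : E} (hz : z ∈ μ.U) (hi : μ.r z ∈ μ.W i) :
    ∀ᶠ y in 𝓝 z, y ∈ μ.U ∧ μ.r y ∈ μ.W i ∧ μ.χ i (μ.ρ i (μ.r y)) = μ.r y := by
  filter_upwards [μ.isOpen.mem_nhds hz,
    (contDiffAt_r hz).continuousAt.eventually ((μ.W_open i).mem_nhds hi)] with y h1 h2
  exact ⟨h1, h2, μ.χρ i _ h2 (μ.idem y h1)⟩

theorem Dχ_Dρ {i : Fin (μ.N + 1)} {z : E} (hz : z ∈ μ.M) (hi : z ∈ μ.W i) (u : E) :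
    fderiv ℝ (μ.χ i) (μ.ρ i z) (fderiv ℝ (μ.ρ i) z (μ.P z u)) = μ.P z u := by
  have hi' : μ.r z ∈ μ.W i := hz.2.symm ▸ hi
  have h1 := (hasFDerivAt_χ i _).comp z ((hasFDerivAt_ρ hi').comp z (hasFDerivAt_r hz.1))
  have h2 := congrArg (fun L => L u) ((h1.congr_of_eventuallyEq
    ((χρ_r hz.1 hi').mono fun y hy => hy.2.2.symm)).unique (hasFDerivAt_r hz.1))
  simpa [hz.2] using h2

theorem Dχ_inj (i : Fin (μ.N + 1)) (a : RF d) : Function.Injective (fderiv ℝ (μ.χ i) a) :=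
  Function.LeftInverse.injective (Dρ_Dχ i a)

theorem exists_chart {z : E} (hz : z ∈ μ.M) : ∃ i a, μ.χ i a = z := by
  obtain ⟨i, hi⟩ := μ.cover z hz.1 hz.2
  exact ⟨i, _, μ.χρ i z hi hz.2⟩

theorem tan_iff (i : Fin (μ.N + 1)) (a : RF d) (u : E) :
    μ.P (μ.χ i a) u = u ↔ ∃ b, fderiv ℝ (μ.χ i) a b = u := by
  refine ⟨fun h => ⟨fderiv ℝ (μ.ρ i) (μ.χ i a) u, ?_⟩, ?_⟩
  · have := Dχ_Dρ (χ_M i a) (μ.χ_mem i a) u
    rwa [μ.ρχ, h] at this
  · rintro ⟨b, rfl⟩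
    exact P_χ i a b

/-- The tangent space. -/
def Tan (μ : Model E d) (z : E) : Submodule ℝ E := LinearMap.ker (μ.Q z : E →ₗ[ℝ] E)

theorem mem_Tan {z u : E} : u ∈ μ.Tan z ↔ μ.P z u = u := Q_eq_zero

theorem range_P {z : E} (hz : z ∈ μ.M) : LinearMap.range (μ.P z : E →ₗ[ℝ] E) = μ.Tan z := by
  ext u
  rw [mem_Tan]
  exact ⟨by rintro ⟨w, rfl⟩; exact P_idem hz w, fun h => ⟨u, h⟩⟩

theorem finrank_Tan {z : E} (hz : z ∈ μ.M) : Module.finrank ℝ (μ.Tan z) = d := by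
  obtain ⟨i, a, rfl⟩ := exists_chart hz
  have : μ.Tan (μ.χ i a) = LinearMap.range (fderiv ℝ (μ.χ i) a : RF d →ₗ[ℝ] E) := by
    ext u
    rw [mem_Tan, tan_iff]
    rfl
  rw [this, LinearMap.finrank_range_of_inj (Dχ_inj i a), finrank_euclideanSpace_fin]

theorem finrank_ker_P {z : E} (hz : z ∈ μ.M) :
    d + Module.finrank ℝ (LinearMap.ker (μ.P z : E →ₗ[ℝ] E)) = Module.finrank ℝ E := by
  rw [← LinearMap.finrank_range_add_finrank_ker (μ.P z : E →ₗ[ℝ] E), range_P hz, finrank_Tan hz]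

theorem M_nonempty (μ : Model E d) : μ.M.Nonempty := ⟨_, χ_M 0 0⟩

theorem exists_tan {z : E} (hz : z ∈ μ.M) : ∃ u, (z, u) ∈ μ.TT := by
  have h1 : μ.Tan z ≠ ⊥ := fun h => by
    have := finrank_Tan hz
    rw [h, finrank_bot] at this
    have := μ.two
    omega
  obtain ⟨u, hu, h0⟩ := Submodule.exists_mem_ne_zero_of_ne_bot h1
  exact ⟨u, hz, mem_Tan.1 hu, h0⟩

theorem exists_overlap (μ : Model E d) (i : Fin (μ.N + 1)) : ∃ a b, μ.χ i a = μ.χ 0 b := by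
  obtain ⟨a, ha⟩ := (μ.null i).exists
  exact ⟨a, _, (μ.χρ 0 _ ha (μ.χ_fix i a)).symm⟩

theorem isPreconnected_M (μ : Model E d) : IsPreconnected μ.M := by
  have h1 : ∀ i, IsPreconnected (range (μ.χ i)) := fun i =>
    isPreconnected_range (μ.χ_smooth i).continuous
  refine isPreconnected_of_forall (μ.χ 0 0) fun y hy => ?_
  obtain ⟨i, a, rfl⟩ := exists_chart hy
  obtain ⟨a', b, e⟩ := μ.exists_overlap i
  refine ⟨range (μ.χ 0) ∪ range (μ.χ i), ?_, Or.inl ⟨0, rfl⟩, Or.inr ⟨a, rfl⟩,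
    IsPreconnected.union (μ.χ 0 b) ⟨b, rfl⟩ ⟨a', e⟩ (h1 0) (h1 i)⟩
  rintro _ (⟨c, rfl⟩ | ⟨c, rfl⟩) <;> exact χ_M _ _

/-- The charts of the tangent bundle. -/
def κ (μ : Model E d) (i : Fin (μ.N + 1)) (y : RF d × RF d) : E × E :=
  (μ.χ i y.1, fderiv ℝ (μ.χ i) y.1 y.2)

/-- Their inverses. -/
def σ (μ : Model E d) (i : Fin (μ.N + 1)) (x : E × E) : RF d × RF d :=
  (μ.ρ i x.1, fderiv ℝ (μ.ρ i) x.1 x.2)

theorem contDiff_κ (i : Fin (μ.N + 1)) : ContDiff ℝ ∞ (μ.κ i) :=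
  ((μ.χ_smooth i).comp contDiff_fst).prodMk
    ((((μ.χ_smooth i).fderiv_right (m := ∞) (by simp)).comp contDiff_fst).clm_apply contDiff_snd)

theorem contDiffOn_σ (i : Fin (μ.N + 1)) : ContDiffOn ℝ ∞ (μ.σ i) {x | x.1 ∈ μ.W i} :=
  ((μ.ρ_smooth i).comp contDiffOn_fst fun _ hx => hx).prodMk
    ((((μ.ρ_smooth i).fderiv_of_isOpen (μ.W_open i) (m := ∞) (by simp)).comp contDiffOn_fst
      fun _ hx => hx).clm_apply contDiffOn_snd)

theorem κ_TM (i : Fin (μ.N + 1)) (y : RF d × RF d) : μ.κ i y ∈ μ.TM := ⟨χ_M i _, P_χ i _ _⟩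

theorem κ_TT (i : Fin (μ.N + 1)) {y : RF d × RF d} (hy : y.2 ≠ 0) : μ.κ i y ∈ μ.TT :=
  ⟨χ_M i _, P_χ i _ _, fun h => hy (Dχ_inj i y.1 (h.trans (map_zero _).symm))⟩

theorem σκ (i : Fin (μ.N + 1)) (y : RF d × RF d) : μ.σ i (μ.κ i y) = y :=
  Prod.ext (μ.ρχ i _) (Dρ_Dχ i _ _)

theorem κσ {i : Fin (μ.N + 1)} {x : E × E} (hx : x ∈ μ.TM) (hi : x.1 ∈ μ.W i) :
    μ.κ i (μ.σ i x) = x := by
  refine Prod.ext (μ.χρ i _ hi hx.1.2) ?_
  have := Dχ_Dρ hx.1 hi x.2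
  rwa [hx.2] at this

theorem exists_κ {x : E × E} (hx : x ∈ μ.TT) : ∃ i y, y.2 ≠ 0 ∧ μ.κ i y = x := by
  obtain ⟨i, hi⟩ := μ.cover _ hx.1.1 hx.1.2
  have e := κσ (TT_TM hx) hi
  refine ⟨i, _, fun h => hx.2.2 ?_, e⟩
  rw [← e, κ, h, map_zero]

theorem isPreconnected_TT (μ : Model E d) : IsPreconnected μ.TT := by
  have hr : (1 : Cardinal) < Module.rank ℝ (RF d) := by
    rw [← Module.finrank_eq_rank, finrank_euclideanSpace_fin]
    exact_mod_cast (by have := μ.two; omega : 1 < d)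
  have h1 : ∀ i, IsPreconnected (μ.κ i '' (univ ×ˢ {0}ᶜ)) := fun i =>
    (isPreconnected_univ.prod (isConnected_compl_singleton_of_one_lt_rank hr 0).isPreconnected).image
      _ (contDiff_κ i).continuous.continuousOn
  have h2 : ∀ i, μ.κ i '' (univ ×ˢ {0}ᶜ) ⊆ μ.TT := by
    rintro i _ ⟨y, hy, rfl⟩
    exact κ_TT i hy.2
  have h3 : ∀ i, ∀ x ∈ μ.TT, x.1 ∈ μ.W i → x ∈ μ.κ i '' (univ ×ˢ {0}ᶜ) := fun i x hx hi => by
    have e := κσ (TT_TM hx) hi
    refine ⟨_, ⟨trivial, fun h => hx.2.2 ?_⟩, e⟩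
    rw [← e, κ, show (μ.σ i x).2 = 0 from h, map_zero]
  obtain ⟨u, hu⟩ := exists_tan (χ_M (μ := μ) 0 0)
  refine isPreconnected_of_forall (μ.χ 0 0, u) fun y hy => ?_
  obtain ⟨i, hi⟩ := μ.cover _ hy.1.1 hy.1.2
  obtain ⟨a, b, e⟩ := μ.exists_overlap i
  obtain ⟨w, hw⟩ := exists_tan (χ_M (μ := μ) 0 b)
  exact ⟨_ ∪ _, union_subset (h2 0) (h2 i), Or.inl (h3 0 _ hu (μ.χ_mem 0 0)), Or.inr (h3 i y hy hi),
    IsPreconnected.union _ (h3 0 _ hw (μ.χ_mem 0 b)) (h3 i _ hw (e ▸ μ.χ_mem i a)) (h1 0) (h1 i)⟩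

/-- A compact slice meeting every ray. -/
def slice (μ : Model E d) : Set (E × E) := {x | x ∈ μ.TM ∧ ‖x.2‖ = 1}

theorem isClosed_TM (μ : Model E d) : IsClosed μ.TM := by
  have h1 : IsClosed {x : E × E | x.1 ∈ μ.M} := μ.isCompact_M.isClosed.preimage continuous_fst
  have h2 : ContinuousOn (fun x : E × E => μ.Q x.1 x.2) {x : E × E | x.1 ∈ μ.M} :=
    (contDiffOn_Q.continuousOn.comp continuousOn_fst fun _ hx => hx.1).clm_apply continuousOn_snd
  convert h2.preimage_isClosed_of_isClosed h1 (isClosed_singleton (x := 0)) using 1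
  ext x
  exact and_congr_right fun _ => Q_eq_zero.symm

theorem isCompact_slice (μ : Model E d) : IsCompact μ.slice := by
  refine (μ.isCompact_M.prod (isCompact_sphere (0 : E) 1)).of_isClosed_subset
    (μ.isClosed_TM.inter (isClosed_eq continuous_snd.norm continuous_const)) ?_
  exact fun x hx => ⟨hx.1.1, by simpa using hx.2⟩

theorem slice_subset : μ.slice ⊆ μ.TT := fun x hx =>
  ⟨hx.1.1, hx.1.2, by rw [← norm_ne_zero_iff, hx.2]; exact one_ne_zero⟩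

theorem exists_slice {x : E × E} (hx : x ∈ μ.TT) : ∃ y ∈ μ.slice, ∃ m : ℝ, 0 < m ∧ x = sc m y := by
  have n2 := norm_pos_iff.2 hx.2.2
  refine ⟨sc ‖x.2‖⁻¹ x, ⟨TT_TM (sc_mem_TT (inv_ne_zero n2.ne') hx), ?_⟩, ‖x.2‖, n2, ?_⟩
  · simp [sc, norm_smul, n2.ne']
  · rw [sc_sc, mul_inv_cancel₀ n2.ne', sc_one]

theorem finrank_Bs {x : E × E} (hx : x ∈ μ.TT) :
    d + Module.finrank ℝ (μ.Bs x) = Module.finrank ℝ E + 1 := by
  have h1 : μ.Bs x = LinearMap.ker (μ.P x.1 : E →ₗ[ℝ] E) ⊔ Submodule.span ℝ {x.2} := by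
    ext u
    rw [mem_Bs, Submodule.mem_sup]
    constructor
    · rintro ⟨a, ha⟩
      refine ⟨u - a • x.2, ?_, a • x.2, Submodule.smul_mem _ _ (Submodule.mem_span_singleton_self _),
        sub_add_cancel _ _⟩
      change μ.P x.1 (u - a • x.2) = 0
      rw [map_sub, map_smul, ha, sub_self]
    · rintro ⟨y, hy, z, hz, rfl⟩
      obtain ⟨a, rfl⟩ := Submodule.mem_span_singleton.1 hz
      exact ⟨a, by rw [map_add, show μ.P x.1 y = 0 from hy, zero_add, map_smul]⟩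
  have h2 : LinearMap.ker (μ.P x.1 : E →ₗ[ℝ] E) ⊓ Submodule.span ℝ {x.2} = ⊥ := by
    rw [eq_bot_iff]
    rintro u ⟨hu, hz⟩
    obtain ⟨a, rfl⟩ := Submodule.mem_span_singleton.1 hz
    have : μ.P x.1 (a • x.2) = 0 := hu
    rwa [map_smul, hx.2.1] at this
  have h3 := Submodule.finrank_sup_add_finrank_inf_eq (LinearMap.ker (μ.P x.1 : E →ₗ[ℝ] E))
    (Submodule.span ℝ {x.2})
  rw [h2, finrank_bot, finrank_span_singleton hx.2.2, ← h1] at h3
  have := finrank_ker_P hx.1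
  omega

end Model

open Model

namespace IsMetric
variable {μ : Model E d} {g : Met E} (h : IsMetric μ g)
include h

theorem vert {z u : E} (hz : z ∈ μ.U) (hu : μ.P z u = 0) (w : E) : g z u w = 0 := by
  rw [← h.inv z u w hz, hu]; simp

theorem vert' {z u : E} (hz : z ∈ μ.U) (hu : μ.P z u = 0) (w : E) : g z w u = 0 := by
  rw [h.symm z w _ hz, h.vert hz hu]

theorem P_left {z : E} (hz : z ∈ μ.M) (u w : E) : g z (μ.P z u) w = g z u w := by
  rw [← h.inv z _ w hz.1, P_idem hz, h.inv z u w hz.1]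

theorem P_right {z : E} (hz : z ∈ μ.M) (u w : E) : g z u (μ.P z w) = g z u w := by
  rw [h.symm _ _ _ hz.1, h.P_left hz, h.symm _ _ _ hz.1]

theorem nonneg {z : E} (hz : z ∈ μ.U) (u : E) : 0 ≤ g z u u := by
  by_cases hu : μ.P z u = 0
  · rw [h.vert hz hu]
  · exact (h.pos z u hz hu).le

theorem P_eq_zero {z u : E} (hz : z ∈ μ.U) (hu : g z u u = 0) : μ.P z u = 0 := by
  by_contra hc
  exact (h.pos z u hz hc).ne' hu

theorem eq_zero_of_tan {z u : E} (hz : z ∈ μ.U) (h1 : μ.P z u = u) (h2 : g z u u = 0) : u = 0 :=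
  h1.symm.trans (h.P_eq_zero hz h2)

theorem cauchy {z : E} (hz : z ∈ μ.U) (u w : E) : |g z u w| ≤ √(g z u u) * √(g z w w) := by
  rw [← Real.sqrt_mul (h.nonneg hz u)]
  refine Real.abs_le_sqrt ?_
  have := discrim_le_zero (a := g z w w) (b := 2 * g z u w) (c := g z u u) fun t => by
    have h1 := h.nonneg hz (u + t • w)
    simp only [map_add, map_smul, add_apply, smul_apply, smul_eq_mul, h.symm z w u hz] at h1
    linarith
  rw [discrim] at this
  linarith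

theorem contDiffAt {z : E} (hz : z ∈ μ.U) : ContDiffAt ℝ ∞ g z :=
  h.smooth.contDiffAt (μ.isOpen.mem_nhds hz)

theorem hasFDerivAt {z : E} (hz : z ∈ μ.U) : HasFDerivAt g (fderiv ℝ g z) z :=
  ((h.contDiffAt hz).differentiableAt (by simp)).hasFDerivAt

/-- The derivative of the invariance. -/
theorem fderiv_inv {z : E} (hz : z ∈ μ.U) (a u w : E) :
    fderiv ℝ g z a u w = fderiv ℝ g (μ.r z) (μ.P z a) (μ.P z u) (μ.P z w) +
      g (μ.r z) (fderiv ℝ μ.P z a u) (μ.P z w) + g (μ.r z) (μ.P z u) (fderiv ℝ μ.P z a w) := by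
  have h0 := fun v => (hasFDerivAt_P hz).clm_apply (hasFDerivAt_const v z)
  have h1 := (((h.hasFDerivAt (μ.maps z hz)).comp z (hasFDerivAt_r hz)).clm_apply (h0 u)).clm_apply
    (h0 w)
  have h1' := ((h.hasFDerivAt hz).clm_apply (hasFDerivAt_const u z)).clm_apply (hasFDerivAt_const w z)
  have h2 : (fun y => g y u w) =ᶠ[𝓝 z] fun y => (g ∘ μ.r) y (μ.P y u) (μ.P y w) := by
    filter_upwards [μ.isOpen.mem_nhds hz] with y hy using (h.inv y u w hy).symm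
  have h3 := congrArg (fun L => L a) (h1'.unique (h1.congr_of_eventuallyEq h2))
  simp at h3
  linarith

theorem fderiv_symm {z : E} (hz : z ∈ μ.U) (a u w : E) :
    fderiv ℝ g z a u w = fderiv ℝ g z a w u := by
  have hd := h.hasFDerivAt hz
  have h1 := (hd.clm_apply (hasFDerivAt_const u z)).clm_apply (hasFDerivAt_const w z)
  have h1' := (hd.clm_apply (hasFDerivAt_const w z)).clm_apply (hasFDerivAt_const u z)
  have h2 : (fun y => g y u w) =ᶠ[𝓝 z] fun y => g y w u := by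
    filter_upwards [μ.isOpen.mem_nhds hz] with y hy using h.symm y u w hy
  simpa using congrArg (fun L => L a) ((h1.congr_of_eventuallyEq h2.symm).unique h1')

theorem GG_pos {z u : E} (hz : z ∈ μ.U) (hu : u ≠ 0) : 0 < μ.GG g z u u := by
  rw [GG_apply]
  have h0 := h.nonneg hz u
  by_contra hc
  have h1 : 0 ≤ inner ℝ (μ.Q z u) (μ.Q z u) := real_inner_self_nonneg
  have h3 : μ.Q z u = 0 := inner_self_eq_zero.1 (by linarith : inner ℝ (μ.Q z u) (μ.Q z u) = 0)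
  exact hu (h.eq_zero_of_tan hz (Q_eq_zero.1 h3) (by linarith))

theorem GG_symm {z : E} (hz : z ∈ μ.U) (u w : E) : μ.GG g z u w = μ.GG g z w u := by
  rw [GG_apply, GG_apply, h.symm z u w hz, real_inner_comm]

theorem contDiffOn_GG : ContDiffOn ℝ ∞ (μ.GG g) μ.U := h.smooth.add contDiffOn_NN

theorem detG_pos {z : E} (hz : z ∈ μ.U) : 0 < μ.detG g z :=
  bdet_pos (h.GG_symm hz) fun _ hu => h.GG_pos hz hu

theorem continuousOn_detG : ContinuousOn (μ.detG g) μ.U :=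
  continuous_bdet.comp_continuousOn h.contDiffOn_GG.continuousOn

theorem spd_pos {x : E × E} (hx : x ∈ μ.OO) : 0 < spd g x := Real.sqrt_pos.2 (h.pos _ _ hx.1 hx.2)

theorem spd_sq {x : E × E} (hx : x.1 ∈ μ.U) : spd g x ^ 2 = g x.1 x.2 x.2 :=
  Real.sq_sqrt (h.nonneg hx _)

theorem contDiffOn_spd : ContDiffOn ℝ ∞ (spd g) μ.OO := by
  refine ContDiffOn.sqrt ?_ fun x hx => (h.pos _ _ hx.1 hx.2).ne'
  exact ((h.smooth.comp contDiffOn_fst fun _ hx => hx.1).clm_apply contDiffOn_snd).clm_apply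
    contDiffOn_snd

theorem contDiffOn_vel : ContDiffOn ℝ ∞ (vel g) μ.OO :=
  (h.contDiffOn_spd.inv fun x hx => (h.spd_pos hx).ne').smul contDiffOn_snd

theorem contDiffOn_al : ContDiffOn ℝ ∞ (al g) μ.OO :=
  ((h.smooth.comp contDiffOn_fst fun _ hx => hx.1).clm_apply h.contDiffOn_vel).clm_comp
    contDiffOn_const

omit h in
theorem _root_.Pool.Agent.Work.MP_8c604c_gt.O.spd_sc {m : ℝ} (hm : 0 ≤ m) (x : E × E) :
    spd g (sc m x) = m * spd g x := by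
  simp only [spd, sc, map_smul, smul_apply, smul_eq_mul]
  rw [← mul_assoc, Real.sqrt_mul (mul_self_nonneg m), Real.sqrt_mul_self hm]

omit h in
theorem _root_.Pool.Agent.Work.MP_8c604c_gt.O.vel_sc {m : ℝ} (hm : 0 < m) (x : E × E) :
    vel g (sc m x) = vel g x := by
  rw [vel, spd_sc hm.le, vel, sc, smul_smul, mul_inv, mul_right_comm, inv_mul_cancel₀ hm.ne', one_mul]

theorem spd_R {x : E × E} (hx : x.1 ∈ μ.U) : spd g (μ.R x) = spd g x :=
  congrArg Real.sqrt (h.inv _ _ _ hx)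

theorem vel_R {x : E × E} (hx : x.1 ∈ μ.U) : vel g (μ.R x) = μ.P x.1 (vel g x) := by
  rw [vel, h.spd_R hx, vel, map_smul]
  rfl

omit h in
theorem _root_.Pool.Agent.Work.MP_8c604c_gt.O.P_vel {x : E × E} (hx : x ∈ μ.TT) :
    μ.P x.1 (vel g x) = vel g x := by
  rw [vel, map_smul, hx.2.1]

theorem vel_unit {x : E × E} (hx : x ∈ μ.OO) : g x.1 (vel g x) (vel g x) = 1 := by
  simp only [vel, map_smul, smul_apply, smul_eq_mul]
  rw [← h.spd_sq hx.1]
  have := h.spd_pos hx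
  field_simp

theorem snd_eq {x : E × E} (hx : x ∈ μ.OO) : x.2 = spd g x • vel g x := by
  rw [vel, smul_smul, mul_inv_cancel₀ (h.spd_pos hx).ne', one_smul]

theorem g_vel {x : E × E} (hx : x ∈ μ.OO) (u : E) :
    g x.1 (vel g x) u = (spd g x)⁻¹ * g x.1 u x.2 := by
  rw [vel, map_smul, smul_apply, h.symm _ _ _ hx.1, smul_eq_mul]

theorem g_vel_snd {x : E × E} (hx : x ∈ μ.OO) : g x.1 (vel g x) x.2 = spd g x := by
  rw [h.g_vel hx, ← h.spd_sq hx.1, sq, inv_mul_cancel_left₀ (h.spd_pos hx).ne']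

/-- A unit vector defines a point of `OO` with that velocity. -/
theorem unit_mem {z v : E} (hz : z ∈ μ.U) (h1 : g z v v = 1) :
    (z, v) ∈ μ.OO ∧ spd g (z, v) = 1 ∧ vel g (z, v) = v := by
  have hs : spd g (z, v) = 1 := by simp [spd, h1]
  refine ⟨⟨hz, fun hc => ?_⟩, hs, by simp [vel, hs]⟩
  rw [h.vert hz hc] at h1
  exact zero_ne_one h1

theorem vel_mem_OO {x : E × E} (hx : x ∈ μ.OO) : (x.1, vel g x) ∈ μ.OO :=
  sc_mem_OO (inv_ne_zero (h.spd_pos hx).ne') hx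

theorem vel_mem_TT {x : E × E} (hx : x ∈ μ.TT) : (x.1, vel g x) ∈ μ.TT :=
  sc_mem_TT (inv_ne_zero (h.spd_pos (TT_OO hx)).ne') hx

theorem al_R {x : E × E} (hx : x.1 ∈ μ.U) (δ : E × E) : al g (μ.R x) (μ.DR x δ) = al g x δ := by
  change g (μ.r x.1) (vel g (μ.R x)) (μ.DR x δ).1 = g x.1 (vel g x) δ.1
  rw [h.vel_R hx, DR_fst hx, h.inv _ _ _ hx]

theorem contDiffOn_Lg : ContDiffOn ℝ ∞ (Lg g) μ.UU :=
  contDiffOn_const.mul (((h.smooth.comp contDiffOn_fst fun _ hx => hx).clm_apply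
    contDiffOn_snd).clm_apply contDiffOn_snd)

theorem fderiv_Lg {p : E × E} (hp : p.1 ∈ μ.U) (a : E × E) :
    fderiv ℝ (Lg g) p a = 1 / 2 * fderiv ℝ g p.1 a.1 p.2 p.2 + g p.1 p.2 a.2 := by
  have hd := h.hasFDerivAt hp
  have h1 := (((hd.comp p hasFDerivAt_fst).clm_apply hasFDerivAt_snd).clm_apply
    hasFDerivAt_snd).const_mul (1 / 2 : ℝ)
  rw [show fderiv ℝ (Lg g) p = _ from h1.fderiv]
  simp [h.symm p.1 a.2 p.2 hp]
  ring

theorem D2_symm {p : E × E} (hp : p.1 ∈ μ.U) (a b : E × E) : D2 g p a b = D2 g p b a := by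
  have hc : ContDiffAt ℝ ∞ (Lg g) p := h.contDiffOn_Lg.contDiffAt (μ.isOpen_UU.mem_nhds hp)
  exact (hc.isSymmSndFDerivAt (by
    simp only [minSmoothness_of_isRCLikeNormedField]; exact two_le_infty)).eq a b

theorem D2_apply {p : E × E} (hp : p.1 ∈ μ.U) (a b : E × E) :
    D2 g p a b = 1 / 2 * fderiv ℝ (fderiv ℝ g) p.1 a.1 b.1 p.2 p.2 + fderiv ℝ g p.1 b.1 p.2 a.2 +
      fderiv ℝ g p.1 a.1 p.2 b.2 + g p.1 a.2 b.2 := by
  have ho : μ.UU ∈ 𝓝 p := μ.isOpen_UU.mem_nhds hp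
  have hc : ContDiffAt ℝ ∞ (Lg g) p := h.contDiffOn_Lg.contDiffAt ho
  have hd := h.hasFDerivAt hp
  have hd2 : HasFDerivAt (fderiv ℝ g) (fderiv ℝ (fderiv ℝ g) p.1) p.1 :=
    (((h.contDiffAt hp).fderiv_right (m := 1) two_le_infty).differentiableAt (by simp)).hasFDerivAt
  have h0 := (((hc.fderiv_right (m := 1) two_le_infty).differentiableAt (by simp)).hasFDerivAt).clm_apply
    (hasFDerivAt_const b p)
  have h1 := ((((((hd2.comp p hasFDerivAt_fst).clm_apply (hasFDerivAt_const b.1 p)).clm_apply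
    hasFDerivAt_snd).clm_apply hasFDerivAt_snd).const_mul (1 / 2 : ℝ)).add
    (((hd.comp p hasFDerivAt_fst).clm_apply hasFDerivAt_snd).clm_apply (hasFDerivAt_const b.2 p)))
  have h2 := congrArg (fun L => L a) ((h0.congr_of_eventuallyEq (by
    filter_upwards [ho] with q hq using (h.fderiv_Lg hq b).symm)).unique h1)
  simp [h.fderiv_symm hp b.1 a.2 p.2] at h2
  rw [D2, h2]
  ring

/-- Uniform comparison with the Euclidean norm on tangent vectors. -/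
theorem exists_comp : ∃ A : ℝ, 0 < A ∧ ∀ x ∈ μ.TM,
    ‖x.2‖ ^ 2 ≤ A * g x.1 x.2 x.2 ∧ g x.1 x.2 x.2 ≤ A * ‖x.2‖ ^ 2 := by
  have hc : ContinuousOn (fun x : E × E => g x.1 x.2 x.2) μ.slice :=
    ((h.smooth.continuousOn.comp continuousOn_fst fun _ hx => hx.1.1.1).clm_apply
      continuousOn_snd).clm_apply continuousOn_snd
  have hp : ∀ x ∈ μ.slice, 0 < g x.1 x.2 x.2 := fun x hx =>
    h.pos _ _ hx.1.1.1 (TT_OO (slice_subset hx)).2
  obtain ⟨A, hA⟩ := μ.isCompact_slice.exists_bound_of_continuousOn hc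
  obtain ⟨A', hA'⟩ := μ.isCompact_slice.exists_bound_of_continuousOn
    (hc.inv₀ fun x hx => (hp x hx).ne')
  refine ⟨max (max A A') 1, by positivity, fun x hx => ?_⟩
  by_cases h0 : x.2 = 0
  · rw [h0]; simp
  obtain ⟨y, hy, m, hm, rfl⟩ := exists_slice (⟨hx.1, hx.2, h0⟩ : x ∈ μ.TT)
  have b1 := (le_abs_self _).trans (hA _ hy)
  have b2 := (le_abs_self _).trans (hA' _ hy)
  have b3 := hp _ hy
  simp only [Pi.inv_apply] at b1 b2 b3
  rw [inv_le_iff_one_le_mul₀ b3] at b2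
  have m1 : A ≤ max (max A A') 1 := (le_max_left _ _).trans (le_max_left _ _)
  have m2 : A' ≤ max (max A A') 1 := (le_max_right _ _).trans (le_max_left _ _)
  have b4 := b2.trans (mul_le_mul_of_nonneg_right m2 b3.le)
  have b5 := b1.trans m1
  simp only [sc, map_smul, smul_apply, smul_eq_mul, norm_smul, hy.2, mul_one, Real.norm_eq_abs, sq_abs]
  constructor <;> nlinarith [sq_nonneg m]

/-- Vectors of bounded length form a compact set. -/
theorem isCompact_ball (r : ℝ) : IsCompact {x ∈ μ.TM | spd g x ≤ r} := by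
  obtain ⟨A, hA, hb⟩ := h.exists_comp
  have hc : ContinuousOn (spd g) μ.TM :=
    (((h.smooth.continuousOn.comp continuousOn_fst fun _ hx => hx.1.1).clm_apply
      continuousOn_snd).clm_apply continuousOn_snd).sqrt
  refine (μ.isCompact_M.prod (isCompact_closedBall (0 : E) √(A * r ^ 2))).of_isClosed_subset
    (hc.preimage_isClosed_of_isClosed μ.isClosed_TM isClosed_Iic) fun x hx => ⟨hx.1.1, ?_⟩
  rw [mem_closedBall_zero_iff]
  refine Real.le_sqrt_of_sq_le ((hb x hx.1).1.trans (mul_le_mul_of_nonneg_left ?_ hA.le))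
  rw [← h.spd_sq hx.1.1.1]
  exact pow_le_pow_left₀ (Real.sqrt_nonneg _) hx.2 2

end IsMetric

/-- The weight: derivative of the smooth step function. -/
def wt (r : ℝ) : ℝ := deriv Real.smoothTransition r

theorem wt_nonneg (r : ℝ) : 0 ≤ wt r := Real.smoothTransition.monotone.deriv_nonneg

theorem contDiff_wt : ContDiff ℝ ∞ wt :=
  (contDiff_infty_iff_deriv.1 Real.smoothTransition.contDiff).2

end Pool.Agent.Work.MP_8c604c_gt.O
end
end
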