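import Mathlib
import Pool.Agent.Work.MP_8c604c_gt.O.Defs

-- merged part: Pool.Agent.Work.MP_8c604c_gt.H.RigQA
section
/-!
Auxiliary lemmas for `exists_quat` (file RigQ): the trilinear map attached to a fibration by 4-planes with
quadratic projector, and the Clifford structure it induces on the complement of one fibre.
-/

set_option maxSynthPendingDepth 3

open scoped Quaternion

noncomputable section
namespace Pool.Agent.Work.MP_8c604c_gt.H

variable {H : Type} [NormedAddCommGroup H] [NormedSpace ℝ H]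
  {B : H →L[ℝ] H →L[ℝ] ℝ} {W : H → Submodule ℝ H}

theorem RigQA_zero (hp : ∀ u, u ≠ 0 → 0 < B u u) {x : H} (h : B x x = 0) : x = 0 := by
  by_contra e
  exact (hp x e).ne' h

theorem RigQA_ext (hp : ∀ u, u ≠ 0 → 0 < B u u) {x y : H} (h : ∀ a, B a x = B a y) : x = y :=
  sub_eq_zero.1 (RigQA_zero hp (by rw [map_sub (B (x - y)), h, sub_self]))

/-- The data extracted from the hypotheses of `exists_quat`. -/
structure RigQA_Tri (B : H →L[ℝ] H →L[ℝ] ℝ) (W : H → Submodule ℝ H)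
    (A : H →ₗ[ℝ] H →ₗ[ℝ] H →ₗ[ℝ] H) : Prop where
  hs : ∀ u w, B u w = B w u
  hp : ∀ u, u ≠ 0 → 0 < B u u
  hd : ∀ u, u ≠ 0 → Module.finrank ℝ (W u) = 4
  hu : ∀ u, u ≠ 0 → u ∈ W u
  hw : ∀ u, u ≠ 0 → ∀ w ∈ W u, w ≠ 0 → W w = W u
  comm : ∀ u v, A u v = A v u
  sym : ∀ u v a b, B (A u v a) b = B a (A u v b)
  mem : ∀ u, u ≠ 0 → ∀ a, A u u a ∈ W u
  fix : ∀ u, u ≠ 0 → ∀ w ∈ W u, A u u w = B u u • w

theorem RigQA_tri (hs : ∀ u w, B u w = B w u)
    (hp : ∀ u, u ≠ 0 → 0 < B u u)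
    (hd : ∀ u, u ≠ 0 → Module.finrank ℝ (W u) = 4) (hu : ∀ u, u ≠ 0 → u ∈ W u)
    (hw : ∀ u, u ≠ 0 → ∀ w ∈ W u, w ≠ 0 → W w = W u) {P : H → H → H}
    (hP : ∀ u, u ≠ 0 → ∀ a, P u a ∈ W u ∧ ∀ w ∈ W u, B w (P u a) = B w a)
    (hq : ∀ a, ∃ q : H →L[ℝ] H →L[ℝ] ℝ, ∀ u, u ≠ 0 → B u u * B a (P u a) = q u u) :
    ∃ A, RigQA_Tri B W A := by
  have uq : ∀ u, u ≠ 0 → ∀ a p, p ∈ W u → (∀ w ∈ W u, B w p = B w a) → P u a = p := by
    intro u h a p h1 h2
    have h3 : P u a - p ∈ W u := sub_mem (hP u h a).1 h1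
    refine sub_eq_zero.1 (RigQA_zero hp ?_)
    rw [map_sub (B (P u a - p)), (hP u h a).2 _ h3, h2 _ h3, sub_self]
  have hS : ∀ u, ∃ S : H →ₗ[ℝ] H, ∀ a, S a = B u u • P u a := by
    intro u
    by_cases h : u = 0
    · exact ⟨0, fun a => by simp [h]⟩
    · refine ⟨⟨⟨fun a => B u u • P u a, fun a b => ?_⟩, fun t a => ?_⟩, fun a => rfl⟩
      · rw [uq u h (a + b) (P u a + P u b) (add_mem (hP u h a).1 (hP u h b).1) fun w hw' => by
          rw [map_add, map_add, (hP u h a).2 w hw', (hP u h b).2 w hw'], smul_add]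
      · change B u u • P u (t • a) = t • B u u • P u a
        rw [uq u h (t • a) (t • P u a) (Submodule.smul_mem _ _ (hP u h a).1) fun w hw' => by
          rw [map_smul, map_smul, (hP u h a).2 w hw'], smul_comm]
  choose S hS using hS
  have sy : ∀ u a b, B (S u a) b = B a (S u b) := by
    intro u a b
    by_cases h : u = 0
    · simp [hS, h]
    · rw [hS, hS, map_smul, map_smul, _root_.smul_apply,
        ← (hP u h b).2 _ (hP u h a).1, hs a, ← (hP u h a).2 _ (hP u h b).1, hs (P u a)]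
  have h1 : ∀ a, ∃ q : H →L[ℝ] H →L[ℝ] ℝ, ∀ u, B a (S u a) = q u u := by
    intro a
    obtain ⟨q, h⟩ := hq a
    refine ⟨q, fun u => ?_⟩
    by_cases e : u = 0
    · simp [hS, e]
    · rw [hS, map_smul, smul_eq_mul, h u e]
  have h2 : ∀ a b, ∃ q : H →L[ℝ] H →L[ℝ] ℝ, ∀ u, B a (S u b) = q u u := by
    intro a b
    obtain ⟨q1, e1⟩ := h1 a
    obtain ⟨q2, e2⟩ := h1 b
    obtain ⟨q3, e3⟩ := h1 (a + b)
    refine ⟨(1 / 2 : ℝ) • (q3 - q1 - q2), fun u => ?_⟩
    have e4 := e3 u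
    have e5 := sy u a b
    rw [hs] at e5
    simp only [map_add, _root_.add_apply, e1, e2] at e4
    simp only [_root_.smul_apply, _root_.sub_apply, smul_eq_mul]
    linarith
  have h3 : ∀ a b, ∃ q : H →L[ℝ] H →L[ℝ] ℝ, ∀ u v,
      B a (((1 / 2 : ℝ) • (S (u + v) - S u - S v)) b) = (q u v + q v u) / 2 := by
    intro a b
    obtain ⟨q, e⟩ := h2 a b
    refine ⟨q, fun u v => ?_⟩
    simp only [LinearMap.smul_apply, LinearMap.sub_apply, map_smul, map_sub, e, map_add,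
      _root_.add_apply, smul_eq_mul]
    ring
  have h4 : ∀ u, (1 / 2 : ℝ) • (S (u + u) - S u - S u) = S u := by
    intro u
    refine LinearMap.ext fun b => RigQA_ext hp fun a => ?_
    obtain ⟨q, e⟩ := h2 a b
    simp only [LinearMap.smul_apply, LinearMap.sub_apply, map_smul, map_sub, e, map_add,
      _root_.add_apply, smul_eq_mul]
    ring
  refine ⟨LinearMap.mk₂ ℝ (fun u v => (1 / 2 : ℝ) • (S (u + v) - S u - S v))
    (fun u u' v => ?_) (fun t u v => ?_) (fun u v v' => ?_) (fun t u v => ?_),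
    hs, hp, hd, hu, hw, fun u v => ?_, fun u v a b => ?_, fun u h a => ?_, fun u h w hw' => ?_⟩
  · refine LinearMap.ext fun b => RigQA_ext hp fun a => ?_
    obtain ⟨q, e⟩ := h3 a b
    rw [LinearMap.add_apply, map_add, e, e, e]
    simp only [map_add, _root_.add_apply]
    ring
  · refine LinearMap.ext fun b => RigQA_ext hp fun a => ?_
    obtain ⟨q, e⟩ := h3 a b
    rw [LinearMap.smul_apply t, map_smul, e, e]
    simp only [map_smul, _root_.smul_apply, smul_eq_mul]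
    ring
  · refine LinearMap.ext fun b => RigQA_ext hp fun a => ?_
    obtain ⟨q, e⟩ := h3 a b
    rw [LinearMap.add_apply, map_add, e, e, e]
    simp only [map_add, _root_.add_apply]
    ring
  · refine LinearMap.ext fun b => RigQA_ext hp fun a => ?_
    obtain ⟨q, e⟩ := h3 a b
    rw [LinearMap.smul_apply t, map_smul, e, e]
    simp only [map_smul, _root_.smul_apply, smul_eq_mul]
    ring
  · simp only [LinearMap.mk₂_apply]
    rw [add_comm u v, sub_right_comm]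
  · simp only [LinearMap.mk₂_apply, LinearMap.smul_apply, LinearMap.sub_apply, map_smul, map_sub,
      _root_.smul_apply, _root_.sub_apply, sy]
  · rw [LinearMap.mk₂_apply, h4, hS]
    exact Submodule.smul_mem _ _ (hP u h a).1
  · rw [LinearMap.mk₂_apply, h4, hS, uq u h w w hw' fun _ _ => rfl]

/-- In a 4-dimensional subspace a vector orthogonal to four nonzero orthogonal vectors vanishes. -/
theorem RigQA_four (hs : ∀ u w, B u w = B w u) (hp : ∀ u, u ≠ 0 → 0 < B u u) {U : Submodule ℝ H}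
    (hU : Module.finrank ℝ U = 4) {a b c d z : H} (ha : a ∈ U) (hb : b ∈ U) (hc : c ∈ U)
    (hd : d ∈ U) (hz : z ∈ U) (a0 : B a a ≠ 0) (b0 : B b b ≠ 0) (c0 : B c c ≠ 0) (d0 : B d d ≠ 0)
    (ab : B a b = 0) (ac : B a c = 0) (ad : B a d = 0) (bc : B b c = 0) (bd : B b d = 0)
    (cd : B c d = 0) (az : B a z = 0) (bz : B b z = 0) (cz : B c z = 0) (dz : B d z = 0) :
    z = 0 := by
  by_contra z0
  have z1 := (hp z z0).ne'
  have : FiniteDimensional ℝ U := Module.finite_of_finrank_pos (by rw [hU]; norm_num)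
  have li : LinearIndependent ℝ
      (![⟨a, ha⟩, ⟨b, hb⟩, ⟨c, hc⟩, ⟨d, hd⟩, ⟨z, hz⟩] : Fin 5 → U) := by
    rw [Fintype.linearIndependent_iff]
    intro g hg
    have e : g 0 • a + g 1 • b + g 2 • c + g 3 • d + g 4 • z = 0 := by
      have := congrArg Subtype.val hg
      simpa [Fin.sum_univ_five] using this
    have e0 := congrArg (B a) e
    have e1 := congrArg (B b) e
    have e2 := congrArg (B c) e
    have e3 := congrArg (B d) e
    have e4 := congrArg (B z) e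
    simp only [map_add, map_smul, smul_eq_mul, map_zero, hs b a, hs c a, hs d a, hs z a, hs c b,
      hs d b, hs z b, hs d c, hs z c, hs z d, ab, ac, ad, bc, bd, cd, az, bz, cz, dz, mul_zero,
      add_zero, zero_add, mul_eq_zero, a0, b0, c0, d0, z1, or_false] at e0 e1 e2 e3 e4
    intro i
    fin_cases i
    exacts [e0, e1, e2, e3, e4]
  have := li.fintype_card_le_finrank
  rw [hU, Fintype.card_fin] at this
  omega

theorem RigQA_unit (hp : ∀ u, u ≠ 0 → 0 < B u u) {x : H} (hx : x ≠ 0) :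
    ∃ t : ℝ, B (t • x) (t • x) = 1 := by
  refine ⟨(Real.sqrt (B x x))⁻¹, ?_⟩
  have h := Real.mul_self_sqrt (hp x hx).le
  have h0 : Real.sqrt (B x x) ≠ 0 := (Real.sqrt_pos.2 (hp x hx)).ne'
  simp only [map_smul, _root_.smul_apply, smul_eq_mul]
  field_simp
  nlinarith

theorem RigQA_next (hp : ∀ u, u ≠ 0 → 0 < B u u) {U : Submodule ℝ H}
    (hU : Module.finrank ℝ U = 4) (a b c : H) :
    ∃ z ∈ U, B z z = 1 ∧ B a z = 0 ∧ B b z = 0 ∧ B c z = 0 := by
  have : FiniteDimensional ℝ U := Module.finite_of_finrank_pos (by rw [hU]; norm_num)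
  let f : U →ₗ[ℝ] (Fin 3 → ℝ) :=
    (LinearMap.pi fun i => ((B (![a, b, c] i) : H →L[ℝ] ℝ) : H →ₗ[ℝ] ℝ)).comp U.subtype
  have hk : LinearMap.ker f ≠ ⊥ :=
    LinearMap.ker_ne_bot_of_finrank_lt (by rw [hU, Module.finrank_fin_fun]; norm_num)
  obtain ⟨x, hx, x0⟩ := Submodule.exists_mem_ne_zero_of_ne_bot hk
  have e : ∀ i, B (![a, b, c] i) x = 0 := fun i => congrFun (LinearMap.mem_ker.1 hx) i
  obtain ⟨t, ht⟩ := RigQA_unit hp (x := (x : H)) fun h => x0 (Subtype.ext h)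
  have e0 : B a x = 0 := e 0
  have e1 : B b x = 0 := e 1
  have e2 : B c x = 0 := e 2
  refine ⟨t • x, Submodule.smul_mem _ _ x.2, ht, ?_, ?_, ?_⟩ <;>
    simp only [map_smul, e0, e1, e2, smul_zero]

namespace RigQA_Tri

variable {A : H →ₗ[ℝ] H →ₗ[ℝ] H →ₗ[ℝ] H} (h : RigQA_Tri B W A)
include h

theorem cub (u : H) : A u u u = B u u • u := by
  by_cases e : u = 0
  · simp [e]
  · exact h.fix u e u (h.hu u e)

theorem idem (u a : H) : A u u (A u u a) = B u u • A u u a := by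
  by_cases e : u = 0
  · simp [e]
  · exact h.fix u e _ (h.mem u e a)

theorem pol (u v : H) : A u u v + (2 : ℝ) • A u v u = B u u • v + (2 * B u v) • u := by
  have e1 := h.cub (u + v)
  have e2 := h.cub (u - v)
  have e3 := h.cub v
  simp only [map_add, map_sub, LinearMap.add_apply, LinearMap.sub_apply, _root_.add_apply,
    _root_.sub_apply, h.comm v u, h.hs v u] at e1 e2
  linear_combination (norm := module) (1 / 2 : ℝ) • e1 - (1 / 2 : ℝ) • e2 - e3

theorem swap (u v : H) : B v (A u u v) = B u (A v v u) := by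
  have e1 := congrArg (B v) (h.pol u v)
  have e2 := congrArg (B u) (h.pol v u)
  have e3 := h.sym u v v u
  simp only [map_add, map_smul, smul_eq_mul, h.comm v u, h.hs v u] at e1 e2
  rw [h.hs] at e3
  linear_combination e1 - e2 + 2 * e3

variable {x y w : H}

theorem kill (hx : x ≠ 0) (hy : ∀ w ∈ W x, B w y = 0) (hw : w ∈ W x) : A y y w = 0 := by
  by_cases e : w = 0
  · simp [e]
  · have e1 : B w (A y y w) = 0 := by
      rw [h.swap, h.hs]
      exact hy _ (h.hw x hx w hw e ▸ h.mem w e y)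
    refine RigQA_zero h.hp ?_
    rw [h.sym, h.idem, map_smul, e1, smul_zero]

theorem kill' (hx : x ≠ 0) (hy : ∀ w ∈ W x, B w y = 0) : A x x y = 0 := by
  refine RigQA_zero h.hp ?_
  rw [h.sym, h.idem, map_smul, h.hs y, hy _ (h.mem x hx y), smul_zero]

theorem expand (hx : x ≠ 0) (h1 : B x x = 1) (hy : ∀ w ∈ W x, B w y = 0) (hw : w ∈ W x) (t : ℝ) :
    A (x + t • y) (x + t • y) w = w + (2 * t) • A x y w := by
  simp only [map_add, map_smul, LinearMap.add_apply, LinearMap.smul_apply, h.comm y x,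
    h.kill hx hy hw, h.fix x hx w hw, h1]
  module

theorem quart (hx : x ≠ 0) (h1 : B x x = 1) (hy : ∀ w ∈ W x, B w y = 0) (hw : w ∈ W x) :
    A x x (A x y w) = 0 ∧ (4 : ℝ) • A x y (A x y w) = B y y • w ∧
      A y y (A x y w) = B y y • A x y w := by
  have h0 : B x y = 0 := hy x (h.hu x hx)
  have E : ∀ t : ℝ, (2 * t) • A x x (A x y w) + (t ^ 2) • ((4 : ℝ) • A x y (A x y w) - B y y • w) +
      (2 * t ^ 3) • (A y y (A x y w) - B y y • A x y w) = 0 := by
    intro t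
    have e := h.idem (x + t • y) w
    rw [h.expand hx h1 hy hw, map_add, h.expand hx h1 hy hw] at e
    simp only [map_add, map_smul, LinearMap.add_apply, LinearMap.smul_apply, _root_.add_apply,
      _root_.smul_apply, h.comm y x, h.hs y x, h0, h1, smul_eq_mul] at e
    linear_combination (norm := module) e
  refine ⟨?_, ?_, ?_⟩
  · linear_combination (norm := module) (1 / 3 : ℝ) • E 1 - (1 / 3 : ℝ) • E (-1) -
      (1 / 24 : ℝ) • E 2 + (1 / 24 : ℝ) • E (-2)
  · linear_combination (norm := module) (1 / 2 : ℝ) • E 1 + (1 / 2 : ℝ) • E (-1)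
  · linear_combination (norm := module) (1 / 24 : ℝ) • E 2 - (1 / 24 : ℝ) • E (-2) -
      (1 / 12 : ℝ) • E 1 + (1 / 12 : ℝ) • E (-1)

end RigQA_Tri

/-- The Clifford multiplication of the fibre `W x` on its orthogonal complement `V`. -/
structure RigQA_Cl (B : H →L[ℝ] H →L[ℝ] ℝ) (W : H → Submodule ℝ H) (x : H) (V : Submodule ℝ H)
    (L : H →ₗ[ℝ] H →ₗ[ℝ] H) : Prop where
  hV : ∀ y, y ∈ V ↔ ∀ w ∈ W x, B w y = 0
  memV : ∀ w ∈ W x, ∀ y ∈ V, L w y ∈ V
  memW : ∀ w ∈ W x, ∀ y ∈ V, y ≠ 0 → L w y ∈ W y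
  one : ∀ y ∈ V, L x y = y
  nrm : ∀ w ∈ W x, ∀ w' ∈ W x, ∀ y ∈ V, B (L w y) (L w' y) = B y y * B w w'
  gr : ∀ w ∈ W x, ∀ y ∈ V, w + L w y ∈ W (x + y)

theorem RigQA_Tri.cl {A : H →ₗ[ℝ] H →ₗ[ℝ] H →ₗ[ℝ] H} (h : RigQA_Tri B W A) {x : H}
    (h1 : B x x = 1) : ∃ V L, RigQA_Cl B W x V L := by
  have hx : x ≠ 0 := by
    rintro rfl
    simp at h1
  refine ⟨⟨⟨⟨{y | ∀ w ∈ W x, B w y = 0}, fun {a b} ha hb w hw => ?_⟩, fun w _ => map_zero _⟩,
    fun t a ha w hw => ?_⟩, (2 : ℝ) • (A x).flip, fun y => Iff.rfl, fun w hw y hy w' hw' => ?_,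
    fun w hw y hy y0 => ?_, fun y hy => ?_, fun w hw w' hw' y hy => ?_, fun w hw y hy => ?_⟩
  · rw [map_add, ha w hw, hb w hw, add_zero]
  · rw [map_smul, ha w hw, smul_zero]
  · change B w' ((2 : ℝ) • A x y w) = 0
    have e := h.sym x x w' (A x y w)
    rw [(h.quart hx h1 hy hw).1, h.fix x hx w' hw', h1, one_smul, map_zero] at e
    rw [map_smul, e, smul_zero]
  · change (2 : ℝ) • A x y w ∈ W y
    have e := Submodule.smul_mem _ (2 * (B y y)⁻¹) (h.mem y y0 (A x y w))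
    rwa [(h.quart hx h1 hy hw).2.2, smul_smul, mul_assoc, inv_mul_cancel₀ (h.hp y y0).ne',
      mul_one] at e
  · change (2 : ℝ) • A x y x = y
    have e := h.pol x y
    rwa [h.kill' hx hy, hy x (h.hu x hx), h1, zero_add, one_smul, mul_zero, zero_smul,
      add_zero] at e
  · change B ((2 : ℝ) • A x y w) ((2 : ℝ) • A x y w') = _
    have e := congrArg (B w) (h.quart hx h1 hy hw').2.1
    simp only [map_smul, _root_.smul_apply, smul_eq_mul, h.sym] at e ⊢
    linear_combination e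
  · change w + (2 : ℝ) • A x y w ∈ W (x + y)
    have e := h.expand hx h1 hy hw 1
    rw [one_smul, mul_one] at e
    rw [← e]
    refine h.mem _ (fun e' => ?_) _
    have := congrArg (B x) e'
    rw [map_add, h1, hy x (h.hu x hx), map_zero] at this
    norm_num at this

namespace RigQA_Cl

variable {x : H} {V : Submodule ℝ H} {L : H →ₗ[ℝ] H →ₗ[ℝ] H} (h : RigQA_Cl B W x V L)
  (hs : ∀ u w, B u w = B w u) (hp : ∀ u, u ≠ 0 → 0 < B u u) (hx : x ∈ W x) {w w' y z : H}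
include h hs

theorem pol (hw : w ∈ W x) (hw' : w' ∈ W x) (hy : y ∈ V) (hz : z ∈ V) :
    B (L w y) (L w' z) + B (L w z) (L w' y) = 2 * B y z * B w w' := by
  have e := h.nrm w hw w' hw' _ (add_mem hy hz)
  simp only [map_add, _root_.add_apply, h.nrm w hw w' hw' y hy, h.nrm w hw w' hw' z hz,
    hs z y] at e
  linear_combination e

include hx

theorem skew (hw : w ∈ W x) (h0 : B x w = 0) (hy : y ∈ V) (hz : z ∈ V) :
    B (L w y) z = -B y (L w z) := by
  have e := h.pol hs hw hx hy hz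
  rw [h.one y hy, h.one z hz, hs w x, h0, hs _ y] at e
  linear_combination e

include hp

theorem anti (hw : w ∈ W x) (h0 : B x w = 0) (hw' : w' ∈ W x) (h0' : B x w' = 0) (hy : y ∈ V) :
    L w' (L w y) + L w (L w' y) + (2 * B w w') • y = 0 := by
  have hm := add_mem (add_mem (h.memV w' hw' _ (h.memV w hw y hy))
    (h.memV w hw _ (h.memV w' hw' y hy))) (V.smul_mem (2 * B w w') hy)
  have key : ∀ z ∈ V, B z (L w' (L w y) + L w (L w' y) + (2 * B w w') • y) = 0 := by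
    intro z hz
    have e1 := h.skew hs hx hw' h0' hz (h.memV w hw y hy)
    have e2 := h.skew hs hx hw h0 hz (h.memV w' hw' y hy)
    have e3 := h.pol hs hw' hw hz hy
    rw [hs (L w' y), hs w' w] at e3
    simp only [map_add, map_smul, smul_eq_mul]
    linear_combination e1 + e2 - e3
  exact RigQA_zero hp (key _ hm)

theorem sq (hw : w ∈ W x) (h0 : B x w = 0) (h1 : B w w = 1) (hy : y ∈ V) : L w (L w y) = -y := by
  have e := h.anti hs hp hx hw h0 hw h0 hy
  rw [h1] at e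
  linear_combination (norm := module) (1 / 2 : ℝ) • e

theorem sign (hd : ∀ u, u ≠ 0 → Module.finrank ℝ (W u) = 4) (hu : ∀ u, u ≠ 0 → u ∈ W u)
    (hw : ∀ u, u ≠ 0 → ∀ w ∈ W u, w ≠ 0 → W w = W u) {a b c : H} (ha : a ∈ W x) (hb : b ∈ W x)
    (hc : c ∈ W x) (a1 : B a a = 1) (b1 : B b b = 1) (c1 : B c c = 1) (xa : B x a = 0)
    (xb : B x b = 0) (xc : B x c = 0) (ab : B a b = 0) (ac : B a c = 0) (bc : B b c = 0)
    (hy : y ∈ V) : L a (L b y) = L c y ∨ L a (L b y) = -L c y := by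
  by_cases y0 : y = 0
  · simp [y0]
  have p0 := (hp y y0).ne'
  have o : ∀ w ∈ W x, B x w = 0 → ∀ y ∈ V, B y (L w y) = 0 := by
    intro w hw h0 y hy
    have e := h.nrm x hx w hw y hy
    rwa [h.one y hy, h0, mul_zero] at e
  have hby := h.memV b hb y hy
  have nb : B (L b y) (L b y) = B y y := by rw [h.nrm b hb b hb y hy, b1, mul_one]
  have nc : B (L c y) (L c y) = B y y := by rw [h.nrm c hc c hc y hy, c1, mul_one]
  have na : B (L a y) (L a y) = B y y := by rw [h.nrm a ha a ha y hy, a1, mul_one]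
  have b0 : L b y ≠ 0 := fun e => p0 (by rw [← nb, e, map_zero])
  have m1 : L a (L b y) ∈ W y :=
    hw y y0 _ (h.memW b hb y hy y0) b0 ▸ h.memW a ha _ hby b0
  have oab : B (L a y) (L b y) = 0 := by rw [h.nrm a ha b hb y hy, ab, mul_zero]
  have oac : B (L a y) (L c y) = 0 := by rw [h.nrm a ha c hc y hy, ac, mul_zero]
  have obc : B (L b y) (L c y) = 0 := by rw [h.nrm b hb c hc y hy, bc, mul_zero]
  have z0 : B y (L a (L b y)) = 0 := by
    have e := h.skew hs hx ha xa hy hby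
    rw [oab] at e
    linear_combination e
  have z1 : B (L a y) (L a (L b y)) = 0 := by
    rw [h.skew hs hx ha xa hy (h.memV a ha _ hby), h.sq hs hp hx ha xa a1 hby, map_neg, o b hb xb y hy]
    simp
  have z2 : B (L b y) (L a (L b y)) = 0 := o a ha xa _ hby
  obtain ⟨t, ht⟩ : ∃ t : ℝ, t * B y y = B (L c y) (L a (L b y)) :=
    ⟨_, div_mul_cancel₀ _ p0⟩
  have e := RigQA_four hs hp (hd y y0) (hu y y0) (h.memW a ha y hy y0) (h.memW b hb y hy y0)
    (h.memW c hc y hy y0) (sub_mem m1 ((W y).smul_mem t (h.memW c hc y hy y0))) p0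
    (by rwa [na]) (by rwa [nb]) (by rwa [nc]) (o a ha xa y hy) (o b hb xb y hy) (o c hc xc y hy)
    oab oac obc (by rw [map_sub, map_smul, z0, o c hc xc y hy, smul_zero, sub_zero])
    (by rw [map_sub, map_smul, z1, oac, smul_zero, sub_zero])
    (by rw [map_sub, map_smul, z2, obc, smul_zero, sub_zero])
    (by rw [map_sub, map_smul, nc, smul_eq_mul, ht, sub_self])
  rw [sub_eq_zero] at e
  have e2 := h.nrm a ha a ha _ hby
  rw [e, nb, a1] at e2
  simp only [map_smul, _root_.smul_apply, smul_eq_mul, nc] at e2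
  have e3 : (t - 1) * (t + 1) = 0 :=
    mul_right_cancel₀ p0 (by linear_combination e2)
  rcases mul_eq_zero.1 e3 with e4 | e4
  · exact Or.inl (by rw [e, sub_eq_zero.1 e4, one_smul])
  · exact Or.inr (by rw [e, eq_neg_of_add_eq_zero_left e4, neg_smul, one_smul])

theorem frame (hd : ∀ u, u ≠ 0 → Module.finrank ℝ (W u) = 4) (hu : ∀ u, u ≠ 0 → u ∈ W u)
    (hw : ∀ u, u ≠ 0 → ∀ w ∈ W u, w ≠ 0 → W w = W u) (x0 : x ≠ 0) :
    ∃ a ∈ W x, ∃ b ∈ W x, ∃ c ∈ W x, B a a = 1 ∧ B b b = 1 ∧ B c c = 1 ∧ B x a = 0 ∧ B x b = 0 ∧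
      B x c = 0 ∧ B a b = 0 ∧ B a c = 0 ∧ B b c = 0 ∧ ∀ y ∈ V, L a (L b y) = L c y := by
  obtain ⟨a, ha, a1, xa, -, -⟩ := RigQA_next hp (hd x x0) x x x
  obtain ⟨b, hb, b1, xb, ab, -⟩ := RigQA_next hp (hd x x0) x a a
  obtain ⟨c, hc, c1, xc, ac, bc⟩ := RigQA_next hp (hd x x0) x a b
  have sg := fun y (hy : y ∈ V) =>
    h.sign hs hp hx hd hu hw ha hb hc a1 b1 c1 xa xb xc ab ac bc hy
  by_cases e : ∀ y ∈ V, L a (L b y) = L c y
  · exact ⟨a, ha, b, hb, c, hc, a1, b1, c1, xa, xb, xc, ab, ac, bc, e⟩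
  · push Not at e
    obtain ⟨y, hy, e⟩ := e
    have e1 := (sg y hy).resolve_left e
    refine ⟨a, ha, b, hb, -c, neg_mem hc, a1, b1, by simpa using c1, xa, xb, by simpa using xc, ab,
      by simpa using ac, by simpa using bc, fun z hz => ?_⟩
    rw [map_neg, LinearMap.neg_apply]
    rcases sg z hz with e2 | e2
    · rcases sg _ (add_mem hy hz) with e3 | e3
      · simp only [map_add] at e3
        exact absurd (by linear_combination (norm := module) e3 - e2) e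
      · simp only [map_add] at e3
        linear_combination (norm := module) e3 - e1
    · exact e2

theorem fin (hd : ∀ u, u ≠ 0 → Module.finrank ℝ (W u) = 4) (hu : ∀ u, u ≠ 0 → u ∈ W u)
    (hw : ∀ u, u ≠ 0 → ∀ w ∈ W u, w ≠ 0 → W w = W u) (x1 : B x x = 1) :
    ∃ m : ℍ →ₗ[ℝ] H →ₗ[ℝ] H, (∀ u, m 1 u = u) ∧ (∀ c d u, m (c * d) u = m c (m d u)) ∧
      (∀ c u w, B (m c u) w = B u (m (star c) w)) ∧ ∀ c u, u ≠ 0 → m c u ∈ W u := by
  have x0 : x ≠ 0 := by
    rintro rfl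
    simp at x1
  obtain ⟨a, ha, b, hb, c, hc, a1, b1, c1, xa, xb, xc, ab, ac, bc, jab⟩ :=
    h.frame hs hp hx hd hu hw x0
  obtain ⟨φ, hφ⟩ : ∃ φ : ℍ →ₗ[ℝ] H, ∀ q, φ q = q.re • x + q.imI • a + q.imJ • b + q.imK • c :=
    ⟨⟨⟨fun q => q.re • x + q.imI • a + q.imJ • b + q.imK • c, fun p q => by
      simp only [Quaternion.re_add, Quaternion.imI_add, Quaternion.imJ_add, Quaternion.imK_add]
      module⟩, fun t q => by
      simp only [Quaternion.re_smul, Quaternion.imI_smul, Quaternion.imJ_smul, Quaternion.imK_smul,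
        RingHom.id_apply]
      module⟩, fun _ => rfl⟩
  obtain ⟨ψ, hψ⟩ : ∃ ψ : H →ₗ[ℝ] ℍ, ∀ u, ψ u = ⟨B x u, B a u, B b u, B c u⟩ :=
    ⟨⟨⟨fun u => ⟨B x u, B a u, B b u, B c u⟩, fun p q => by ext <;> simp⟩, fun t q => by
      ext <;> simp⟩, fun _ => rfl⟩
  have φW : ∀ q, φ q ∈ W x := fun q => by
    rw [hφ]
    exact add_mem (add_mem (add_mem ((W x).smul_mem _ hx) ((W x).smul_mem _ ha))
      ((W x).smul_mem _ hb)) ((W x).smul_mem _ hc)
  have ψφ : ∀ q, ψ (φ q) = q := fun q => by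
    rw [hψ, hφ]
    ext <;> simp [hs a x, hs b x, hs c x, hs b a, hs c a, hs c b, *]
  have Bφ : ∀ q u, B (φ q) u =
      q.re * (ψ u).re + q.imI * (ψ u).imI + q.imJ * (ψ u).imJ + q.imK * (ψ u).imK := fun q u => by
    rw [hψ, hφ]
    simp
  have ψV : ∀ y ∈ V, ψ y = 0 := fun y hy => by
    have e := (h.hV y).1 hy
    rw [hψ, e x hx, e a ha, e b hb, e c hc]
    rfl
  have ψQ : ∀ u, ψ (u - φ (ψ u)) = 0 := fun u => by rw [map_sub, ψφ, sub_self]
  have φψ : ∀ w ∈ W x, φ (ψ w) = w := fun w hw' => by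
    have e := ψQ w
    rw [hψ (w - φ (ψ w))] at e
    exact (sub_eq_zero.1 (RigQA_four hs hp (hd x x0) hx ha hb hc (sub_mem hw' (φW _))
      (by rw [x1]; norm_num) (by rw [a1]; norm_num) (by rw [b1]; norm_num) (by rw [c1]; norm_num)
      xa xb xc ab ac bc (congrArg QuaternionAlgebra.re e) (congrArg QuaternionAlgebra.imI e)
      (congrArg QuaternionAlgebra.imJ e) (congrArg QuaternionAlgebra.imK e))).symm
  have QV : ∀ u, u - φ (ψ u) ∈ V := fun u => (h.hV _).2 fun w hw' => by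
    rw [← φψ w hw', Bφ, ψQ]
    simp
  have Lφ : ∀ q, ∀ y ∈ V, L (φ q) y =
      q.re • y + q.imI • L a y + q.imJ • L b y + q.imK • L c y := fun q y hy => by
    simp only [hφ, map_add, map_smul, LinearMap.add_apply, LinearMap.smul_apply, h.one y hy]
  have jaa := fun y (hy : y ∈ V) => h.sq hs hp hx ha xa a1 hy
  have jbb := fun y (hy : y ∈ V) => h.sq hs hp hx hb xb b1 hy
  have jcc := fun y (hy : y ∈ V) => h.sq hs hp hx hc xc c1 hy
  have jba' : ∀ y ∈ V, L b (L a y) = -L a (L b y) := fun y hy => by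
    have e := h.anti hs hp hx ha xa hb xb hy
    rw [ab] at e
    linear_combination (norm := module) e
  have jba : ∀ y ∈ V, L b (L a y) = -L c y := fun y hy => by rw [jba' y hy, jab y hy]
  have jbc : ∀ y ∈ V, L b (L c y) = L a y := fun y hy => by
    rw [← jab y hy, jba' _ (h.memV b hb y hy), jbb y hy, map_neg, neg_neg]
  have jcb : ∀ y ∈ V, L c (L b y) = -L a y := fun y hy => by
    rw [← jab _ (h.memV b hb y hy), jbb y hy, map_neg]
  have jac : ∀ y ∈ V, L a (L c y) = -L b y := fun y hy => by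
    rw [← jab y hy, jaa _ (h.memV b hb y hy)]
  have jca : ∀ y ∈ V, L c (L a y) = L b y := fun y hy => by
    rw [← jab _ (h.memV a ha y hy), jba y hy, map_neg, jac y hy, neg_neg]
  have νone : ∀ y ∈ V, L (φ 1) y = y := fun y hy => by
    rw [Lφ 1 y hy]
    simp
  have νmul : ∀ p q, ∀ y ∈ V, L (φ (p * q)) y = L (φ p) (L (φ q) y) := fun p q y hy => by
    rw [Lφ p _ (h.memV _ (φW q) y hy), Lφ _ y hy, Lφ _ y hy]
    simp only [map_add, map_smul, jaa y hy, jbb y hy, jcc y hy, jab y hy, jba y hy, jbc y hy,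
      jcb y hy, jac y hy, jca y hy, Quaternion.re_mul, Quaternion.imI_mul, Quaternion.imJ_mul,
      Quaternion.imK_mul]
    module
  have νadj : ∀ q, ∀ y ∈ V, ∀ z ∈ V, B (L (φ q) y) z = B y (L (φ (star q)) z) :=
    fun q y hy z hz => by
    rw [Lφ _ y hy, Lφ _ z hz]
    simp only [map_add, map_smul, _root_.add_apply, _root_.smul_apply, smul_eq_mul,
      h.skew hs hx ha xa hy hz, h.skew hs hx hb xb hy hz, h.skew hs hx hc xc hy hz,
      Quaternion.re_star, Quaternion.imI_star, Quaternion.imJ_star, Quaternion.imK_star]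
    ring
  obtain ⟨m, hm⟩ : ∃ m : ℍ →ₗ[ℝ] H →ₗ[ℝ] H,
      ∀ q u, m q u = φ (q * ψ u) + L (φ q) (u - φ (ψ u)) :=
    ⟨LinearMap.mk₂ ℝ (fun q u => φ (q * ψ u) + L (φ q) (u - φ (ψ u)))
      (fun p q u => by simp only [add_mul, map_add, LinearMap.add_apply]; abel)
      (fun t q u => by simp only [smul_mul_assoc, map_smul, LinearMap.smul_apply, smul_add])
      (fun q u v => by simp only [mul_add, map_add, map_sub]; abel)
      (fun t q u => by simp only [mul_smul_comm, map_smul, map_sub, smul_add, smul_sub]),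
      fun _ _ => rfl⟩
  have hm' : ∀ q d, ∀ y ∈ V, m q (φ d + y) = φ (q * d) + L (φ q) y := fun q d y hy => by
    rw [hm, map_add ψ, ψφ, ψV y hy, add_zero, add_sub_cancel_left]
  have dec : ∀ u, ∃ d, ∃ y ∈ V, u = φ d + y := fun u => ⟨ψ u, _, QV u, by abel⟩
  have oV : ∀ q, ∀ y ∈ V, B (φ q) y = 0 := fun q y hy => (h.hV y).1 hy _ (φW q)
  refine ⟨m, fun u => ?_, fun p q u => ?_, fun q u w => ?_, fun q u u0 => ?_⟩
  · obtain ⟨d, y, hy, rfl⟩ := dec u
    rw [hm' _ _ y hy, one_mul, νone y hy]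
  · obtain ⟨d, y, hy, rfl⟩ := dec u
    rw [hm' _ _ y hy, hm' _ _ y hy, hm' _ _ _ (h.memV _ (φW q) y hy), mul_assoc, νmul p q y hy]
  · obtain ⟨d, y, hy, rfl⟩ := dec u
    obtain ⟨e, z, hz, rfl⟩ := dec w
    rw [hm' _ _ y hy, hm' _ _ z hz]
    simp only [map_add B, map_add (B _), _root_.add_apply, νadj q y hy z hz, oV _ z hz,
      hs y (φ _), oV _ y hy, hs (L (φ q) y) (φ e), oV _ _ (h.memV _ (φW q) y hy),
      oV _ _ (h.memV _ (φW (star q)) z hz)]
    simp only [Bφ, ψφ, Quaternion.re_mul, Quaternion.imI_mul, Quaternion.imJ_mul,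
      Quaternion.imK_mul, Quaternion.re_star, Quaternion.imI_star, Quaternion.imJ_star,
      Quaternion.imK_star]
    ring
  · obtain ⟨d, y, hy, rfl⟩ := dec u
    rw [hm' _ _ y hy]
    by_cases d0 : d = 0
    · subst d0
      rw [map_zero, zero_add] at u0 ⊢
      rw [mul_zero, map_zero, zero_add]
      exact h.memW _ (φW q) y hy u0
    · have hy2 := h.memV _ (φW d⁻¹) y hy
      have e : L (φ d) (L (φ d⁻¹) y) = y := by
        rw [← νmul _ _ y hy, mul_inv_cancel₀ d0, νone y hy]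
      have e1 := h.gr _ (φW d) _ hy2
      have e2 := h.gr _ (φW (q * d)) _ hy2
      rw [νmul _ _ _ hy2, e] at e2
      rw [e] at e1
      have e3 : x + L (φ d⁻¹) y ≠ 0 := fun e' => by
        have := congrArg (B x) e'
        rw [map_add, x1, (h.hV _).1 hy2 x hx, map_zero] at this
        norm_num at this
      rwa [hw _ e3 _ e1 u0]

end RigQA_Cl

theorem RigQA_main (hs : ∀ u w, B u w = B w u) (hp : ∀ u, u ≠ 0 → 0 < B u u)
    (hd : ∀ u, u ≠ 0 → Module.finrank ℝ (W u) = 4) (hu : ∀ u, u ≠ 0 → u ∈ W u)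
    (hw : ∀ u, u ≠ 0 → ∀ w ∈ W u, w ≠ 0 → W w = W u) {P : H → H → H}
    (hP : ∀ u, u ≠ 0 → ∀ a, P u a ∈ W u ∧ ∀ w ∈ W u, B w (P u a) = B w a)
    (hq : ∀ a, ∃ q : H →L[ℝ] H →L[ℝ] ℝ, ∀ u, u ≠ 0 → B u u * B a (P u a) = q u u) :
    ∃ m : ℍ →ₗ[ℝ] H →ₗ[ℝ] H, (∀ u, m 1 u = u) ∧ (∀ c d u, m (c * d) u = m c (m d u)) ∧
      (∀ c u w, B (m c u) w = B u (m (star c) w)) ∧ ∀ c u, u ≠ 0 → m c u ∈ W u := by
  by_cases e : ∀ u : H, u = 0
  · exact ⟨0, fun u => (e u).symm, fun _ _ _ => rfl, fun _ _ _ => by simp,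
      fun _ u h => absurd (e u) h⟩
  · push Not at e
    obtain ⟨u, u0⟩ := e
    obtain ⟨t, ht⟩ := RigQA_unit hp u0
    obtain ⟨A, hA⟩ := RigQA_tri hs hp hd hu hw hP hq
    obtain ⟨V, L, h⟩ := hA.cl ht
    exact h.fin hs hp (hu _ fun e' => by simp [e'] at ht) hd hu hw ht

end Pool.Agent.Work.MP_8c604c_gt.H
end
end

-- merged part: Pool.Agent.Work.MP_8c604c_gt.OM.Tri
section
/-!
Auxiliary lemmas for `fib_iso` (file O/RigQ8): the trilinear map attached to a fibration with quadratic projector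
(copy of the first part of ../H/RigQA.lean without the rank).
-/

set_option maxSynthPendingDepth 3

noncomputable section
namespace Pool.Agent.Work.MP_8c604c_gt.OM

open H (RigQA_zero RigQA_ext RigQA_Cl)

variable {H : Type} [NormedAddCommGroup H] [NormedSpace ℝ H]
  {B : H →L[ℝ] H →L[ℝ] ℝ} {W : H → Submodule ℝ H}

/-- The data extracted from the hypotheses of `fib_iso`. -/
structure RigQ8_Tri (B : H →L[ℝ] H →L[ℝ] ℝ) (W : H → Submodule ℝ H)
    (A : H →ₗ[ℝ] H →ₗ[ℝ] H →ₗ[ℝ] H) : Prop where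
  hs : ∀ u w, B u w = B w u
  hp : ∀ u, u ≠ 0 → 0 < B u u
  hu : ∀ u, u ≠ 0 → u ∈ W u
  hw : ∀ u, u ≠ 0 → ∀ w ∈ W u, w ≠ 0 → W w = W u
  comm : ∀ u v, A u v = A v u
  sym : ∀ u v a b, B (A u v a) b = B a (A u v b)
  mem : ∀ u, u ≠ 0 → ∀ a, A u u a ∈ W u
  fix : ∀ u, u ≠ 0 → ∀ w ∈ W u, A u u w = B u u • w

theorem RigQ8_tri (hs : ∀ u w, B u w = B w u)
    (hp : ∀ u, u ≠ 0 → 0 < B u u)
    (hu : ∀ u, u ≠ 0 → u ∈ W u)
    (hw : ∀ u, u ≠ 0 → ∀ w ∈ W u, w ≠ 0 → W w = W u) {P : H → H → H}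
    (hP : ∀ u, u ≠ 0 → ∀ a, P u a ∈ W u ∧ ∀ w ∈ W u, B w (P u a) = B w a)
    (hq : ∀ a, ∃ q : H →L[ℝ] H →L[ℝ] ℝ, ∀ u, u ≠ 0 → B u u * B a (P u a) = q u u) :
    ∃ A, RigQ8_Tri B W A := by
  have uq : ∀ u, u ≠ 0 → ∀ a p, p ∈ W u → (∀ w ∈ W u, B w p = B w a) → P u a = p := by
    intro u h a p h1 h2
    have h3 : P u a - p ∈ W u := sub_mem (hP u h a).1 h1
    refine sub_eq_zero.1 (RigQA_zero hp ?_)
    rw [map_sub (B (P u a - p)), (hP u h a).2 _ h3, h2 _ h3, sub_self]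
  have hS : ∀ u, ∃ S : H →ₗ[ℝ] H, ∀ a, S a = B u u • P u a := by
    intro u
    by_cases h : u = 0
    · exact ⟨0, fun a => by simp [h]⟩
    · refine ⟨⟨⟨fun a => B u u • P u a, fun a b => ?_⟩, fun t a => ?_⟩, fun a => rfl⟩
      · rw [uq u h (a + b) (P u a + P u b) (add_mem (hP u h a).1 (hP u h b).1) fun w hw' => by
          rw [map_add, map_add, (hP u h a).2 w hw', (hP u h b).2 w hw'], smul_add]
      · change B u u • P u (t • a) = t • B u u • P u a
        rw [uq u h (t • a) (t • P u a) (Submodule.smul_mem _ _ (hP u h a).1) fun w hw' => by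
          rw [map_smul, map_smul, (hP u h a).2 w hw'], smul_comm]
  choose S hS using hS
  have sy : ∀ u a b, B (S u a) b = B a (S u b) := by
    intro u a b
    by_cases h : u = 0
    · simp [hS, h]
    · rw [hS, hS, map_smul, map_smul, _root_.smul_apply,
        ← (hP u h b).2 _ (hP u h a).1, hs a, ← (hP u h a).2 _ (hP u h b).1, hs (P u a)]
  have h1 : ∀ a, ∃ q : H →L[ℝ] H →L[ℝ] ℝ, ∀ u, B a (S u a) = q u u := by
    intro a
    obtain ⟨q, h⟩ := hq a
    refine ⟨q, fun u => ?_⟩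
    by_cases e : u = 0
    · simp [hS, e]
    · rw [hS, map_smul, smul_eq_mul, h u e]
  have h2 : ∀ a b, ∃ q : H →L[ℝ] H →L[ℝ] ℝ, ∀ u, B a (S u b) = q u u := by
    intro a b
    obtain ⟨q1, e1⟩ := h1 a
    obtain ⟨q2, e2⟩ := h1 b
    obtain ⟨q3, e3⟩ := h1 (a + b)
    refine ⟨(1 / 2 : ℝ) • (q3 - q1 - q2), fun u => ?_⟩
    have e4 := e3 u
    have e5 := sy u a b
    rw [hs] at e5
    simp only [map_add, _root_.add_apply, e1, e2] at e4
    simp only [_root_.smul_apply, _root_.sub_apply, smul_eq_mul]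
    linarith
  have h3 : ∀ a b, ∃ q : H →L[ℝ] H →L[ℝ] ℝ, ∀ u v,
      B a (((1 / 2 : ℝ) • (S (u + v) - S u - S v)) b) = (q u v + q v u) / 2 := by
    intro a b
    obtain ⟨q, e⟩ := h2 a b
    refine ⟨q, fun u v => ?_⟩
    simp only [LinearMap.smul_apply, LinearMap.sub_apply, map_smul, map_sub, e, map_add,
      _root_.add_apply, smul_eq_mul]
    ring
  have h4 : ∀ u, (1 / 2 : ℝ) • (S (u + u) - S u - S u) = S u := by
    intro u
    refine LinearMap.ext fun b => RigQA_ext hp fun a => ?_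
    obtain ⟨q, e⟩ := h2 a b
    simp only [LinearMap.smul_apply, LinearMap.sub_apply, map_smul, map_sub, e, map_add,
      _root_.add_apply, smul_eq_mul]
    ring
  refine ⟨LinearMap.mk₂ ℝ (fun u v => (1 / 2 : ℝ) • (S (u + v) - S u - S v))
    (fun u u' v => ?_) (fun t u v => ?_) (fun u v v' => ?_) (fun t u v => ?_),
    hs, hp, hu, hw, fun u v => ?_, fun u v a b => ?_, fun u h a => ?_, fun u h w hw' => ?_⟩
  · refine LinearMap.ext fun b => RigQA_ext hp fun a => ?_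
    obtain ⟨q, e⟩ := h3 a b
    rw [LinearMap.add_apply, map_add, e, e, e]
    simp only [map_add, _root_.add_apply]
    ring
  · refine LinearMap.ext fun b => RigQA_ext hp fun a => ?_
    obtain ⟨q, e⟩ := h3 a b
    rw [LinearMap.smul_apply t, map_smul, e, e]
    simp only [map_smul, _root_.smul_apply, smul_eq_mul]
    ring
  · refine LinearMap.ext fun b => RigQA_ext hp fun a => ?_
    obtain ⟨q, e⟩ := h3 a b
    rw [LinearMap.add_apply, map_add, e, e, e]
    simp only [map_add, _root_.add_apply]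
    ring
  · refine LinearMap.ext fun b => RigQA_ext hp fun a => ?_
    obtain ⟨q, e⟩ := h3 a b
    rw [LinearMap.smul_apply t, map_smul, e, e]
    simp only [map_smul, _root_.smul_apply, smul_eq_mul]
    ring
  · simp only [LinearMap.mk₂_apply]
    rw [add_comm u v, sub_right_comm]
  · simp only [LinearMap.mk₂_apply, LinearMap.smul_apply, LinearMap.sub_apply, map_smul, map_sub,
      _root_.smul_apply, _root_.sub_apply, sy]
  · rw [LinearMap.mk₂_apply, h4, hS]
    exact Submodule.smul_mem _ _ (hP u h a).1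
  · rw [LinearMap.mk₂_apply, h4, hS, uq u h w w hw' fun _ _ => rfl]

namespace RigQ8_Tri

variable {A : H →ₗ[ℝ] H →ₗ[ℝ] H →ₗ[ℝ] H} (h : RigQ8_Tri B W A)
include h

theorem cub (u : H) : A u u u = B u u • u := by
  by_cases e : u = 0
  · simp [e]
  · exact h.fix u e u (h.hu u e)

theorem idem (u a : H) : A u u (A u u a) = B u u • A u u a := by
  by_cases e : u = 0
  · simp [e]
  · exact h.fix u e _ (h.mem u e a)

theorem pol (u v : H) : A u u v + (2 : ℝ) • A u v u = B u u • v + (2 * B u v) • u := by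
  have e1 := h.cub (u + v)
  have e2 := h.cub (u - v)
  have e3 := h.cub v
  simp only [map_add, map_sub, LinearMap.add_apply, LinearMap.sub_apply, _root_.add_apply,
    _root_.sub_apply, h.comm v u, h.hs v u] at e1 e2
  linear_combination (norm := module) (1 / 2 : ℝ) • e1 - (1 / 2 : ℝ) • e2 - e3

theorem swap (u v : H) : B v (A u u v) = B u (A v v u) := by
  have e1 := congrArg (B v) (h.pol u v)
  have e2 := congrArg (B u) (h.pol v u)
  have e3 := h.sym u v v u
  simp only [map_add, map_smul, smul_eq_mul, h.comm v u, h.hs v u] at e1 e2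
  rw [h.hs] at e3
  linear_combination e1 - e2 + 2 * e3

variable {x y w : H}

theorem kill (hx : x ≠ 0) (hy : ∀ w ∈ W x, B w y = 0) (hw : w ∈ W x) : A y y w = 0 := by
  by_cases e : w = 0
  · simp [e]
  · have e1 : B w (A y y w) = 0 := by
      rw [h.swap, h.hs]
      exact hy _ (h.hw x hx w hw e ▸ h.mem w e y)
    refine RigQA_zero h.hp ?_
    rw [h.sym, h.idem, map_smul, e1, smul_zero]

theorem kill' (hx : x ≠ 0) (hy : ∀ w ∈ W x, B w y = 0) : A x x y = 0 := by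
  refine RigQA_zero h.hp ?_
  rw [h.sym, h.idem, map_smul, h.hs y, hy _ (h.mem x hx y), smul_zero]

theorem expand (hx : x ≠ 0) (h1 : B x x = 1) (hy : ∀ w ∈ W x, B w y = 0) (hw : w ∈ W x) (t : ℝ) :
    A (x + t • y) (x + t • y) w = w + (2 * t) • A x y w := by
  simp only [map_add, map_smul, LinearMap.add_apply, LinearMap.smul_apply, h.comm y x,
    h.kill hx hy hw, h.fix x hx w hw, h1]
  module

theorem quart (hx : x ≠ 0) (h1 : B x x = 1) (hy : ∀ w ∈ W x, B w y = 0) (hw : w ∈ W x) :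
    A x x (A x y w) = 0 ∧ (4 : ℝ) • A x y (A x y w) = B y y • w ∧
      A y y (A x y w) = B y y • A x y w := by
  have h0 : B x y = 0 := hy x (h.hu x hx)
  have E : ∀ t : ℝ, (2 * t) • A x x (A x y w) + (t ^ 2) • ((4 : ℝ) • A x y (A x y w) - B y y • w) +
      (2 * t ^ 3) • (A y y (A x y w) - B y y • A x y w) = 0 := by
    intro t
    have e := h.idem (x + t • y) w
    rw [h.expand hx h1 hy hw, map_add, h.expand hx h1 hy hw] at e
    simp only [map_add, map_smul, LinearMap.add_apply, LinearMap.smul_apply, _root_.add_apply,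
      _root_.smul_apply, h.comm y x, h.hs y x, h0, h1, smul_eq_mul] at e
    linear_combination (norm := module) e
  refine ⟨?_, ?_, ?_⟩
  · linear_combination (norm := module) (1 / 3 : ℝ) • E 1 - (1 / 3 : ℝ) • E (-1) -
      (1 / 24 : ℝ) • E 2 + (1 / 24 : ℝ) • E (-2)
  · linear_combination (norm := module) (1 / 2 : ℝ) • E 1 + (1 / 2 : ℝ) • E (-1)
  · linear_combination (norm := module) (1 / 24 : ℝ) • E 2 - (1 / 24 : ℝ) • E (-2) -
      (1 / 12 : ℝ) • E 1 + (1 / 12 : ℝ) • E (-1)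

end RigQ8_Tri

theorem RigQ8_Tri.cl {A : H →ₗ[ℝ] H →ₗ[ℝ] H →ₗ[ℝ] H} (h : RigQ8_Tri B W A) {x : H}
    (h1 : B x x = 1) : ∃ V L, RigQA_Cl B W x V L := by
  have hx : x ≠ 0 := by
    rintro rfl
    simp at h1
  refine ⟨⟨⟨⟨{y | ∀ w ∈ W x, B w y = 0}, fun {a b} ha hb w hw => ?_⟩, fun w _ => map_zero _⟩,
    fun t a ha w hw => ?_⟩, (2 : ℝ) • (A x).flip, fun y => Iff.rfl, fun w hw y hy w' hw' => ?_,
    fun w hw y hy y0 => ?_, fun y hy => ?_, fun w hw w' hw' y hy => ?_, fun w hw y hy => ?_⟩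
  · rw [map_add, ha w hw, hb w hw, add_zero]
  · rw [map_smul, ha w hw, smul_zero]
  · change B w' ((2 : ℝ) • A x y w) = 0
    have e := h.sym x x w' (A x y w)
    rw [(h.quart hx h1 hy hw).1, h.fix x hx w' hw', h1, one_smul, map_zero] at e
    rw [map_smul, e, smul_zero]
  · change (2 : ℝ) • A x y w ∈ W y
    have e := Submodule.smul_mem _ (2 * (B y y)⁻¹) (h.mem y y0 (A x y w))
    rwa [(h.quart hx h1 hy hw).2.2, smul_smul, mul_assoc, inv_mul_cancel₀ (h.hp y y0).ne',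
      mul_one] at e
  · change (2 : ℝ) • A x y x = y
    have e := h.pol x y
    rwa [h.kill' hx hy, hy x (h.hu x hx), h1, zero_add, one_smul, mul_zero, zero_smul,
      add_zero] at e
  · change B ((2 : ℝ) • A x y w) ((2 : ℝ) • A x y w') = _
    have e := congrArg (B w) (h.quart hx h1 hy hw').2.1
    simp only [map_smul, _root_.smul_apply, smul_eq_mul, h.sym] at e ⊢
    linear_combination e
  · change w + (2 : ℝ) • A x y w ∈ W (x + y)
    have e := h.expand hx h1 hy hw 1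
    rw [one_smul, mul_one] at e
    rw [← e]
    refine h.mem _ (fun e' => ?_) _
    have := congrArg (B x) e'
    rw [map_add, h1, hy x (h.hu x hx), map_zero] at this
    norm_num at this

end Pool.Agent.Work.MP_8c604c_gt.OM
end
end

-- merged part: Pool.Agent.Work.MP_8c604c_gt.O.RigC1
section
/-!
Local isometries preserve the Euler-Lagrange equation.
-/

set_option maxSynthPendingDepth 3
set_option linter.unusedSectionVars false

open Set Filter Topology MeasureTheory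
open scoped ContDiff

noncomputable section
namespace Pool.Agent.Work.MP_8c604c_gt.O

open Model Real

variable {E : Type} [NormedAddCommGroup E] [InnerProductSpace ℝ E] [FiniteDimensional ℝ E] {d : ℕ}
  {μ : Model E d} {g g₀ : Met E}

theorem rigc1_two' : (1 + 1 : WithTop ℕ∞) ≤ ∞ := one_add_one_eq_two.trans_le two_le_infty

theorem rigc1_deriv {V : Type} [NormedAddCommGroup V] [NormedSpace ℝ V]
    {g : V → V →L[ℝ] V →L[ℝ] ℝ} {γ : ℝ → V} {t : ℝ} (hg : DifferentiableAt ℝ g (γ t))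
    (h1 : DifferentiableAt ℝ γ t) (h2 : DifferentiableAt ℝ (deriv γ) t) (η : V) :
    HasDerivAt (fun s => g (γ s) (deriv γ s) η)
      (fderiv ℝ g (γ t) (deriv γ t) (deriv γ t) η + g (γ t) (deriv (deriv γ) t) η) t := by
  have h3 := ((hg.hasFDerivAt.comp_hasDerivAt t h1.hasDerivAt).clm_apply h2.hasDerivAt).clm_apply
    (hasDerivAt_const t η)
  simpa using h3

theorem rigc1_diff2 {γ : ℝ → E} {t : ℝ} (h : ContDiffAt ℝ ∞ γ t) :
    DifferentiableAt ℝ (deriv γ) t := by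
  have h1 : ContDiffAt ℝ 1 (fderiv ℝ γ) t := h.fderiv_right rigc1_two'
  exact (h1.differentiableAt one_ne_zero).clm_apply (differentiableAt_const (1 : ℝ))

/-- A linear isometry between tangent spaces is onto. -/
theorem tan_surj (h₀ : IsMetric μ g₀) {y z : E} (hy : y ∈ μ.M) (hz : z ∈ μ.M) (A : E →L[ℝ] E)
    (hA : ∀ u, μ.P z (A u) = A u) (hiso : ∀ u w, g z (A u) (A w) = g₀ y u w) (η : E) :
    ∃ w, μ.P y w = w ∧ A w = μ.P z η := by
  let T : μ.Tan y →ₗ[ℝ] μ.Tan z :=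
    ((A : E →ₗ[ℝ] E).domRestrict (μ.Tan y)).codRestrict _ fun u => mem_Tan.2 (hA u)
  have hi : Function.Injective T := by
    refine (injective_iff_map_eq_zero _).2 fun w hw => Subtype.ext
      (h₀.eq_zero_of_tan hy.1 (mem_Tan.1 w.2) ?_)
    rw [← hiso, show A w = 0 from congrArg Subtype.val hw, map_zero]
  obtain ⟨w, hw⟩ := (LinearMap.injective_iff_surjective_of_finrank_eq_finrank
    ((finrank_Tan hy).trans (finrank_Tan hz).symm)).1 hi ⟨μ.P z η, mem_Tan.2 (P_idem hz η)⟩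
  exact ⟨w, mem_Tan.1 w.2, congrArg Subtype.val hw⟩

theorem IsMetric.el_vert (h : IsMetric μ g) {z n : E} (hz : z ∈ μ.M) (hn : μ.P z n = 0) (v : E) :
    fderiv ℝ g z v v n = 1 / 2 * fderiv ℝ g z n v v := by
  rw [h.fderiv_inv hz.1 v v n, h.fderiv_inv hz.1 n v v, hn, hz.2, fderiv_P_symm hz.1 n v,
    h.symm _ (fderiv ℝ μ.P z v n) _ hz.1]
  simp only [map_zero, zero_apply]
  ring

/-- Local isometries preserve the Euler-Lagrange equation. -/
theorem el_map (h : IsMetric μ g) (h₀ : IsMetric μ g₀) {W : Set E} (hW : IsOpen W)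
    {F : E → E} (hF : ContDiffOn ℝ ∞ F W) (hF0 : ∀ y ∈ W, F y ∈ μ.M)
    (hiso : ∀ y ∈ W, ∀ u w, g (F y) (fderiv ℝ F y u) (fderiv ℝ F y w) = g₀ y u w)
    {c : ℝ → E} {t : ℝ} (hc : ContDiffAt ℝ ∞ c t) (hcU : c t ∈ W) (hy : c t ∈ μ.M)
    (hel : ∀ η, HasDerivAt (fun s => g₀ (c s) (deriv c s) η)
      (1 / 2 * fderiv ℝ g₀ (c t) η (deriv c t) (deriv c t)) t) (η : E) :
    HasDerivAt (fun s => g (F (c s)) (deriv (F ∘ c) s) η)
      (1 / 2 * fderiv ℝ g (F (c t)) η (deriv (F ∘ c) t) (deriv (F ∘ c) t)) t := by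
  have hP := hF0 _ hcU
  have hUn : W ∈ 𝓝 (c t) := hW.mem_nhds hcU
  have hFy : ContDiffAt ℝ ∞ F (c t) := hF.contDiffAt hUn
  have hF1 : DifferentiableAt ℝ F (c t) := hFy.differentiableAt (by simp)
  have hF2 : DifferentiableAt ℝ (fderiv ℝ F) (c t) :=
    (hFy.fderiv_right (m := 1) rigc1_two').differentiableAt one_ne_zero
  have hsym : ∀ v w, fderiv ℝ (fderiv ℝ F) (c t) v w = fderiv ℝ (fderiv ℝ F) (c t) w v :=
    hFy.isSymmSndFDerivAt (by simpa using two_le_infty)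
  have hg : DifferentiableAt ℝ g (F (c t)) := (h.contDiffAt hP.1).differentiableAt (by simp)
  have hg₀ : DifferentiableAt ℝ g₀ (c t) := (h₀.contDiffAt hy.1).differentiableAt (by simp)
  have hc1 : DifferentiableAt ℝ c t := hc.differentiableAt (by simp)
  have hc2 := rigc1_diff2 hc
  have hγ : ContDiffAt ℝ ∞ (F ∘ c) t := hFy.comp t hc
  have hev : deriv (F ∘ c) =ᶠ[𝓝 t] fun s => fderiv ℝ F (c s) (deriv c s) := by
    filter_upwards [hc1.continuousAt.preimage_mem_nhds hUn,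
      (hc.of_le (m := 1) (by exact_mod_cast le_top)).eventually (by simp)] with s hs hs'
    exact (((hF.contDiffAt (hW.mem_nhds hs)).differentiableAt (by simp)).hasFDerivAt.comp_hasDerivAt
      s (hs'.differentiableAt one_ne_zero).hasDerivAt).deriv
  have hd1 : deriv (F ∘ c) t = fderiv ℝ F (c t) (deriv c t) := hev.eq_of_nhds
  have hd2 : deriv (deriv (F ∘ c)) t = fderiv ℝ (fderiv ℝ F) (c t) (deriv c t) (deriv c t) +
      fderiv ℝ F (c t) (deriv (deriv c) t) := by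
    rw [hev.deriv_eq]
    exact ((hF2.hasFDerivAt.comp_hasDerivAt t hc1.hasDerivAt).clm_apply hc2.hasDerivAt).deriv
  have hdi : ∀ a u w, fderiv ℝ g (F (c t)) (fderiv ℝ F (c t) a) (fderiv ℝ F (c t) u)
      (fderiv ℝ F (c t) w) +
      g (F (c t)) (fderiv ℝ (fderiv ℝ F) (c t) a u) (fderiv ℝ F (c t) w) +
      g (F (c t)) (fderiv ℝ F (c t) u) (fderiv ℝ (fderiv ℝ F) (c t) a w) =
      fderiv ℝ g₀ (c t) a u w := by
    intro a u w
    have e1 := ((hg.hasFDerivAt.comp (c t) hF1.hasFDerivAt).clm_apply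
      (hF2.hasFDerivAt.clm_apply (hasFDerivAt_const u (c t)))).clm_apply
      (hF2.hasFDerivAt.clm_apply (hasFDerivAt_const w (c t)))
    have e2 := (hg₀.hasFDerivAt.clm_apply (hasFDerivAt_const u (c t))).clm_apply
      (hasFDerivAt_const w (c t))
    have e3 := congrArg (fun L : E →L[ℝ] ℝ => L a) (e1.unique (e2.congr_of_eventuallyEq (by
      filter_upwards [hUn] with y hy using hiso y hy u w)))
    simp only [add_apply, ContinuousLinearMap.comp_apply,
      ContinuousLinearMap.flip_apply, ContinuousLinearMap.comp_zero, zero_add,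
      Function.comp_apply] at e3
    linarith
  have hel' : ∀ w, fderiv ℝ g₀ (c t) (deriv c t) (deriv c t) w + g₀ (c t) (deriv (deriv c) t) w =
      1 / 2 * fderiv ℝ g₀ (c t) w (deriv c t) (deriv c t) := fun w =>
    (rigc1_deriv hg₀ hc1 hc2 w).unique (hel w)
  have hmain := rigc1_deriv (g := g) (γ := F ∘ c) hg (hγ.differentiableAt (by simp))
    (rigc1_diff2 hγ) η
  refine hmain.congr_deriv (Eq.symm ?_)
  have hT : ∀ u, μ.P (F (c t)) (fderiv ℝ F (c t) u) = fderiv ℝ F (c t) u :=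
    tan_of_map hF1.hasFDerivAt (by filter_upwards [hUn] with y hy using hF0 y hy)
  obtain ⟨w, -, hw⟩ := tan_surj h₀ hy hP (fderiv ℝ F (c t)) hT (hiso _ hcU) η
  obtain ⟨n, rfl, hn⟩ : ∃ n, η = fderiv ℝ F (c t) w + n ∧ μ.P (F (c t)) n = 0 :=
    ⟨μ.Q (F (c t)) η, by rw [hw, P_add_Q], P_Q hP η⟩
  simp only [Function.comp_apply, map_add, add_apply]
  rw [h.el_vert hP hn, h.vert' hP.1 hn, hd2, hd1, map_add, add_apply, hiso _ hcU]
  have e1 := hdi (deriv c t) (deriv c t) w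
  have e2 := hdi w (deriv c t) (deriv c t)
  rw [h.symm _ (fderiv ℝ (fderiv ℝ F) (c t) w (deriv c t)) _ hP.1, hsym w] at e2
  linarith [hel' w]

end Pool.Agent.Work.MP_8c604c_gt.O
end
end
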