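import Mathlib
import Pool.Agent.Work.MP_8c604c_gt.O.KS

-- merged part: Pool.Agent.Work.MP_8c604c_gt.BKa
section
/-!
Two analytic lemmas for the Berger-Kazdan type inequality.
Hints. logdet_le: eigenvalues of P^(-1/2) N P^(-1/2) and log x <= x - 1 with equality only at 1.
logdet_jensen: P = integral of w N (positive definite), integrate logdet_le against w.
kazdan: U t = integral from pi/(2c) to t of u / s^2; the left side equals the integral over (0, L) of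
s(t) (s(t - tau) - s(t + tau)) U t / s(tau) = -(s^2)' U, integrate by parts (s U is bounded, s^2 U tends to 0 at both ends).
-/

set_option maxSynthPendingDepth 3

open Set Filter Topology MeasureTheory
open scoped ContDiff

noncomputable section
namespace Pool.Agent.Work.MP_8c604c_gt

open Matrix

variable {ι : Type} [Fintype ι] [DecidableEq ι]

theorem BKa_one {M : Matrix ι ι ℝ} (hM : M.PosDef) :
    Real.log M.det ≤ M.trace - Fintype.card ι ∧
      (Real.log M.det = M.trace - Fintype.card ι → M = 1) := by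
  have h1 : Real.log M.det = ∑ i, Real.log (hM.1.eigenvalues i) := by
    rw [hM.1.det_eq_prod_eigenvalues]
    exact Real.log_prod fun i _ => (hM.eigenvalues_pos i).ne'
  have h2 : M.trace - Fintype.card ι = ∑ i, (hM.1.eigenvalues i - 1) := by
    rw [hM.1.trace_eq_sum_eigenvalues, Finset.sum_sub_distrib]
    simp
  have h3 : ∀ i ∈ Finset.univ, Real.log (hM.1.eigenvalues i) ≤ hM.1.eigenvalues i - 1 :=
    fun i _ => Real.log_le_sub_one_of_pos (hM.eigenvalues_pos i)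
  rw [h1, h2]
  refine ⟨Finset.sum_le_sum h3, fun h => ?_⟩
  have h4 : ∀ i, hM.1.eigenvalues i = 1 := fun i => by
    by_contra hc
    exact (Real.log_lt_sub_one_of_pos (hM.eigenvalues_pos i) hc).ne
      ((Finset.sum_eq_sum_iff_of_le h3).1 h i (Finset.mem_univ i))
  have h5 : (RCLike.ofReal ∘ hM.1.eigenvalues : ι → ℝ) = fun _ => 1 := by
    funext i
    simp [h4 i]
  rw [hM.1.spectral_theorem, h5, diagonal_one, map_one]

open scoped MatrixOrder in
theorem BKa_root {M : Matrix ι ι ℝ} (hM : M.PosDef) : ∃ B : Matrix ι ι ℝ, IsUnit B ∧ M = Bᴴ * B :=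
  CStarAlgebra.isStrictlyPositive_iff_eq_star_mul_self.mp hM.isStrictlyPositive

theorem logdet_le {N P : Matrix ι ι ℝ} (hN : N.PosDef) (hP : P.PosDef) :
    Real.log N.det - Real.log P.det ≤ (P⁻¹ * N).trace - Fintype.card ι ∧
      (Real.log N.det - Real.log P.det = (P⁻¹ * N).trace - Fintype.card ι → N = P) := by
  obtain ⟨B, hB, hPB⟩ := BKa_root hP.inv
  have hM : (B * N * Bᴴ).PosDef :=
    hN.mul_mul_conjTranspose_same (vecMul_injective_iff_isUnit.2 hB)
  have hPu : IsUnit P.det := (isUnit_iff_isUnit_det P).1 hP.isUnit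
  have h1 : (B * N * Bᴴ).trace = (P⁻¹ * N).trace := by
    rw [trace_mul_cycle, hPB]
  have h2 : (B * N * Bᴴ).det = N.det / P.det := by
    have h3 : (P⁻¹).det = Bᴴ.det * B.det := by rw [hPB, det_mul]
    rw [det_nonsing_inv, Ring.inverse_eq_inv'] at h3
    rw [det_mul, det_mul, div_eq_mul_inv, h3]
    ring
  obtain ⟨h4, h5⟩ := BKa_one hM
  rw [h1, h2, Real.log_div hN.det_pos.ne' hP.det_pos.ne'] at h4 h5
  refine ⟨h4, fun h => ?_⟩
  have h6 : P⁻¹ * N = 1 := by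
    rw [hPB, mul_assoc]
    exact mul_eq_one_comm.1 (h5 h)
  rw [← mul_nonsing_inv_cancel_left P N hPu, h6, mul_one]

omit [DecidableEq ι] in
theorem BKa_int {N : ℝ → Matrix ι ι ℝ} {w : ℝ → ℝ} {x y : ℝ} (hxy : x < y)
    (hN : ∀ i j, ContinuousOn (fun t => N t i j) (Icc x y)) (hw : ContinuousOn w (Icc x y))
    (A : Matrix ι ι ℝ) : ContinuousOn (fun t => (A * N t).trace) (Icc x y) ∧
      (∫ t in x..y, w t * (A * N t).trace) =
        (A * Matrix.of fun i j => ∫ t in x..y, w t * N t i j).trace := by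
  have hI : ∀ i j, IntervalIntegrable (fun t => A i j * (w t * N t j i)) volume x y := fun i j =>
    ((hw.mul (hN j i)).intervalIntegrable_of_Icc hxy.le).const_mul _
  constructor
  · simp only [trace, diag_apply, mul_apply]
    exact continuousOn_finsetSum _ fun i _ => continuousOn_finsetSum _ fun j _ =>
      continuousOn_const.mul (hN j i)
  · have h1 : ∀ t, w t * (A * N t).trace = ∑ i, ∑ j, A i j * (w t * N t j i) := fun t => by
      simp only [trace, diag_apply, mul_apply, Finset.mul_sum]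
      exact Finset.sum_congr rfl fun i _ => Finset.sum_congr rfl fun j _ => by ring
    simp only [h1]
    rw [intervalIntegral.integral_finsetSum fun i _ => by
      simpa only [Finset.sum_fn] using IntervalIntegrable.sum Finset.univ fun j _ => hI i j]
    simp only [trace, diag_apply, mul_apply, of_apply]
    refine Finset.sum_congr rfl fun i _ => ?_
    rw [intervalIntegral.integral_finsetSum fun j _ => hI i j]
    exact Finset.sum_congr rfl fun j _ => intervalIntegral.integral_const_mul _ _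

omit [DecidableEq ι] in
theorem BKa_quad (M : Matrix ι ι ℝ) (v : ι → ℝ) :
    star v ⬝ᵥ (M *ᵥ v) = (vecMulVec v v * M).trace := by
  simp only [trace, diag_apply, mul_apply, vecMulVec_apply, dotProduct, mulVec, star_trivial,
    Finset.mul_sum]
  rw [Finset.sum_comm]
  exact Finset.sum_congr rfl fun i _ => Finset.sum_congr rfl fun j _ => by ring

/-- Jensen inequality for `log det` with a positive continuous weight, and its equality case. -/
theorem logdet_jensen {N : ℝ → Matrix ι ι ℝ} {w : ℝ → ℝ} {x y : ℝ} (hxy : x < y)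
    (hN : ∀ i j, ContinuousOn (fun t => N t i j) (Icc x y)) (hp : ∀ t ∈ Icc x y, (N t).PosDef)
    (hw : ContinuousOn w (Icc x y)) (hw0 : ∀ t ∈ Icc x y, 0 < w t) (hw1 : ∫ t in x..y, w t = 1) :
    (Matrix.of fun i j => ∫ t in x..y, w t * N t i j).PosDef ∧
    (∫ t in x..y, w t * Real.log (N t).det) ≤
      Real.log (Matrix.of fun i j => ∫ t in x..y, w t * N t i j).det ∧
    ((∫ t in x..y, w t * Real.log (N t).det) =
      Real.log (Matrix.of fun i j => ∫ t in x..y, w t * N t i j).det →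
        ∀ t ∈ Icc x y, N t = N x) := by
  set P : Matrix ι ι ℝ := Matrix.of fun i j => ∫ t in x..y, w t * N t i j with hP
  have hPd : P.PosDef := by
    refine PosDef.of_dotProduct_mulVec_pos ?_ fun v hv => ?_
    · ext i j
      simp only [hP, conjTranspose_apply, of_apply, star_trivial]
      refine intervalIntegral.integral_congr fun t ht => ?_
      rw [uIcc_of_le hxy.le] at ht
      have h1 := (hp t ht).1.apply i j
      rw [star_trivial] at h1
      simp only [h1]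
    · obtain ⟨h1, h2⟩ := BKa_int hxy hN hw (vecMulVec v v)
      rw [BKa_quad, ← h2]
      refine intervalIntegral.intervalIntegral_pos_of_pos_on
        ((hw.mul h1).intervalIntegrable_of_Icc hxy.le) (fun t ht => ?_) hxy
      have ht' := Ioo_subset_Icc_self ht
      rw [← BKa_quad]
      exact mul_pos (hw0 t ht') ((hp t ht').dotProduct_mulVec_pos hv)
  obtain ⟨h1, h2⟩ := BKa_int hxy hN hw P⁻¹
  rw [← hP, nonsing_inv_mul P ((isUnit_iff_isUnit_det P).1 hPd.isUnit), trace_one] at h2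
  have hc : ContinuousOn (fun t => Real.log (N t).det) (Icc x y) := by
    have h3 : ContinuousOn N (Icc x y) :=
      continuousOn_pi.2 fun i => continuousOn_pi.2 fun j => hN i j
    exact ((continuous_id.matrix_det).comp_continuousOn h3).log fun t ht => (hp t ht).det_pos.ne'
  have hf := hw.fun_mul hc
  have hg : ContinuousOn (fun t => w t * (P⁻¹ * N t).trace +
      (Real.log P.det - Fintype.card ι) * w t) (Icc x y) :=
    (hw.mul h1).add (continuousOn_const.mul hw)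
  have h4 : (∫ t in x..y, (w t * (P⁻¹ * N t).trace + (Real.log P.det - Fintype.card ι) * w t)) =
      Real.log P.det := by
    rw [intervalIntegral.integral_add ((hw.fun_mul h1).intervalIntegrable_of_Icc hxy.le)
      ((hw.intervalIntegrable_of_Icc hxy.le).const_mul _), h2, intervalIntegral.integral_const_mul,
      hw1]
    ring
  have h5 : ∀ t ∈ Icc x y, w t * Real.log (N t).det ≤ w t * (P⁻¹ * N t).trace +
      (Real.log P.det - Fintype.card ι) * w t := fun t ht => by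
    have h6 := mul_le_mul_of_nonneg_left (logdet_le (hp t ht) hPd).1 (hw0 t ht).le
    linarith only [h6]
  refine ⟨hPd, ?_, fun h => ?_⟩
  · rw [← h4]
    exact intervalIntegral.integral_mono_on hxy.le (hf.intervalIntegrable_of_Icc hxy.le)
      (hg.intervalIntegrable_of_Icc hxy.le) h5
  · have h7 : ∀ t ∈ Icc x y, N t = P := fun t ht => by
      by_contra hne
      have h8 := mul_lt_mul_of_pos_left (lt_of_le_of_ne (logdet_le (hp t ht) hPd).1
        fun he => hne ((logdet_le (hp t ht) hPd).2 he)) (hw0 t ht)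
      have h9 := intervalIntegral.integral_lt_integral_of_continuousOn_of_le_of_exists_lt hxy hf hg
        (fun s hs => h5 s (Ioc_subset_Icc_self hs)) ⟨t, ht, by linarith only [h8]⟩
      rw [h4] at h9
      exact h9.ne h
    intro t ht
    rw [h7 t ht, h7 x (left_mem_Icc.2 hxy.le)]

/-- The model function `sin (c t) / c`. -/
def sn (c t : ℝ) : ℝ := Real.sin (c * t) / c

/-- The probability weight on `[x, y]`. -/
def kw (c x y t : ℝ) : ℝ := sn c x * sn c y / (sn c (y - x) * sn c t ^ 2)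

theorem BKa_sn_pos {c t : ℝ} (hc : 0 < c) (ht : t ∈ Ioo 0 (Real.pi / c)) : 0 < sn c t :=
  div_pos (Real.sin_pos_of_pos_of_lt_pi (mul_pos hc ht.1)
    (by rw [mul_comm]; exact (lt_div_iff₀ hc).1 ht.2)) hc

theorem BKa_sn_cont (c : ℝ) : Continuous (sn c) := by
  unfold sn
  fun_prop

theorem BKa_sn_deriv {c : ℝ} (hc : 0 < c) (t : ℝ) : HasDerivAt (sn c) (Real.cos (c * t)) t := by
  have h := (((hasDerivAt_id t).const_mul c).sin).div_const c
  simp only [id, mul_one] at h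
  rwa [mul_div_cancel_right₀ _ hc.ne'] at h

theorem BKa_sub {c a b : ℝ} (ha : a ∈ Ioo 0 (Real.pi / c)) (hb : b ∈ Ioo 0 (Real.pi / c)) :
    uIcc a b ⊆ Ioo 0 (Real.pi / c) := ordConnected_Ioo.uIcc_subset ha hb

theorem BKa_inv_cont {c : ℝ} (hc : 0 < c) :
    ContinuousOn (fun t => (sn c t ^ 2)⁻¹) (Ioo 0 (Real.pi / c)) :=
  ((BKa_sn_cont c).pow 2).continuousOn.inv₀ fun _ ht => (pow_pos (BKa_sn_pos hc ht) 2).ne'

theorem BKa_inv_int {c a b : ℝ} (hc : 0 < c) (ha : a ∈ Ioo 0 (Real.pi / c))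
    (hb : b ∈ Ioo 0 (Real.pi / c)) : ∫ t in a..b, (sn c t ^ 2)⁻¹ =
      Real.cos (c * a) / sn c a - Real.cos (c * b) / sn c b := by
  have h : ∀ t ∈ uIcc a b,
      HasDerivAt (fun t => -(Real.cos (c * t) / sn c t)) (sn c t ^ 2)⁻¹ t := fun t ht => by
    have h0 := (BKa_sn_pos hc (BKa_sub ha hb ht)).ne'
    have h1 := ((((hasDerivAt_id t).const_mul c).cos).div (BKa_sn_deriv hc t) h0).neg
    simp only [id, mul_one] at h1
    refine h1.congr_deriv ?_
    have h2 : Real.sin (c * t) * c * sn c t + Real.cos (c * t) * Real.cos (c * t) = 1 := by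
      rw [← Real.sin_sq_add_cos_sq (c * t), sn]
      field_simp
    rw [inv_eq_one_div, ← h2]
    ring
  rw [intervalIntegral.integral_eq_sub_of_hasDerivAt h
    ((BKa_inv_cont hc).mono (BKa_sub ha hb)).intervalIntegrable]
  ring

theorem integral_kw {c x y : ℝ} (hc : 0 < c) (hx : 0 < x) (hxy : x < y) (hy : y < Real.pi / c) :
    ∫ t in x..y, kw c x y t = 1 := by
  have hx' : x ∈ Ioo 0 (Real.pi / c) := ⟨hx, hxy.trans hy⟩
  have hy' : y ∈ Ioo 0 (Real.pi / c) := ⟨hx.trans hxy, hy⟩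
  have h1 : ∀ t, kw c x y t = sn c x * sn c y / sn c (y - x) * (sn c t ^ 2)⁻¹ := fun t => by
    rw [kw, div_mul_eq_div_div, div_eq_mul_inv]
  simp only [h1]
  have h2 := (BKa_sn_pos hc hx').ne'
  have h3 := (BKa_sn_pos hc hy').ne'
  have h4 := (BKa_sn_pos hc (t := y - x) ⟨by linarith, by linarith⟩).ne'
  have h5 : sn c (y - x) = Real.cos (c * x) * sn c y - Real.cos (c * y) * sn c x := by
    simp only [sn, mul_sub, Real.sin_sub]
    ring
  have h6 : Real.cos (c * x) / sn c x - Real.cos (c * y) / sn c y =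
      sn c (y - x) / (sn c x * sn c y) := by
    rw [h5, div_sub_div _ _ h2 h3]
    ring
  rw [intervalIntegral.integral_const_mul, BKa_inv_int hc hx' hy', h6]
  field_simp

/-- Kazdan deficiency of `u` on the pair `x < y`. -/
def kd (c : ℝ) (u : ℝ → ℝ) (x y : ℝ) : ℝ := (∫ t in x..y, kw c x y t * u t) - (u x + u y) / 2

/-- The primitive of `u / sn ^ 2`. -/
def BKaU (c : ℝ) (u : ℝ → ℝ) (t : ℝ) : ℝ := ∫ r in (Real.pi / c / 2)..t, (sn c r ^ 2)⁻¹ * u r

/-- The bounded function `sn * U`. -/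
def BKag (c : ℝ) (u : ℝ → ℝ) (t : ℝ) : ℝ := sn c t * BKaU c u t

section
variable {c : ℝ} (hc : 0 < c) {u : ℝ → ℝ} (hu : ContinuousOn u (Icc 0 (Real.pi / c)))
include hc

theorem BKa_mid : Real.pi / c / 2 ∈ Ioo 0 (Real.pi / c) := by
  have := div_pos Real.pi_pos hc
  constructor <;> linarith only [this]

include hu

theorem BKa_h_cont : ContinuousOn (fun r => (sn c r ^ 2)⁻¹ * u r) (Ioo 0 (Real.pi / c)) :=
  (BKa_inv_cont hc).mul (hu.mono Ioo_subset_Icc_self)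

theorem BKa_U_deriv {t : ℝ} (ht : t ∈ Ioo 0 (Real.pi / c)) :
    HasDerivAt (BKaU c u) ((sn c t ^ 2)⁻¹ * u t) t :=
  intervalIntegral.integral_hasDerivAt_right
    ((BKa_h_cont hc hu).mono (BKa_sub (BKa_mid hc) ht)).intervalIntegrable
    ((BKa_h_cont hc hu).stronglyMeasurableAtFilter isOpen_Ioo t ht)
    ((BKa_h_cont hc hu).continuousAt (isOpen_Ioo.mem_nhds ht))

theorem BKa_g_bound : ∃ K, ∀ t ∈ Ioo 0 (Real.pi / c), |BKag c u t| ≤ K := by
  obtain ⟨K, hK⟩ := isCompact_Icc.exists_bound_of_continuousOn hu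
  have hm := BKa_mid hc
  have hK0 : 0 ≤ K := (norm_nonneg _).trans (hK _ (Ioo_subset_Icc_self hm))
  refine ⟨K, fun t ht => ?_⟩
  have hs := BKa_sn_pos hc ht
  have h1 : ‖BKaU c u t‖ ≤ |∫ r in (Real.pi / c / 2)..t, K * (sn c r ^ 2)⁻¹| := by
    refine intervalIntegral.norm_integral_le_abs_of_norm_le ?_
      (((BKa_inv_cont hc).mono (BKa_sub hm ht)).intervalIntegrable.const_mul K)
    refine (ae_restrict_mem measurableSet_uIoc).mono fun r hr => ?_
    rw [norm_mul, mul_comm, Real.norm_of_nonneg (inv_nonneg.2 (sq_nonneg (sn c r)))]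
    exact mul_le_mul_of_nonneg_right
      (hK r (Ioo_subset_Icc_self (BKa_sub hm ht (uIoc_subset_uIcc hr))))
      (inv_nonneg.2 (sq_nonneg _))
  have h2 : c * (Real.pi / c / 2) = Real.pi / 2 := by field_simp
  rw [intervalIntegral.integral_const_mul, BKa_inv_int hc hm ht, h2, Real.cos_pi_div_two, zero_div,
    zero_sub, abs_mul, abs_neg, abs_div, abs_of_nonneg hK0, abs_of_pos hs, Real.norm_eq_abs] at h1
  rw [BKag, abs_mul, abs_of_pos hs]
  calc sn c t * |BKaU c u t| ≤ sn c t * (K * (|Real.cos (c * t)| / sn c t)) :=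
        mul_le_mul_of_nonneg_left h1 hs.le
    _ = K * |Real.cos (c * t)| := by field_simp
    _ ≤ K := mul_le_of_le_one_right hK0 (Real.abs_cos_le_one _)

theorem BKa_g_int {a b : ℝ} (ha : a ∈ Icc 0 (Real.pi / c)) (hb : b ∈ Icc 0 (Real.pi / c)) :
    IntervalIntegrable (BKag c u) volume a b := by
  obtain ⟨K, hK⟩ := BKa_g_bound hc hu
  have hL := (div_pos Real.pi_pos hc).le
  have h1 : ContinuousOn (BKag c u) (Ioo 0 (Real.pi / c)) :=
    (BKa_sn_cont c).continuousOn.mul fun t ht =>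
      (BKa_U_deriv hc hu ht).continuousAt.continuousWithinAt
  have h2 : IntervalIntegrable (BKag c u) volume 0 (Real.pi / c) :=
    (intervalIntegrable_iff_integrableOn_Ioo_of_le hL).2 (IntegrableOn.of_bound measure_Ioo_lt_top
      (h1.aestronglyMeasurable measurableSet_Ioo) K
      ((ae_restrict_mem measurableSet_Ioo).mono hK))
  refine h2.mono_set ?_
  rw [uIcc_of_le hL]
  exact ordConnected_Icc.uIcc_subset ha hb

theorem BKa_u_int {a b : ℝ} (ha : a ∈ Icc 0 (Real.pi / c)) (hb : b ∈ Icc 0 (Real.pi / c)) :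
    IntervalIntegrable u volume a b :=
  have _ := hc
  (hu.mono (ordConnected_Icc.uIcc_subset ha hb)).intervalIntegrable

theorem BKa_parts : (∫ t in (0 : ℝ)..(Real.pi / c), 2 * Real.cos (c * t) * BKag c u t) +
    ∫ t in (0 : ℝ)..(Real.pi / c), u t = 0 := by
  obtain ⟨K, hK⟩ := BKa_g_bound hc hu
  have hL := div_pos Real.pi_pos hc
  have h0 : (0 : ℝ) ∈ Icc 0 (Real.pi / c) := left_mem_Icc.2 hL.le
  have h1 : Real.pi / c ∈ Icc 0 (Real.pi / c) := right_mem_Icc.2 hL.le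
  have hI : IntervalIntegrable (fun t => 2 * Real.cos (c * t) * BKag c u t) volume 0
      (Real.pi / c) := (BKa_g_int hc hu h0 h1).continuousOn_mul (by fun_prop)
  have hT : ∀ (F : Filter ℝ) (a : ℝ), F ≤ 𝓝 a → sn c a = 0 → Ioo 0 (Real.pi / c) ∈ F →
      Tendsto (fun t => sn c t * BKag c u t) F (𝓝 0) := fun F a hF ha hm => by
    have h2 : Tendsto (sn c) F (𝓝 0) := ha ▸ ((BKa_sn_cont c).tendsto a).mono_left hF
    exact h2.zero_mul_isBoundedUnder_le ⟨K, mem_map.2 (mem_of_superset hm hK)⟩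
  rw [← intervalIntegral.integral_add hI (BKa_u_int hc hu h0 h1),
    intervalIntegral.integral_eq_sub_of_hasDerivAt_of_tendsto hL
      (f := fun t => sn c t * BKag c u t) (fun t ht => ?_) (hI.add (BKa_u_int hc hu h0 h1))
      (hT _ 0 nhdsWithin_le_nhds (by simp [sn]) (Ioo_mem_nhdsGT hL))
      (hT _ _ nhdsWithin_le_nhds (by rw [sn, mul_div_cancel₀ _ hc.ne', Real.sin_pi, zero_div])
        (Ioo_mem_nhdsLT hL)), sub_zero]
  have h3 := (BKa_sn_pos hc ht).ne'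
  refine ((BKa_sn_deriv hc t).mul ((BKa_sn_deriv hc t).mul (BKa_U_deriv hc hu ht))).congr_deriv ?_
  simp only [BKag, Pi.mul_apply]
  field_simp
  ring

theorem BKa_kd {σ x : ℝ} (hσ : σ ∈ Ioo 0 (Real.pi / c)) (hx : x ∈ Ioo 0 (Real.pi / c - σ)) :
    kd c u x (x + σ) = (sn c σ)⁻¹ * (sn c (x + σ - σ) * BKag c u (x + σ) -
      sn c (x + σ) * BKag c u x) - 2⁻¹ * (u x + u (x + σ)) := by
  have h1 : x ∈ Ioo 0 (Real.pi / c) := ⟨hx.1, by linarith only [hx, hσ, hx.2, hσ.1]⟩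
  have h2 : x + σ ∈ Ioo 0 (Real.pi / c) := ⟨by linarith [hx.1, hσ.1], by linarith [hx.2]⟩
  have h3 : ∀ t, kw c x (x + σ) t * u t =
      sn c x * sn c (x + σ) / sn c σ * ((sn c t ^ 2)⁻¹ * u t) := fun t => by
    rw [kw, div_mul_eq_div_div, div_eq_mul_inv, add_sub_cancel_left, mul_assoc]
  have hm := BKa_mid hc
  have h4 := intervalIntegral.integral_interval_sub_left (μ := volume)
    ((BKa_h_cont hc hu).mono (BKa_sub hm h2)).intervalIntegrable
    ((BKa_h_cont hc hu).mono (BKa_sub hm h1)).intervalIntegrable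
  simp only [kd, h3]
  rw [intervalIntegral.integral_const_mul, ← h4, add_sub_cancel_right]
  simp only [BKag, BKaU]
  ring

theorem BKa_shift {σ : ℝ} (hσ : σ ∈ Ioo 0 (Real.pi / c)) :
    IntervalIntegrable (fun x => kd c u x (x + σ)) volume 0 (Real.pi / c - σ) ∧
    (∫ x in (0 : ℝ)..(Real.pi / c - σ), kd c u x (x + σ)) =
      (sn c σ)⁻¹ * ((∫ t in σ..(Real.pi / c), sn c (t - σ) * BKag c u t) -
        ∫ t in (0 : ℝ)..(Real.pi / c - σ), sn c (t + σ) * BKag c u t) -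
      2⁻¹ * ((∫ t in (0 : ℝ)..(Real.pi / c - σ), u t) + ∫ t in σ..(Real.pi / c), u t) := by
  have hL := div_pos Real.pi_pos hc
  have h0 : (0 : ℝ) ∈ Icc 0 (Real.pi / c) := left_mem_Icc.2 hL.le
  have h1 : Real.pi / c ∈ Icc 0 (Real.pi / c) := right_mem_Icc.2 hL.le
  have h2 : σ ∈ Icc 0 (Real.pi / c) := Ioo_subset_Icc_self hσ
  have h3 : Real.pi / c - σ ∈ Icc 0 (Real.pi / c) := ⟨by linarith only [hσ, hσ.2], by linarith [hσ.1]⟩
  have hs := BKa_sn_cont c
  have i1 : IntervalIntegrable (fun x => sn c (x + σ - σ) * BKag c u (x + σ)) volume 0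
      (Real.pi / c - σ) := by
    have h := ((BKa_g_int hc hu h2 h1).continuousOn_mul (g := fun t => sn c (t - σ))
      (by fun_prop)).comp_add_right σ
    rwa [sub_self] at h
  have i2 : IntervalIntegrable (fun x => sn c (x + σ) * BKag c u x) volume 0 (Real.pi / c - σ) :=
    (BKa_g_int hc hu h0 h3).continuousOn_mul (by fun_prop)
  have i3 := BKa_u_int hc hu h0 h3
  have i4 : IntervalIntegrable (fun x => u (x + σ)) volume 0 (Real.pi / c - σ) := by
    have h := (BKa_u_int hc hu h2 h1).comp_add_right σ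
    rwa [sub_self] at h
  have he : EqOn (fun x => (sn c σ)⁻¹ * (sn c (x + σ - σ) * BKag c u (x + σ) -
      sn c (x + σ) * BKag c u x) - 2⁻¹ * (u x + u (x + σ))) (fun x => kd c u x (x + σ))
      (uIoo 0 (Real.pi / c - σ)) := fun x hx => by
    rw [uIoo_of_le h3.1] at hx
    exact (BKa_kd hc hu hσ hx).symm
  refine ⟨(((i1.sub i2).const_mul _).sub ((i3.add i4).const_mul _)).congr_uIoo he, ?_⟩
  rw [← intervalIntegral.integral_congr_uIoo he,
    intervalIntegral.integral_sub ((i1.sub i2).const_mul _) ((i3.add i4).const_mul _),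
    intervalIntegral.integral_const_mul, intervalIntegral.integral_const_mul,
    intervalIntegral.integral_sub i1 i2, intervalIntegral.integral_add i3 i4,
    intervalIntegral.integral_comp_add_right fun t => sn c (t - σ) * BKag c u t,
    intervalIntegral.integral_comp_add_right u, zero_add, sub_add_cancel]

end

theorem kazdan {c τ : ℝ} (hc : 0 < c) (hτ : 0 < τ) (hτ' : τ < Real.pi / c) {u : ℝ → ℝ}
    (hu : ContinuousOn u (Icc 0 (Real.pi / c))) :
    IntervalIntegrable (fun x => kd c u x (x + τ)) volume 0 (Real.pi / c - τ) ∧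
    IntervalIntegrable (fun y => kd c u y (y + (Real.pi / c - τ))) volume 0 τ ∧
    (∫ x in (0 : ℝ)..(Real.pi / c - τ), kd c u x (x + τ)) +
      (∫ y in (0 : ℝ)..τ, kd c u y (y + (Real.pi / c - τ))) = 0 := by
  have hL := div_pos Real.pi_pos hc
  have h0 : (0 : ℝ) ∈ Icc 0 (Real.pi / c) := left_mem_Icc.2 hL.le
  have h1 : Real.pi / c ∈ Icc 0 (Real.pi / c) := right_mem_Icc.2 hL.le
  have h2 : τ ∈ Icc 0 (Real.pi / c) := ⟨hτ.le, hτ'.le⟩
  have h3 : Real.pi / c - τ ∈ Icc 0 (Real.pi / c) := ⟨by linarith only [hτ'], by linarith⟩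
  have hs := BKa_sn_cont c
  obtain ⟨a1, a2⟩ := BKa_shift hc hu ⟨hτ, hτ'⟩
  obtain ⟨b1, b2⟩ := BKa_shift hc hu (σ := Real.pi / c - τ) ⟨by linarith only [hτ'], by linarith only [hτ]⟩
  rw [sub_sub_cancel] at b1 b2
  refine ⟨a1, b1, ?_⟩
  have hπ : c * (Real.pi / c) = Real.pi := mul_div_cancel₀ _ hc.ne'
  have e1 : sn c (Real.pi / c - τ) = sn c τ := by
    rw [sn, mul_sub, hπ, Real.sin_pi_sub, sn]
  have e2 : ∀ t, sn c (t - (Real.pi / c - τ)) * BKag c u t = -(sn c (t + τ) * BKag c u t) :=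
    fun t => by
      rw [sn, sn, show c * (t - (Real.pi / c - τ)) = c * (t + τ) - c * (Real.pi / c) by ring, hπ,
        Real.sin_sub_pi]
      ring
  have e3 : ∀ t, sn c (t + (Real.pi / c - τ)) * BKag c u t = -(sn c (t - τ) * BKag c u t) :=
    fun t => by
      rw [sn, sn, show c * (t + (Real.pi / c - τ)) = c * (t - τ) + c * (Real.pi / c) by ring, hπ,
        Real.sin_add_pi]
      ring
  simp only [e1, e2, e3, intervalIntegral.integral_neg] at b2
  have ip : ∀ {a b : ℝ}, a ∈ Icc 0 (Real.pi / c) → b ∈ Icc 0 (Real.pi / c) →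
      IntervalIntegrable (fun t => sn c (t + τ) * BKag c u t) volume a b := fun ha hb =>
    (BKa_g_int hc hu ha hb).continuousOn_mul (by fun_prop)
  have im : ∀ {a b : ℝ}, a ∈ Icc 0 (Real.pi / c) → b ∈ Icc 0 (Real.pi / c) →
      IntervalIntegrable (fun t => sn c (t - τ) * BKag c u t) volume a b := fun ha hb =>
    (BKa_g_int hc hu ha hb).continuousOn_mul (by fun_prop)
  have c1 := intervalIntegral.integral_add_adjacent_intervals (ip h0 h3) (ip h3 h1)
  have c2 := intervalIntegral.integral_add_adjacent_intervals (im h0 h2) (im h2 h1)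
  have c3 := intervalIntegral.integral_add_adjacent_intervals (BKa_u_int hc hu h0 h3)
    (BKa_u_int hc hu h3 h1)
  have c4 := intervalIntegral.integral_add_adjacent_intervals (BKa_u_int hc hu h0 h2)
    (BKa_u_int hc hu h2 h1)
  have c5 := intervalIntegral.integral_sub (ip h0 h1) (im h0 h1)
  have e4 : ∀ t, sn c (t + τ) * BKag c u t - sn c (t - τ) * BKag c u t =
      sn c τ * (2 * Real.cos (c * t) * BKag c u t) := fun t => by
    simp only [sn, mul_add, mul_sub, Real.sin_add, Real.sin_sub]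
    ring
  simp only [e4, intervalIntegral.integral_const_mul] at c5
  have c6 := BKa_parts hc hu
  have c7 := inv_mul_cancel₀ (BKa_sn_pos hc ⟨hτ, hτ'⟩).ne'
  rw [a2, b2]
  linear_combination (sn c τ)⁻¹ * c2 - (sn c τ)⁻¹ * c1 + (sn c τ)⁻¹ * c5 - 2⁻¹ * c3 - 2⁻¹ * c4 -
    c6 - (∫ t in (0 : ℝ)..(Real.pi / c), 2 * Real.cos (c * t) * BKag c u t) * c7

end Pool.Agent.Work.MP_8c604c_gt
end
end

-- merged part: Pool.Agent.Work.MP_8c604c_gt.BKbAux
section
/-! Schur complements for matrices indexed by `Option ι`, and the scalar Jensen inequality. -/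

set_option maxSynthPendingDepth 3

open Set Filter Topology MeasureTheory

noncomputable section
namespace Pool.Agent.Work.MP_8c604c_gt

open Matrix Real

variable {ι : Type} [Fintype ι] [DecidableEq ι]

theorem bkb_det_opt (A : Matrix (Option ι) (Option ι) ℝ) (h : ∀ j, A (some j) none = 0) :
    A.det = A none none * (A.submatrix some some).det := by
  have e : A = (fromBlocks (A.submatrix some some) 0 (of fun _ j => A none (some j))
      (of fun (_ _ : PUnit.{1}) => A none none)).submatrix (Equiv.optionEquivSumPUnit ι)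
        (Equiv.optionEquivSumPUnit ι) := by
    ext (_ | i) (_ | j) <;> simp [h]
  conv_lhs => rw [e, det_submatrix_equiv_self, det_fromBlocks_zero₁₂, mul_comm,
    det_unique (n := PUnit)]
  rfl

theorem bkb_det_vec {Q : Matrix (Option ι) (Option ι) ℝ} {x : Option ι → ℝ} {σ : ℝ}
    (hx : x none = 1) (h : Q *ᵥ x = Pi.single none σ) :
    Q.det = σ * (Q.submatrix some some).det := by
  have h1 := det_updateCol_sum Q none x
  have h2 : (fun k => ∑ i, x i • Q k i) = Pi.single none σ := by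
    rw [← h]
    funext k
    simp only [mulVec, dotProduct, smul_eq_mul, mul_comm]
  rw [h2, hx, one_smul, bkb_det_opt _ (fun j => by simp)] at h1
  have h3 : (Q.updateCol none (Pi.single none σ)).submatrix some some =
      Q.submatrix some some := by
    ext i j
    simp
  rw [← h1, h3, updateCol_self, Pi.single_eq_same]

theorem bkb_shift {Q : Matrix (Option ι) (Option ι) ℝ} (hQ : Q.IsSymm)
    {x η : Option ι → ℝ} {σ : ℝ} (h : Q *ᵥ x = Pi.single none σ) (hη : η none = x none) :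
    η ⬝ᵥ Q *ᵥ η = σ * x none + (η - x) ⬝ᵥ Q *ᵥ (η - x) := by
  obtain ⟨d, rfl⟩ : ∃ d, η = x + d := ⟨η - x, by abel⟩
  have hd : d none = 0 := by simpa using hη
  have h1 : x ⬝ᵥ Q *ᵥ d = 0 := by
    rw [dotProduct_mulVec, ← mulVec_transpose, hQ.eq, h, single_dotProduct, hd, mul_zero]
  rw [add_sub_cancel_left, mulVec_add, add_dotProduct, dotProduct_add, dotProduct_add, h1, h,
    dotProduct_single, dotProduct_single, hd]
  ring

omit [DecidableEq ι] in
theorem bkb_perp (Q : Matrix (Option ι) (Option ι) ℝ) {d : Option ι → ℝ} (hd : d none = 0) :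
    d ⬝ᵥ Q *ᵥ d = (d ∘ some) ⬝ᵥ (Q.submatrix some some) *ᵥ (d ∘ some) := by
  simp [dotProduct, mulVec, Fintype.sum_option, hd]

theorem bkb_min {Q : Matrix (Option ι) (Option ι) ℝ} (hQ : Q.IsSymm)
    (hp : (Q.submatrix some some).PosDef) :
    ∃ (ξ : Option ι → ℝ) (σ : ℝ), ξ none = 1 ∧ ξ ⬝ᵥ Q *ᵥ ξ = σ ∧
      Q.det = σ * (Q.submatrix some some).det ∧ ∀ η, η none = 1 → σ ≤ η ⬝ᵥ Q *ᵥ η := by
  let b := -((Q.submatrix some some)⁻¹ *ᵥ fun j => Q (some j) none)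
  let ξ : Option ι → ℝ := fun i => Option.elim i 1 b
  have h1 : (Q.submatrix some some) *ᵥ b = -fun j => Q (some j) none := by
    rw [mulVec_neg, mulVec_mulVec, mul_nonsing_inv _ (isUnit_iff_ne_zero.2 hp.det_pos.ne'),
      one_mulVec]
  have h2 : Q *ᵥ ξ = Pi.single none ((Q *ᵥ ξ) none) := by
    funext i
    cases i with
    | none => simp
    | some j =>
      have := congrFun h1 j
      simp only [mulVec, dotProduct, submatrix_apply, Pi.neg_apply] at this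
      simp [mulVec, dotProduct, Fintype.sum_option, ξ, this]
  refine ⟨ξ, (Q *ᵥ ξ) none, rfl, ?_, bkb_det_vec rfl h2, fun η hη => ?_⟩
  · conv_lhs => rw [h2, dotProduct_single]
    exact one_mul _
  · rw [bkb_shift hQ h2 hη, bkb_perp _ (sub_eq_zero.2 hη)]
    have := hp.posSemidef.dotProduct_mulVec_nonneg ((η - ξ) ∘ some)
    rw [star_trivial] at this
    show _ ≤ _ * 1 + _
    linarith

theorem bkb_inv_col {G : Matrix (Option ι) (Option ι) ℝ} (hG : G.PosDef) (a : ℝ) :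
    G⁻¹ *ᵥ (fun i => a * G i none) = Pi.single none a := by
  have : (fun i => a * G i none) = G *ᵥ Pi.single none a := by
    funext i
    simp [mul_comm]
  rw [this, mulVec_mulVec, nonsing_inv_mul _ (isUnit_iff_ne_zero.2 hG.det_pos.ne'), one_mulVec]

theorem bkb_det_inv {G : Matrix (Option ι) (Option ι) ℝ} (hG : G.PosDef) :
    log G.det = log (G none none) - log (G⁻¹.submatrix some some).det := by
  have h0 : G none none ≠ 0 := hG.diag_pos.ne'
  have h := bkb_det_vec (inv_mul_cancel₀ h0) (bkb_inv_col hG (G none none)⁻¹)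
  have h1 := (hG.inv.submatrix (Option.some_injective ι)).det_pos.ne'
  have h2 := congrArg log h
  rw [det_nonsing_inv, Ring.inverse_eq_inv, log_inv, log_mul (inv_ne_zero h0) h1, log_inv] at h2
  linarith only [h2]

theorem bkb_inv_ge {G : Matrix (Option ι) (Option ι) ℝ} (hG : G.PosDef) (ζ : Option ι → ℝ) :
    ζ none ^ 2 / G none none ≤ ζ ⬝ᵥ G⁻¹ *ᵥ ζ ∧
      (ζ none ^ 2 / G none none = ζ ⬝ᵥ G⁻¹ *ᵥ ζ → ∀ i, ζ i * G none none = ζ none * G i none) := by
  have h0 : G none none ≠ 0 := hG.diag_pos.ne'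
  have hs : G⁻¹.IsSymm := by
    have := hG.inv.isHermitian
    rwa [IsHermitian, conjTranspose_eq_transpose_of_trivial] at this
  have h := bkb_shift hs (bkb_inv_col hG (ζ none / G none none)) (η := ζ)
    (div_mul_cancel₀ _ h0).symm
  have e : ζ none / G none none * (ζ none / G none none * G none none) =
      ζ none ^ 2 / G none none := by
    field_simp
  rw [e] at h
  constructor
  · have := hG.inv.posSemidef.dotProduct_mulVec_nonneg
      (ζ - fun i => ζ none / G none none * G i none)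
    rw [star_trivial] at this
    linarith only [h, this]
  · intro h1 i
    by_contra hne
    have h2 : (ζ - fun i => ζ none / G none none * G i none) ≠ 0 := fun h3 => hne (by
      have := sub_eq_zero.1 (congrFun h3 i)
      rw [this]
      field_simp)
    have := hG.inv.dotProduct_mulVec_pos h2
    rw [star_trivial] at this
    linarith only [h, h1, this]

theorem bkb_jensen {f w : ℝ → ℝ} {x y : ℝ} (hxy : x < y) (hf : ContinuousOn f (Icc x y))
    (hp : ∀ t ∈ Icc x y, 0 < f t) (hw : ContinuousOn w (Icc x y)) (hw0 : ∀ t ∈ Icc x y, 0 < w t)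
    (hw1 : ∫ t in x..y, w t = 1) :
    0 < ∫ t in x..y, w t * f t ∧
    (∫ t in x..y, w t * log (f t)) ≤ log (∫ t in x..y, w t * f t) ∧
    ((∫ t in x..y, w t * log (f t)) = log (∫ t in x..y, w t * f t) → ∀ t ∈ Icc x y, f t = f x) := by
  have h := logdet_jensen (ι := Unit) (N := fun t => diagonal fun _ => f t) hxy
    (fun i j => by simpa using hf) (fun t ht => PosDef.diagonal fun _ => hp t ht) hw hw0 hw1
  simp only [det_unique, diagonal_apply_eq, of_apply, Subsingleton.elim _ ()] at h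
  obtain ⟨h1, h2, h3⟩ := h
  refine ⟨by simpa using h1.diag_pos (i := ()), h2, fun e t ht => ?_⟩
  simpa using congrFun (congrFun (h3 e t ht) ()) ()

theorem bkb_sn_pos {c t : ℝ} (hc : 0 < c) (h0 : 0 < t) (h1 : t < π / c) : 0 < sn c t :=
  div_pos (sin_pos_of_pos_of_lt_pi (mul_pos hc h0) (by rwa [lt_div_iff₀' hc] at h1)) hc

theorem bkb_sn_cont (c : ℝ) : Continuous (sn c) := by
  unfold sn
  fun_prop

theorem bkb_kw {c x y : ℝ} (hc : 0 < c) (hx : 0 < x) (hxy : x < y) (hy : y < π / c) :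
    ContinuousOn (kw c x y) (Icc x y) ∧ (∀ t ∈ Icc x y, 0 < kw c x y t) ∧
      ∀ t ∈ Icc x y, (sn c t ^ 2)⁻¹ = sn c (y - x) / (sn c x * sn c y) * kw c x y t := by
  have h1 := bkb_sn_pos hc hx (hxy.trans hy)
  have h2 := bkb_sn_pos hc (hx.trans hxy) hy
  have h3 := bkb_sn_pos hc (sub_pos.2 hxy) (show y - x < π / c by linarith only [hx, hy])
  have h4 : ∀ t ∈ Icc x y, 0 < sn c t := fun t ht =>
    bkb_sn_pos hc (hx.trans_le ht.1) (ht.2.trans_lt hy)
  refine ⟨continuousOn_const.div (continuous_const.mul ((bkb_sn_cont c).pow 2)).continuousOn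
    fun t ht => (mul_pos h3 (pow_pos (h4 t ht) 2)).ne', fun t ht =>
      div_pos (mul_pos h1 h2) (mul_pos h3 (pow_pos (h4 t ht) 2)), fun t ht => ?_⟩
  have := h4 t ht
  unfold kw
  field_simp

/-- Lower bound for the integral of `f / sn ^ 2`. -/
theorem bkb_scalar {c x y : ℝ} (hc : 0 < c) (hx : 0 < x) (hxy : x < y) (hy : y < π / c)
    {f : ℝ → ℝ} (hf : ContinuousOn f (Icc x y)) (hp : ∀ t ∈ Icc x y, 0 < f t) :
    0 < ∫ t in x..y, (sn c t ^ 2)⁻¹ * f t ∧
    log (sn c (y - x)) - log (sn c x) - log (sn c y) + (∫ t in x..y, kw c x y t * log (f t)) ≤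
      log (∫ t in x..y, (sn c t ^ 2)⁻¹ * f t) ∧
    (log (sn c (y - x)) - log (sn c x) - log (sn c y) + (∫ t in x..y, kw c x y t * log (f t)) =
      log (∫ t in x..y, (sn c t ^ 2)⁻¹ * f t) → ∀ t ∈ Icc x y, f t = f x) := by
  have h1 := bkb_sn_pos hc hx (hxy.trans hy)
  have h2 := bkb_sn_pos hc (hx.trans hxy) hy
  have h3 := bkb_sn_pos hc (sub_pos.2 hxy) (show y - x < π / c by linarith only [hx, hy])
  obtain ⟨k1, k2, k3⟩ := bkb_kw hc hx hxy hy
  obtain ⟨j1, j2, j3⟩ := bkb_jensen hxy hf hp k1 k2 (integral_kw hc hx hxy hy)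
  have e : ∫ t in x..y, (sn c t ^ 2)⁻¹ * f t =
      sn c (y - x) / (sn c x * sn c y) * ∫ t in x..y, kw c x y t * f t := by
    rw [← intervalIntegral.integral_const_mul]
    refine intervalIntegral.integral_congr fun t ht => ?_
    rw [uIcc_of_le hxy.le] at ht
    simp only [k3 t ht, mul_assoc]
  have h4 := div_pos h3 (mul_pos h1 h2)
  rw [e, log_mul h4.ne' j1.ne', log_div h3.ne' (mul_pos h1 h2).ne', log_mul h1.ne' h2.ne']
  exact ⟨mul_pos h4 j1, by linarith only [j2], fun h => j3 (by linarith only [h, j2])⟩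

end Pool.Agent.Work.MP_8c604c_gt
end
end

-- merged part: Pool.Agent.Work.MP_8c604c_gt.H.BKA
section
/-! Schur complements for matrices indexed by `κ ⊕ ι`, monotonicity of `log det`, the matrix Jensen inequality. -/

set_option maxSynthPendingDepth 3

open Set Filter Topology MeasureTheory

noncomputable section
namespace Pool.Agent.Work.MP_8c604c_gt.H

open Matrix Real Sum

variable {κ ι : Type} [Fintype κ] [DecidableEq κ] [Fintype ι] [DecidableEq ι]

omit [DecidableEq κ] in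
theorem bka_symm {Q : Matrix κ κ ℝ} (hQ : Q.IsSymm) (a b : κ → ℝ) :
    a ⬝ᵥ Q *ᵥ b = b ⬝ᵥ Q *ᵥ a := by
  rw [dotProduct_mulVec, ← mulVec_transpose, hQ.eq, dotProduct_comm]

omit [Fintype κ] [DecidableEq κ] in
theorem bka_isSymm {Q : Matrix κ κ ℝ} (hQ : Q.IsHermitian) : Q.IsSymm := by
  rwa [IsHermitian, conjTranspose_eq_transpose_of_trivial] at hQ

omit [DecidableEq κ] in
theorem bka_nonneg {Q : Matrix κ κ ℝ} (hQ : Q.PosSemidef) (a : κ → ℝ) : 0 ≤ a ⬝ᵥ Q *ᵥ a := by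
  simpa using hQ.dotProduct_mulVec_nonneg a

omit [DecidableEq κ] in
theorem bka_pos {Q : Matrix κ κ ℝ} (hQ : Q.PosDef) {a : κ → ℝ} (ha : a ≠ 0) :
    0 < a ⬝ᵥ Q *ᵥ a := by
  simpa using hQ.dotProduct_mulVec_pos ha

omit [DecidableEq κ] [DecidableEq ι] in
theorem bka_perp (Q : Matrix (κ ⊕ ι) (κ ⊕ ι) ℝ) {d : κ ⊕ ι → ℝ} (hd : d ∘ inl = 0) :
    d ⬝ᵥ Q *ᵥ d = (d ∘ inr) ⬝ᵥ (Q.submatrix inr inr) *ᵥ (d ∘ inr) := by
  have : ∀ i, d (inl i) = 0 := congrFun hd
  simp [dotProduct, mulVec, Fintype.sum_sum_type, this]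

omit [DecidableEq κ] [DecidableEq ι] in
theorem bka_top {a b : κ ⊕ ι → ℝ} (hb : b ∘ inr = 0) : a ⬝ᵥ b = (a ∘ inl) ⬝ᵥ (b ∘ inl) := by
  have : ∀ i, b (inr i) = 0 := congrFun hb
  simp [dotProduct, Fintype.sum_sum_type, this]

omit [DecidableEq κ] [DecidableEq ι] in
theorem bka_shift {Q : Matrix (κ ⊕ ι) (κ ⊕ ι) ℝ} (hQ : Q.IsSymm) {x η : κ ⊕ ι → ℝ}
    (h : (Q *ᵥ x) ∘ inr = 0) (hη : η ∘ inl = x ∘ inl) :
    η ⬝ᵥ Q *ᵥ η = x ⬝ᵥ Q *ᵥ x + (η - x) ⬝ᵥ Q *ᵥ (η - x) := by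
  obtain ⟨d, rfl⟩ : ∃ d, η = x + d := ⟨η - x, by abel⟩
  have hd : d ∘ inl = 0 := funext fun i => by simpa using congrFun hη i
  have h1 : d ⬝ᵥ Q *ᵥ x = 0 := by rw [bka_top h, hd, zero_dotProduct]
  rw [add_sub_cancel_left, mulVec_add, add_dotProduct, dotProduct_add, dotProduct_add, h1,
    bka_symm hQ x d, h1]
  ring

omit [DecidableEq κ] [DecidableEq ι] in
theorem bka_shift_le {Q : Matrix (κ ⊕ ι) (κ ⊕ ι) ℝ} (hQ : Q.IsSymm)
    (hp : (Q.submatrix inr inr).PosDef) {x η : κ ⊕ ι → ℝ}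
    (h : (Q *ᵥ x) ∘ inr = 0) (hη : η ∘ inl = x ∘ inl) : x ⬝ᵥ Q *ᵥ x ≤ η ⬝ᵥ Q *ᵥ η := by
  rw [bka_shift hQ h hη, bka_perp Q (d := η - x) (funext fun i => sub_eq_zero.2 (congrFun hη i))]
  exact le_add_of_nonneg_right (bka_nonneg hp.posSemidef _)

theorem bka_min {Q : Matrix (κ ⊕ ι) (κ ⊕ ι) ℝ} (hQ : Q.IsSymm)
    (hp : (Q.submatrix inr inr).PosDef) :
    ∃ (Y : Matrix ι κ ℝ) (σ : Matrix κ κ ℝ), σ.IsSymm ∧
      (∀ a, Sum.elim a (Y *ᵥ a) ⬝ᵥ Q *ᵥ Sum.elim a (Y *ᵥ a) = a ⬝ᵥ σ *ᵥ a) ∧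
      Q.det = σ.det * (Q.submatrix inr inr).det ∧
      ∀ η, (η ∘ inl) ⬝ᵥ σ *ᵥ (η ∘ inl) ≤ η ⬝ᵥ Q *ᵥ η := by
  obtain ⟨A, B, C, D, rfl⟩ : ∃ A B C D, Q = fromBlocks A B C D := ⟨_, _, _, _, (fromBlocks_toBlocks Q).symm⟩
  have hD : (fromBlocks A B C D).submatrix inr inr = D := rfl
  rw [hD] at hp ⊢
  obtain ⟨hA, hC, hB, hD'⟩ := isSymm_fromBlocks_iff.1 hQ
  have hu : IsUnit D.det := isUnit_iff_ne_zero.2 hp.det_pos.ne'
  have h1 : ∀ a, fromBlocks A B C D *ᵥ Sum.elim a (-(D⁻¹ * C) *ᵥ a) =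
      Sum.elim ((A - B * D⁻¹ * C) *ᵥ a) 0 := fun a => by
    rw [fromBlocks_mulVec, Sum.elim_comp_inl, Sum.elim_comp_inr, mulVec_mulVec, mulVec_mulVec,
      ← add_mulVec, ← add_mulVec, Matrix.mul_neg, Matrix.mul_neg, mul_nonsing_inv_cancel_left _ _ hu,
      add_neg_cancel, zero_mulVec, Matrix.mul_assoc, sub_eq_add_neg]
  have h2 : ∀ a, Sum.elim a (-(D⁻¹ * C) *ᵥ a) ⬝ᵥ fromBlocks A B C D *ᵥ
      Sum.elim a (-(D⁻¹ * C) *ᵥ a) = a ⬝ᵥ (A - B * D⁻¹ * C) *ᵥ a := fun a => by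
    rw [h1, sumElim_dotProduct_sumElim, dotProduct_zero, add_zero]
  refine ⟨-(D⁻¹ * C), A - B * D⁻¹ * C, hA.sub ?_, h2, ?_, fun η => ?_⟩
  · rw [IsSymm, transpose_mul, transpose_mul, hB, hC, (bka_isSymm hp.inv.isHermitian).eq,
      Matrix.mul_assoc]
  · have := invertibleOfIsUnitDet D hu
    rw [det_fromBlocks₂₂, invOf_eq_nonsing_inv, mul_comm]
  · rw [← h2]
    exact bka_shift_le hQ hp (by rw [h1]; rfl) rfl

theorem bka_ker {Q : Matrix (κ ⊕ ι) (κ ⊕ ι) ℝ} (hQ : Q.IsSymm)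
    (hp : (Q.submatrix inr inr).PosDef) {X : Matrix (κ ⊕ ι) κ ℝ} (hX : ∀ a, X *ᵥ a = 0 → a = 0)
    (h0 : Q * X = 0) :
    (∀ a, ∃ η, η ∘ inl = a ∧ η ⬝ᵥ Q *ᵥ η = 0) ∧ ∀ η, 0 ≤ η ⬝ᵥ Q *ᵥ η := by
  have h1 : ∀ a, Q *ᵥ X *ᵥ a = 0 := fun a => by rw [mulVec_mulVec, h0, zero_mulVec]
  have h2 : Function.Injective (X.submatrix inl id).mulVecLin := by
    refine (injective_iff_map_eq_zero _).2 fun a ha => hX a ?_
    have h3 : (X *ᵥ a) ∘ inl = 0 := ha
    have h4 := bka_perp Q h3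
    rw [h1, dotProduct_zero] at h4
    have h5 : (X *ᵥ a) ∘ inr = 0 := by_contra fun h => (bka_pos hp h).ne h4
    funext i
    cases i with
    | inl i => exact congrFun h3 i
    | inr i => exact congrFun h5 i
  have h3 : ∀ a, ∃ b, (X *ᵥ b) ∘ inl = a := LinearMap.injective_iff_surjective.1 h2
  refine ⟨fun a => ?_, fun η => ?_⟩
  · obtain ⟨b, hb⟩ := h3 a
    exact ⟨_, hb, by rw [h1, dotProduct_zero]⟩
  · obtain ⟨b, hb⟩ := h3 (η ∘ inl)
    have := bka_shift_le hQ hp (x := X *ᵥ b) (by rw [h1]; rfl) hb.symm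
    rwa [h1, dotProduct_zero] at this

theorem bka_det_inv {G : Matrix (κ ⊕ ι) (κ ⊕ ι) ℝ} (hG : G.PosDef) :
    log G.det = log (G.submatrix inl inl).det - log (G⁻¹.submatrix inr inr).det := by
  have h0 := (hG.submatrix inl_injective).det_pos.ne'
  have h1 := nonsing_inv_mul _ (isUnit_iff_ne_zero.2 hG.det_pos.ne')
  have h : G⁻¹ * fromBlocks (G.submatrix inl inl) 0 (G.submatrix inr inl) 1 =
      fromBlocks 1 (G⁻¹.submatrix inl inr) 0 (G⁻¹.submatrix inr inr) := by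
    ext i (j | j)
    · have := congrFun (congrFun h1 i) (inl j)
      rw [Matrix.mul_apply, Fintype.sum_sum_type] at this
      rw [Matrix.mul_apply, Fintype.sum_sum_type]
      refine this.trans ?_
      cases i <;> simp [one_apply]
    · cases i <;> simp [Matrix.mul_apply, Fintype.sum_sum_type, one_apply]
  have h2 := congrArg (fun A => log (det A)) h
  simp only [det_mul, det_fromBlocks_zero₁₂, det_fromBlocks_zero₂₁, det_one, mul_one, one_mul] at h2
  rw [det_nonsing_inv, Ring.inverse_eq_inv, log_mul (inv_ne_zero hG.det_pos.ne') h0, log_inv] at h2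
  linarith only [h2]

theorem bka_inv_ge {G : Matrix (κ ⊕ ι) (κ ⊕ ι) ℝ} (hG : G.PosDef) (ζ : κ ⊕ ι → ℝ) :
    (ζ ∘ inl) ⬝ᵥ (G.submatrix inl inl)⁻¹ *ᵥ (ζ ∘ inl) ≤ ζ ⬝ᵥ G⁻¹ *ᵥ ζ ∧
      ((ζ ∘ inl) ⬝ᵥ (G.submatrix inl inl)⁻¹ *ᵥ (ζ ∘ inl) = ζ ⬝ᵥ G⁻¹ *ᵥ ζ →
        ζ ∘ inr = G.submatrix inr inl *ᵥ (G.submatrix inl inl)⁻¹ *ᵥ (ζ ∘ inl)) := by
  obtain ⟨c, hc⟩ : ∃ c, c = (G.submatrix inl inl)⁻¹ *ᵥ (ζ ∘ inl) := ⟨_, rfl⟩
  have h1 : G⁻¹ *ᵥ G *ᵥ Sum.elim c 0 = Sum.elim c 0 := by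
    rw [mulVec_mulVec, nonsing_inv_mul _ (isUnit_iff_ne_zero.2 hG.det_pos.ne'), one_mulVec]
  have h2 : (G *ᵥ Sum.elim c 0) ∘ inl = G.submatrix inl inl *ᵥ c := by
    funext i
    simp [mulVec, dotProduct, Fintype.sum_sum_type]
  have h3 : (G *ᵥ Sum.elim c 0) ∘ inr = G.submatrix inr inl *ᵥ c := by
    funext i
    simp [mulVec, dotProduct, Fintype.sum_sum_type]
  rw [hc, mulVec_mulVec, mul_nonsing_inv _
    (isUnit_iff_ne_zero.2 (hG.submatrix inl_injective).det_pos.ne'), one_mulVec, ← hc] at h2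
  have h := bka_shift (bka_isSymm hG.inv.isHermitian) (η := ζ) (x := G *ᵥ Sum.elim c 0)
    (by rw [h1]; rfl) h2.symm
  rw [h1, bka_top (b := Sum.elim c 0) rfl, h2, Sum.elim_comp_inl] at h
  rw [← hc, h]
  refine ⟨le_add_of_nonneg_right (bka_nonneg hG.inv.posSemidef _), fun e => ?_⟩
  have h4 : ζ - G *ᵥ Sum.elim c 0 = 0 := by_contra fun h5 => (bka_pos hG.inv h5).ne (by linarith only [e])
  rw [← h3, sub_eq_zero.1 h4]

theorem bka_mono {P σ : Matrix κ κ ℝ} (hP : P.PosDef) (hσ : σ.IsSymm)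
    (h : ∀ a, a ⬝ᵥ P *ᵥ a ≤ a ⬝ᵥ σ *ᵥ a) :
    log P.det ≤ log σ.det ∧ (log P.det = log σ.det → P = σ) := by
  have hs : σ.IsHermitian := by rwa [IsHermitian, conjTranspose_eq_transpose_of_trivial]
  have h1 : σ.PosDef := PosDef.of_dotProduct_mulVec_pos hs fun a ha => by
    simpa using (bka_pos hP ha).trans_le (h a)
  have h2 : (σ - P).PosSemidef := PosSemidef.of_dotProduct_mulVec_nonneg (hs.sub hP.isHermitian)
    fun a => by simpa [sub_mulVec] using h a
  obtain ⟨C, -, hC⟩ := BKa_root h1.inv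
  have h3 := (h2.mul_mul_conjTranspose_same C).trace_nonneg
  rw [trace_mul_cycle, ← hC, Matrix.mul_sub, trace_sub,
    nonsing_inv_mul _ (isUnit_iff_ne_zero.2 h1.det_pos.ne'), trace_one] at h3
  obtain ⟨h4, h5⟩ := logdet_le hP h1
  exact ⟨by linarith only [h3, h4], fun e => h5 (by linarith only [h3, e, h4])⟩

omit [DecidableEq κ] in
theorem bka_int {N : ℝ → Matrix κ κ ℝ} {w : ℝ → ℝ} {x y : ℝ} (hxy : x < y)
    (hN : ∀ i j, ContinuousOn (fun t => N t i j) (Icc x y)) (hw : ContinuousOn w (Icc x y))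
    (a : κ → ℝ) : ContinuousOn (fun t => a ⬝ᵥ N t *ᵥ a) (Icc x y) ∧
      (∫ t in x..y, w t * (a ⬝ᵥ N t *ᵥ a)) =
        a ⬝ᵥ (of fun i j => ∫ t in x..y, w t * N t i j) *ᵥ a := by
  have h := BKa_int hxy hN hw (vecMulVec a a)
  simpa only [← BKa_quad, star_trivial] using h

/-- Lower bound for the determinant of the integral of `f / sn ^ 2`. -/
theorem bka_mat {c x y : ℝ} (hc : 0 < c) (hx : 0 < x) (hxy : x < y) (hy : y < π / c)
    {f : ℝ → Matrix κ κ ℝ} (hf : ∀ i j, ContinuousOn (fun t => f t i j) (Icc x y))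
    (hp : ∀ t ∈ Icc x y, (f t).PosDef) :
    (of fun i j => ∫ t in x..y, (sn c t ^ 2)⁻¹ * f t i j).PosDef ∧
    Fintype.card κ * (log (sn c (y - x)) - log (sn c x) - log (sn c y)) +
      (∫ t in x..y, kw c x y t * log (f t).det) ≤
      log (of fun i j => ∫ t in x..y, (sn c t ^ 2)⁻¹ * f t i j).det ∧
    (Fintype.card κ * (log (sn c (y - x)) - log (sn c x) - log (sn c y)) +
      (∫ t in x..y, kw c x y t * log (f t).det) =
      log (of fun i j => ∫ t in x..y, (sn c t ^ 2)⁻¹ * f t i j).det →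
        ∀ t ∈ Icc x y, f t = f x) := by
  have h1 := bkb_sn_pos hc hx (hxy.trans hy)
  have h2 := bkb_sn_pos hc (hx.trans hxy) hy
  have h3 := bkb_sn_pos hc (sub_pos.2 hxy) (show y - x < π / c by linarith only [hx, hy])
  obtain ⟨k1, k2, k3⟩ := bkb_kw hc hx hxy hy
  obtain ⟨j1, j2, j3⟩ := logdet_jensen hxy hf hp k1 k2 (integral_kw hc hx hxy hy)
  have e : (of fun i j => ∫ t in x..y, (sn c t ^ 2)⁻¹ * f t i j) =
      (sn c (y - x) / (sn c x * sn c y)) • of fun i j => ∫ t in x..y, kw c x y t * f t i j := by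
    ext i j
    rw [Matrix.smul_apply, of_apply, of_apply, smul_eq_mul, ← intervalIntegral.integral_const_mul]
    refine intervalIntegral.integral_congr fun t ht => ?_
    rw [uIcc_of_le hxy.le] at ht
    simp only [k3 t ht, mul_assoc]
  have h4 := div_pos h3 (mul_pos h1 h2)
  rw [e, det_smul, log_mul (pow_pos h4 _).ne' j1.det_pos.ne', log_pow,
    log_div h3.ne' (mul_pos h1 h2).ne', log_mul h1.ne' h2.ne']
  exact ⟨j1.smul h4, by linarith only [j2], fun h => j3 (by linarith only [h, j2])⟩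

theorem bka_log_neg (σ : Matrix κ κ ℝ) : log (-σ).det = log σ.det := by
  rw [det_neg]
  rcases neg_one_pow_eq_or ℝ (Fintype.card κ) with h | h <;> simp [h]

end Pool.Agent.Work.MP_8c604c_gt.H
end
end

-- merged part: Pool.Agent.Work.MP_8c604c_gt.H.BKb
section
/-!
The inequality along one geodesic, matrix form. The indices `κ` are the directions of the middle conjugate point.
-/

set_option maxSynthPendingDepth 3
set_option linter.unusedSectionVars false

open Set Filter Topology MeasureTheory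
open scoped ContDiff

noncomputable section
namespace Pool.Agent.Work.MP_8c604c_gt.H

open Matrix Real Sum

variable {κ ι : Type} [Fintype κ] [DecidableEq κ] [Fintype ι] [DecidableEq ι]

/-- The diagonal of `Dl`. -/
def dl (κ ι : Type) (t : ℝ) : κ ⊕ ι → ℝ := Sum.elim (fun _ => sn 2 t) fun _ => sin t

/-- The model diagonal matrix. -/
def Dl (κ ι : Type) [DecidableEq κ] [DecidableEq ι] (t : ℝ) : Matrix (κ ⊕ ι) (κ ⊕ ι) ℝ :=
  Matrix.diagonal (dl κ ι t)

/-- Matrix data along a geodesic. -/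
structure BKM (κ ι : Type) [Fintype κ] [DecidableEq κ] [Fintype ι] [DecidableEq ι] where
  Gt : ℝ → Matrix (κ ⊕ ι) (κ ⊕ ι) ℝ
  S : ℝ → Matrix (κ ⊕ ι) (κ ⊕ ι) ℝ
  Gt_cont : ∀ i j, ContinuousOn (fun t => Gt t i j) (Icc 0 π)
  Gt_pos : ∀ t ∈ Icc 0 π, (Gt t).PosDef
  Gt_zero : Gt 0 = 1
  S_symm : ∀ t ∈ Ioo 0 π, t ≠ π / 2 → (S t).IsSymm
  S_deriv : ∀ t ∈ Ioo 0 π, t ≠ π / 2 → ∀ i j,
    HasDerivAt (fun s => S s i j) ((Dl κ ι t * Gt t * Dl κ ι t)⁻¹ i j) t
  S_cont : ∀ i j : ι, ContinuousAt (fun s => S s (inr i) (inr j)) (π / 2)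
  conj : ∀ x ∈ Ioo 0 (π / 2), ∃ X : Matrix (κ ⊕ ι) κ ℝ, (∀ a, X *ᵥ a = 0 → a = 0) ∧
    (S (x + π / 2) - S x) * X = 0

namespace BKM
variable (M : BKM κ ι)

/-- Square of the density between the times `x` and `y`. -/
def D2 (x y : ℝ) : ℝ :=
  (M.S y - M.S x).det ^ 2 * (Dl κ ι x * M.Gt x * Dl κ ι x).det * (Dl κ ι y * M.Gt y * Dl κ ι y).det

/-- `th t` is the density from time `t` to time `t + τ`. -/
structure Link (τ : ℝ) (th : ℝ → ℝ) : Prop where
  cont : ContinuousOn th (Icc 0 π)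
  pos : ∀ t ∈ Icc 0 π, 0 < th t
  short : ∀ t ∈ Ioo 0 (π - τ), t ≠ π / 2 → t + τ ≠ π / 2 → th t ^ 2 = M.D2 t (t + τ)
  long : ∀ t ∈ Ioo (π - τ) π, th t ^ 2 = M.D2 (t + τ - π) t

/-- The perpendicular block of the inverse of `Gt`. -/
def NN (t : ℝ) : Matrix ι ι ℝ := (M.Gt t)⁻¹.submatrix inr inr

/-- The corner block of `Gt`. -/
def gg (t : ℝ) : Matrix κ κ ℝ := (M.Gt t).submatrix inl inl

/-- `log det NN`. -/
def uu (t : ℝ) : ℝ := log (M.NN t).det

/-- `- log det gg`. -/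
def vv (t : ℝ) : ℝ := log (M.gg t)⁻¹.det

/-- The perpendicular part of the logarithm of the density. -/
def AA (x y : ℝ) : ℝ := log ((M.S y - M.S x).submatrix inr inr).det +
  Fintype.card ι * (log (sin x) + log (sin y)) - (M.uu x + M.uu y) / 2

/-- The lower bound for the Schur complement. -/
def II (p q : ℝ) : Matrix κ κ ℝ := of fun i j => ∫ t in p..q, (sn 2 t ^ 2)⁻¹ * (M.gg t)⁻¹ i j

theorem inv_cont {N : ℝ → Matrix κ κ ℝ} {s : Set ℝ} (h : ∀ i j, ContinuousOn (fun t => N t i j) s)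
    (hp : ∀ t ∈ s, (N t).PosDef) (i j : κ) : ContinuousOn (fun t => (N t)⁻¹ i j) s := by
  have hG : ContinuousOn N s := continuousOn_pi.2 fun i => continuousOn_pi.2 (h i)
  have hI : ContinuousOn (fun t => (N t)⁻¹) s := fun t ht =>
    (continuousAt_matrix_inv _ (by
      rw [Ring.inverse_eq_inv']
      exact continuousAt_inv₀ (hp t ht).det_pos.ne')).comp_continuousWithinAt (hG t ht)
  exact continuousOn_pi.1 (continuousOn_pi.1 hI i) j

theorem Gi_cont (i j : κ ⊕ ι) : ContinuousOn (fun t => (M.Gt t)⁻¹ i j) (Icc 0 π) :=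
  inv_cont M.Gt_cont M.Gt_pos i j

theorem NN_pos {t : ℝ} (ht : t ∈ Icc 0 π) : (M.NN t).PosDef :=
  (M.Gt_pos t ht).inv.submatrix inr_injective

theorem gg_pos {t : ℝ} (ht : t ∈ Icc 0 π) : (M.gg t).PosDef :=
  (M.Gt_pos t ht).submatrix inl_injective

theorem uu_cont : ContinuousOn M.uu (Icc 0 π) := by
  have h : ContinuousOn M.NN (Icc 0 π) :=
    continuousOn_pi.2 fun i => continuousOn_pi.2 fun j => M.Gi_cont (inr i) (inr j)
  exact (continuous_id.matrix_det.comp_continuousOn h).log fun t ht => (M.NN_pos ht).det_pos.ne'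

theorem gi_cont (i j : κ) : ContinuousOn (fun t => (M.gg t)⁻¹ i j) (Icc 0 π) :=
  inv_cont (N := M.gg) (fun i j => M.Gt_cont (inl i) (inl j)) (fun _ ht => M.gg_pos ht) i j

theorem vv_cont : ContinuousOn M.vv (Icc 0 π) := by
  have h : ContinuousOn (fun t => (M.gg t)⁻¹) (Icc 0 π) :=
    continuousOn_pi.2 fun i => continuousOn_pi.2 fun j => M.gi_cont i j
  exact (continuous_id.matrix_det.comp_continuousOn h).log
    fun t ht => (M.gg_pos ht).inv.det_pos.ne'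

theorem sn_two (t : ℝ) : sn 2 t = sin t * cos t := by
  rw [sn, sin_two_mul]
  ring

theorem sn_one (t : ℝ) : sn 1 t = sin t := by simp [sn]

theorem sn_shift (t : ℝ) : sn 2 (t + π / 2) = -sn 2 t := by
  rw [sn_two, sn_two, sin_add_pi_div_two, cos_add_pi_div_two]
  ring

theorem sn_ne {t : ℝ} (ht : t ∈ Ioo 0 π) (h : t ≠ π / 2) : sn 2 t ≠ 0 := by
  rw [sn_two]
  refine mul_ne_zero (sin_pos_of_mem_Ioo ht).ne' fun e => h ?_
  exact injOn_cos (Ioo_subset_Icc_self ht) ⟨by positivity, by linarith only [pi_pos]⟩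
    (e.trans cos_pi_div_two.symm)

theorem dl_ne {t : ℝ} (ht : t ∈ Ioo 0 π) (h : t ≠ π / 2) (i : κ ⊕ ι) : dl κ ι t i ≠ 0 := by
  cases i with
  | inl j => exact sn_ne ht h
  | inr j => exact (sin_pos_of_mem_Ioo ht).ne'

theorem dl_cont (i : κ ⊕ ι) : Continuous fun t => dl κ ι t i := by
  cases i with
  | inl j => exact bkb_sn_cont 2
  | inr j => exact continuous_sin

theorem deriv_S {t : ℝ} (ht : t ∈ Ioo 0 π) (h : t ≠ π / 2) (i j : κ ⊕ ι) :
    HasDerivAt (fun s => M.S s i j) ((dl κ ι t i)⁻¹ * (M.Gt t)⁻¹ i j * (dl κ ι t j)⁻¹) t := by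
  have h1 : Dl κ ι t * diagonal (fun i => (dl κ ι t i)⁻¹) = 1 := by
    rw [Dl, diagonal_mul_diagonal, ← diagonal_one]
    exact congrArg _ (funext fun i => mul_inv_cancel₀ (dl_ne ht h i))
  have h2 := M.S_deriv t ht h i j
  rwa [Matrix.mul_inv_rev, Matrix.mul_inv_rev, inv_eq_right_inv h1, ← Matrix.mul_assoc,
    mul_diagonal, diagonal_mul] at h2

theorem perp_eq {x y : ℝ} (hx : 0 < x) (hxy : x < y) (hy : y < π) :
    (M.S y - M.S x).submatrix inr inr = (sin (y - x) / (sin x * sin y)) •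
      of fun i j => ∫ t in x..y, kw 1 x y t * M.NN t i j := by
  obtain ⟨k1, -, k3⟩ := bkb_kw one_pos hx hxy (by rwa [div_one])
  simp only [sn_one] at k3
  have hs : ∀ t ∈ Icc x y, t ∈ Ioo 0 π := fun t ht => ⟨hx.trans_le ht.1, ht.2.trans_lt hy⟩
  ext i j
  rw [Matrix.smul_apply, of_apply, smul_eq_mul, ← intervalIntegral.integral_const_mul]
  refine (integral_eq_of_hasDerivAt_off_countable_of_le (fun s => M.S s (inr i) (inr j)) _
    hxy.le (countable_singleton (π / 2)) (fun t ht => ?_) (fun t ht => ?_) ?_).symm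
  · by_cases h : t = π / 2
    · exact (h ▸ M.S_cont i j).continuousWithinAt
    · exact (M.deriv_S (hs t ht) h _ _).continuousAt.continuousWithinAt
  · have ht' := Ioo_subset_Icc_self ht.1
    have := M.deriv_S (hs t ht') ht.2 (inr i) (inr j)
    rw [← mul_assoc, ← k3 t ht']
    refine this.congr_deriv ?_
    show (sin t)⁻¹ * M.NN t i j * (sin t)⁻¹ = _
    ring
  · refine ContinuousOn.intervalIntegrable_of_Icc hxy.le (continuousOn_const.mul (k1.mul ?_))
    exact (M.Gi_cont _ _).mono fun t ht => Ioo_subset_Icc_self (hs t ht)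

theorem perp_log {x y : ℝ} (hx : 0 < x) (hxy : x < y) (hy : y < π) :
    ((M.S y - M.S x).submatrix inr inr).PosDef ∧
    Fintype.card ι * log (sin (y - x)) + kd 1 M.uu x y ≤ M.AA x y ∧
    (Fintype.card ι * log (sin (y - x)) + kd 1 M.uu x y = M.AA x y →
      ∀ t ∈ Icc x y, M.NN t = M.NN x) := by
  obtain ⟨k1, k2, -⟩ := bkb_kw one_pos hx hxy (by rwa [div_one])
  have hs : Icc x y ⊆ Icc 0 π := Icc_subset_Icc hx.le hy.le
  obtain ⟨j1, j2, j3⟩ := logdet_jensen (N := M.NN) hxy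
    (fun i j => (M.Gi_cont (inr i) (inr j)).mono hs) (fun t ht => M.NN_pos (hs ht)) k1 k2
    (integral_kw one_pos hx hxy (by rwa [div_one]))
  have h1 := sin_pos_of_pos_of_lt_pi hx (hxy.trans hy)
  have h2 := sin_pos_of_pos_of_lt_pi (hx.trans hxy) hy
  have h3 := sin_pos_of_pos_of_lt_pi (sub_pos.2 hxy) (show y - x < π by linarith)
  have h4 := div_pos h3 (mul_pos h1 h2)
  rw [AA, kd, M.perp_eq hx hxy hy, det_smul, log_mul (pow_pos h4 _).ne' j1.det_pos.ne', log_pow,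
    log_div h3.ne' (mul_pos h1 h2).ne', log_mul h1.ne' h2.ne']
  simp only [uu]
  exact ⟨j1.smul h4, by linarith only [j2], fun h => j3 (by linarith only [h, j2])⟩

theorem exists_min {x y : ℝ} (hx : 0 < x) (hxy : x < y) (hy : y < π) (hx' : x ≠ π / 2)
    (hy' : y ≠ π / 2) : ∃ (Y : Matrix ι κ ℝ) (σ : Matrix κ κ ℝ), σ.IsSymm ∧
      (∀ a, Sum.elim a (Y *ᵥ a) ⬝ᵥ (M.S y - M.S x) *ᵥ Sum.elim a (Y *ᵥ a) = a ⬝ᵥ σ *ᵥ a) ∧
      (M.S y - M.S x).det = σ.det * ((M.S y - M.S x).submatrix inr inr).det ∧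
      ∀ η, (η ∘ inl) ⬝ᵥ σ *ᵥ (η ∘ inl) ≤ η ⬝ᵥ (M.S y - M.S x) *ᵥ η :=
  bka_min ((M.S_symm y ⟨hx.trans hxy, hy⟩ hy').sub (M.S_symm x ⟨hx, hxy.trans hy⟩ hx'))
    (M.perp_log hx hxy hy).1

theorem side_ge {p q : ℝ} (hpq : p < q) (hs : ∀ t ∈ Icc p q, t ∈ Ioo 0 π ∧ t ≠ π / 2)
    (ξ : κ ⊕ ι → ℝ) :
    (ξ ∘ inl) ⬝ᵥ M.II p q *ᵥ (ξ ∘ inl) ≤ ξ ⬝ᵥ (M.S q - M.S p) *ᵥ ξ ∧
    ((ξ ∘ inl) ⬝ᵥ M.II p q *ᵥ (ξ ∘ inl) = ξ ⬝ᵥ (M.S q - M.S p) *ᵥ ξ →
      ∀ t ∈ Icc p q, cos t • (ξ ∘ inr) =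
        (M.Gt t).submatrix inr inl *ᵥ (M.gg t)⁻¹ *ᵥ (ξ ∘ inl)) := by
  have hs' : Icc p q ⊆ Icc 0 π := fun t ht => Ioo_subset_Icc_self (hs t ht).1
  let ζ : ℝ → κ ⊕ ι → ℝ := fun t i => (dl κ ι t i)⁻¹ * ξ i
  have hζ : ∀ i, ContinuousOn (fun t => ζ t i) (Icc p q) := fun i =>
    ((dl_cont i).continuousOn.inv₀ fun t ht => dl_ne (hs t ht).1 (hs t ht).2 i).mul
      continuousOn_const
  have c1 : ContinuousOn (fun t => ζ t ⬝ᵥ (M.Gt t)⁻¹ *ᵥ ζ t) (Icc p q) :=
    continuousOn_finsetSum _ fun i _ => (hζ i).mul (continuousOn_finsetSum _ fun j _ =>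
      ((M.Gi_cont i j).mono hs').mul (hζ j))
  have c0 : ContinuousOn (fun t => (sn 2 t ^ 2)⁻¹) (Icc p q) :=
    ((bkb_sn_cont 2).pow 2).continuousOn.inv₀ fun t ht =>
      pow_ne_zero 2 (sn_ne (hs t ht).1 (hs t ht).2)
  obtain ⟨c2, c3⟩ := bka_int (N := fun t => (M.gg t)⁻¹) hpq
    (fun i j => (M.gi_cont i j).mono hs') c0 (ξ ∘ inl)
  replace c2 := c0.mul c2
  have e : ∫ t in p..q, ζ t ⬝ᵥ (M.Gt t)⁻¹ *ᵥ ζ t = ξ ⬝ᵥ (M.S q - M.S p) *ᵥ ξ := by
    rw [sub_mulVec, dotProduct_sub]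
    refine intervalIntegral.integral_eq_sub_of_hasDerivAt (f := fun t => ξ ⬝ᵥ M.S t *ᵥ ξ)
      (fun t ht => ?_) (c1.intervalIntegrable_of_Icc hpq.le)
    rw [uIcc_of_le hpq.le] at ht
    have := HasDerivAt.fun_sum (u := Finset.univ) fun i _ =>
      (HasDerivAt.fun_sum (u := Finset.univ) fun j _ =>
        (M.deriv_S (hs t ht).1 (hs t ht).2 i j).mul_const (ξ j)).const_mul (ξ i)
    refine this.congr_deriv ?_
    simp only [dotProduct, mulVec, ζ, Finset.mul_sum]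
    exact Finset.sum_congr rfl fun i _ => Finset.sum_congr rfl fun j _ => by ring
  have z1 : ∀ t, ζ t ∘ inl = (sn 2 t)⁻¹ • (ξ ∘ inl) := fun t => rfl
  have z2 : ∀ t, ζ t ∘ inr = (sin t)⁻¹ • (ξ ∘ inr) := fun t => rfl
  have h1 : ∀ t, (ζ t ∘ inl) ⬝ᵥ ((M.Gt t).submatrix inl inl)⁻¹ *ᵥ (ζ t ∘ inl) =
      (sn 2 t ^ 2)⁻¹ * ((ξ ∘ inl) ⬝ᵥ (M.gg t)⁻¹ *ᵥ (ξ ∘ inl)) := fun t => by
    rw [z1, mulVec_smul, smul_dotProduct, dotProduct_smul, smul_eq_mul, smul_eq_mul, gg]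
    ring
  have h2 : ∀ t ∈ Icc p q, (sn 2 t ^ 2)⁻¹ * ((ξ ∘ inl) ⬝ᵥ (M.gg t)⁻¹ *ᵥ (ξ ∘ inl)) ≤
      ζ t ⬝ᵥ (M.Gt t)⁻¹ *ᵥ ζ t := fun t ht => h1 t ▸ (bka_inv_ge (M.Gt_pos t (hs' ht)) (ζ t)).1
  rw [← e, II, ← c3]
  refine ⟨intervalIntegral.integral_mono_on hpq.le (c2.intervalIntegrable_of_Icc hpq.le)
    (c1.intervalIntegrable_of_Icc hpq.le) h2, fun h t ht => ?_⟩
  have h3 : (sn 2 t ^ 2)⁻¹ * ((ξ ∘ inl) ⬝ᵥ (M.gg t)⁻¹ *ᵥ (ξ ∘ inl)) =
      ζ t ⬝ᵥ (M.Gt t)⁻¹ *ᵥ ζ t := by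
    by_contra hne
    exact (intervalIntegral.integral_lt_integral_of_continuousOn_of_le_of_exists_lt hpq c2 c1
      (fun s hs => h2 s (Ioc_subset_Icc_self hs)) ⟨t, ht, lt_of_le_of_ne (h2 t ht) hne⟩).ne h
  have h4 := (bka_inv_ge (M.Gt_pos t (hs' ht)) (ζ t)).2 ((h1 t).trans h3)
  have h5 := sn_ne (hs t ht).1 (hs t ht).2
  rw [z1, z2, mulVec_smul, mulVec_smul, eq_inv_smul_iff₀ h5, smul_smul, sn_two] at h4
  rw [sn_two] at h5
  rw [gg, ← h4, mul_right_comm, mul_inv_cancel₀ (left_ne_zero_of_mul h5), one_mul]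

theorem log_Gm {t : ℝ} (ht : t ∈ Ioo 0 π) (h : t ≠ π / 2) :
    (Dl κ ι t * M.Gt t * Dl κ ι t).det ≠ 0 ∧ log (Dl κ ι t * M.Gt t * Dl κ ι t).det =
      2 * (Fintype.card κ * log (sn 2 t) + Fintype.card ι * log (sin t)) - M.vv t - M.uu t := by
  have h1 : (Dl κ ι t).det = sn 2 t ^ Fintype.card κ * sin t ^ Fintype.card ι := by
    rw [Dl, det_diagonal, Fintype.prod_sum_type]
    simp [dl]
  have h2 := pow_ne_zero (Fintype.card κ) (sn_ne ht h)
  have h3 := pow_ne_zero (Fintype.card ι) (sin_pos_of_mem_Ioo ht).ne'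
  have h4 := mul_ne_zero h2 h3
  have hG := M.Gt_pos t (Ioo_subset_Icc_self ht)
  have h5 := hG.det_pos.ne'
  rw [det_mul, det_mul, h1, log_mul (mul_ne_zero h4 h5) h4, log_mul h4 h5, log_mul h2 h3, log_pow,
    log_pow, bka_det_inv hG, vv, det_nonsing_inv, Ring.inverse_eq_inv, log_inv]
  refine ⟨mul_ne_zero (mul_ne_zero h4 h5) h4, ?_⟩
  simp only [uu, NN, gg]
  ring

theorem pair {x y : ℝ} (hx : 0 < x) (hxy : x < y) (hy : y < π) (hx' : x ≠ π / 2)
    (hy' : y ≠ π / 2) {θ σ : ℝ} (h0 : 0 < θ) (hθ : θ ^ 2 = M.D2 x y)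
    (hσ : (M.S y - M.S x).det = σ * ((M.S y - M.S x).submatrix inr inr).det) :
    log θ = log σ + M.AA x y + Fintype.card κ * log (sn 2 x) + Fintype.card κ * log (sn 2 y) -
      (M.vv x + M.vv y) / 2 := by
  obtain ⟨a1, a2⟩ := M.log_Gm ⟨hx, hxy.trans hy⟩ hx'
  obtain ⟨b1, b2⟩ := M.log_Gm ⟨hx.trans hxy, hy⟩ hy'
  have h1 := (M.perp_log hx hxy hy).1.det_pos.ne'
  have h2 : (M.S y - M.S x).det ≠ 0 := fun e => by
    rw [D2, e] at hθ
    simp [h0.ne'] at hθ
  have h3 := congrArg log hθ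
  rw [D2, log_mul (mul_ne_zero (pow_ne_zero 2 h2) a1) b1, log_mul (pow_ne_zero 2 h2) a1, log_pow,
    log_pow, a2, b2, hσ, log_mul (left_ne_zero_of_mul (hσ ▸ h2)) h1] at h3
  rw [AA]
  push_cast at h3
  linarith only [h3]

theorem low_side {x y : ℝ} (hx : 0 < x) (hy : y < π / 2) :
    ∀ t ∈ Icc x y, t ∈ Ioo 0 π ∧ t ≠ π / 2 := fun t ht =>
  ⟨⟨hx.trans_le ht.1, by linarith only [hy, ht, ht.2, pi_pos]⟩, (ht.2.trans_lt hy).ne⟩

theorem up_side {x y : ℝ} (hx : 0 < x) (hy : y < π / 2) :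
    ∀ t ∈ Icc (x + π / 2) (y + π / 2), t ∈ Ioo 0 π ∧ t ≠ π / 2 := fun t ht =>
  ⟨⟨by linarith only [hx, ht, ht.1, pi_pos], by linarith [ht.2]⟩, by linarith only [hx, ht, ht.1, pi_pos] |> ne_of_gt⟩

theorem low_scalar {x y : ℝ} (hx : 0 < x) (hxy : x < y) (hy : y < π / 2) :
    (M.II x y).PosDef ∧
    Fintype.card κ * (log (sn 2 (y - x)) - log (sn 2 x) - log (sn 2 y)) +
      (∫ t in x..y, kw 2 x y t * M.vv t) ≤ log (M.II x y).det ∧
    (Fintype.card κ * (log (sn 2 (y - x)) - log (sn 2 x) - log (sn 2 y)) +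
      (∫ t in x..y, kw 2 x y t * M.vv t) = log (M.II x y).det →
        ∀ t ∈ Icc x y, (M.gg t)⁻¹ = (M.gg x)⁻¹) :=
  have hs : Icc x y ⊆ Icc 0 π := fun t ht => Ioo_subset_Icc_self (low_side hx hy t ht).1
  bka_mat two_pos hx hxy hy (f := fun t => (M.gg t)⁻¹) (fun i j => (M.gi_cont i j).mono hs)
    fun _ ht => (M.gg_pos (hs ht)).inv

theorem up_scalar {x y : ℝ} (hx : 0 < x) (hxy : x < y) (hy : y < π / 2) {σ : Matrix κ κ ℝ}
    (hσ : σ.IsSymm) (h : ∀ a, ∃ ξ : κ ⊕ ι → ℝ, ξ ∘ inl = a ∧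
      ξ ⬝ᵥ (M.S (y + π / 2) - M.S (x + π / 2)) *ᵥ ξ ≤ a ⬝ᵥ σ *ᵥ a) :
    Fintype.card κ * (log (sn 2 (y - x)) - log (sn 2 x) - log (sn 2 y)) +
      (∫ t in x..y, kw 2 x y t * M.vv (t + π / 2)) ≤ log σ.det := by
  have hs : ∀ t ∈ Icc x y, t + π / 2 ∈ Icc 0 π := fun t ht =>
    ⟨by linarith only [hx, hxy, hy, ht, ht.1, pi_pos], by linarith [ht.2]⟩
  obtain ⟨h1, h2, -⟩ := bka_mat two_pos hx hxy hy (f := fun t => (M.gg (t + π / 2))⁻¹)
    (fun i j => (M.gi_cont i j).comp (continuous_add_const _).continuousOn hs)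
    fun t ht => (M.gg_pos (hs t ht)).inv
  have e : (of fun i j => ∫ t in x..y, (sn 2 t ^ 2)⁻¹ * (M.gg (t + π / 2))⁻¹ i j) =
      M.II (x + π / 2) (y + π / 2) := by
    ext i j
    rw [II, of_apply, of_apply, ← intervalIntegral.integral_comp_add_right]
    simp only [sn_shift, neg_sq]
  rw [e] at h1 h2
  refine h2.trans (bka_mono h1 hσ fun a => ?_).1
  obtain ⟨ξ, rfl, h3⟩ := h a
  exact (M.side_ge (by linarith only [hxy]) (up_side hx hy) ξ).1.trans h3

theorem conj_min {a : ℝ} (ha : a ∈ Ioo 0 (π / 2)) :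
    (∀ b, ∃ ξ : κ ⊕ ι → ℝ, ξ ∘ inl = b ∧ ξ ⬝ᵥ (M.S (a + π / 2) - M.S a) *ᵥ ξ = 0) ∧
      ∀ η, 0 ≤ η ⬝ᵥ (M.S (a + π / 2) - M.S a) *ᵥ η := by
  have h1 : a < a + π / 2 := by linarith only [pi_pos]
  have h2 : a + π / 2 < π := by linarith [ha.2]
  obtain ⟨X, k1, k2⟩ := M.conj a ha
  exact bka_ker ((M.S_symm _ ⟨ha.1.trans h1, h2⟩ (by linarith only [ha, ha.1] |> ne_of_gt)).sub
    (M.S_symm a ⟨ha.1, h1.trans h2⟩ ha.2.ne)) (M.perp_log ha.1 h1 h2).1 k1 k2

theorem qf_add (A B C : Matrix (κ ⊕ ι) (κ ⊕ ι) ℝ) (ξ : κ ⊕ ι → ℝ) :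
    ξ ⬝ᵥ (C - A) *ᵥ ξ = ξ ⬝ᵥ (B - A) *ᵥ ξ + ξ ⬝ᵥ (C - B) *ᵥ ξ := by
  simp only [sub_mulVec, dotProduct_sub]
  ring

variable {M} {τ : ℝ} {th : ℝ → ℝ}

theorem piece1 (hτ : τ ∈ Ioo 0 (π / 2)) (h : M.Link τ th) {x : ℝ} (hx : x ∈ Ioo 0 (π / 2 - τ)) :
    Fintype.card ι * log (sin τ) + Fintype.card κ * log (sn 2 τ) + kd 1 M.uu x (x + τ) +
      kd 2 M.vv x (x + τ) ≤ log (th x) ∧
    (Fintype.card ι * log (sin τ) + Fintype.card κ * log (sn 2 τ) + kd 1 M.uu x (x + τ) +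
      kd 2 M.vv x (x + τ) = log (th x) → ∃ Y : Matrix ι κ ℝ, ∀ t ∈ Icc x (x + τ),
        M.NN t = M.NN x ∧ M.gg t = M.gg x ∧
          cos t • (Y * M.gg t) = (M.Gt t).submatrix inr inl) := by
  have h1 : x < x + τ := by linarith [hτ.1]
  have h2 : x + τ < π / 2 := by linarith only [hx, hx.2]
  have h3 : x + τ < π := by linarith only [h2, pi_pos]
  have hs : Icc x (x + τ) ⊆ Icc 0 π := Icc_subset_Icc hx.1.le h3.le
  obtain ⟨Y, σ, k1, k2, k3, -⟩ := M.exists_min hx.1 h1 h3 (h1.trans h2).ne h2.ne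
  have e := M.pair hx.1 h1 h3 (h1.trans h2).ne h2.ne (h.pos x ⟨hx.1.le, by linarith⟩)
    (h.short x ⟨hx.1, by linarith⟩ (h1.trans h2).ne h2.ne) k3
  obtain ⟨-, p1, p2⟩ := M.perp_log hx.1 h1 h3
  obtain ⟨s0, s1, s2⟩ := M.low_scalar hx.1 h1 h2
  have q := fun a => M.side_ge h1 (low_side hx.1 h2) (Sum.elim a (Y *ᵥ a))
  simp only [k2, Sum.elim_comp_inl, Sum.elim_comp_inr] at q
  obtain ⟨q3, q4⟩ := bka_mono s0 k1 fun a => (q a).1
  rw [add_sub_cancel_left] at p1 p2 s1 s2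
  rw [kd.eq_1 2, e]
  refine ⟨by linarith only [p1, s1, q3], fun he => ⟨Y, fun t ht => ⟨p2 (by linarith only [s1, q3, he, p1]) t ht, ?_, ?_⟩⟩⟩
  · have := congrArg (fun A => A⁻¹) (s2 (by linarith only [p1, q3, he, s1]) t ht)
    simpa only [nonsing_inv_nonsing_inv _ (isUnit_iff_ne_zero.2 (M.gg_pos (hs ht)).det_pos.ne'),
      nonsing_inv_nonsing_inv _ (isUnit_iff_ne_zero.2 (M.gg_pos (hs ⟨le_rfl, h1.le⟩)).det_pos.ne')]
      using this
  · refine ext_of_mulVec_single fun i => ?_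
    have := (q (M.gg t *ᵥ Pi.single i 1)).2 (by rw [q4 (by linarith only [p1, s1, he, q3])]) t ht
    rwa [mulVec_mulVec _ (M.gg t)⁻¹, nonsing_inv_mul _
      (isUnit_iff_ne_zero.2 (M.gg_pos (hs ht)).det_pos.ne'), one_mulVec, mulVec_mulVec,
      ← smul_mulVec] at this

theorem piece3 (hτ : τ ∈ Ioo 0 (π / 2)) (h : M.Link τ th) {x : ℝ} (hx : x ∈ Ioo 0 (π / 2 - τ)) :
    Fintype.card ι * log (sin τ) + Fintype.card κ * log (sn 2 τ) +
      kd 1 M.uu (x + π / 2) (x + π / 2 + τ) +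
      kd 2 (fun t => M.vv (t + π / 2)) x (x + τ) ≤ log (th (x + π / 2)) := by
  have h0 : 0 < x + π / 2 := by linarith only [hx, hx.1, pi_pos]
  have h1 : x + π / 2 < x + π / 2 + τ := by linarith only [hτ, hτ.1]
  have h3 : x + π / 2 + τ < π := by linarith only [hx, hx.2]
  have h4 : π / 2 < x + π / 2 := by linarith only [hx, hx.1]
  obtain ⟨Y, σ, k1, k2, k3, -⟩ := M.exists_min h0 h1 h3 h4.ne' (h4.trans h1).ne'
  have e := M.pair h0 h1 h3 h4.ne' (h4.trans h1).ne' (h.pos _ ⟨h0.le, by linarith only [h1, h3]⟩)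
    (h.short _ ⟨h0, by linarith only [h3]⟩ h4.ne' (h4.trans h1).ne') k3
  obtain ⟨-, p1, -⟩ := M.perp_log h0 h1 h3
  rw [add_sub_cancel_left] at p1
  rw [add_right_comm x] at k2 e p1 ⊢
  have s1 := M.up_scalar hx.1 (show x < x + τ by linarith only [h1, hτ.1]) (by linarith only [h3, hx.2]) k1
    fun a => ⟨_, Sum.elim_comp_inl _ _, (k2 a).le⟩
  rw [add_sub_cancel_left] at s1
  rw [sn_shift, sn_shift, log_neg_eq_log, log_neg_eq_log] at e
  rw [kd.eq_1 2, e]
  linarith only [p1, s1]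

theorem piece24 (hτ : τ ∈ Ioo 0 (π / 2)) (h : M.Link τ th) {b : ℝ} (hb : b ∈ Ioo 0 τ) :
    2 * (Fintype.card ι * log (sin τ) + Fintype.card κ * log (sn 2 τ)) +
      kd 1 M.uu (b + (π / 2 - τ)) (b + (π / 2 - τ) + τ) + kd 1 M.uu b (b + (π - τ)) +
      kd 2 M.vv b (b + (π / 2 - τ)) + kd 2 (fun t => M.vv (t + π / 2)) b (b + (π / 2 - τ)) ≤
        log (th (b + (π / 2 - τ))) + log (th (b + (π - τ))) := by
  obtain ⟨a, ha⟩ : ∃ a, a = b + (π / 2 - τ) := ⟨_, rfl⟩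
  have hab : b < a := by linarith only [ha, hτ, hτ.2]
  have ha2 : a < π / 2 := by linarith only [ha, hb, hb.2]
  have ha0 : 0 < a := hb.1.trans hab
  have e1 : a + τ = b + π / 2 := by linarith only [ha]
  have e2 : b + (π - τ) = a + π / 2 := by linarith only [ha]
  have e3 : sn 2 (a - b) = sn 2 τ := by
    rw [show a - b = π / 2 - τ by linarith only [ha], sn_two, sn_two, sin_pi_div_two_sub, cos_pi_div_two_sub,
      mul_comm]
  obtain ⟨c1, c3⟩ := M.conj_min ⟨ha0, ha2⟩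
  have h1 : a < b + π / 2 := by linarith only [ha, hτ, hτ.1]
  have h2 : b + π / 2 < π := by linarith only [hab, ha2]
  have h3 : π / 2 < b + π / 2 := by linarith only [hb, hb.1]
  have h4 : b < a + π / 2 := by linarith only [hab, ha2, h3]
  have h5 : a + π / 2 < π := by linarith only [ha2]
  have h6 : π / 2 < a + π / 2 := by linarith only [hab, h3]
  obtain ⟨-, σ, k1, -, k3, k4⟩ := M.exists_min ha0 h1 h2 ha2.ne h3.ne'
  obtain ⟨Y, σ', l1, l2, l3, -⟩ := M.exists_min hb.1 h4 h5 (hab.trans ha2).ne h6.ne'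
  have f1 := M.pair ha0 h1 h2 ha2.ne h3.ne' (h.pos a ⟨ha0.le, by linarith only [hab, ha2, h3]⟩)
    (e1 ▸ h.short a ⟨ha0, by linarith only [ha, hab, ha2]⟩ ha2.ne (e1 ▸ h3.ne')) k3
  have f2 := M.pair hb.1 h4 h5 (hab.trans ha2).ne h6.ne' (h.pos _ ⟨by linarith only [hab, ha2, h3], h5.le⟩) (by
    rw [h.long _ ⟨by linarith only [ha, h3, hb.1], h5⟩, show a + π / 2 + τ - π = b by linarith only [ha]]) l3
  obtain ⟨-, p1, -⟩ := M.perp_log ha0 h1 h2
  obtain ⟨-, p2, -⟩ := M.perp_log hb.1 h4 h5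
  rw [show b + π / 2 - a = τ by linarith only [ha]] at p1
  rw [show a + π / 2 - b = π - τ by linarith only [ha], sin_pi_sub] at p2
  have s1 := M.up_scalar hb.1 hab ha2 k1.neg fun c => by
    obtain ⟨ξ, rfl, c2⟩ := c1 c
    refine ⟨ξ, rfl, ?_⟩
    have := qf_add (M.S a) (M.S (b + π / 2)) (M.S (a + π / 2)) ξ
    rw [neg_mulVec, dotProduct_neg]
    linarith only [c2, this, k4, k4 ξ]
  obtain ⟨s0, s2, -⟩ := M.low_scalar hb.1 hab ha2
  have s3 := (bka_mono s0 l1 fun c => by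
    have h7 := qf_add (M.S b) (M.S a) (M.S (a + π / 2)) (Sum.elim c (Y *ᵥ c))
    have h8 := (M.side_ge hab (low_side hb.1 ha2) (Sum.elim c (Y *ᵥ c))).1
    rw [Sum.elim_comp_inl] at h8
    linarith only [h7, h8, c3, l2, c3 (Sum.elim c (Y *ᵥ c)), l2 c]).1
  rw [sn_shift, log_neg_eq_log] at f1 f2
  rw [bka_log_neg] at s1
  rw [e3] at s1 s2
  rw [← ha, e1, e2, kd.eq_1 2, kd.eq_1 2, f1, f2]
  linarith only [p1, p2, s1, s2, s3]

theorem shift_int {f : ℝ → ℝ} {L a d e : ℝ} (hf : IntervalIntegrable f volume 0 L) (ha : 0 ≤ a)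
    (hd : 0 ≤ d) (he : d + a = e) (hL : e ≤ L) :
    IntervalIntegrable (fun x => f (x + a)) volume 0 d ∧
      ∫ x in (0 : ℝ)..d, f (x + a) = (∫ x in (0 : ℝ)..e, f x) - ∫ x in (0 : ℝ)..a, f x := by
  have h1 : ∀ s, 0 ≤ s → s ≤ L → IntervalIntegrable f volume 0 s := fun s h0 h1 =>
    hf.mono_set (uIcc_subset_uIcc left_mem_uIcc (mem_uIcc_of_le h0 h1))
  have h2 := h1 a ha (by linarith)
  have h3 := h1 e (by linarith) hL
  rw [intervalIntegral.integral_comp_add_right, intervalIntegral.integral_interval_sub_left h3 h2,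
    zero_add, he]
  refine ⟨?_, rfl⟩
  have := (h2.symm.trans h3).comp_add_right a
  rwa [sub_self, ← he, add_sub_cancel_right] at this

theorem main (hτ : τ ∈ Ioo 0 (π / 2)) (h : M.Link τ th) :
    IntervalIntegrable (fun x => log (th x) - (Fintype.card ι * log (sin τ) + Fintype.card κ * log (sn 2 τ) +
      kd 1 M.uu x (x + τ) + kd 2 M.vv x (x + τ))) volume 0 (π / 2 - τ) ∧
    π * log (sin τ ^ Fintype.card ι * (sin (2 * τ) / 2) ^ Fintype.card κ) +
      (∫ x in (0 : ℝ)..(π / 2 - τ), (log (th x) - (Fintype.card ι * log (sin τ) + Fintype.card κ * log (sn 2 τ) +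
        kd 1 M.uu x (x + τ) + kd 2 M.vv x (x + τ)))) ≤ ∫ t in (0 : ℝ)..π, log (th t) := by
  have hπ := pi_pos
  obtain ⟨t0, t1⟩ := hτ
  have hc : log (sin τ ^ Fintype.card ι * (sin (2 * τ) / 2) ^ Fintype.card κ) =
      Fintype.card ι * log (sin τ) + Fintype.card κ * log (sn 2 τ) := by
    rw [← log_pow, ← log_pow]
    exact log_mul (pow_ne_zero _ (sin_pos_of_pos_of_lt_pi t0 (by linarith only [t0, t1])).ne')
      (pow_ne_zero _ (bkb_sn_pos two_pos t0 t1).ne')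
  rw [hc]
  have P1 := fun x hx => (piece1 ⟨t0, t1⟩ h (x := x) hx).1
  have P3 := fun x hx => piece3 ⟨t0, t1⟩ h (x := x) hx
  have P2 := fun x hx => piece24 ⟨t0, t1⟩ h (b := x) hx
  generalize Fintype.card ι * log (sin τ) + Fintype.card κ * log (sn 2 τ) = c at P1 P2 P3 ⊢
  have hF : IntervalIntegrable (fun t => log (th t)) volume 0 π :=
    (h.cont.log fun t ht => (h.pos t ht).ne').intervalIntegrable_of_Icc hπ.le
  obtain ⟨u1, u2, u3⟩ := kazdan one_pos t0 (by linarith only [t0, t1]) (u := M.uu)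
    (by rw [div_one]; exact M.uu_cont)
  rw [div_one] at u1 u2 u3
  obtain ⟨v1, v2, v3⟩ := kazdan two_pos t0 t1 (u := M.vv)
    (M.vv_cont.mono (Icc_subset_Icc le_rfl (by linarith only [t0, t1])))
  obtain ⟨w1, w2, w3⟩ := kazdan two_pos t0 t1 (u := fun t => M.vv (t + π / 2))
    (M.vv_cont.comp (continuous_add_const _).continuousOn fun t ht =>
      ⟨by linarith only [t0, t1, ht, ht.1], by linarith only [ht, ht.2]⟩)
  have hd : 0 ≤ π / 2 - τ := by linarith only [t1]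
  have F1 := hF.mono_set (uIcc_subset_uIcc left_mem_uIcc (mem_uIcc_of_le hd (by linarith only [t0, t1])))
  have U1 := u1.mono_set (uIcc_subset_uIcc left_mem_uIcc (mem_uIcc_of_le hd (by linarith only [t0, t1])))
  obtain ⟨F2, F2'⟩ := shift_int hF hd t0.le (e := π / 2) (by ring) (by linarith only [t0, t1])
  obtain ⟨F3, F3'⟩ := shift_int hF (a := π / 2) (by linarith only [t0, t1]) hd (e := π - τ) (by ring)
    (by linarith only [t0])
  obtain ⟨F4, F4'⟩ := shift_int hF (a := π - τ) (by linarith only [t0, t1]) t0.le (e := π) (by ring) le_rfl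
  obtain ⟨U2, U2'⟩ := shift_int u1 hd t0.le (e := π / 2) (by ring) (by linarith only [t1])
  obtain ⟨U3, U3'⟩ := shift_int u1 (a := π / 2) (by linarith only [t0, t1]) hd (e := π - τ) (by ring) le_rfl
  have cI : ∀ (k a b : ℝ), IntervalIntegrable (fun _ => k) volume a b := fun _ _ _ =>
    intervalIntegrable_const
  have I3 := intervalIntegral.integral_mono_on_of_le_Ioo hd (((cI c _ _).add U3).add w1) F3 P3
  have I2 := intervalIntegral.integral_mono_on_of_le_Ioo t0.le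
    (((((cI (2 * c) _ _).add U2).add u2).add v2).add w2) (F2.add F4) P2
  rw [intervalIntegral.integral_add ((cI c _ _).add U3) w1,
    intervalIntegral.integral_add (cI c _ _) U3, intervalIntegral.integral_const] at I3
  rw [intervalIntegral.integral_add ((((cI (2 * c) _ _).add U2).add u2).add v2) w2,
    intervalIntegral.integral_add (((cI (2 * c) _ _).add U2).add u2) v2,
    intervalIntegral.integral_add ((cI (2 * c) _ _).add U2) u2,
    intervalIntegral.integral_add (cI (2 * c) _ _) U2, intervalIntegral.integral_const,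
    intervalIntegral.integral_add F2 F4] at I2
  refine ⟨F1.sub (((cI c _ _).add U1).add v1), ?_⟩
  rw [intervalIntegral.integral_sub F1 (((cI c _ _).add U1).add v1),
    intervalIntegral.integral_add ((cI c _ _).add U1) v1,
    intervalIntegral.integral_add (cI c _ _) U1, intervalIntegral.integral_const]
  simp only [smul_eq_mul] at I2 I3 ⊢
  linarith only [u3, v3, w3, F2', F3', F4', U2', U3', I3, I2]

variable (M)

theorem ineq {τ : ℝ} (hτ : τ ∈ Ioo 0 (π / 2)) {th : ℝ → ℝ} (h : M.Link τ th) :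
    π * log (sin τ ^ Fintype.card ι * (sin (2 * τ) / 2) ^ Fintype.card κ) ≤
      ∫ t in (0 : ℝ)..π, log (th t) := by
  refine le_trans (le_add_of_nonneg_right ?_) (main hτ h).2
  have := intervalIntegral.integral_mono_on_of_le_Ioo (sub_pos.2 hτ.2).le
    (intervalIntegrable_const (c := (0 : ℝ))) (main hτ h).1
    fun x hx => sub_nonneg.2 (piece1 hτ h hx).1
  rwa [intervalIntegral.integral_zero] at this

theorem eq_case {τ : ℝ} (hτ : τ ∈ Ioo 0 (π / 2)) {th : ℝ → ℝ} (h : M.Link τ th)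
    (e : π * log (sin τ ^ Fintype.card ι * (sin (2 * τ) / 2) ^ Fintype.card κ) =
      ∫ t in (0 : ℝ)..π, log (th t)) : M.Gt τ = 1 := by
  obtain ⟨m1, m2⟩ := main hτ h
  have hd := (sub_pos.2 hτ.2).le
  have hn : 0 ≤ᵐ[volume.restrict (Ioc 0 (π / 2 - τ))] fun x => log (th x) -
      (Fintype.card ι * log (sin τ) + Fintype.card κ * log (sn 2 τ) + kd 1 M.uu x (x + τ) +
        kd 2 M.vv x (x + τ)) := by
    rw [← restrict_Ioo_eq_restrict_Ioc]
    exact ae_restrict_of_forall_mem measurableSet_Ioo fun x hx => sub_nonneg.2 (piece1 hτ h hx).1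
  have h0 := (intervalIntegral.integral_eq_zero_iff_of_le_of_nonneg_ae hd hn m1).1
    (le_antisymm (by linarith only [e, m2]) (by
      rw [intervalIntegral.integral_of_le hd]
      exact integral_nonneg_of_ae hn))
  have hD := Measure.dense_of_ae ((ae_restrict_iff' measurableSet_Ioc).1 h0)
  have key : ∀ φ : ℝ → ℝ, ContinuousOn φ (Icc 0 π) → (∀ (x : ℝ) (Y : Matrix ι κ ℝ), x ≤ τ →
      (∀ t ∈ Icc x (x + τ), M.NN t = M.NN x ∧ M.gg t = M.gg x ∧
        cos t • (Y * M.gg t) = (M.Gt t).submatrix inr inl) → 0 < x → φ x = 0) → φ 0 = 0 := by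
    intro φ hφ hz
    have h1 : (0 : ℝ) ∈ closure {x | x ∈ Icc 0 π ∧ φ x = 0} := by
      rw [Metric.mem_closure_iff]
      intro ε hε
      obtain ⟨x, hx, x0, x1⟩ := hD.exists_between
        (lt_min hε (lt_min hτ.1 (sub_pos.2 hτ.2)))
      obtain ⟨x1, x2⟩ := lt_min_iff.1 x1
      obtain ⟨x2, x3⟩ := lt_min_iff.1 x2
      obtain ⟨ξ, hξ⟩ := (piece1 hτ h ⟨x0, x3⟩).2 (sub_eq_zero.1 (hx ⟨x0, x3.le⟩)).symm
      refine ⟨x, ⟨⟨x0.le, by linarith only [x0, x2, x3, hτ.2, pi_pos]⟩, hz x ξ x2.le hξ x0⟩, ?_⟩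
      rwa [dist_comm, Real.dist_eq, sub_zero, abs_of_pos x0]
    have h2 := ((hφ 0 ⟨le_rfl, pi_pos.le⟩).mono fun x hx => hx.1).mem_closure_image h1
    have h3 : φ '' {x | x ∈ Icc 0 π ∧ φ x = 0} ⊆ {0} := by
      rintro _ ⟨x, hx, rfl⟩
      exact hx.2
    simpa using closure_mono h3 h2
  have a1 : ∀ i j, M.Gt τ (inl i) (inl j) = (1 : Matrix κ κ ℝ) i j := by
    intro i j
    have := key (fun x => M.gg τ i j - M.gg x i j)
      (continuousOn_const.sub (M.Gt_cont (inl i) (inl j)))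
      fun x ξ hx H x0 => by rw [(H τ ⟨hx, by linarith only [x0]⟩).2.1, sub_self]
    rw [sub_eq_zero] at this
    refine this.trans ?_
    simp [gg, M.Gt_zero, one_apply]
  have a2 : ∀ i j, (M.Gt τ)⁻¹ (inr i) (inr j) = (1 : Matrix ι ι ℝ) i j := by
    intro i j
    have := key (fun x => M.NN τ i j - M.NN x i j) (continuousOn_const.sub (M.Gi_cont _ _))
      fun x ξ hx H x0 => by rw [(H τ ⟨hx, by linarith only [x0]⟩).1, sub_self]
    rw [sub_eq_zero] at this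
    refine this.trans ?_
    simp [NN, M.Gt_zero, one_apply]
  have a3 : ∀ j i, M.Gt τ (inr j) (inl i) = 0 := by
    intro j i
    have := key (fun x => M.Gt τ (inr j) (inl i) * cos x - M.Gt x (inr j) (inl i) * cos τ)
      ((continuousOn_const.mul continuous_cos.continuousOn).sub
        ((M.Gt_cont _ _).mul continuousOn_const))
      fun x ξ hx H x0 => by
        obtain ⟨-, b1, b2⟩ := H τ ⟨hx, by linarith only [x0]⟩
        have b3 := congrFun (congrFun (H x ⟨le_rfl, by linarith only [hx, x0, hτ.1]⟩).2.2 j) i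
        have b4 := congrFun (congrFun b2 j) i
        rw [b1] at b4
        simp only [Matrix.smul_apply, smul_eq_mul, submatrix_apply] at b3 b4
        rw [← b3, ← b4]
        ring
    simpa [M.Gt_zero] using this
  have hG := M.Gt_pos τ ⟨hτ.1.le, by linarith only [hτ, hτ.2, pi_pos]⟩
  have hI := mul_nonsing_inv _ (isUnit_iff_ne_zero.2 hG.det_pos.ne')
  ext (i | i) (j | j)
  · simp [a1, one_apply]
  · have := hG.isHermitian.apply (inl i) (inr j)
    rw [a3, star_zero] at this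
    simp [← this]
  · simp [a3]
  · rw [← hI, Matrix.mul_apply, Fintype.sum_sum_type]
    simp [a2, a3, one_apply]

end BKM

end Pool.Agent.Work.MP_8c604c_gt.H
end
end

-- merged part: Pool.Agent.Work.MP_8c604c_gt.H.JSys
section
/-!
From an abstract system of Jacobi fields to matrix data.
Hints. For t in (0,pi), t not pi/2, a -> J t (a,0) is injective, so by rank for every b there is a unique a = S t b with
J t (S t b, b) = 0; S = - Gram_AA inverse * Gram_AB. Differentiate J t (S t b, b) = 0 and use star to get S' = Gram_AA inverse.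
Gt is the Gram matrix of the fields J t (e_i,0) / (Dl t)_ii, extended at the zeros by the derivative (dslope);
positivity at 0, pi/2, pi from star. Dl * S = - Gt inverse * (Gram of the divided fields with the B fields) is continuous;
define S at pi/2 by this formula divided by sin.
-/

set_option maxSynthPendingDepth 3
set_option linter.unusedSectionVars false

open Set Filter Topology MeasureTheory
open scoped ContDiff

noncomputable section
namespace Pool.Agent.Work.MP_8c604c_gt.H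

open Matrix Real Sum

variable {κ ι : Type} [Fintype κ] [DecidableEq κ] [Fintype ι] [DecidableEq ι]

/-- Coordinates of the space of normal Jacobi fields. -/
abbrev JC (κ ι : Type) : Type := (κ ⊕ ι → ℝ) × (κ ⊕ ι → ℝ)

/-- The symplectic form. -/
def omJ (ξ η : JC κ ι) : ℝ := ξ.1 ⬝ᵥ η.2 - ξ.2 ⬝ᵥ η.1

/-- Abstract Jacobi system along a closed geodesic with a block of middle conjugate directions. -/
structure JSys (κ ι : Type) [Fintype κ] [DecidableEq κ] [Fintype ι] [DecidableEq ι] (W : Type)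
    [NormedAddCommGroup W] [NormedSpace ℝ W] where
  g : ℝ → W →L[ℝ] W →L[ℝ] ℝ
  J : ℝ → JC κ ι →L[ℝ] W
  g_smooth : ContDiff ℝ 1 g
  J_smooth : ContDiff ℝ 1 J
  symm : ∀ t u w, g t u w = g t w u
  nonneg : ∀ t u, 0 ≤ g t u u
  pos : ∀ t ξ, g t (J t ξ) (J t ξ) = 0 → J t ξ = 0
  star : ∀ t ξ η, J t ξ = 0 → g t (deriv (fun s => J s ξ) t) (J t η) = omJ ξ η
  rank : ∀ t, Module.finrank ℝ (LinearMap.range (J t : JC κ ι →ₗ[ℝ] W)) ≤ Fintype.card (κ ⊕ ι)
  zero : ∀ a, J 0 (a, 0) = 0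
  init : ∀ a a', g 0 (deriv (fun s => J s (a, 0)) 0) (deriv (fun s => J s (a', 0)) 0) = a ⬝ᵥ a'
  per : ∃ R : W →L[ℝ] W, ∀ t, (∀ ξ, J (t + π) ξ = R (J t ξ)) ∧
    ∀ u w, g (t + π) (R u) (R w) = g t u w
  nc : ∀ t ∈ Ioo 0 π, t ≠ π / 2 → ∀ a, J t (a, 0) = 0 → a = 0
  mid : ∀ a, J (π / 2) (a, 0) = 0 ↔ ∀ i, a (inr i) = 0
  conj : ∀ x ∈ Ioo 0 (π / 2), ∃ ξ : κ → JC κ ι, LinearIndependent ℝ ξ ∧
    ∀ i, J x (ξ i) = 0 ∧ J (x + π / 2) (ξ i) = 0

namespace JSys
variable {W : Type} [NormedAddCommGroup W] [NormedSpace ℝ W] [FiniteDimensional ℝ W]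
  (A : JSys κ ι W)

/-- `th t` is the density from time `t` to time `t + τ`. -/
structure Link (τ : ℝ) (th : ℝ → ℝ) : Prop where
  cont : ContinuousOn th (Icc 0 π)
  pos : ∀ t ∈ Icc 0 π, 0 < th t
  eq : ∀ t (ξ : κ ⊕ ι → JC κ ι), LinearIndependent ℝ ξ → (∀ i, A.J t (ξ i) = 0) →
    th t ^ 2 * (Matrix.of fun i j =>
      A.g t (deriv (fun s => A.J s (ξ i)) t) (deriv (fun s => A.J s (ξ j)) t)).det =
    (Matrix.of fun i j => A.g (t + τ) (A.J (t + τ) (ξ i)) (A.J (t + τ) (ξ j))).det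

section Aux
omit [FiniteDimensional ℝ W]

theorem jsys_div {f : ℝ → W} {d : ℝ → ℝ} (hf : Differentiable ℝ f) (hd : Differentiable ℝ d)
    {t : ℝ} (h : d t = 0 → f t = 0 ∧ deriv d t ≠ 0) :
    ContinuousAt (fun s => if d s = 0 then (deriv d s)⁻¹ • deriv f s else (d s)⁻¹ • f s) t := by
  by_cases h0 : d t = 0
  · obtain ⟨h1, h2⟩ := h h0
    rw [continuousAt_iff_punctured_nhds, if_pos h0]
    have e1 := hasDerivAt_iff_tendsto_slope.mp (hd t).hasDerivAt
    have e2 := hasDerivAt_iff_tendsto_slope.mp (hf t).hasDerivAt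
    refine ((e1.inv₀ h2).smul e2).congr' ?_
    filter_upwards [e1.eventually_ne h2, self_mem_nhdsWithin] with s hs hst
    have hst' : s - t ≠ 0 := sub_ne_zero.mpr hst
    rw [slope_def_module, h0, sub_zero, smul_eq_mul] at hs
    have hds : d s ≠ 0 := right_ne_zero_of_mul hs
    rw [if_neg hds, slope_def_module, slope_def_module, h0, h1, sub_zero, sub_zero, smul_smul,
      smul_eq_mul]
    congr 1
    field_simp
  · have e1 : ContinuousAt (fun s => (d s)⁻¹ • f s) t :=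
      (hd.continuous.continuousAt.inv₀ h0).smul hf.continuous.continuousAt
    refine e1.congr ?_
    filter_upwards [hd.continuous.continuousAt.eventually_ne h0] with s hs
    rw [if_neg hs]

theorem jsys_mul {φ v : ℝ → ℝ} {v' t : ℝ} (hφ : ContinuousAt φ t) (hv : HasDerivAt v v' t)
    (h0 : v t = 0) : HasDerivAt (fun s => φ s * v s) (φ t * v') t := by
  rw [hasDerivAt_iff_tendsto_slope] at hv ⊢
  refine ((hφ.tendsto.mono_left nhdsWithin_le_nhds).mul hv).congr fun s => ?_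
  simp only [slope_def_field, h0]
  ring

theorem jsys_inv {μ : Type} [Fintype μ] [DecidableEq μ] {M : ℝ → Matrix μ μ ℝ} {t : ℝ}
    (h : ∀ i j, ContinuousAt (fun s => M s i j) t) (hd : (M t).det ≠ 0) (i j : μ) :
    ContinuousAt (fun s => (M s)⁻¹ i j) t := by
  have h1 : ContinuousAt M t := continuousAt_pi.mpr fun i => continuousAt_pi.mpr fun j => h i j
  have h2 : ContinuousAt (Ring.inverse : ℝ → ℝ) (M t).det := by
    rw [Ring.inverse_eq_inv']
    exact continuousAt_inv₀ hd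
  exact continuousAt_pi.mp (continuousAt_pi.mp ((continuousAt_matrix_inv _ h2).comp h1) i) j

theorem jsys_mulVec {μ : Type} [Fintype μ] (g : W →L[ℝ] W →L[ℝ] ℝ) (v w : μ → W) (a : μ → ℝ)
    (i : μ) : ((Matrix.of fun i j => g (v i) (w j)) *ᵥ a) i = g (v i) (∑ j, a j • w j) := by
  simp [mulVec, dotProduct, map_sum, mul_comm]

theorem jsys_gram {μ : Type} [Fintype μ] (g : W →L[ℝ] W →L[ℝ] ℝ) (v w : μ → W) (a a' : μ → ℝ) :
    a ⬝ᵥ ((Matrix.of fun i j => g (v i) (w j)) *ᵥ a') = g (∑ i, a i • v i) (∑ j, a' j • w j) := by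
  generalize hu : ∑ j, a' j • w j = u
  simp only [dotProduct, jsys_mulVec, hu, map_sum, map_smul, _root_.sum_apply,
    _root_.smul_apply, smul_eq_mul]

theorem jsys_A (T : JC κ ι →L[ℝ] W) (a : κ ⊕ ι → ℝ) :
    T (a, 0) = ∑ i, a i • T (Pi.single i 1, 0) := by
  simp only [← map_smul, ← map_sum]
  congr 1
  ext j <;> simp [Prod.fst_sum, Prod.snd_sum, Finset.sum_apply, Pi.single_apply,
    -Fintype.sum_sum_type]

theorem jsys_B (T : JC κ ι →L[ℝ] W) (b : κ ⊕ ι → ℝ) :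
    T (0, b) = ∑ i, b i • T (0, Pi.single i 1) := by
  simp only [← map_smul, ← map_sum]
  congr 1
  ext j <;> simp [Prod.fst_sum, Prod.snd_sum, Finset.sum_apply, Pi.single_apply,
    -Fintype.sum_sum_type]

/-- The diagonal entries of the model matrix. -/
def jdl (i : κ ⊕ ι) (t : ℝ) : ℝ := Sum.elim (fun _ => sin (2 * t) / 2) (fun _ => sin t) i

theorem jdl_Dl (t : ℝ) : Dl κ ι t = Matrix.diagonal fun i => jdl i t := by
  rw [Dl]
  congr 1

theorem jdl_hasDerivAt (i : κ ⊕ ι) (t : ℝ) :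
    HasDerivAt (jdl i) (Sum.elim (fun _ => cos (2 * t)) (fun _ => cos t) i) t := by
  cases i with
  | inl i =>
    have h := (((hasDerivAt_id t).const_mul 2).sin).div_const 2
    exact h.congr_deriv (by simp)
  | inr i => exact hasDerivAt_sin t

theorem jdl_deriv_ne {i : κ ⊕ ι} {t : ℝ} (h : jdl i t = 0) : deriv (jdl i) t ≠ 0 := by
  rw [(jdl_hasDerivAt i t).deriv]
  intro h1
  cases i with
  | inl i =>
    have h2 := sin_sq_add_cos_sq (2 * t)
    simp only [jdl, Sum.elim_inl, Sum.elim_inr] at h h1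
    rw [h1, show sin (2 * t) = 0 by linarith only [h]] at h2
    simp at h2
  | inr i =>
    have h2 := sin_sq_add_cos_sq t
    simp only [jdl, Sum.elim_inl, Sum.elim_inr] at h h1
    rw [h, h1] at h2
    simp at h2

theorem jdl_ne {t : ℝ} (ht : t ∈ Ioo 0 π) (ht' : t ≠ π / 2) (i : κ ⊕ ι) : jdl i t ≠ 0 := by
  have h1 : sin t ≠ 0 := (sin_pos_of_mem_Ioo ht).ne'
  have h2 : cos t ≠ 0 := fun h => ht' (injOn_cos (Ioo_subset_Icc_self ht)
    ⟨by positivity, by linarith [pi_pos]⟩ (by rw [h, cos_pi_div_two]))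
  cases i with
  | inl i =>
    simp only [jdl, Sum.elim_inl, sin_two_mul]
    positivity
  | inr i => exact h1

theorem jsys_cases {t : ℝ} (ht : t ∈ Icc 0 π) :
    t = 0 ∨ t = π ∨ t = π / 2 ∨ (t ∈ Ioo 0 π ∧ t ≠ π / 2) := by
  by_cases h1 : t = 0
  · exact Or.inl h1
  by_cases h2 : t = π
  · exact Or.inr (Or.inl h2)
  by_cases h3 : t = π / 2
  · exact Or.inr (Or.inr (Or.inl h3))
  exact Or.inr (Or.inr (Or.inr ⟨⟨lt_of_le_of_ne ht.1 (Ne.symm h1), lt_of_le_of_ne ht.2 h2⟩, h3⟩))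

theorem jsys_ev {t : ℝ} (ht : t ∈ Ioo 0 π) (ht' : t ≠ π / 2) :
    ∀ᶠ s in 𝓝 t, s ∈ Ioo 0 π ∧ s ≠ π / 2 :=
  (isOpen_Ioo.eventually_mem ht).and (isOpen_ne.mem_nhds ht')

theorem null (t : ℝ) {y : W} (h : A.g t y y = 0) (w : W) : A.g t y w = 0 := by
  by_contra hne
  have h1 := A.nonneg t (w + (-(A.g t w w + 1) / (2 * A.g t y w)) • y)
  simp only [map_add, map_smul, _root_.add_apply, _root_.smul_apply,
    smul_eq_mul, h, A.symm t w y] at h1
  have h2 : -(A.g t w w + 1) / (2 * A.g t y w) * A.g t y w = -(A.g t w w + 1) / 2 := by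
    field_simp
  linarith only [h1, h2]

theorem hasDerivAt_J' (t : ℝ) : HasDerivAt A.J (deriv A.J t) t :=
  (A.J_smooth.differentiable one_ne_zero t).hasDerivAt

theorem hasDerivAt_J (ξ : JC κ ι) (t : ℝ) : HasDerivAt (fun s => A.J s ξ) (deriv A.J t ξ) t := by
  simpa using (A.hasDerivAt_J' t).clm_apply (hasDerivAt_const t ξ)

theorem star' {t : ℝ} {ξ : JC κ ι} (h : A.J t ξ = 0) (η : JC κ ι) :
    A.g t (deriv A.J t ξ) (A.J t η) = omJ ξ η := by
  rw [← (A.hasDerivAt_J ξ t).deriv]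
  exact A.star t ξ η h

theorem zero_of_jdl {t : ℝ} (ht : t ∈ Icc 0 π) {i : κ ⊕ ι} (h : jdl i t = 0) :
    A.J t (Pi.single i 1, 0) = 0 := by
  rcases jsys_cases ht with rfl | rfl | rfl | ⟨h1, h2⟩
  · exact A.zero _
  · obtain ⟨R, hR⟩ := A.per
    have := (hR 0).1 (Pi.single i 1, 0)
    rwa [zero_add, A.zero, map_zero] at this
  · cases i with
    | inl i => exact (A.mid _).mpr fun i => by simp
    | inr i => simp [jdl] at h
  · exact absurd h (jdl_ne h1 h2 i)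

theorem key {t : ℝ} (ht : t ∈ Icc 0 π) {a : κ ⊕ ι → ℝ} (h : A.J t (a, 0) = 0) {i : κ ⊕ ι}
    (hi : jdl i t ≠ 0) : a i = 0 := by
  rcases jsys_cases ht with rfl | rfl | rfl | ⟨h1, h2⟩
  · cases i <;> simp [jdl] at hi
  · cases i <;> simp [jdl] at hi
  · cases i with
    | inl i => simp [jdl, mul_div_cancel₀] at hi
    | inr i => exact (A.mid _).mp h i
  · rw [A.nc t h1 h2 a h, Pi.zero_apply]

/-- The divided fields. -/
def Y (t : ℝ) (i : κ ⊕ ι) : W :=
  if jdl i t = 0 then (deriv (jdl i) t)⁻¹ • deriv (fun s => A.J s (Pi.single i 1, 0)) t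
  else (jdl i t)⁻¹ • A.J t (Pi.single i 1, 0)

/-- Gram matrix of the divided fields. -/
def Gt (t : ℝ) : Matrix (κ ⊕ ι) (κ ⊕ ι) ℝ := Matrix.of fun i j => A.g t (A.Y t i) (A.Y t j)

/-- Gram matrix of the divided fields and the second family. -/
def Ct (t : ℝ) : Matrix (κ ⊕ ι) (κ ⊕ ι) ℝ :=
  Matrix.of fun i j => A.g t (A.Y t i) (A.J t (0, Pi.single j 1))

/-- Gram matrix of the first family. -/
def Gm (t : ℝ) : Matrix (κ ⊕ ι) (κ ⊕ ι) ℝ :=
  Matrix.of fun i j => A.g t (A.J t (Pi.single i 1, 0)) (A.J t (Pi.single j 1, 0))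

/-- The solution matrix. -/
def S (t : ℝ) : Matrix (κ ⊕ ι) (κ ⊕ ι) ℝ :=
  -((Matrix.diagonal fun i => (jdl i t)⁻¹) * ((A.Gt t)⁻¹ * A.Ct t))

theorem smul_Y {t : ℝ} (ht : t ∈ Icc 0 π) (i : κ ⊕ ι) :
    jdl i t • A.Y t i = A.J t (Pi.single i 1, 0) := by
  unfold Y
  split_ifs with h
  · rw [h, zero_smul, A.zero_of_jdl ht h]
  · rw [smul_inv_smul₀ h]

theorem cont_Y {t : ℝ} (ht : t ∈ Icc 0 π) (i : κ ⊕ ι) : ContinuousAt (fun s => A.Y s i) t :=
  jsys_div (fun s => (A.hasDerivAt_J _ s).differentiableAt)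
    (fun s => (jdl_hasDerivAt i s).differentiableAt) fun h => ⟨A.zero_of_jdl ht h, jdl_deriv_ne h⟩

theorem cont_g {u w : ℝ → W} {t : ℝ} (hu : ContinuousAt u t) (hw : ContinuousAt w t) :
    ContinuousAt (fun s => A.g s (u s) (w s)) t :=
  (A.g_smooth.continuous.continuousAt.clm_apply hu).clm_apply hw

theorem Gm_eq {t : ℝ} (ht : t ∈ Icc 0 π) : Dl κ ι t * A.Gt t * Dl κ ι t = A.Gm t := by
  ext i j
  rw [jdl_Dl, mul_diagonal, diagonal_mul, Gt, Gm, of_apply, of_apply, ← A.smul_Y ht, ← A.smul_Y ht]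
  simp only [map_smul, _root_.smul_apply, smul_eq_mul]
  ring

theorem gram (t : ℝ) (a a' : κ ⊕ ι → ℝ) :
    A.g t (A.J t (a, 0)) (A.J t (a', 0)) = a ⬝ᵥ (A.Gm t *ᵥ a') := by
  rw [Gm, jsys_gram, ← jsys_A, ← jsys_A]

theorem Gt_zero : A.Gt 0 = 1 := by
  ext i j
  have h : ∀ i : κ ⊕ ι, A.Y 0 i = deriv (fun s => A.J s (Pi.single i 1, 0)) 0 := fun i => by
    rw [Y, if_pos (by cases i <;> simp [jdl]), (jdl_hasDerivAt i 0).deriv]
    cases i <;> simp
  rw [Gt, of_apply, h, h, A.init, single_one_dotProduct, Pi.single_apply, one_apply]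

theorem Gt_pos {t : ℝ} (ht : t ∈ Icc 0 π) : (A.Gt t).PosDef := by
  refine PosDef.of_dotProduct_mulVec_pos (IsHermitian.ext fun i j => A.symm _ _ _) fun a ha => ?_
  rw [star_trivial, Gt, jsys_gram]
  refine lt_of_le_of_ne (A.nonneg _ _) fun h0 => ha ?_
  obtain ⟨a1, h1⟩ : ∃ a1 : κ ⊕ ι → ℝ,
      ∀ i, a1 i = if jdl i t = 0 then a i * (deriv (jdl i) t)⁻¹ else 0 := ⟨_, fun _ => rfl⟩
  obtain ⟨a2, h2⟩ : ∃ a2 : κ ⊕ ι → ℝ,
      ∀ i, a2 i = if jdl i t = 0 then 0 else a i * (jdl i t)⁻¹ := ⟨_, fun _ => rfl⟩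
  have hy : ∑ i, a i • A.Y t i = deriv A.J t (a1, 0) + A.J t (a2, 0) := by
    rw [jsys_A _ a1, jsys_A _ a2, ← Finset.sum_add_distrib]
    refine Finset.sum_congr rfl fun i _ => ?_
    rw [Y, h1, h2, (A.hasDerivAt_J _ t).deriv]
    split_ifs <;> simp [smul_smul]
  have hz : A.J t (a1, 0) = 0 := by
    rw [jsys_A]
    refine Finset.sum_eq_zero fun i _ => ?_
    rw [h1]
    split_ifs with h
    · rw [A.zero_of_jdl ht h, smul_zero]
    · rw [zero_smul]
  have h3 : ∀ η, omJ (a1, 0) η + A.g t (A.J t (a2, 0)) (A.J t η) = 0 := fun η => by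
    have := A.null t h0.symm (A.J t η)
    rwa [hy, map_add, _root_.add_apply, A.star' hz] at this
  have h4 : A.J t (a2, 0) = 0 := A.pos _ _ (by simpa [omJ] using h3 (a2, 0))
  have h5 : a1 = 0 := by simpa [omJ, h4] using h3 (0, a1)
  funext i
  by_cases h : jdl i t = 0
  · have h6 := h1 i
    rw [h5, if_pos h] at h6
    exact (mul_eq_zero.mp h6.symm).resolve_right (inv_ne_zero (jdl_deriv_ne h))
  · have h6 := h2 i
    rw [A.key ht h4 h, if_neg h] at h6
    exact (mul_eq_zero.mp h6.symm).resolve_right (inv_ne_zero h)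

theorem Gm_det {t : ℝ} (ht : t ∈ Ioo 0 π) (ht' : t ≠ π / 2) : (A.Gm t).det ≠ 0 := by
  intro h
  obtain ⟨a, ha, h1⟩ := exists_mulVec_eq_zero_iff.mpr h
  exact ha (A.nc t ht ht' a (A.pos _ _ (by rw [A.gram, h1, dotProduct_zero])))

theorem J_sub {t : ℝ} {a' b : κ ⊕ ι → ℝ} (h : A.J t (a', b) = 0) (a : κ ⊕ ι → ℝ) :
    A.J t (a, b) = A.J t (a - a', 0) := by
  rw [← sub_zero (A.J t (a, b)), ← h, ← map_sub, Prod.mk_sub_mk, sub_self]

theorem uniq {t : ℝ} (ht : t ∈ Ioo 0 π) (ht' : t ≠ π / 2) {a a' b : κ ⊕ ι → ℝ}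
    (h : A.J t (a, b) = 0) (h' : A.J t (a', b) = 0) : a = a' :=
  sub_eq_zero.mp (A.nc t ht ht' _ (by rw [← A.J_sub h', h]))

theorem ex {t : ℝ} (ht : t ∈ Ioo 0 π) (ht' : t ≠ π / 2) (b : κ ⊕ ι → ℝ) :
    ∃ a, A.J t (a, b) = 0 := by
  let T : (κ ⊕ ι → ℝ) →ₗ[ℝ] W := (A.J t : JC κ ι →ₗ[ℝ] W) ∘ₗ LinearMap.inl ℝ _ _
  have hT : Function.Injective T := (injective_iff_map_eq_zero T).mpr (A.nc t ht ht')
  have h1 : LinearMap.range T = LinearMap.range (A.J t : JC κ ι →ₗ[ℝ] W) := by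
    refine Submodule.eq_of_le_of_finrank_le (LinearMap.range_comp_le_range _ _) ?_
    rw [LinearMap.finrank_range_of_inj hT, Module.finrank_fintype_fun_eq_card]
    exact A.rank t
  obtain ⟨a, ha⟩ : A.J t (0, b) ∈ LinearMap.range T := h1 ▸ ⟨(0, b), rfl⟩
  refine ⟨-a, ?_⟩
  have h2 : A.J t (a, 0) = A.J t (0, b) := ha
  rw [← sub_self (A.J t (0, b))]
  nth_rewrite 2 [← h2]
  rw [← map_sub, Prod.mk_sub_mk, zero_sub, sub_zero]

theorem S_spec {t : ℝ} (ht : t ∈ Ioo 0 π) (ht' : t ≠ π / 2) (b : κ ⊕ ι → ℝ) :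
    A.J t (A.S t *ᵥ b, b) = 0 := by
  obtain ⟨a, ha⟩ := A.ex ht ht' b
  have ht1 := Ioo_subset_Icc_self ht
  have h1 : A.Ct t *ᵥ b = -(A.Gt t *ᵥ fun i => a i * jdl i t) := by
    funext i
    have h2 : ∑ j, (a j * jdl j t) • A.Y t j = A.J t (a, 0) := by
      rw [jsys_A]
      exact Finset.sum_congr rfl fun j _ => by rw [mul_smul, A.smul_Y ht1]
    rw [Pi.neg_apply, Ct, Gt, jsys_mulVec, jsys_mulVec, ← jsys_B, h2, eq_neg_iff_add_eq_zero,
      ← map_add, ← map_add, Prod.mk_add_mk, zero_add, add_zero, ha, map_zero]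
  have h3 : A.S t *ᵥ b = a := by
    rw [S, neg_mulVec, ← mulVec_mulVec, ← mulVec_mulVec, h1, mulVec_neg, mulVec_neg, neg_neg,
      mulVec_mulVec _ (A.Gt t)⁻¹, nonsing_inv_mul _ (A.Gt_pos ht1).det_pos.ne'.isUnit, one_mulVec]
    funext i
    have := jdl_ne ht ht' i
    rw [mulVec_diagonal]
    field_simp
  rw [h3, ha]

theorem S_symm {t : ℝ} (ht : t ∈ Ioo 0 π) (ht' : t ≠ π / 2) : (A.S t).IsSymm := by
  refine IsSymm.ext fun i j => ?_
  have h := A.star' (A.S_spec ht ht' (Pi.single i 1)) (A.S t *ᵥ Pi.single j 1, Pi.single j 1)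
  rw [A.S_spec ht ht', map_zero] at h
  simp only [omJ, mulVec_single_one, dotProduct_single_one, single_one_dotProduct, col_apply] at h
  linarith

theorem S_deriv {t : ℝ} (ht : t ∈ Ioo 0 π) (ht' : t ≠ π / 2) (b : κ ⊕ ι → ℝ) (i : κ ⊕ ι) :
    HasDerivAt (fun s => (A.S s *ᵥ b) i) (((A.Gm t)⁻¹ *ᵥ b) i) t := by
  have h0 := A.S_spec ht ht' b
  have hv : ∀ k, HasDerivAt
      (fun s => A.g s (A.J s (Pi.single k 1, 0)) (A.J s (A.S t *ᵥ b, b))) (-b k) t := by
    intro k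
    have h1 := (((A.g_smooth.differentiable one_ne_zero t).hasDerivAt).clm_apply
      (A.hasDerivAt_J (Pi.single k 1, 0) t)).clm_apply (A.hasDerivAt_J (A.S t *ᵥ b, b) t)
    rw [h0, map_zero, zero_add, A.symm, A.star' h0] at h1
    simpa [omJ] using h1
  have hG : ∀ i j, ContinuousAt (fun s => A.Gm s i j) t := fun i j =>
    A.cont_g (A.hasDerivAt_J _ t).continuousAt (A.hasDerivAt_J _ t).continuousAt
  have h2 := (HasDerivAt.fun_sum (u := Finset.univ) fun k _ =>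
    jsys_mul (jsys_inv hG (A.Gm_det ht ht') i k) (hv k) (by rw [h0, map_zero])).const_sub
      ((A.S t *ᵥ b) i)
  have h3 : -∑ k, (A.Gm t)⁻¹ i k * -b k = ((A.Gm t)⁻¹ *ᵥ b) i := by simp [mulVec, dotProduct]
  rw [h3] at h2
  refine h2.congr_of_eventuallyEq ?_
  filter_upwards [jsys_ev ht ht'] with s hs
  have h4 : (fun k => A.g s (A.J s (Pi.single k 1, 0)) (A.J s (A.S t *ᵥ b, b))) =
      A.Gm s *ᵥ (A.S t *ᵥ b - A.S s *ᵥ b) := by
    funext k
    rw [Gm, jsys_mulVec, ← jsys_A, A.J_sub (A.S_spec hs.1 hs.2 b)]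
  have h5 : ∑ k, (A.Gm s)⁻¹ i k * A.g s (A.J s (Pi.single k 1, 0)) (A.J s (A.S t *ᵥ b, b)) =
      ((A.Gm s)⁻¹ *ᵥ fun k => A.g s (A.J s (Pi.single k 1, 0)) (A.J s (A.S t *ᵥ b, b))) i := rfl
  rw [h5, h4, mulVec_mulVec, nonsing_inv_mul _ (A.Gm_det hs.1 hs.2).isUnit, one_mulVec,
    Pi.sub_apply, sub_sub_cancel]

theorem S_cont (i j : ι) : ContinuousAt (fun s => A.S s (inr i) (inr j)) (π / 2) := by
  have ht : π / 2 ∈ Icc 0 π := ⟨by positivity, by linarith only [pi_pos]⟩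
  have hG : ∀ i j, ContinuousAt (fun s => A.Gt s i j) (π / 2) := fun i j =>
    A.cont_g (A.cont_Y ht i) (A.cont_Y ht j)
  have hC : ∀ i j, ContinuousAt (fun s => A.Ct s i j) (π / 2) := fun i j =>
    A.cont_g (A.cont_Y ht i) (A.hasDerivAt_J _ _).continuousAt
  have h : ∀ s, A.S s (inr i) (inr j) =
      -((jdl (inr i) s)⁻¹ * ∑ k, (A.Gt s)⁻¹ (inr i) k * A.Ct s k (inr j)) := fun s => by
    rw [S, Matrix.neg_apply, diagonal_mul, Matrix.mul_apply]
  simp only [h]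
  refine (((jdl_hasDerivAt (inr i) (π / 2)).continuousAt.inv₀ (by simp [jdl])).mul ?_).neg
  exact tendsto_finsetSum _ fun k _ => (jsys_inv hG (A.Gt_pos ht).det_pos.ne' _ k).mul (hC k _)

theorem deriv_S {t : ℝ} (ht : t ∈ Ioo 0 π) (ht' : t ≠ π / 2) (b : κ ⊕ ι → ℝ) :
    deriv (fun s => A.J s (A.S t *ᵥ b, b)) t = -A.J t ((A.Gm t)⁻¹ *ᵥ b, 0) := by
  have h1 := (A.hasDerivAt_J' t).clm_apply
    ((hasDerivAt_pi.mpr (A.S_deriv ht ht' b)).prodMk (hasDerivAt_const t b))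
  have h2 : HasDerivAt (fun s => A.J s (A.S s *ᵥ b, b)) 0 t := by
    refine (hasDerivAt_const t (0 : W)).congr_of_eventuallyEq ?_
    filter_upwards [jsys_ev ht ht'] with s hs using A.S_spec hs.1 hs.2 b
  rw [(A.hasDerivAt_J _ t).deriv, eq_neg_iff_add_eq_zero]
  exact h1.unique h2

theorem det_gram (t : ℝ) (Q : Matrix (κ ⊕ ι) (κ ⊕ ι) ℝ) :
    (Matrix.of fun i j => A.g t (A.J t (Q *ᵥ Pi.single i 1, 0))
      (A.J t (Q *ᵥ Pi.single j 1, 0))).det = Q.det ^ 2 * (A.Gm t).det := by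
  have h : (Matrix.of fun i j => A.g t (A.J t (Q *ᵥ Pi.single i 1, 0))
      (A.J t (Q *ᵥ Pi.single j 1, 0))) = Qᵀ * (A.Gm t * Q) := by
    ext i j
    rw [of_apply, A.gram, mulVec_mulVec, mulVec_single_one, mulVec_single_one]
    rfl
  rw [h, det_mul, det_mul, det_transpose]
  ring

theorem link_aux {τ : ℝ} {th : ℝ → ℝ} (h : A.Link τ th) {t y : ℝ} (ht : t ∈ Ioo 0 π)
    (ht' : t ≠ π / 2) (hy : y ∈ Ioo 0 π) (hy' : y ≠ π / 2)
    (e : ∀ ξ η, A.g (t + τ) (A.J (t + τ) ξ) (A.J (t + τ) η) = A.g y (A.J y ξ) (A.J y η)) :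
    th t ^ 2 = (A.S t - A.S y).det ^ 2 * (A.Gm t).det * (A.Gm y).det := by
  have h1 := h.eq t (fun i => (A.S t *ᵥ Pi.single i 1, Pi.single i 1))
    (LinearIndependent.of_comp (LinearMap.snd ℝ _ _) (Pi.linearIndependent_single_one _ _))
    fun i => A.S_spec ht ht' _
  simp only [A.deriv_S ht ht', map_neg, _root_.neg_apply, neg_neg, e,
    fun b => A.J_sub (A.S_spec hy hy' b) (A.S t *ᵥ b), ← sub_mulVec, A.det_gram] at h1
  have h2 := A.Gm_det ht ht'
  rw [det_nonsing_inv, Ring.inverse_eq_inv'] at h1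
  field_simp at h1
  linarith only [h1]

end Aux

theorem exists_bkm : ∃ M : BKM κ ι,
    (∀ t ∈ Ioo 0 π, t ≠ π / 2 → ∀ b, A.J t (M.S t *ᵥ b, b) = 0) ∧
    (∀ t ∈ Icc 0 π, ∀ a a', A.g t (A.J t (a, 0)) (A.J t (a', 0)) =
      a ⬝ᵥ ((Dl κ ι t * M.Gt t * Dl κ ι t) *ᵥ a')) ∧
    ∀ τ ∈ Ioo 0 (π / 2), ∀ th, A.Link τ th → M.Link τ th := by
  have hpi := pi_pos
  refine ⟨⟨A.Gt, A.S, fun i j t ht => (A.cont_g (A.cont_Y ht i) (A.cont_Y ht j)).continuousWithinAt,
    fun t ht => A.Gt_pos ht, A.Gt_zero, fun t ht ht' => A.S_symm ht ht', fun t ht ht' i j => ?_,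
    A.S_cont, fun x hx => ?_⟩, fun t ht ht' b => A.S_spec ht ht' b, fun t ht a a' => ?_,
    fun τ hτ th h => ⟨h.cont, h.pos, fun t ht h1 h2 => ?_, fun t ht => ?_⟩⟩
  · rw [A.Gm_eq (Ioo_subset_Icc_self ht)]
    simpa using A.S_deriv ht ht' (Pi.single j 1) i
  · obtain ⟨ξ, h0, h1⟩ := A.conj x hx
    have e1 : x ∈ Ioo 0 π := ⟨hx.1, by linarith only [hpi, hx, hx.2]⟩
    have e2 : x + π / 2 ∈ Ioo 0 π := ⟨by linarith only [hpi, hx, hx.1], by linarith [hx.2]⟩
    have e3 : x + π / 2 ≠ π / 2 := by linarith [hx.1]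
    have h3 := fun i => A.uniq e1 hx.2.ne (h1 i).1 (A.S_spec e1 hx.2.ne (ξ i).2)
    have h4 := fun i => A.uniq e2 e3 (h1 i).2 (A.S_spec e2 e3 (ξ i).2)
    refine ⟨of fun i k => (ξ k).2 i, fun a ha => ?_, ?_⟩
    · have h5 : ∑ k, a k • (ξ k).2 = 0 := by
        rw [← ha]
        funext i
        simp [mulVec, dotProduct, mul_comm]
      refine funext (Fintype.linearIndependent_iff.1 h0 a (Prod.ext ?_ ?_))
      · rw [Prod.fst_sum]
        simp only [Prod.smul_fst, h3, ← mulVec_smul, ← mulVec_sum, h5, mulVec_zero, Prod.fst_zero]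
      · rw [Prod.snd_sum]
        exact h5
    · ext i k
      have : (A.S (x + π / 2) - A.S x) *ᵥ (ξ k).2 = 0 := by rw [sub_mulVec, ← h3, ← h4, sub_self]
      exact congrFun this i
  · rw [A.gram, ← A.Gm_eq ht]
  · have e1 : t ∈ Ioo 0 π := ⟨ht.1, by linarith [ht.2, hτ.1]⟩
    have e2 : t + τ ∈ Ioo 0 π := ⟨by linarith [ht.1, hτ.1], by linarith only [ht, ht.2]⟩
    rw [A.link_aux h e1 h1 e2 h2 fun _ _ => rfl]
    simp only [BKM.D2, A.Gm_eq (Ioo_subset_Icc_self e1), A.Gm_eq (Ioo_subset_Icc_self e2)]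
    rw [← neg_sub, det_neg, mul_pow, ← pow_mul, mul_comm _ 2, pow_mul, neg_one_sq, one_pow, one_mul]
  · have e1 : t ∈ Ioo 0 π := ⟨by linarith only [hpi, ht, hτ, ht.1, hτ.2], ht.2⟩
    have e2 : t + τ - π ∈ Ioo 0 π := ⟨by linarith [ht.1], by linarith only [hpi, ht, hτ, ht.2, hτ.2]⟩
    obtain ⟨R, hR⟩ := A.per
    rw [A.link_aux h e1 (by linarith only [ht, hτ, ht.1, hτ.2]) e2 (by linarith only [ht, hτ, ht.2, hτ.2]) fun ξ η => by
      rw [← (hR (t + τ - π)).2, ← (hR _).1, ← (hR _).1, sub_add_cancel]]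
    simp only [BKM.D2, A.Gm_eq (Ioo_subset_Icc_self e1), A.Gm_eq (Ioo_subset_Icc_self e2)]
    ring

theorem ineq {τ : ℝ} (hτ : τ ∈ Ioo 0 (π / 2)) {th : ℝ → ℝ} (h : A.Link τ th) :
    π * log (sin τ ^ Fintype.card ι * (sin (2 * τ) / 2) ^ Fintype.card κ) ≤ ∫ t in (0 : ℝ)..π, log (th t) := by
  obtain ⟨M, -, -, hM⟩ := A.exists_bkm
  exact M.ineq hτ (hM τ hτ th h)

theorem eq_case {τ : ℝ} (hτ : τ ∈ Ioo 0 (π / 2)) {th : ℝ → ℝ} (h : A.Link τ th)
    (e : π * log (sin τ ^ Fintype.card ι * (sin (2 * τ) / 2) ^ Fintype.card κ) = ∫ t in (0 : ℝ)..π, log (th t))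
    (a a' : κ ⊕ ι → ℝ) : A.g τ (A.J τ (a, 0)) (A.J τ (a', 0)) =
      (sin (2 * τ) / 2) ^ 2 * ∑ i, a (inl i) * a' (inl i) +
        sin τ ^ 2 * ∑ i, a (inr i) * a' (inr i) := by
  obtain ⟨M, -, h2, hM⟩ := A.exists_bkm
  rw [h2 τ ⟨hτ.1.le, by linarith only [hτ, hτ.2, pi_pos]⟩, M.eq_case hτ (hM τ hτ th h) e, Matrix.mul_one,
    jdl_Dl, diagonal_mul_diagonal, dotProduct, Fintype.sum_sum_type, Finset.mul_sum, Finset.mul_sum]
  simp only [mulVec_diagonal, jdl, Sum.elim_inl, Sum.elim_inr]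
  congr 1 <;> exact Finset.sum_congr rfl fun i _ => by ring

end JSys

end Pool.Agent.Work.MP_8c604c_gt.H
end
end

-- merged part: Pool.Agent.Work.MP_8c604c_gt.O.BKG1
section
/-!
The Jacobian of the exponential map as a ratio of Gram determinants.
-/

set_option maxSynthPendingDepth 3
set_option linter.unusedSectionVars false

open Set Filter Topology MeasureTheory
open scoped ContDiff

noncomputable section
namespace Pool.Agent.Work.MP_8c604c_gt.O

open Model Real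

variable {E : Type} [NormedAddCommGroup E] [InnerProductSpace ℝ E] [FiniteDimensional ℝ E] {d : ℕ}
  {μ : Model E d} {g : Met E}

/-- The Gram determinant of a family with as many members as the dimension. -/
theorem bkg1_exists_gram {ι : Type} [Fintype ι] [DecidableEq ι]
    (hι : Fintype.card ι = Module.finrank ℝ E) (f : ι → E) : ∃ c : ℝ, ∀ B : E →L[ℝ] E →L[ℝ] ℝ,
      (Matrix.of fun a b => B (f a) (f b)).det = c * bdet B := by
  obtain ⟨e⟩ : Nonempty (Fin (Module.finrank ℝ E) ≃ ι) :=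
    ⟨Fintype.equivOfCardEq (by rw [Fintype.card_fin, hι])⟩
  let L : E →L[ℝ] E := LinearMap.toContinuousLinearMap
    ((stdOrthonormalBasis ℝ E).toBasis.constr ℝ fun i => f (e i))
  have hL : ∀ i, L (stdOrthonormalBasis ℝ E i) = f (e i) := fun i =>
    (stdOrthonormalBasis ℝ E).toBasis.constr_basis ℝ (fun i => f (e i)) i
  refine ⟨L.det ^ 2, fun B => ?_⟩
  rw [← bdet_comp, ← Matrix.det_submatrix_equiv_self e]
  unfold bdet
  congr 1
  ext i j
  simp [ContinuousLinearMap.bilinearComp_apply, hL]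

/-- Splitting off a unit vector. -/
theorem bkg1_gram_unit {κ : Type} [Fintype κ] [DecidableEq κ] (B : E →L[ℝ] E →L[ℝ] ℝ) (v : E)
    (w : κ → E) (h1 : B v v = 1) (h0 : ∀ i, B (w i) v = 0) :
    (Matrix.of fun a b : Unit ⊕ κ =>
      B (Sum.elim (fun _ => v) w a) (Sum.elim (fun _ => v) w b)).det =
      (Matrix.of fun i j => B (w i) (w j)).det := by
  have e : (Matrix.of fun a b : Unit ⊕ κ =>
      B (Sum.elim (fun _ => v) w a) (Sum.elim (fun _ => v) w b)) =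
      Matrix.fromBlocks 1 (Matrix.of fun _ j => B v (w j)) 0
        (Matrix.of fun i j => B (w i) (w j)) := by
    ext a b
    rcases a with a | a <;> rcases b with b | b <;> simp [h1, h0]
  rw [e, Matrix.det_fromBlocks_zero₂₁, Matrix.det_one, one_mul]

/-- Gram determinants of `d` tangent vectors. -/
theorem bkg1_gram {ι : Type} [Fintype ι] [DecidableEq ι] (hι : Fintype.card ι = d) {q : E}
    (hq : q ∈ μ.M) {w : ι → E} (hw : ∀ i, μ.P q (w i) = w i) : ∃ c : ℝ, ∀ β : E →L[ℝ] E →L[ℝ] ℝ,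
      (∀ a n, μ.P q n = 0 → β a n = 0) →
        (Matrix.of fun i j => β (w i) (w j)).det = c * bdet (β + μ.NN q) := by
  let n := stdOrthonormalBasis ℝ (LinearMap.ker (μ.P q : E →ₗ[ℝ] E))
  obtain ⟨c, hc⟩ := bkg1_exists_gram (ι := _ ⊕ ι) (by
    rw [Fintype.card_sum, Fintype.card_fin, hι, add_comm, finrank_ker_P hq])
    (Sum.elim (fun k => (n k : E)) w)
  refine ⟨c, fun β hβ => ?_⟩
  have h1 : ∀ k, μ.P q (n k) = 0 := fun k => (n k).2
  have h2 := Matrix.det_fromBlocks_zero₂₁ 1 (Matrix.of fun k j => β (n k) (w j))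
    (Matrix.of fun i j => β (w i) (w j))
  rw [Matrix.det_one, one_mul] at h2
  rw [← hc, ← h2]
  congr 1
  ext a b
  rcases a with a | a <;> rcases b with b | b <;>
    simp only [Matrix.of_apply, Sum.elim_inl, Sum.elim_inr, Matrix.fromBlocks_apply₁₁,
      Matrix.fromBlocks_apply₁₂, Matrix.fromBlocks_apply₂₁, Matrix.fromBlocks_apply₂₂, add_apply,
      NN_apply, hβ _ _ (h1 _), Q_of_P (h1 _), Q_eq_zero.2 (hw _), inner_zero_left, inner_zero_right,
      add_zero, zero_add, Matrix.zero_apply]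
  exact (Matrix.one_apply ..).trans (orthonormal_iff_ite.1 n.orthonormal a b).symm

namespace Geo
variable (G : Geo μ g) (h : IsMetric μ g)

/-- The pull-back of the metric by the exponential map. -/
def pb (q u : E) : E →L[ℝ] E →L[ℝ] ℝ :=
  (g (G.ex q u)).bilinearComp (fderiv ℝ (G.ex q) u) (fderiv ℝ (G.ex q) u)

theorem pb_apply (q u a b : E) :
    G.pb q u a b = g (G.ex q u) (fderiv ℝ (G.ex q) u a) (fderiv ℝ (G.ex q) u b) := rfl

theorem jac_eq (q u : E) : G.jac q u = √(bdet (G.pb q u + μ.NN q)) / √(μ.detG g q) := rfl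

theorem jac_nonneg (q u : E) : 0 ≤ G.jac q u := by
  unfold jac
  positivity

theorem jac_P {q : E} (hq : q ∈ μ.M) (u : E) : G.jac q (μ.P q u) = G.jac q u := by
  have : G.pb q (μ.P q u) = G.pb q u := by
    ext a b
    simp only [pb_apply, G.ex_P hq]
    rw [← G.fderiv_ex_P hq u, ← G.fderiv_ex_P hq u, ← G.fderiv_ex_P hq _ a, ← G.fderiv_ex_P hq _ b,
      P_idem hq]
  rw [jac_eq, jac_eq, this]

theorem th_sc {m : ℝ} (hm : 0 < m) (x : E × E) (τ : ℝ) : G.th (sc m x) τ = G.th x τ := by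
  rw [th, th, vel_sc hm]
  rfl

theorem continuousOn_fderiv_ex : ContinuousOn (fun p : E × E => fderiv ℝ (G.ex p.1) p.2) μ.UU := by
  refine ((G.contDiffOn_ex.continuousOn_fderiv_of_isOpen μ.isOpen_UU (by simp)).clm_comp
    (continuousOn_const (c := ContinuousLinearMap.inr ℝ E E))).congr fun p hp => ?_
  exact (((G.contDiffOn_ex.contDiffAt (x := (p.1, p.2)) (μ.isOpen_UU.mem_nhds hp)).differentiableAt
    (by simp)).hasFDerivAt.comp p.2 (hasFDerivAt_prodMk_right p.1 p.2)).fderiv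

include h

theorem bkg1_nonneg {q : E} (hq : q ∈ μ.U) (u : E) : 0 ≤ bdet (G.pb q u + μ.NN q) := by
  have hs : ∀ a b, (G.pb q u + μ.NN q) a b = (G.pb q u + μ.NN q) b a := fun a b => by
    simp only [add_apply, pb_apply, NN_apply]
    rw [h.symm _ _ _ (G.ex_mem hq u).1, real_inner_comm]
  have h1 : Tendsto (fun ε : ℝ => bdet (G.pb q u + μ.NN q + ε • inL E)) (𝓝[>] 0)
      (𝓝 (bdet (G.pb q u + μ.NN q + (0 : ℝ) • inL E))) :=
    ((continuous_bdet.comp (by fun_prop)).tendsto 0).mono_left nhdsWithin_le_nhds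
  rw [zero_smul, add_zero] at h1
  refine ge_of_tendsto h1 (eventually_of_mem self_mem_nhdsWithin fun ε hε => (bdet_pos
    (fun a b => by rw [add_apply, add_apply, hs, add_apply _ (ε • inL E), add_apply _ _ a]
                   simp only [smul_apply, inL_apply, real_inner_comm]) fun a ha => ?_).le)
  simp only [add_apply, smul_apply, pb_apply, NN_apply, inL_apply, smul_eq_mul]
  exact add_pos_of_nonneg_of_pos (add_nonneg (h.nonneg (G.ex_mem hq u).1 _) real_inner_self_nonneg)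
    (mul_pos hε (real_inner_self_pos.2 ha))

theorem bkg1_jac_sq {q : E} (hq : q ∈ μ.U) (u : E) :
    G.jac q u ^ 2 * μ.detG g q = bdet (G.pb q u + μ.NN q) := by
  have h1 := h.detG_pos hq
  rw [jac_eq, div_pow, Real.sq_sqrt h1.le, Real.sq_sqrt (G.bkg1_nonneg h hq u),
    div_mul_cancel₀ _ h1.ne']

/-- The Jacobian as a ratio of Gram determinants. -/
theorem jac_gram {ι : Type} [Fintype ι] [DecidableEq ι] (hι : Fintype.card ι = d) {q : E}
    (hq : q ∈ μ.M) (u : E) {w : ι → E} (hw : ∀ i, μ.P q (w i) = w i) :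
    G.jac q u ^ 2 * (Matrix.of fun i j => g q (w i) (w j)).det =
      (Matrix.of fun i j => G.pb q u (w i) (w j)).det := by
  obtain ⟨c, hc⟩ := bkg1_gram hι hq hw
  rw [hc _ fun a n hn => h.vert' hq.1 hn a,
    hc _ fun a n hn => by rw [pb_apply, G.fderiv_ex_kill hq u hn, map_zero], ← G.bkg1_jac_sq h hq.1,
    mul_left_comm]
  rfl

theorem continuousOn_jac : ContinuousOn (fun p : E × E => G.jac p.1 p.2) μ.UU := by
  have c0 : ContinuousOn (fun p : E × E => g (G.ex p.1 p.2)) μ.UU :=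
    h.smooth.continuousOn.comp G.contDiffOn_ex.continuousOn fun p hp => (G.ex_mem hp _).1
  have c1 : ContinuousOn (fun p : E × E => G.pb p.1 p.2) μ.UU := by
    refine continuousOn_clm_apply.2 fun a => continuousOn_clm_apply.2 fun b => ?_
    simp only [pb_apply]
    exact (c0.clm_apply (G.continuousOn_fderiv_ex.clm_apply
      continuousOn_const)).clm_apply (G.continuousOn_fderiv_ex.clm_apply continuousOn_const)
  have c2 : ContinuousOn (fun p : E × E => μ.NN p.1) μ.UU :=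
    contDiffOn_NN.continuousOn.comp continuousOn_fst fun p hp => hp
  have c3 : ContinuousOn (fun p : E × E => μ.detG g p.1) μ.UU :=
    h.continuousOn_detG.comp continuousOn_fst fun p hp => hp
  simp only [jac_eq]
  exact (continuous_bdet.comp_continuousOn (c1.add c2)).sqrt.div c3.sqrt
    fun p hp => (Real.sqrt_pos.2 (h.detG_pos hp)).ne'

theorem continuousOn_th : ContinuousOn (fun p : (E × E) × ℝ => G.th p.1 p.2) {p | p.1 ∈ μ.OO} := by
  have c1 : ContinuousOn (fun p : (E × E) × ℝ => vel g p.1) {p | p.1 ∈ μ.OO} :=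
    h.contDiffOn_vel.continuousOn.comp continuousOn_fst fun p hp => hp
  have c2 : ContinuousOn (fun p : (E × E) × ℝ => ((p.1.1, p.2 • vel g p.1) : E × E))
      {p | p.1 ∈ μ.OO} :=
    (continuous_fst.comp continuous_fst).continuousOn.prodMk (continuousOn_snd.smul c1)
  have c3 := (G.continuousOn_jac h).comp c2 fun p hp => (show p.1 ∈ μ.OO from hp).1
  simp only [Function.comp_def] at c3
  simp only [th]
  exact (continuousOn_snd.pow _).mul c3

theorem th_spd {x : E × E} (hx : x ∈ μ.OO) :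
    G.th x (spd g x) = spd g x ^ (d - 1) * G.jac x.1 x.2 := by
  rw [th, ← h.snd_eq hx]

/-- The density as a ratio of Gram determinants. -/
theorem th_link {x : E × E} (hx : x ∈ μ.TT) {τ : ℝ} (hτ : 0 < τ) {κ : Type} [Fintype κ]
    [DecidableEq κ] (hκ : Fintype.card κ = d - 1) (u : κ → E) (hu : ∀ i, g x.1 (u i) x.2 = 0) :
    G.th x τ ^ 2 * (Matrix.of fun i j => g x.1 (u i) (u j)).det =
      (Matrix.of fun i j => g (G.Z τ x) (spd g x • G.JJ τ x (0, u i))
        (spd g x • G.JJ τ x (0, u j))).det := by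
  have ho := TT_OO hx
  have hψ := G.psi_mem h τ ho
  have huv : ∀ i, g x.1 (vel g x) (μ.P x.1 (u i)) = 0 := fun i => by
    rw [h.P_right hx.1, h.g_vel ho, hu i, mul_zero]
  have k1 := G.jac_gram h (ι := Unit ⊕ κ) (by
    have := μ.two
    simp only [Fintype.card_sum, Fintype.card_unit, hκ]
    omega) hx.1 (τ • vel g x) (w := Sum.elim (fun _ => vel g x) fun i => μ.P x.1 (u i))
    (Sum.forall.2 ⟨fun _ => P_vel hx, fun i => P_idem hx.1 _⟩)
  have a1 : fderiv ℝ (G.ex x.1) (τ • vel g x) (vel g x) = vel g (G.psi τ x) := by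
    rw [G.fderiv_ex h τ ho hτ, h.vel_unit ho, G.JJ_Bs h τ ho (u := vel g x)
      (Submodule.smul_mem _ _ (snd_mem_Bs x)), smul_zero, add_zero, one_smul]
  have a2 : ∀ i, fderiv ℝ (G.ex x.1) (τ • vel g x) (μ.P x.1 (u i)) =
      τ⁻¹ • spd g x • G.JJ τ x (0, u i) := fun i => by
    rw [G.fderiv_ex h τ ho hτ, huv, zero_smul, zero_add, G.JJ_P h τ hx, smul_smul, div_eq_inv_mul]
  rw [bkg1_gram_unit _ _ _ (h.vel_unit ho) fun i => by rw [h.symm _ _ _ ho.1, huv],
    bkg1_gram_unit _ _ _ (by rw [pb_apply, a1, G.ex_vel h τ ho]; exact h.vel_unit hψ) fun i => by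
      rw [pb_apply, a1, a2, G.ex_vel h τ ho, h.symm _ _ _ (G.Z_U τ ho), map_smul, map_smul,
        G.al_inv h τ ho, al_apply, map_zero, smul_zero, smul_zero]] at k1
  have e2 : (Matrix.of fun i j => G.pb x.1 (τ • vel g x) (μ.P x.1 (u i)) (μ.P x.1 (u j))) = τ⁻¹ ^ 2 •
      Matrix.of fun i j => g (G.Z τ x) (spd g x • G.JJ τ x (0, u i))
        (spd g x • G.JJ τ x (0, u j)) := by
    ext i j
    rw [Matrix.smul_apply, Matrix.of_apply, Matrix.of_apply, pb_apply, a2, a2, G.ex_vel h τ ho,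
      map_smul, map_smul _ τ⁻¹, smul_apply, smul_smul, sq]
  simp only [h.P_left hx.1, h.P_right hx.1] at k1
  rw [e2, Matrix.det_smul, hκ] at k1
  rw [th, mul_pow, mul_assoc, k1, ← mul_assoc, ← pow_mul, ← pow_mul, mul_comm 2 (d - 1), ← mul_pow,
    mul_inv_cancel₀ hτ.ne', one_pow, one_mul]

end Geo

theorem Bl.jac_pos {G : Geo μ g} (B : Bl g G) {q u : E} (hq : q ∈ μ.M) (hu : √(g q u u) < π / 2) :
    0 < G.jac q u := by
  have h := B.met
  have he := (G.ex_mem hq.1 u).1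
  refine div_pos (Real.sqrt_pos.2 (bdet_pos (B := G.pb q u + μ.NN q) (fun a b => ?_) fun a ha => ?_))
    (Real.sqrt_pos.2 (h.detG_pos hq.1))
  · simp only [add_apply, Geo.pb_apply, NN_apply]
    rw [h.symm _ _ _ he, real_inner_comm]
  · simp only [add_apply, Geo.pb_apply, NN_apply]
    have h1 := h.nonneg he (fderiv ℝ (G.ex q) u a)
    have h2 : 0 ≤ inner ℝ (μ.Q q a) (μ.Q q a) := real_inner_self_nonneg
    by_contra hc
    have h3 := B.ex_immersion hq hu (h.eq_zero_of_tan he (G.fderiv_ex_tan hq.1 u a) (by linarith only [h1, h2, hc]))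
    have h4 : μ.Q q a = 0 := inner_self_eq_zero.1 (by linarith only [h2, h1, hc] : inner ℝ (μ.Q q a) (μ.Q q a) = 0)
    exact ha ((Q_eq_zero.1 h4).symm.trans h3)

end Pool.Agent.Work.MP_8c604c_gt.O
end
end

-- merged part: Pool.Agent.Work.MP_8c604c_gt.O.Param
section
/-!
Change of variables through charts, and the density of the volume.
-/

set_option maxSynthPendingDepth 3
set_option linter.unusedSectionVars false

open Set Filter Topology MeasureTheory
open scoped ContDiff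

noncomputable section
namespace Pool.Agent.Work.MP_8c604c_gt.O

open Model Real

/-- Change of variables for an injective map read in finitely many charts, one of full measure. -/
theorem param_le {X : Type} [NormedAddCommGroup X] [NormedSpace ℝ X] [FiniteDimensional ℝ X]
    [MeasurableSpace X] [BorelSpace X] (ν : Measure X) [ν.IsAddHaarMeasure] {ι : Type} [Fintype ι]
    (i₀ : ι) {S : Set X} {T N : ι → Set X} (hT : ∀ i, MeasurableSet (T i)) (hc : S ⊆ ⋃ i, T i)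
    {φ : ι → X → X} {φ' : ι → X → X →L[ℝ] X} (hd : ∀ i, ∀ x ∈ T i, HasFDerivAt (φ i) (φ' i x) x)
    (hi : ∀ i, InjOn (φ i) (T i)) {H : ι → X → ENNReal} {J : X → ENNReal}
    (hJ : ∀ i, ∀ x ∈ T i, J x = ENNReal.ofReal |(φ' i x).det| * H i (φ i x))
    (h0 : ∀ i, ν (N i) = 0) (hN : ∀ i, ∀ x ∈ T i, x ∉ T i₀ → φ i x ∈ N i) :
    ∫⁻ x in S, J x ∂ν ≤ ∫⁻ y in φ i₀ '' T i₀, H i₀ y ∂ν := by
  have key : ∀ i A, MeasurableSet A → A ⊆ T i → ∫⁻ x in A, J x ∂ν = ∫⁻ y in φ i '' A, H i y ∂ν :=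
    fun i A hA h => by
      rw [lintegral_image_eq_lintegral_abs_det_fderiv_mul ν hA
        (fun x hx => (hd i x (h hx)).hasFDerivWithinAt) ((hi i).mono h)]
      exact setLIntegral_congr_fun hA fun x hx => hJ i x (h hx)
  have h1 : S ⊆ T i₀ ∪ ⋃ i, T i \ T i₀ := fun x hx => by
    obtain ⟨i, h⟩ := mem_iUnion.1 (hc hx)
    by_cases h' : x ∈ T i₀
    · exact Or.inl h'
    · exact Or.inr (mem_iUnion.2 ⟨i, h, h'⟩)
  refine (lintegral_mono_set h1).trans ((lintegral_union_le _ _ _).trans ?_)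
  rw [key i₀ _ (hT i₀) Subset.rfl]
  refine (add_le_add_right (lintegral_iUnion_le _ _) _).trans_eq ?_
  rw [ENNReal.tsum_eq_zero.2 fun i => ?_, add_zero]
  rw [key i _ ((hT i).diff (hT i₀)) diff_subset]
  exact setLIntegral_measure_zero _ _ (measure_mono_null
    (image_subset_iff.2 fun x hx => hN i x hx.1 hx.2) (h0 i))

/-- Integrals of a function of the norm of a positive form. -/
theorem fibre_integral {d : ℕ} {β : RF d →L[ℝ] RF d →L[ℝ] ℝ} (hs : ∀ u w, β u w = β w u)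
    (hp : ∀ u, u ≠ 0 → 0 < β u u) {f : ℝ → ENNReal} (hf : Measurable f) :
    ∫⁻ w, f √(β w w) * ENNReal.ofReal √(bdet β) = ∫⁻ y : RF d, f ‖y‖ := by
  obtain ⟨b, hb, -⟩ := KS_onb β.toLinearMap₁₂ hs hp
  let e := stdOrthonormalBasis ℝ (RF d)
  let T : RF d →ₗ[ℝ] RF d := e.toBasis.constr ℝ b
  have hT : ∀ i, T (e i) = b i := fun i => e.toBasis.constr_basis ℝ b i
  have hB : β.bilinearComp (LinearMap.toContinuousLinearMap T) (LinearMap.toContinuousLinearMap T) =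
      inL (RF d) := by
    refine ContinuousLinearMap.coe_injective (e.toBasis.ext fun i =>
      ContinuousLinearMap.coe_injective (e.toBasis.ext fun j => ?_))
    change β (T (e i)) (T (e j)) = inner ℝ (e i) (e j)
    rw [hT, hT, orthonormal_iff_ite.1 e.orthonormal]
    exact hb i j
  have hdet := bdet_comp β (LinearMap.toContinuousLinearMap T)
  rw [LinearMap.det_toContinuousLinearMap, hB, bdet_inner] at hdet
  have hd0 : LinearMap.det T ≠ 0 := by
    intro e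
    rw [e] at hdet
    simp at hdet
  have hsq : √(bdet β) = |(LinearMap.det T)⁻¹| := by
    rw [← Real.sqrt_sq_eq_abs, inv_pow, eq_inv_of_mul_eq_one_right hdet.symm]
  have hF : Measurable fun w => f √(β w w) :=
    hf.comp ((β.continuous.clm_apply continuous_id).sqrt).measurable
  rw [lintegral_mul_const _ hF, mul_comm, hsq, ← smul_eq_mul, ← lintegral_smul_measure,
    ← Measure.map_linearMap_addHaar_eq_smul_addHaar volume hd0,
    lintegral_map hF T.continuous_of_finiteDimensional.measurable]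
  refine lintegral_congr fun x => ?_
  rw [show β (T x) (T x) = inner ℝ x x from congrArg (fun B => B x x) hB, real_inner_self_eq_norm_sq,
    Real.sqrt_sq (norm_nonneg _)]

variable {E : Type} [NormedAddCommGroup E] [InnerProductSpace ℝ E] [FiniteDimensional ℝ E] {d : ℕ}
  {μ : Model E d} {g : Met E}

instance rfHaar : (volume : Measure (RF d × RF d)).IsAddHaarMeasure :=
  Measure.prod.instIsAddHaarMeasure _ _

/-- The metric in a chart. -/
def Model.gc (μ : Model E d) (g : Met E) (i : Fin (μ.N + 1)) (a : RF d) : RF d →L[ℝ] RF d →L[ℝ] ℝ :=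
  (g (μ.χ i a)).bilinearComp (fderiv ℝ (μ.χ i) a) (fderiv ℝ (μ.χ i) a)

theorem gc_apply (i : Fin (μ.N + 1)) (a u w : RF d) :
    μ.gc g i a u w = g (μ.χ i a) (fderiv ℝ (μ.χ i) a u) (fderiv ℝ (μ.χ i) a w) := rfl

theorem den_eq (i : Fin (μ.N + 1)) (a : RF d) : μ.den g i a = √(bdet (μ.gc g i a)) := rfl

theorem spd_κ (i : Fin (μ.N + 1)) (y : RF d × RF d) : spd g (μ.κ i y) = √(μ.gc g i y.1 y.2 y.2) := rfl

theorem null_κ (μ : Model E d) (i : Fin (μ.N + 1)) :
    volume {y : RF d × RF d | μ.χ i y.1 ∉ μ.W 0} = 0 := by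
  have : {y : RF d × RF d | μ.χ i y.1 ∉ μ.W 0} = {a | μ.χ i a ∉ μ.W 0} ×ˢ univ := by
    ext y
    simp
  rw [this, Measure.volume_eq_prod, Measure.prod_prod, ae_iff.1 (μ.null i), zero_mul]

namespace IsMetric
variable (h : IsMetric μ g)
include h

theorem gc_symm (i : Fin (μ.N + 1)) (a u w : RF d) : μ.gc g i a u w = μ.gc g i a w u :=
  h.symm _ _ _ (χ_M i a).1

theorem gc_pos (i : Fin (μ.N + 1)) (a : RF d) {u : RF d} (hu : u ≠ 0) : 0 < μ.gc g i a u u :=
  h.pos _ _ (χ_M i a).1 (TT_OO (κ_TT i (y := (a, u)) hu)).2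

theorem den_pos (i : Fin (μ.N + 1)) (a : RF d) : 0 < μ.den g i a :=
  Real.sqrt_pos.2 (bdet_pos (h.gc_symm i a) fun _ => h.gc_pos i a)

theorem den_sq (i : Fin (μ.N + 1)) (a : RF d) : μ.den g i a ^ 2 = bdet (μ.gc g i a) :=
  Real.sq_sqrt (bdet_pos (h.gc_symm i a) fun _ => h.gc_pos i a).le

theorem contDiff_gc (i : Fin (μ.N + 1)) : ContDiff ℝ ∞ (μ.gc g i) := by
  have h1 : ContDiff ℝ ∞ (fderiv ℝ (μ.χ i)) := (μ.χ_smooth i).fderiv_right (by simp)
  refine contDiff_clm_apply_iff.2 fun u => contDiff_clm_apply_iff.2 fun w => ?_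
  simp only [gc_apply]
  exact ((h.smooth.comp_contDiff (μ.χ_smooth i) fun a => (χ_M i a).1).clm_apply
    (h1.clm_apply contDiff_const)).clm_apply (h1.clm_apply contDiff_const)

theorem continuous_den (i : Fin (μ.N + 1)) : Continuous (μ.den g i) :=
  (continuous_bdet.comp (h.contDiff_gc i).continuous).sqrt

/-- The density of the pull-back by a map `D` into the tangent space. -/
theorem bdet_pull {j : Fin (μ.N + 1)} {y : E} (hy : y ∈ μ.M) (hj : y ∈ μ.W j) {D : RF d →L[ℝ] E}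
    (hD : ∀ a, μ.P y (D a) = D a) : bdet ((g y).bilinearComp D D) =
      (|((fderiv ℝ (μ.ρ j) y).comp D).det| * μ.den g j (μ.ρ j y)) ^ 2 := by
  rw [mul_pow, sq_abs, h.den_sq, ← bdet_comp]
  congr 1
  ext a b
  have e := fun c => Dχ_Dρ hy hj (D c)
  simp only [hD] at e
  simp only [ContinuousLinearMap.bilinearComp_apply, gc_apply, ContinuousLinearMap.comp_apply, e,
    μ.χρ j y hj hy.2]

end IsMetric

/-- The Jacobian of the exponential map in charts. -/
theorem Geo.jac_chart (G : Geo μ g) (h : IsMetric μ g) (i : Fin (μ.N + 1)) {j : Fin (μ.N + 1)}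
    (a : RF d) {u : E} (hj : G.ex (μ.χ i a) u ∈ μ.W j) :
    G.jac (μ.χ i a) u * μ.den g i a = |((fderiv ℝ (μ.ρ j) (G.ex (μ.χ i a) u)).comp
      ((fderiv ℝ (G.ex (μ.χ i a)) u).comp (fderiv ℝ (μ.χ i) a))).det| *
        μ.den g j (μ.ρ j (G.ex (μ.χ i a) u)) := by
  refine (pow_left_inj₀ (mul_nonneg (G.jac_nonneg _ _) (h.den_pos _ _).le)
    (mul_nonneg (abs_nonneg _) (h.den_pos _ _).le) two_ne_zero).1 ?_
  rw [← h.bdet_pull (G.ex_mem (χ_M i a).1 u) hj fun c => G.fderiv_ex_tan (χ_M i a).1 _ _, mul_pow,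
    h.den_sq]
  exact G.jac_gram h (by simp) (χ_M i a) u
    (w := fun k => fderiv ℝ (μ.χ i) a (stdOrthonormalBasis ℝ (RF d) k)) fun k => P_χ i a _

end Pool.Agent.Work.MP_8c604c_gt.O
end
end

-- merged part: Pool.Agent.Work.MP_8c604c_gt.O.BKGAux
section
/-!
Adapted frames of the normal space and coordinates for the normal Jacobi fields.
-/

set_option maxSynthPendingDepth 3
set_option linter.unusedSectionVars false

open Set Filter Topology MeasureTheory
open scoped ContDiff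

noncomputable section
namespace Pool.Agent.Work.MP_8c604c_gt.O

open Model Real Sum
open H (JC omJ JSys)

theorem bkg_onb {V α ι : Type} [AddCommGroup V] [Module ℝ V] [FiniteDimensional ℝ V] [Fintype α]
    [Fintype ι] [DecidableEq α] [DecidableEq ι] (B : V →ₗ[ℝ] V →ₗ[ℝ] ℝ)
    (hs : ∀ u w, B u w = B w u) (hp : ∀ u, u ≠ 0 → 0 < B u u)
    (hc : Module.finrank ℝ V = Fintype.card α + Fintype.card ι) {f : α → V}
    (hf : ∀ a a', B (f a) (f a') = if a = a' then 1 else 0) :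
    ∃ b : ι → V, (∀ i j, B (b i) (b j) = if i = j then 1 else 0) ∧ (∀ a i, B (f a) (b i) = 0) ∧
      ∀ u, u = ∑ a, B (f a) u • f a + ∑ i, B (b i) u • b i := by
  let c : InnerProductSpace.Core ℝ V :=
    { inner := fun u w => B u w
      conj_inner_symm := fun u w => hs w u
      re_inner_nonneg := fun u => by
        by_cases h : u = 0
        · simp [h]
        · exact (hp u h).le
      add_left := fun u w y => by simp
      smul_left := fun u w r => by simp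
      definite := fun u h => by_contra fun h' => (hp u h').ne' h }
  let : NormedAddCommGroup V := c.toNormedAddCommGroup
  let : InnerProductSpace ℝ V := InnerProductSpace.ofCore c.toCore
  obtain ⟨b, hb⟩ := Orthonormal.exists_orthonormalBasis_extension_of_card_eq (𝕜 := ℝ)
    (hc.trans Fintype.card_sum.symm) (v := Sum.elim f 0) (s := range Sum.inl) (by
      rw [orthonormal_iff_ite]
      rintro ⟨_, a, rfl⟩ ⟨_, a', rfl⟩
      exact (hf a a').trans (by simp))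
  have h1 : ∀ a, b (Sum.inl a) = f a := fun a => hb _ ⟨a, rfl⟩
  have h2 : ∀ i j, B (b i) (b j) = if i = j then 1 else 0 := orthonormal_iff_ite.1 b.orthonormal
  refine ⟨fun i => b (Sum.inr i), fun i j => by simp [h2], fun a i => by simp [← h1, h2],
    fun u => ?_⟩
  have h3 := b.sum_repr' u
  rw [Fintype.sum_sum_type] at h3
  simp only [h1] at h3
  exact h3.symm

open Model

variable {E : Type} [NormedAddCommGroup E] [InnerProductSpace ℝ E] [FiniteDimensional ℝ E] {d : ℕ}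
  {μ : Model E d} {g : Met E} {κ ι : Type} [Fintype κ] [DecidableEq κ] [Fintype ι] [DecidableEq ι]

/-- Coordinates of the normal space and of the normal Jacobi fields at `x`. -/
structure BKGFr (μ : Model E d) (g : Met E) (x : E × E) (K : κ → E)
    (P : (κ ⊕ ι → ℝ) →L[ℝ] E) (L : JC κ ι →L[ℝ] E × E) : Prop where
  one : ∀ i, P (Pi.single (inl i) 1) = K i
  tan : ∀ a, μ.P x.1 (P a) = P a
  perp : ∀ a, g x.1 (P a) x.2 = 0
  gram : ∀ a a', g x.1 (P a) (P a') = a ⬝ᵥ a'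
  span : ∀ u, ∃ a, u - P a ∈ μ.Bs x
  fib : ∀ a, L (a, 0) = (0, spd g x • P a)
  fst : ∀ ξ, (L ξ).1 = P ξ.2
  om : ∀ ξ η, om g x (L ξ) (L η) = omJ ξ η

namespace IsMetric
variable (h : IsMetric μ g) {x : E × E}
include h

theorem bkg_vert (hx : x ∈ μ.TT) {r : E} (hu : g x.1 r x.2 = 0) (hr : r ∈ μ.Bs x) : μ.P x.1 r = 0 :=
  h.P_eq_zero hx.1.1 (h.g_Bs hx hu hr)

theorem bkg_fibre (hx : x ∈ μ.OO) {u : E} (hu : g x.1 u x.2 = 0) (δ : E × E) :
    om g x (0, spd g x • u) δ = g x.1 u δ.1 := by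
  rw [h.om_fibre hx, map_smul, map_smul, h.g_vel hx u, hu, mul_zero, smul_zero, zero_mul,
    sub_zero, smul_apply, smul_eq_mul, inv_mul_cancel_left₀ (h.spd_pos hx).ne']

theorem bkg_basis (hx : x ∈ μ.TT) (hc : Fintype.card κ + Fintype.card ι + 1 = d) {K : κ → E}
    (k1 : ∀ i, μ.P x.1 (K i) = K i) (k2 : ∀ i, g x.1 (K i) x.2 = 0)
    (k3 : ∀ i j, g x.1 (K i) (K j) = if i = j then 1 else 0) :
    ∃ e : κ ⊕ ι → E, (∀ i, e (inl i) = K i) ∧
      (∀ i, μ.P x.1 (e i) = e i) ∧ (∀ i, g x.1 (e i) x.2 = 0) ∧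
      (∀ i j, g x.1 (e i) (e j) = if i = j then 1 else 0) ∧
      ∀ u, ∃ a : κ ⊕ ι → ℝ, u - ∑ i, a i • e i ∈ μ.Bs x := by
  let N : Submodule ℝ E := LinearMap.range (nrm μ g x : E →ₗ[ℝ] E)
  have hN : ∀ u, u ∈ N ↔ μ.P x.1 u = u ∧ g x.1 u x.2 = 0 := fun u =>
    ⟨by rintro ⟨v, rfl⟩; exact ⟨P_nrm hx v, h.nrm_perp hx v⟩, fun e => ⟨u, h.nrm_of hx e.1 e.2⟩⟩
  have hd : Module.finrank ℝ N = Fintype.card κ + Fintype.card ι := by
    have h1 := LinearMap.finrank_range_add_finrank_ker (nrm μ g x : E →ₗ[ℝ] E)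
    have h2 : LinearMap.ker (nrm μ g x : E →ₗ[ℝ] E) = μ.Bs x := by
      ext u
      have h3 := sub_nrm_mem (g := g) hx.1 u
      refine ⟨fun e => ?_, fun e => h.Bs_zero hx ?_ (P_nrm hx u) (h.nrm_perp hx u)⟩
      · rwa [show nrm μ g x u = 0 from e, sub_zero] at h3
      · simpa using sub_mem e h3
    rw [h2] at h1
    have h3 := finrank_Bs hx
    change Module.finrank ℝ N + _ = _ at h1
    omega
  obtain ⟨b, b1, b2, b3⟩ := bkg_onb (ι := ι) ((g x.1).toLinearMap₁₂.domRestrict₁₂ N N)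
    (fun u w => h.symm _ _ _ hx.1.1) (fun u hu => (h.nonneg hx.1.1 _).lt_of_ne' fun e =>
      hu (Subtype.ext (h.eq_zero_of_tan hx.1.1 ((hN _).1 u.2).1 e))) hd
    (f := fun i => ⟨K i, (hN _).2 ⟨k1 i, k2 i⟩⟩) k3
  refine ⟨Sum.elim K fun i => b i, fun _ => rfl, Sum.forall.2 ⟨k1, fun i => ((hN _).1 (b i).2).1⟩,
    Sum.forall.2 ⟨k2, fun i => ((hN _).1 (b i).2).2⟩, ?_, fun u => ?_⟩
  · rintro (i | i) (j | j)
    · simpa using k3 i j
    · exact (b2 i j).trans (by simp)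
    · exact ((h.symm _ _ _ hx.1.1).trans (b2 j i)).trans (by simp)
    · exact (b1 i j).trans (by simp)
  · have h1 := congrArg Subtype.val (b3 ⟨nrm μ g x u, u, rfl⟩)
    simp only [Submodule.coe_add, Submodule.coe_sum, Submodule.coe_smul] at h1
    refine ⟨Sum.elim (fun i => g x.1 (K i) (nrm μ g x u)) fun i => g x.1 (b i) (nrm μ g x u), ?_⟩
    rw [Fintype.sum_sum_type]
    exact (congrArg (fun v => u - v ∈ μ.Bs x) h1).mp (sub_nrm_mem hx.1 u)

theorem bkg_frame (hx : x ∈ μ.TT) (hc : Fintype.card κ + Fintype.card ι + 1 = d) {K : κ → E}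
    (k1 : ∀ i, μ.P x.1 (K i) = K i) (k2 : ∀ i, g x.1 (K i) x.2 = 0)
    (k3 : ∀ i j, g x.1 (K i) (K j) = if i = j then 1 else 0) :
    ∃ (P : (κ ⊕ ι → ℝ) →L[ℝ] E) (L : JC κ ι →L[ℝ] E × E), BKGFr μ g x K P L := by
  obtain ⟨e, e0, e1, e2, e3, e4⟩ := h.bkg_basis hx hc k1 k2 k3
  obtain ⟨P, hP⟩ : ∃ P : (κ ⊕ ι → ℝ) →L[ℝ] E, ∀ a, P a = ∑ i, a i • e i :=
    ⟨∑ i, (ContinuousLinearMap.proj i).smulRight (e i), fun a => by simp⟩
  have p1 : ∀ a, g x.1 (P a) x.2 = 0 := fun a => by simp [hP, e2]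
  have p2 : ∀ a a', g x.1 (P a) (P a') = a ⬝ᵥ a' := fun a a' => by
    simp [hP, e3, dotProduct, mul_comm]
  obtain ⟨C, hC⟩ : ∃ C : (κ ⊕ ι → ℝ) →L[ℝ] κ ⊕ ι → ℝ,
      ∀ b b', C b ⬝ᵥ b' = -(1 / 2) * om g x (P b, 0) (P b', 0) := by
    obtain ⟨D, hD⟩ : ∃ D : E × E →L[ℝ] E × E →L[ℝ] ℝ, ∀ a b, D a b = om g x a b :=
      ⟨(fderiv ℝ (fun y : E × E => g y.1 (vel g y)) x).bilinearComp (ContinuousLinearMap.id ℝ _)
        (ContinuousLinearMap.fst ℝ _ _) - ((fderiv ℝ (fun y : E × E => g y.1 (vel g y)) x).bilinearComp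
          (ContinuousLinearMap.id ℝ _) (ContinuousLinearMap.fst ℝ _ _)).flip, fun _ _ => rfl⟩
    refine ⟨ContinuousLinearMap.pi fun k => (-(1 / 2) : ℝ) •
      (D.flip (ContinuousLinearMap.inl ℝ _ _ (e k))).comp ((ContinuousLinearMap.inl ℝ _ _).comp P),
      fun b b' => ?_⟩
    rw [← hD, hP b', ← ContinuousLinearMap.inl_apply (R := ℝ) (∑ i, b' i • e i), map_sum, map_sum,
      Finset.mul_sum]
    exact Finset.sum_congr rfl fun k _ => by
      rw [map_smul, map_smul, smul_eq_mul, mul_left_comm, mul_comm]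
      rfl
  obtain ⟨L, hL⟩ : ∃ L : JC κ ι →L[ℝ] E × E,
      ∀ ξ, L ξ = (P ξ.2, 0) + (0, spd g x • P (ξ.1 + C ξ.2)) :=
    ⟨(P.comp (ContinuousLinearMap.snd ℝ _ _)).prod (spd g x • P.comp (ContinuousLinearMap.fst ℝ _ _ +
      C.comp (ContinuousLinearMap.snd ℝ _ _))), fun ξ => by simp⟩
  refine ⟨P, L, fun i => by simp [hP, Pi.single_apply, e0], fun a => ?_, p1, p2,
    fun u => by simpa only [hP] using e4 u, fun a => by simp [hL], fun ξ => by simp [hL],
    fun ξ η => ?_⟩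
  · simp only [hP, map_sum, map_smul, e1]
  · rw [hL ξ, om_add, h.bkg_fibre (TT_OO hx) (p1 _), om_skew, hL η, om_add,
      h.bkg_fibre (TT_OO hx) (p1 _), Prod.fst_add, add_zero, p2, p2, add_dotProduct, add_dotProduct, hC, hC,
      omJ, om_skew x (P η.2, 0), dotProduct_comm η.1]
    ring

end IsMetric

end Pool.Agent.Work.MP_8c604c_gt.O
end
end

-- merged part: Pool.Agent.Work.MP_8c604c_gt.O.BKG
section
/-!
The inequality along one geodesic of a Blaschke metric.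
-/

set_option maxSynthPendingDepth 3
set_option linter.unusedSectionVars false

open Set Filter Topology MeasureTheory
open scoped ContDiff

noncomputable section
namespace Pool.Agent.Work.MP_8c604c_gt.O

open Real Sum
open H (JC omJ JSys)

open Model

variable {E : Type} [NormedAddCommGroup E] [InnerProductSpace ℝ E] [FiniteDimensional ℝ E] {d : ℕ}
  {μ : Model E d} {g : Met E}

namespace Geo
variable (G : Geo μ g) (h : IsMetric μ g) {x : E × E} (hx : x ∈ μ.OO)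
include h hx

theorem bkg_congr (t : ℝ) {δ δ' : E × E} (e : δ - δ' ∈ μ.Bdir x) : G.JJ t x δ = G.JJ t x δ' := by
  rw [← sub_eq_zero, ← map_sub, G.JJ_Bdir h t hx e]

omit h in
theorem bkg_zero (u : E) : G.JJ 0 x (0, u) = 0 := by rw [G.JJ_zero hx, map_zero]

end Geo

namespace Geo
variable (G : Geo μ g) (h : IsMetric μ g) {x : E × E} (hx : x ∈ μ.TT)
include h hx

theorem bkg_deriv {u : E} (hu : g x.1 u x.2 = 0) (w : E) :
    g x.1 (deriv (fun r => G.JJ r x (0, spd g x • u)) 0) w = g x.1 u w := by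
  have h1 := G.star h 0 (TT_OO hx) (G.bkg_zero (TT_OO hx) (spd g x • u)) (w, 0)
  rwa [G.JJ_zero (TT_OO hx), h.bkg_fibre (TT_OO hx) hu, G.Z_zero' hx, h.P_right hx.1,
    ← (G.hasDerivAt_JJ h 0 (TT_OO hx) _).deriv] at h1

theorem bkg_deriv2 {u w : E} (hu : g x.1 u x.2 = 0) (hw : g x.1 w x.2 = 0) :
    g x.1 (deriv (fun r => G.JJ r x (0, spd g x • u)) 0)
      (deriv (fun r => G.JJ r x (0, spd g x • w)) 0) = g x.1 u w := by
  rw [G.bkg_deriv h hx hu, h.symm _ _ _ hx.1.1, G.bkg_deriv h hx hw, h.symm _ _ _ hx.1.1]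

theorem bkg_descend {t : ℝ} {δ : E × E} (e : G.JJ t x δ = 0) :
    ∃ u, g (G.psi t x).1 u (G.psi t x).2 = 0 ∧
      ∀ r, G.JJ (r + t) x δ = G.JJ r (G.psi t x) (0, spd g (G.psi t x) • u) := by
  have hy := G.psi_TT h t (TT_OO hx)
  rw [← G.fst_fderiv_psi h t (TT_OO hx)] at e
  simp only [G.JJ_add h _ _ (TT_OO hx)]
  generalize fderiv ℝ (G.psi t) x δ = a at e ⊢
  generalize G.psi t x = y at hy ⊢
  refine ⟨(spd g y)⁻¹ • nrm μ g y a.2, by rw [map_smul, smul_apply, h.nrm_perp hy, smul_zero],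
    fun r => ?_⟩
  rw [smul_inv_smul₀ (h.spd_pos (TT_OO hy)).ne', G.JJ_nrm h hy, ← e]

end Geo

namespace BKGFr
variable {κ ι : Type} [Fintype κ] [DecidableEq κ] [Fintype ι] [DecidableEq ι] {x : E × E}
  {K : κ → E} {P : (κ ⊕ ι → ℝ) →L[ℝ] E} {L : JC κ ι →L[ℝ] E × E} (F : BKGFr μ g x K P L)
  (h : IsMetric μ g) (hx : x ∈ μ.TT)
include F h hx

theorem inj {ξ : JC κ ι} (e : L ξ ∈ μ.Bdir x) : ξ = 0 := by
  have h1 := h.om_Bdir (TT_OO hx) e (L (-ξ.2, ξ.1))
  rw [F.om, omJ, dotProduct_neg, sub_neg_eq_add] at h1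
  have h2 : ∀ a : κ ⊕ ι → ℝ, 0 ≤ a ⬝ᵥ a := fun a => Finset.sum_nonneg fun _ _ => mul_self_nonneg _
  exact Prod.ext (dotProduct_self_eq_zero.1 (by linarith [h2 ξ.1, h2 ξ.2]))
    (dotProduct_self_eq_zero.1 (by linarith [h2 ξ.1, h2 ξ.2]))

theorem normal {u : E} (hu : g x.1 u x.2 = 0) : ∃ a, μ.P x.1 u = P a := by
  obtain ⟨a, ha⟩ := F.span u
  have := h.bkg_vert hx (by rw [map_sub, sub_apply, hu, F.perp, sub_zero]) ha
  rw [map_sub, F.tan, sub_eq_zero] at this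
  exact ⟨a, this⟩

theorem surj {δ : E × E} (e : g x.1 δ.1 x.2 = 0) : ∃ ξ, δ - L ξ ∈ μ.Bdir x := by
  obtain ⟨b, hb⟩ := F.normal h hx e
  obtain ⟨a, ha⟩ := F.span (μ.DR x (δ - L (0, b))).2
  have h1 : (μ.DR x (δ - L (0, b))).1 = 0 := by
    rw [DR_fst hx.1.1, Prod.fst_sub, map_sub, F.fst, F.tan, hb, sub_self]
  refine ⟨((spd g x)⁻¹ • a, 0) + (0, b), ?_⟩
  have h2 := add_mem (sub_DR_mem (TT_TM hx) (δ - L (0, b))) ((fibre_mem_Bdir hx.1.1).2 ha)
  rw [map_add, F.fib, map_smul, smul_inv_smul₀ (h.spd_pos (TT_OO hx)).ne']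
  convert h2 using 1
  refine Prod.ext ?_ ?_
  · simp only [Prod.fst_sub, Prod.fst_add, h1, sub_zero, add_zero, zero_add]
  · simp only [Prod.snd_sub, Prod.snd_add]
    abel

theorem conj (G : Geo μ g) (t : ℝ) {K' : κ → E} (hk : G.IsK (G.psi t x) K') :
    ∃ ξ : κ → JC κ ι, LinearIndependent ℝ ξ ∧
      ∀ i, G.JJ t x (L (ξ i)) = 0 ∧ G.JJ (t + π / 2) x (L (ξ i)) = 0 := by
  have ho := TT_OO hx
  have hy' := G.psi_TT h t ho
  have hy := TT_OO hy'
  have h1 : G.psi (-t) (G.psi t x) = x := by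
    rw [← G.psi_add _ _ ho, neg_add_cancel, G.psi_zero' hx]
  have h5 : ∀ i, ∃ ξ, (0, spd g (G.psi t x) • K' i) - fderiv ℝ (G.psi t) x (L ξ) ∈
      μ.Bdir (G.psi t x) := fun i => by
    have h2 := G.al_psi h (-t) hy (0, spd g (G.psi t x) • K' i)
    have h3 := G.fderiv_psi_neg h (-t) hy (0, spd g (G.psi t x) • K' i)
    rw [neg_neg, h1, DR_fibre hy.1, map_smul, hk.tan] at h3
    rw [h1] at h2
    simp only [al, ContinuousLinearMap.comp_apply, ContinuousLinearMap.coe_fst', map_zero,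
      h.g_vel ho, mul_eq_zero, inv_eq_zero, (h.spd_pos ho).ne', false_or] at h2
    obtain ⟨ξ, h4⟩ := F.surj h hx h2
    have h5 := G.fderiv_psi_Bdir h t ho h4
    rw [map_sub, h3] at h5
    exact ⟨ξ, h5⟩
  choose ξ h5 using h5
  have h6 : ∀ i r, G.JJ (r + t) x (L (ξ i)) = G.JJ r (G.psi t x) (0, spd g (G.psi t x) • K' i) :=
    fun i r => by rw [G.JJ_add h _ _ ho, G.bkg_congr h hy r (h5 i)]
  refine ⟨ξ, Fintype.linearIndependent_iff.2 fun a ha j => ?_, fun i => ⟨?_, ?_⟩⟩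
  · have h7 := Submodule.sum_mem _ fun i (_ : i ∈ Finset.univ) => Submodule.smul_mem _ (a i) (h5 i)
    simp only [smul_sub, Finset.sum_sub_distrib, ← map_smul, ← map_sum, ha, map_zero,
      sub_zero] at h7
    have h8 : ∑ i, a i • (((0 : E), spd g (G.psi t x) • K' i) : E × E) =
        (0, spd g (G.psi t x) • ∑ i, a i • K' i) := by
      ext1
      · simp [Prod.fst_sum]
      · simp [Prod.snd_sum, Finset.smul_sum, smul_comm (a _)]
    have h9 := h.om_Bdir hy (h8 ▸ h7) (K' j, 0)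
    rw [h.bkg_fibre hy (by simp [hk.perp])] at h9
    simpa [hk.on] using h9
  · rw [← zero_add t, h6, G.bkg_zero hy]
  · rw [add_comm t, h6]
    exact ((G.mem_KS h hy').1 (Submodule.smul_mem _ _ (hk.mem h hy' i))).2.2

theorem sum_inl (a : κ → ℝ) : P (Sum.elim a 0) = ∑ i, a i • K i := by
  simp only [← F.one, ← map_smul, ← map_sum]
  congr 1
  ext (j | j) <;> simp [Pi.single_apply]

end BKGFr

namespace Bl
variable {G : Geo μ g} (B : Bl g G)
include B

theorem bkg_sys {κ ι : Type} [Fintype κ] [DecidableEq κ] [Fintype ι] [DecidableEq ι]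
    (hι : Fintype.card κ + Fintype.card ι + 1 = d) {x : E × E} (hx : x ∈ μ.TT) {K : κ → E}
    (hk : G.IsK x K) {P : (κ ⊕ ι → ℝ) →L[ℝ] E} {L : JC κ ι →L[ℝ] E × E} (F : BKGFr μ g x K P L) :
    ∃ A : JSys κ ι E, (∀ t, A.g t = g (G.Z t x)) ∧ (∀ t ξ, A.J t ξ = G.JJ t x (L ξ)) ∧
      ∀ τ ∈ Ioo 0 (π / 2), A.Link τ fun t => G.th (G.psi t x) τ := by
  have h := B.met
  have ho := TT_OO hx
  have hK : ∀ y ∈ μ.TT, ∃ K' : κ → E, G.IsK y K' := fun y hy =>
    G.exists_isK' h hy ((hk.card h hx).trans (B.kk_const hx hy))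
  have hz := fun t => G.Z_U t ho
  have c0 : ContDiff ℝ ∞ fun t : ℝ => (t, x) := contDiff_id.prodMk contDiff_const
  have c1 : ContDiff ℝ ∞ fun t => g (G.Z t x) :=
    h.smooth.comp_contDiff ((G.contDiffOn_Z h).comp_contDiff c0 fun _ => ho) hz
  have c2 : ContDiff ℝ ∞ fun t => (G.JJ t x).comp L :=
    ((G.contDiffOn_JJ h).comp_contDiff c0 fun _ => ho).clm_comp contDiff_const
  have c3 : Continuous fun t => G.psi t x :=
    ((G.contDiffOn_psi h).comp_contDiff c0 fun _ => ho).continuous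
  refine ⟨⟨fun t => g (G.Z t x), fun t => (G.JJ t x).comp L, c1.of_le (by simp), c2.of_le (by simp),
    fun t u w => h.symm _ u w (hz t), fun t => h.nonneg (hz t),
    fun t ξ e => h.eq_zero_of_tan (hz t) (G.JJ_tan h t ho _) e, fun t ξ η e => ?_,
    fun t => ?_, fun a => ?_, fun a a' => ?_,
    ⟨ContinuousLinearMap.id ℝ E, fun t => ⟨fun ξ => congrArg (fun T => T (L ξ)) (B.JJ_add_pi t ho),
      fun u w => by rw [B.Z_add_pi t ho]; rfl⟩⟩, fun t ht hne a e => ?_, fun a => ?_,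
    fun t _ => ?_⟩, fun _ => rfl, fun _ _ => rfl, fun τ hτ => ⟨?_, fun t _ => ?_, ?_⟩⟩
  · simp only [ContinuousLinearMap.comp_apply]
    rw [(G.hasDerivAt_JJ h t ho _).deriv, G.star h t ho (ξ := L ξ) e, F.om]
  · have hy := G.psi_TT h t ho
    obtain ⟨K', hk'⟩ := hK _ hy
    obtain ⟨P', L', F'⟩ := h.bkg_frame hy hι hk'.tan hk'.perp hk'.on
    refine le_trans (Submodule.finrank_mono ?_) ((LinearMap.finrank_range_le
      (P' : (κ ⊕ ι → ℝ) →ₗ[ℝ] E)).trans_eq (Module.finrank_fintype_fun_eq_card ℝ))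
    rintro _ ⟨ξ, rfl⟩
    have h1 := G.al_inv h t ho (L ξ)
    rw [al_apply, F.fst, h.g_vel ho, F.perp, mul_zero, Geo.Z, h.g_vel (TT_OO hy), mul_eq_zero,
      inv_eq_zero] at h1
    obtain ⟨a, e⟩ := F'.normal h hy (h1.resolve_left (h.spd_pos (TT_OO hy)).ne')
    exact ⟨a, e.symm.trans (G.JJ_tan h t ho _)⟩
  · rw [ContinuousLinearMap.comp_apply, F.fib, G.bkg_zero ho]
  · simp only [ContinuousLinearMap.comp_apply, F.fib]
    rw [G.Z_zero' hx, G.bkg_deriv2 h hx (F.perp a) (F.perp a'), F.gram]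
  · refine (Prod.ext_iff.1 (F.inj h hx (B.no_conj_pair ho (s := 0) (t := t) (by rwa [sub_zero])
      (by rwa [sub_zero]) ?_ e))).1
    rw [F.fib, G.bkg_zero ho]
  · rw [ContinuousLinearMap.comp_apply, F.fib, hk.ker]
    constructor
    · rintro ⟨c, e⟩ i
      have h1 := h.g_Bs hx (F.perp (Pi.single (inr i) 1)) e
      rw [← F.sum_inl h hx, map_sub, map_smul, F.gram, F.gram] at h1
      simpa [(h.spd_pos ho).ne'] using h1
    · intro e
      refine ⟨spd g x • (a ∘ inl), ?_⟩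
      rw [← F.sum_inl h hx, ← map_smul, ← map_sub, sub_eq_zero.2, map_zero]
      · exact Submodule.zero_mem _
      · ext (i | i) <;> simp [e]
  · obtain ⟨K', hk'⟩ := hK _ (G.psi_TT h t ho)
    exact F.conj h hx G t hk'
  · exact ((G.continuousOn_th h).comp_continuous (c3.prodMk continuous_const)
      fun t => G.psi_mem h t ho).continuousOn
  · have hy := G.psi_mem h t ho
    refine mul_pos (pow_pos hτ.1 _) (B.jac_pos (G.Z_mem t ho) ?_)
    change √(g (G.psi t x).1 _ _) < _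
    rw [map_smul, map_smul, smul_apply, h.vel_unit hy, smul_eq_mul, smul_eq_mul, mul_one,
      sqrt_mul_self hτ.1.le]
    exact hτ.2
  · intro t ξ _ e
    have hy := G.psi_TT h t ho
    choose u h3 h4 using fun i => G.bkg_descend h hx (δ := L (ξ i)) (e i)
    have h5 : ∀ i, deriv (fun s => G.JJ s x (L (ξ i))) t =
        deriv (fun r => G.JJ r (G.psi t x) (0, spd g (G.psi t x) • u i)) 0 := fun i => by
      rw [← funext (h4 i), deriv_comp_add_const (fun s => G.JJ s x (L (ξ i))), zero_add]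
    have h7 := G.th_link h hy hτ.1 (by simp; omega) u h3
    simp only [ContinuousLinearMap.comp_apply, h5, add_comm t τ, h4, ← G.Z_add τ t ho]
    simp only [← map_smul (G.JJ τ (G.psi t x)), Prod.smul_mk, smul_zero] at h7
    simp only [Geo.Z, G.bkg_deriv2 h hy (h3 _) (h3 _)] at h7 ⊢
    exact h7

theorem bkg_card {x : E × E} (hx : x ∈ μ.TT) :
    Fintype.card (Fin (G.kk x)) + Fintype.card (Fin (d - 1 - G.kk x)) + 1 = d := by
  have h1 : G.kdim x ≤ _ := Submodule.finrank_le _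
  have h2 := G.kdim_eq B.met hx
  simp only [Fintype.card_fin]
  omega

theorem bk_ineq {x : E × E} (hx : x ∈ μ.TT) {τ : ℝ} (hτ : τ ∈ Ioo 0 (π / 2)) :
    π * log (thk d (G.kk x) τ) ≤ ∫ t in (0 : ℝ)..π, log (G.th (G.psi t x) τ) := by
  obtain ⟨K, hk⟩ := G.exists_isK B.met hx
  obtain ⟨P, L, F⟩ := B.met.bkg_frame hx (B.bkg_card hx) hk.tan hk.perp hk.on
  obtain ⟨A, -, -, h3⟩ := B.bkg_sys (B.bkg_card hx) hx hk F
  have h4 := A.ineq hτ (h3 τ hτ)
  rwa [Fintype.card_fin, Fintype.card_fin] at h4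

theorem bk_eq {x : E × E} (hx : x ∈ μ.TT) {τ : ℝ} (hτ : τ ∈ Ioo 0 (π / 2))
    (e : π * log (thk d (G.kk x) τ) = ∫ t in (0 : ℝ)..π, log (G.th (G.psi t x) τ)) {u : E}
    (hu : g x.1 u x.2 = 0) :
    g (G.Z τ x) (spd g x • G.JJ τ x (0, u)) (spd g x • G.JJ τ x (0, u)) =
      sin τ ^ 2 * (g x.1 u u - g x.1 u (G.KP x u)) +
        (sin (2 * τ) / 2) ^ 2 * g x.1 u (G.KP x u) := by
  have h := B.met
  obtain ⟨K, hk⟩ := G.exists_isK h hx
  obtain ⟨P, L, F⟩ := h.bkg_frame hx (B.bkg_card hx) hk.tan hk.perp hk.on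
  obtain ⟨A, h1, h2, h3⟩ := B.bkg_sys (B.bkg_card hx) hx hk F
  obtain ⟨a, ha⟩ := F.normal h hx hu
  have h4 := A.eq_case hτ (h3 τ hτ) (by rwa [Fintype.card_fin, Fintype.card_fin]) a a
  have h5 : ∀ w, g x.1 u w = g x.1 (P a) w := fun w => by rw [← ha, h.P_left hx.1]
  have h6 : G.JJ τ x (0, u) = G.JJ τ x (0, P a) := by rw [← ha, G.JJ_P h τ hx]
  have h7 : ∀ i, g x.1 u (K i) = a (inl i) := fun i => by
    rw [h5, ← F.one, F.gram, dotProduct_single, mul_one]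
  have h8 : g x.1 u (G.KP x u) = ∑ i, a (inl i) * a (inl i) := by
    rw [hk.KP h hx, map_sum]
    exact Finset.sum_congr rfl fun i _ => by rw [map_smul, h.symm _ (K i) _ hx.1.1, h7, smul_eq_mul]
  rw [h1, h2, F.fib] at h4
  rw [h6, ← map_smul, Prod.smul_mk, smul_zero, h4, h8, h5, h.symm _ _ u hx.1.1, h5, F.gram,
    dotProduct, Fintype.sum_sum_type]
  ring

end Bl

end Pool.Agent.Work.MP_8c604c_gt.O
end
end
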