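import Pool.Agent.Work.MP_8c604c_gt.O.Defs

-- merged part: Pool.Agent.Work.MP_8c604c_gt.O.JacA
section
/-!
The unit speed flow; calculus lemmas for the Jacobi fields.
-/

set_option maxSynthPendingDepth 3
set_option linter.unusedSectionVars false

open Set Filter Topology MeasureTheory
open scoped ContDiff

noncomputable section
namespace Pool.Agent.Work.MP_8c604c_gt.O

open Model

section calculus
variable {X Y : Type} [NormedAddCommGroup X] [NormedSpace ℝ X] [NormedAddCommGroup Y]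
  [NormedSpace ℝ Y]

theorem jac_curve {f : X → Y} {x v : X} (hf : DifferentiableAt ℝ f x) {c : ℝ → X}
    (hc : HasDerivAt c v 0) (h0 : c 0 = x) : HasDerivAt (fun s => f (c s)) (fderiv ℝ f x v) 0 := by
  subst h0
  exact hf.hasFDerivAt.comp_hasDerivAt 0 hc

theorem jac_line (x v : X) : HasDerivAt (fun s : ℝ => x + s • v) v 0 := by
  simpa using ((hasDerivAt_id (0 : ℝ)).smul_const v).const_add x

theorem jac_snd {F : ℝ → X → Y} {t : ℝ} {x : X}
    (hF : DifferentiableAt ℝ (fun p : ℝ × X => F p.1 p.2) (t, x)) :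
    HasFDerivAt (F t) ((fderiv ℝ (fun p : ℝ × X => F p.1 p.2) (t, x)).comp
      (ContinuousLinearMap.inr ℝ ℝ X)) x :=
  hF.hasFDerivAt.comp x (hasFDerivAt_prodMk_right t x)

theorem jac_fst {F : ℝ → X → Y} {t : ℝ} {x : X}
    (hF : DifferentiableAt ℝ (fun p : ℝ × X => F p.1 p.2) (t, x)) :
    HasDerivAt (fun s => F s x) (fderiv ℝ (fun p : ℝ × X => F p.1 p.2) (t, x) (1, 0)) t :=
  HasFDerivAt.comp_hasDerivAt (f := fun s => (s, x)) t hF.hasFDerivAt
    ((hasDerivAt_id t).prodMk (hasDerivAt_const t x))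

theorem jac_total {F : ℝ → X → Y} {t : ℝ} {x : X}
    (hF : DifferentiableAt ℝ (fun p : ℝ × X => F p.1 p.2) (t, x)) {F' : Y}
    (h : HasDerivAt (fun s => F s x) F' t) (a : ℝ) (δ : X) :
    fderiv ℝ (fun p : ℝ × X => F p.1 p.2) (t, x) (a, δ) = a • F' + fderiv ℝ (F t) x δ := by
  rw [h.unique (jac_fst hF), (jac_snd hF).fderiv, ContinuousLinearMap.comp_apply, ← map_smul,
    ← map_add]
  simp

theorem jac_at {F : ℝ → X → Y} {U : Set X} (hU : IsOpen U)
    (hF : ContDiffOn ℝ ∞ (fun p : ℝ × X => F p.1 p.2) {p | p.2 ∈ U}) (t : ℝ) {x : X} (hx : x ∈ U) :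
    ContDiffAt ℝ ∞ (fun p : ℝ × X => F p.1 p.2) (t, x) :=
  hF.contDiffAt ((hU.preimage continuous_snd).mem_nhds hx)

theorem jac_swap {F : ℝ → X → Y} {U : Set X} (hU : IsOpen U)
    (hF : ContDiffOn ℝ ∞ (fun p : ℝ × X => F p.1 p.2) {p | p.2 ∈ U}) {t : ℝ} {x : X} (hx : x ∈ U)
    {F' : X → Y} (h : ∀ y ∈ U, HasDerivAt (fun s => F s y) (F' y) t) (δ : X) :
    HasDerivAt (fun s => fderiv ℝ (F s) x δ) (fderiv ℝ F' x δ) t := by
  have hd : ∀ s, ∀ y ∈ U, DifferentiableAt ℝ (fun p : ℝ × X => F p.1 p.2) (s, y) :=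
    fun s y hy => (jac_at hU hF s hy).differentiableAt (by simp)
  set f : ℝ × X → Y := fun p => F p.1 p.2 with hf
  have h2 : DifferentiableAt ℝ (fderiv ℝ f) (t, x) :=
    ((jac_at hU hF t hx).fderiv_right (m := 1) (by norm_cast)).differentiableAt (by simp)
  have e1 : (fun s => fderiv ℝ (F s) x δ) = fun s => fderiv ℝ f (s, x) (0, δ) := by
    funext s
    rw [(jac_snd (hd s x hx)).fderiv]
    rfl
  have e2 : F' =ᶠ[𝓝 x] fun y => fderiv ℝ f (t, y) (1, 0) := by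
    filter_upwards [hU.mem_nhds hx] with y hy
    exact (h y hy).unique (jac_fst (hd t y hy))
  have e3 := ((jac_snd (F := fun s y => fderiv ℝ f (s, y)) h2).clm_apply
    (hasFDerivAt_const ((1, 0) : ℝ × X) x)).fderiv
  have hs := ((jac_at hU hF t hx).isSymmSndFDerivAt (by simp; norm_cast)).eq (0, δ) (1, 0)
  rw [e1, e2.fderiv_eq, e3]
  have := (jac_fst (F := fun s y => fderiv ℝ f (s, y)) h2).clm_apply
    (hasDerivAt_const t ((0, δ) : ℝ × X))
  convert this using 1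
  simpa using hs

theorem jacA_fd {U : Set X} (hU : IsOpen U) (f : ℝ → X → Y)
    (hf : ContDiffOn ℝ ∞ (fun p : ℝ × X => f p.1 p.2) {p | p.2 ∈ U}) :
    ContDiffOn ℝ ∞ (fun p : ℝ × X => fderiv ℝ (f p.1) p.2) {p | p.2 ∈ U} := by
  intro p hp
  have h1 : ContDiffAt ℝ ∞ (Function.uncurry fun (p : ℝ × X) (y : X) => f p.1 y) (p, p.2) :=
    (jac_at hU hf p.1 hp).comp (p, p.2)
      (f := fun q : (ℝ × X) × X => ((q.1.1, q.2) : ℝ × X)) (by fun_prop)
  exact (h1.fderiv (m := ∞) contDiffAt_snd (by simp)).contDiffWithinAt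

end calculus

variable {E : Type} [NormedAddCommGroup E] [InnerProductSpace ℝ E] [FiniteDimensional ℝ E] {d : ℕ}
  {μ : Model E d} {g : Met E}

namespace Geo
variable (G : Geo μ g) (h : IsMetric μ g)

theorem φ_TM (t : ℝ) {x : E × E} (hx : x.1 ∈ μ.U) : G.φ t x ∈ μ.TM := ⟨G.mem t x hx, G.tan t x hx⟩

theorem φ_U (t : ℝ) {x : E × E} (hx : x.1 ∈ μ.U) : (G.φ t x).1 ∈ μ.U := (G.mem t x hx).1

theorem φ_R (t : ℝ) {x : E × E} (hx : x.1 ∈ μ.U) : G.φ t (μ.R x) = G.φ t x := by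
  rw [← G.zero x hx, ← G.add t 0 x hx, add_zero]

theorem ex_mem {q : E} (hq : q ∈ μ.U) (u : E) : G.ex q u ∈ μ.M := G.mem 1 (q, u) hq

theorem contDiffOn_ex : ContDiffOn ℝ ∞ (fun p : E × E => G.ex p.1 p.2) μ.UU :=
  (G.smooth.comp (f := fun p : E × E => ((1 : ℝ), p)) (by fun_prop) fun p hp => hp).fst

theorem contDiff_ex {q : E} (hq : q ∈ μ.U) : ContDiff ℝ ∞ (G.ex q) :=
  G.contDiffOn_ex.comp_contDiff (f := fun u : E => ((q, u) : E × E)) (by fun_prop) fun _ => hq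

theorem hasFDerivAt_ex {q : E} (hq : q ∈ μ.U) (u : E) :
    HasFDerivAt (G.ex q) (fderiv ℝ (G.ex q) u) u :=
  ((G.contDiff_ex hq).differentiable (by simp) u).hasFDerivAt

theorem ex_R {q : E} (hq : q ∈ μ.U) (u : E) : G.ex (μ.r q) (μ.P q u) = G.ex q u :=
  congrArg Prod.fst (G.φ_R 1 (x := (q, u)) hq)

theorem ex_P {q : E} (hq : q ∈ μ.M) (u : E) : G.ex q (μ.P q u) = G.ex q u := by
  have := G.ex_R hq.1 u
  rwa [hq.2] at this

theorem ex_congr {q u w : E} (hq : q ∈ μ.U) (e : μ.P q u = μ.P q w) : G.ex q u = G.ex q w := by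
  rw [← G.ex_R hq, e, G.ex_R hq]

theorem ex_zero {q : E} (hq : q ∈ μ.U) : G.ex q 0 = μ.r q := by
  have := congrArg Prod.fst (G.scale 0 1 (q, 0) hq)
  simpa [G.zero (q, 0) hq, ex, sc, R] using this

theorem ex_real_smul {q : E} (hq : q ∈ μ.U) (u : E) (t : ℝ) :
    G.ex q (t • u) = (G.φ t (q, u)).1 := by
  have := congrArg Prod.fst (G.scale t 1 (q, u) hq)
  simpa [ex, sc] using this

theorem hasFDerivAt_ex_zero {q : E} (hq : q ∈ μ.U) : HasFDerivAt (G.ex q) (μ.P q) 0 := by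
  have h1 := G.hasFDerivAt_ex hq 0
  have h2 : fderiv ℝ (G.ex q) 0 = μ.P q := by
    ext1 u
    have a1 : HasDerivAt (fun t : ℝ => t • u) u 0 := by
      simpa using (hasDerivAt_id (0 : ℝ)).smul_const u
    have a2 : HasDerivAt (fun t : ℝ => G.ex q (t • u)) (fderiv ℝ (G.ex q) 0 u) 0 :=
      HasFDerivAt.comp_hasDerivAt_of_eq (hl := h1) (hf := a1) (hy := by simp)
    have a3 := G.deriv_fst 0 (q, u) hq
    rw [G.zero (q, u) hq] at a3
    simp only [G.ex_real_smul hq] at a2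
    exact a2.unique a3
  exact h2 ▸ h1

theorem fderiv_ex_P {q : E} (hq : q ∈ μ.M) (u w : E) :
    fderiv ℝ (G.ex q) (μ.P q u) (μ.P q w) = fderiv ℝ (G.ex q) u w := by
  have h1 := (G.hasFDerivAt_ex hq.1 (μ.P q u)).comp u (μ.P q).hasFDerivAt
  rw [show G.ex q ∘ μ.P q = G.ex q from funext (G.ex_P hq)] at h1
  exact (congrArg (fun L => L w) h1.fderiv).symm

theorem fderiv_ex_kill {q w : E} (hq : q ∈ μ.M) (u : E) (hw : μ.P q w = 0) :
    fderiv ℝ (G.ex q) u w = 0 := by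
  rw [← G.fderiv_ex_P hq, hw, map_zero]

theorem fderiv_ex_tan {q : E} (hq : q ∈ μ.U) (u w : E) :
    μ.P (G.ex q u) (fderiv ℝ (G.ex q) u w) = fderiv ℝ (G.ex q) u w :=
  tan_of_map (G.hasFDerivAt_ex hq u) (Eventually.of_forall (G.ex_mem hq)) w

theorem psi_TM (t : ℝ) {x : E × E} (hx : x ∈ μ.OO) : G.psi t x ∈ μ.TM := G.φ_TM _ hx.1

theorem Z_mem (t : ℝ) {x : E × E} (hx : x ∈ μ.OO) : G.Z t x ∈ μ.M := G.mem _ x hx.1

theorem Z_U (t : ℝ) {x : E × E} (hx : x ∈ μ.OO) : G.Z t x ∈ μ.U := (G.Z_mem t hx).1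

theorem spd_psi (t : ℝ) {x : E × E} (hx : x ∈ μ.OO) : spd g (G.psi t x) = spd g x :=
  congrArg Real.sqrt (G.energy _ x hx.1)

theorem psi_zero {x : E × E} (hx : x ∈ μ.OO) : G.psi 0 x = μ.R x := by
  rw [psi, zero_div, G.zero x hx.1]

theorem psi_zero' {x : E × E} (hx : x ∈ μ.TT) : G.psi 0 x = x := by
  rw [G.psi_zero (TT_OO hx), R_of_TT hx]

theorem Z_zero {x : E × E} (hx : x ∈ μ.OO) : G.Z 0 x = μ.r x.1 := congrArg Prod.fst (G.psi_zero hx)

theorem Z_zero' {x : E × E} (hx : x ∈ μ.TT) : G.Z 0 x = x.1 := congrArg Prod.fst (G.psi_zero' hx)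

theorem psi_add (s t : ℝ) {x : E × E} (hx : x ∈ μ.OO) : G.psi (s + t) x = G.psi s (G.psi t x) := by
  rw [psi, psi, G.spd_psi t hx, add_div, G.add _ _ x hx.1, psi]

theorem Z_add (s t : ℝ) {x : E × E} (hx : x ∈ μ.OO) : G.Z s (G.psi t x) = G.Z (s + t) x := by
  rw [Z, Z, G.psi_add s t hx]

theorem psi_sc (t : ℝ) {m : ℝ} (hm : 0 < m) {x : E × E} (hx : x ∈ μ.OO) :
    G.psi t (sc m x) = sc m (G.psi t x) := by
  rw [psi, spd_sc hm.le, G.scale _ _ _ hx.1, psi, ← mul_div_assoc, mul_div_mul_left _ _ hm.ne']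

theorem Z_sc (t : ℝ) {m : ℝ} (hm : 0 < m) {x : E × E} (hx : x ∈ μ.OO) : G.Z t (sc m x) = G.Z t x := by
  rw [Z, G.psi_sc t hm hx]
  rfl

/-- Reversal. -/
theorem psi_neg (t : ℝ) {x : E × E} (hx : x ∈ μ.OO) :
    G.psi t (x.1, -x.2) = ((G.psi (-t) x).1, -(G.psi (-t) x).2) := by
  have e1 : spd g (x.1, -x.2) = spd g x := by simp [spd]
  have e2 := G.scale (-1) (t / spd g x) x hx.1
  simp only [sc, neg_smul, one_smul, neg_mul, one_mul] at e2
  rw [psi, e1, e2, psi, neg_div]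

include h

theorem psi_TT (t : ℝ) {x : E × E} (hx : x ∈ μ.OO) : G.psi t x ∈ μ.TT := by
  refine ⟨G.Z_mem t hx, (G.psi_TM t hx).2, fun hc => ?_⟩
  have h1 := G.spd_psi t hx
  rw [spd, hc, map_zero, Real.sqrt_zero] at h1
  exact (h.spd_pos hx).ne h1

theorem psi_mem (t : ℝ) {x : E × E} (hx : x ∈ μ.OO) : G.psi t x ∈ μ.OO := TT_OO (G.psi_TT h t hx)

theorem psi_R (t : ℝ) {x : E × E} (hx : x ∈ μ.OO) : G.psi t (μ.R x) = G.psi t x := by
  rw [psi, h.spd_R hx.1, G.φ_R _ hx.1, psi]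

theorem Z_R (t : ℝ) {x : E × E} (hx : x ∈ μ.OO) : G.Z t (μ.R x) = G.Z t x :=
  congrArg Prod.fst (G.psi_R h t hx)

/-- Only the foot point and the unit velocity matter. -/
theorem Z_vel (t : ℝ) {x : E × E} (hx : x ∈ μ.OO) : G.Z t (x.1, vel g x) = G.Z t x :=
  G.Z_sc t (inv_pos.2 (h.spd_pos hx)) hx

theorem ex_vel (t : ℝ) {x : E × E} (hx : x ∈ μ.OO) : G.ex x.1 (t • vel g x) = G.Z t x := by
  have h1 := (h.unit_mem hx.1 (h.vel_unit hx)).2.1
  rw [G.ex_real_smul hx.1, ← G.Z_vel h t hx, Z, psi, h1, div_one]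

theorem ex_eq_Z {x : E × E} (hx : x ∈ μ.OO) : G.ex x.1 x.2 = G.Z (spd g x) x := by
  rw [Z, psi, div_self (h.spd_pos hx).ne']
  rfl

theorem contDiffOn_psi : ContDiffOn ℝ ∞ (fun p : ℝ × E × E => G.psi p.1 p.2) {p | p.2 ∈ μ.OO} := by
  refine G.smooth.comp (f := fun p : ℝ × E × E => (p.1 / spd g p.2, p.2)) ?_ fun p hp => hp.1
  refine ContDiffOn.prodMk (contDiffOn_fst.div ?_ fun p hp => (h.spd_pos hp).ne') contDiffOn_snd
  exact h.contDiffOn_spd.comp contDiffOn_snd fun p hp => hp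

theorem contDiffOn_Z : ContDiffOn ℝ ∞ (fun p : ℝ × E × E => G.Z p.1 p.2) {p | p.2 ∈ μ.OO} :=
  (G.contDiffOn_psi h).fst

theorem jacA_vel :
    ContDiffOn ℝ ∞ (fun p : ℝ × E × E => vel g (G.psi p.1 p.2)) {p | p.2 ∈ μ.OO} :=
  h.contDiffOn_vel.comp (G.contDiffOn_psi h) fun p hp => G.psi_mem h p.1 hp

theorem jacA_mom : ContDiffOn ℝ ∞
    (fun p : ℝ × E × E => g (G.Z p.1 p.2) (vel g (G.psi p.1 p.2))) {p | p.2 ∈ μ.OO} :=
  (h.smooth.comp (G.contDiffOn_Z h) fun p hp => G.Z_U p.1 hp).clm_apply (G.jacA_vel h)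

theorem contDiffOn_JJ : ContDiffOn ℝ ∞ (fun p : ℝ × E × E => G.JJ p.1 p.2) {p | p.2 ∈ μ.OO} :=
  jacA_fd isOpen_OO G.Z (G.contDiffOn_Z h)

theorem contDiffOn_JD : ContDiffOn ℝ ∞ (fun p : ℝ × E × E => G.JD p.1 p.2) {p | p.2 ∈ μ.OO} :=
  jacA_fd isOpen_OO (fun t y => vel g (G.psi t y)) (G.jacA_vel h)

theorem contDiffOn_PP : ContDiffOn ℝ ∞ (fun p : ℝ × E × E => G.PP p.1 p.2) {p | p.2 ∈ μ.OO} :=
  jacA_fd isOpen_OO (fun t y => g (G.Z t y) (vel g (G.psi t y))) (G.jacA_mom h)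

theorem hasDerivAt_Z (t : ℝ) {x : E × E} (hx : x ∈ μ.OO) :
    HasDerivAt (fun s => G.Z s x) (vel g (G.psi t x)) t := by
  have a1 := (G.deriv_fst (t / spd g x) x hx.1).scomp t ((hasDerivAt_id t).div_const (spd g x))
  rw [vel, G.spd_psi t hx, ← one_div]
  exact a1

theorem el_Z (t : ℝ) {x : E × E} (hx : x ∈ μ.OO) (η : E) :
    HasDerivAt (fun s => g (G.Z s x) (vel g (G.psi s x)) η)
      (1 / 2 * fderiv ℝ g (G.Z t x) η (vel g (G.psi t x)) (vel g (G.psi t x))) t := by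
  have a1 := ((G.el (t / spd g x) x η hx.1).comp t
    ((hasDerivAt_id t).div_const (spd g x))).const_mul (spd g x)⁻¹
  have e1 : (fun s => g (G.Z s x) (vel g (G.psi s x)) η) =
      fun s => (spd g x)⁻¹ * g (G.φ (s / spd g x) x).1 (G.φ (s / spd g x) x).2 η := by
    funext s
    rw [vel, G.spd_psi s hx, map_smul, smul_apply, smul_eq_mul]
    rfl
  rw [e1]
  refine a1.congr_deriv ?_
  rw [vel, G.spd_psi t hx]
  simp only [map_smul, smul_apply, smul_eq_mul, Z, psi]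
  ring

/-- First variation of the energy. -/
theorem first_var (t : ℝ) {x : E × E} (hx : x ∈ μ.OO) {η : ℝ → E} {η' : E}
    (hη : HasDerivAt η η' t) :
    HasDerivAt (fun s => g (G.Z s x) (vel g (G.psi s x)) (η s))
      (fderiv ℝ (Lg g) (G.Z t x, vel g (G.psi t x)) (η t, η')) t := by
  have h1 := jac_fst (F := fun s y => g (G.Z s y) (vel g (G.psi s y))) ((jac_at (F := fun s y => g (G.Z s y) (vel g (G.psi s y))) isOpen_OO
    (G.jacA_mom h) t hx).differentiableAt (by simp))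
  have h2 := h1.clm_apply (hasDerivAt_const t (η t))
  have h3 := h2.unique (G.el_Z h t hx (η t))
  refine (h1.clm_apply hη).congr_deriv ?_
  rw [h.fderiv_Lg (p := (G.Z t x, vel g (G.psi t x))) (G.Z_U t hx), ← h3]
  simp

theorem isUnitGeodesic_Z {x : E × E} (hx : x ∈ μ.OO) : IsUnitGeodesic μ g fun t => G.Z t x := by
  have hd : deriv (fun t => G.Z t x) = fun t => vel g (G.psi t x) :=
    funext fun t => (G.hasDerivAt_Z h t hx).deriv
  refine ⟨?_, fun t => G.Z_mem t hx, fun t η => ?_, fun t => ?_⟩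
  · exact (G.contDiffOn_Z h).comp_contDiff (f := fun s : ℝ => ((s, x) : ℝ × E × E)) (by fun_prop)
      fun _ => hx
  · rw [hd]
    exact G.el_Z h t hx η
  · rw [hd]
    exact h.vel_unit (G.psi_mem h t hx)

end Geo

namespace IsMetric
variable (h : IsMetric μ g)
include h

theorem jac_dvel {x : E × E} (hx : x ∈ μ.OO) : DifferentiableAt ℝ (vel g) x :=
  (h.contDiffOn_vel.contDiffAt (isOpen_OO.mem_nhds hx)).differentiableAt (by simp)

theorem jac_spd {x : E × E} (hx : x ∈ μ.OO) (u : E) :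
    HasDerivAt (fun s : ℝ => spd g (x.1, x.2 + s • u)) (g x.1 (vel g x) u) 0 := by
  have hp := h.spd_pos hx
  have h1 := ((g x.1).hasFDerivAt.comp_hasDerivAt 0 (jac_line x.2 u)).clm_apply (jac_line x.2 u)
  have h2 := h1.sqrt (by
    simp only [Function.comp_apply, zero_smul, add_zero]
    rw [← h.spd_sq hx.1]
    positivity)
  refine h2.congr_deriv ?_
  simp only [Function.comp_apply, zero_smul, add_zero]
  rw [h.symm _ u _ hx.1, vel, map_smul, smul_apply, smul_eq_mul]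
  change _ / (2 * spd g x) = _
  field_simp
  ring

theorem jac_vel {x : E × E} (hx : x ∈ μ.OO) (u : E) : fderiv ℝ (vel g) x (0, u) =
    (spd g x)⁻¹ • (u - g x.1 (vel g x) u • vel g x) := by
  have hp := h.spd_pos hx
  refine (jac_curve (h.jac_dvel hx) ((hasDerivAt_const 0 x.1).prodMk (jac_line x.2 u))
    (by simp)).unique ?_
  have h1 := ((h.jac_spd hx u).inv (by simpa using hp.ne')).smul (jac_line x.2 u)
  refine h1.congr_deriv ?_
  simp only [Pi.inv_apply, zero_smul, add_zero, Prod.mk.eta]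
  generalize g x.1 (vel g x) u = a
  rw [vel, smul_sub, smul_smul, smul_smul, sub_eq_add_neg, ← neg_smul]
  congr 2
  field_simp

theorem jac_DP {x : E × E} (hx : x ∈ μ.OO) (δ : E × E) (η : E) :
    fderiv ℝ (fun y : E × E => g y.1 (vel g y)) x δ η =
      fderiv ℝ g x.1 δ.1 (vel g x) η + g x.1 (fderiv ℝ (vel g) x δ) η := by
  have h1 := ((h.hasFDerivAt hx.1).comp x
    (hasFDerivAt_fst (𝕜 := ℝ) (p := x))).clm_apply (h.jac_dvel hx).hasFDerivAt
  rw [show (fun y : E × E => g y.1 (vel g y)) = fun y => (g ∘ Prod.fst) y (vel g y) from rfl,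
    h1.fderiv]
  simp [add_comm]

end IsMetric

namespace Geo
variable (G : Geo μ g) (h : IsMetric μ g)
include h

theorem jac_dpsi (t : ℝ) {x : E × E} (hx : x ∈ μ.OO) : DifferentiableAt ℝ (G.psi t) x :=
  (jac_snd ((jac_at isOpen_OO (G.contDiffOn_psi h) t hx).differentiableAt
    (by simp))).differentiableAt

theorem jac_dZ (t : ℝ) {x : E × E} (hx : x ∈ μ.OO) : DifferentiableAt ℝ (G.Z t) x :=
  (G.jac_dpsi h t hx).fst

theorem jac_dV (t : ℝ) {x : E × E} (hx : x ∈ μ.OO) :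
    DifferentiableAt ℝ (fun y => vel g (G.psi t y)) x :=
  (h.jac_dvel (G.psi_mem h t hx)).comp x (G.jac_dpsi h t hx)

theorem jac_dP (t : ℝ) {x : E × E} (hx : x ∈ μ.OO) :
    DifferentiableAt ℝ (fun y => g (G.Z t y) (vel g (G.psi t y))) x :=
  ((h.hasFDerivAt (G.Z_U t hx)).differentiableAt.comp x
    (G.jac_dZ h t hx)).clm_apply (G.jac_dV h t hx)

theorem jac_chain {Y : Type} [NormedAddCommGroup Y] [NormedSpace ℝ Y] (t : ℝ) {x : E × E}
    (hx : x ∈ μ.OO) {f f' : E × E → Y} (hf : DifferentiableAt ℝ f (G.psi t x))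
    (he : ∀ y ∈ μ.OO, f' y = f (G.psi t y)) (δ : E × E) :
    fderiv ℝ f' x δ = fderiv ℝ f (G.psi t x) (fderiv ℝ (G.psi t) x δ) := by
  have : f' =ᶠ[𝓝 x] f ∘ G.psi t := by
    filter_upwards [isOpen_OO.mem_nhds hx] with y hy using he y hy
  rw [this.fderiv_eq, fderiv_comp x hf (G.jac_dpsi h t hx)]
  rfl

omit h in
theorem jac_zero {Y : Type} [NormedAddCommGroup Y] [NormedSpace ℝ Y] {x : E × E}
    (hx : x ∈ μ.OO) {f : E × E → Y} (hf : DifferentiableAt ℝ f (μ.R x)) (δ : E × E) :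
    fderiv ℝ (fun y => f (G.psi 0 y)) x δ = fderiv ℝ f (μ.R x) (μ.DR x δ) := by
  have : (fun y => f (G.psi 0 y)) =ᶠ[𝓝 x] f ∘ μ.R := by
    filter_upwards [isOpen_OO.mem_nhds hx] with y hy
    rw [G.psi_zero hy, Function.comp_apply]
  rw [this.fderiv_eq, (hf.hasFDerivAt.comp x (hasFDerivAt_R hx.1)).fderiv]
  rfl

theorem jac_pair (t : ℝ) {x : E × E} (hx : x ∈ μ.OO) :
    HasFDerivAt (fun y => (G.Z t y, vel g (G.psi t y))) ((G.JJ t x).prod (G.JD t x)) x :=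
  (G.jac_dZ h t hx).hasFDerivAt.prodMk (G.jac_dV h t hx).hasFDerivAt

theorem jac_Lg (t : ℝ) {x : E × E} (hx : x ∈ μ.OO) :
    ContDiffAt ℝ ∞ (Lg g) (G.Z t x, vel g (G.psi t x)) :=
  h.contDiffOn_Lg.contDiffAt (μ.isOpen_UU.mem_nhds (G.Z_U t hx))

theorem jac_D2 (t : ℝ) {x : E × E} (hx : x ∈ μ.OO) (δ b : E × E) :
    fderiv ℝ (fun y => fderiv ℝ (Lg g) (G.Z t y, vel g (G.psi t y)) b) x δ =
      D2 g (G.Z t x, vel g (G.psi t x)) (G.JJ t x δ, G.JD t x δ) b := by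
  have h2 : DifferentiableAt ℝ (fderiv ℝ (Lg g)) (G.Z t x, vel g (G.psi t x)) :=
    ((G.jac_Lg h t hx).fderiv_right (m := 1) (by norm_cast)).differentiableAt (by simp)
  have h3 := (h2.hasFDerivAt.comp x (G.jac_pair h t hx)).clm_apply (hasFDerivAt_const b x)
  refine (congrArg (fun L => L δ) h3.fderiv).trans ?_
  simp [D2]

end Geo

end Pool.Agent.Work.MP_8c604c_gt.O
end
end

-- merged part: Pool.Agent.Work.MP_8c604c_gt.O.DistA
section
/-!
The Riemannian distance of the projections, as a pseudo-metric on `U`.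
-/

set_option maxSynthPendingDepth 3
set_option linter.unusedSectionVars false

open Set Filter Topology MeasureTheory
open scoped ContDiff

noncomputable section
namespace Pool.Agent.Work.MP_8c604c_gt.O

open Model

variable {E : Type} [NormedAddCommGroup E] [InnerProductSpace ℝ E] [FiniteDimensional ℝ E] {d : ℕ}
  {μ : Model E d} {g : Met E}

theorem len_nonneg (c : ℝ → E) : 0 ≤ len g c :=
  intervalIntegral.integral_nonneg zero_le_one fun _ _ => Real.sqrt_nonneg _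

theorem dd_nonneg (y y' : E) : 0 ≤ dd μ g y y' := by
  refine Real.sInf_nonneg ?_
  rintro l ⟨c, -, rfl⟩
  exact len_nonneg c

theorem dd_le_len {c : ℝ → E} {y y' : E} (hc : Joins μ c y y') : dd μ g y y' ≤ len g c := by
  refine csInf_le ⟨0, ?_⟩ ⟨c, hc, rfl⟩
  rintro l ⟨c, -, rfl⟩
  exact len_nonneg c

theorem Joins.congr {c : ℝ → E} {y y' z z' : E} (hc : Joins μ c y y') (e : μ.r y = μ.r z)
    (e' : μ.r y' = μ.r z') : Joins μ c z z' :=
  ⟨hc.smooth, hc.mem, hc.start.trans e, hc.stop.trans e'⟩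

theorem dd_congr {y y' z z' : E} (e : μ.r y = μ.r z) (e' : μ.r y' = μ.r z') :
    dd μ g y y' = dd μ g z z' := by
  unfold dd
  congr 1
  ext l
  exact exists_congr fun c => and_congr_left fun _ =>
    ⟨fun h => h.congr e e', fun h => h.congr e.symm e'.symm⟩

theorem dd_r_left {y : E} (hy : y ∈ μ.U) (y' : E) : dd μ g (μ.r y) y' = dd μ g y y' :=
  dd_congr (μ.idem y hy) rfl

theorem dd_r_right (y : E) {y' : E} (hy : y' ∈ μ.U) : dd μ g y (μ.r y') = dd μ g y y' :=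
  dd_congr rfl (μ.idem y' hy)

theorem dd_self {y : E} (hy : y ∈ μ.U) : dd μ g y y = 0 := by
  refine le_antisymm ?_ (dd_nonneg _ _)
  have h1 := dd_le_len (g := g) (c := fun _ => y) (y := y) (y' := y)
    ⟨contDiff_const, fun _ => hy, rfl, rfl⟩
  simpa [len] using h1

theorem Joins.symm {c : ℝ → E} {y y' : E} (hc : Joins μ c y y') : Joins μ (fun s => c (1 - s)) y' y :=
  ⟨hc.smooth.comp (contDiff_const.sub contDiff_id), fun s => hc.mem _, by simp [hc.stop],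
    by simp [hc.start]⟩

theorem len_symm (c : ℝ → E) : len g (fun s => c (1 - s)) = len g c := by
  have h4 := intervalIntegral.integral_comp_sub_left (a := 0) (b := 1)
    (fun t => √(g (c t) (deriv c t) (deriv c t))) 1
  rw [sub_self, sub_zero] at h4
  rw [len, len, ← h4]
  refine intervalIntegral.integral_congr fun s _ => ?_
  simp only [deriv_comp_const_sub, map_neg, neg_apply, neg_neg]

theorem dd_symm (y y' : E) : dd μ g y y' = dd μ g y' y := by
  unfold dd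
  congr 1
  ext l
  exact ⟨fun ⟨c, h, e⟩ => ⟨_, h.symm, e.trans (len_symm c).symm⟩,
    fun ⟨c, h, e⟩ => ⟨_, h.symm, e.trans (len_symm c).symm⟩⟩

theorem contDiff_r_comp {c : ℝ → E} {m : WithTop ℕ∞} (hm : m ≤ ∞) (hc : ContDiff ℝ m c)
    (h0 : ∀ s, c s ∈ μ.U) : ContDiff ℝ m (μ.r ∘ c) :=
  (μ.smooth.of_le hm).comp_contDiff hc h0

namespace IsMetric
variable (h : IsMetric μ g)
include h

theorem distA_cont {X : Type} [TopologicalSpace X] {S : Set X} {c u : X → E}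
    (hc : ContinuousOn c S) (hu : ContinuousOn u S) (h0 : ∀ t ∈ S, c t ∈ μ.U) :
    ContinuousOn (fun t => g (c t) (u t) (u t)) S :=
  ((h.smooth.continuousOn.comp hc h0).clm_apply hu).clm_apply hu

theorem len_r {c : ℝ → E} (hc : ContDiff ℝ 1 c) (h0 : ∀ s, c s ∈ μ.U) : len g (μ.r ∘ c) = len g c := by
  refine intervalIntegral.integral_congr fun s _ => ?_
  have h1 := ((hasFDerivAt_r (h0 s)).comp_hasDerivAt s
    (hc.differentiable one_ne_zero s).hasDerivAt).deriv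
  simp only [h1, Function.comp_apply, h.inv _ _ _ (h0 s)]

theorem distA_reparam {c c' : ℝ → E} {a b : ℝ} (hab : a ≤ b)
    (hc : ∀ t ∈ Icc a b, HasDerivAt c (c' t) t) (hc' : ContinuousOn c' (Icc a b))
    (h0 : ∀ t ∈ Icc a b, c t ∈ μ.U) :
    ∃ γ : ℝ → E, ContDiff ℝ 1 γ ∧ (∀ s, γ s ∈ μ.U) ∧ (∀ s ≤ 0, γ s = c a) ∧
      (∀ s, 1 ≤ s → γ s = c b) ∧ len g γ = ∫ t in a..b, √(g (c t) (c' t) (c' t)) := by
  set φ : ℝ → ℝ := fun s => a + (b - a) * Real.smoothTransition s with hφ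
  have hba : 0 ≤ b - a := sub_nonneg.2 hab
  have hm : ∀ s, φ s ∈ Icc a b := fun s => by
    have h1 := Real.smoothTransition.nonneg s
    have h2 := Real.smoothTransition.le_one s
    constructor
    · simp only [hφ]
      nlinarith
    · simp only [hφ]
      nlinarith
  have hd : ∀ s, HasDerivAt φ ((b - a) * wt s) s := fun s =>
    ((((Real.smoothTransition.contDiff (n := 1)).differentiable one_ne_zero) s).hasDerivAt.const_mul
      (b - a)).const_add a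
  have hφc : Continuous φ := continuous_iff_continuousAt.2 fun s => (hd s).continuousAt
  have hw : Continuous fun s => (b - a) * wt s := continuous_const.mul contDiff_wt.continuous
  have hγ : ∀ s, HasDerivAt (c ∘ φ) (((b - a) * wt s) • c' (φ s)) s := fun s =>
    (hc _ (hm s)).scomp s (hd s)
  have hγ' : deriv (c ∘ φ) = fun s => ((b - a) * wt s) • c' (φ s) := funext fun s => (hγ s).deriv
  have h1 : φ 0 = a := by simp [hφ]
  have h2 : φ 1 = b := by simp [hφ]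
  refine ⟨c ∘ φ, contDiff_one_iff_deriv.2 ⟨fun s => (hγ s).differentiableAt, ?_⟩,
    fun s => h0 _ (hm s), fun s hs => ?_, fun s hs => ?_, ?_⟩
  · rw [hγ']
    exact hw.smul (hc'.comp_continuous hφc hm)
  · simp [hφ, Real.smoothTransition.zero_of_nonpos hs]
  · simp [hφ, Real.smoothTransition.one_of_one_le hs]
  · have h3 : ContinuousOn (fun t => √(g (c t) (c' t) (c' t))) (Icc a b) :=
      (h.distA_cont (fun t ht => (hc t ht).continuousAt.continuousWithinAt) hc' h0).sqrt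
    have h4 := intervalIntegral.integral_comp_mul_deriv'' (a := 0) (b := 1) hφc.continuousOn
      (fun s _ => (hd s).hasDerivWithinAt) hw.continuousOn
      (h3.mono (by rintro _ ⟨s, -, rfl⟩; exact hm s))
    rw [h1, h2] at h4
    rw [← h4, len, hγ']
    refine intervalIntegral.integral_congr fun s _ => ?_
    have h5 : 0 ≤ (b - a) * wt s := mul_nonneg hba (wt_nonneg s)
    simp only [Function.comp, map_smul, smul_apply, smul_eq_mul]
    rw [← mul_assoc, Real.sqrt_mul (mul_self_nonneg _), Real.sqrt_mul_self h5, mul_comm]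

theorem dd_le_curve {c c' : ℝ → E} {a b : ℝ} (hab : a ≤ b)
    (hc : ∀ t ∈ Icc a b, HasDerivAt c (c' t) t) (hc' : ContinuousOn c' (Icc a b))
    (h0 : ∀ t ∈ Icc a b, c t ∈ μ.U) :
    dd μ g (c a) (c b) ≤ ∫ t in a..b, √(g (c t) (c' t) (c' t)) := by
  obtain ⟨γ, h1, h2, h3, h4, h5⟩ := h.distA_reparam hab hc hc' h0
  rw [← h5]
  exact dd_le_len ⟨h1, h2, by rw [h3 0 le_rfl], by rw [h4 1 le_rfl]⟩

theorem distA_flat {c : ℝ → E} (hc : ContDiff ℝ 1 c) (h0 : ∀ s, c s ∈ μ.U) :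
    ∃ γ : ℝ → E, ContDiff ℝ 1 γ ∧ (∀ s, γ s ∈ μ.U) ∧ (∀ s ≤ 0, γ s = c 0) ∧
      (∀ s, 1 ≤ s → γ s = c 1) ∧ len g γ = len g c :=
  h.distA_reparam zero_le_one (fun t _ => (hc.differentiable one_ne_zero t).hasDerivAt)
    (hc.continuous_deriv le_rfl).continuousOn fun t _ => h0 t

theorem distA_concat {c₁ c₂ : ℝ → E} {y y' y'' : E} (j₁ : Joins μ c₁ y y') (j₂ : Joins μ c₂ y' y'') :
    ∃ c, Joins μ c y y'' ∧ len g c = len g c₁ + len g c₂ := by
  obtain ⟨γ₁, a1, a2, a3, a4, a5⟩ := h.distA_flat (contDiff_r_comp (by simp) j₁.smooth j₁.mem)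
    fun s => μ.maps _ (j₁.mem s)
  obtain ⟨γ₂, b1, b2, b3, b4, b5⟩ := h.distA_flat (contDiff_r_comp (by simp) j₂.smooth j₂.mem)
    fun s => μ.maps _ (j₂.mem s)
  rw [h.len_r j₁.smooth j₁.mem] at a5
  rw [h.len_r j₂.smooth j₂.mem] at b5
  simp only [Function.comp_apply, j₁.stop, j₂.start] at a3 a4 b3 b4
  set c : ℝ → E := fun t => γ₁ t + γ₂ (t - 1) - μ.r y' with hd
  have d1 : ContDiff ℝ 1 c := (a1.add (b1.comp (contDiff_id.sub contDiff_const))).sub contDiff_const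
  have d2 : ∀ t ≤ 1, c t = γ₁ t := fun t ht => by
    simp only [hd, b3 (t - 1) (by linarith), add_sub_cancel_right]
  have d3 : ∀ t, 1 ≤ t → c t = γ₂ (t - 1) := fun t ht => by
    simp only [hd, a4 t ht, add_sub_cancel_left]
  have d4 : ∀ t, c t ∈ μ.U := fun t => by
    rcases le_total t 1 with k | k
    · rw [d2 t k]
      exact a2 _
    · rw [d3 t k]
      exact b2 _
  have d5 : Continuous fun t => √(g (c t) (deriv c t) (deriv c t)) :=
    (continuousOn_univ.1 (h.distA_cont d1.continuous.continuousOn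
      (d1.continuous_deriv le_rfl).continuousOn fun t _ => d4 t)).sqrt
  obtain ⟨γ, h1, h2, h3, h4, h5⟩ := h.distA_reparam (c := c) (c' := deriv c) (a := 0) (b := 2)
    zero_le_two (fun t _ => (d1.differentiable one_ne_zero t).hasDerivAt)
    (d1.continuous_deriv le_rfl).continuousOn fun t _ => d4 t
  refine ⟨γ, ⟨h1, h2, ?_, ?_⟩, ?_⟩
  · rw [h3 0 le_rfl, d2 0 zero_le_one, a3 0 le_rfl, μ.idem _ (j₁.mem 0), j₁.start]
  · rw [h4 1 le_rfl, d3 2 one_le_two, b4 _ (by norm_num), μ.idem _ (j₂.mem 1), j₂.stop]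
  have k2 : ∫ t in (0 : ℝ)..1, √(g (c t) (deriv c t) (deriv c t)) = len g γ₁ := by
    refine intervalIntegral.integral_congr_Ioo_of_le zero_le_one fun t ht => ?_
    have k : c =ᶠ[𝓝 t] γ₁ := (eventually_lt_nhds ht.2).mono fun s hs => d2 s hs.le
    simp only [k.deriv_eq, k.eq_of_nhds]
  have k3 : ∫ t in (1 : ℝ)..2, √(g (c t) (deriv c t) (deriv c t)) = len g γ₂ := by
    have k1 := intervalIntegral.integral_comp_sub_right (a := 1) (b := 2)
      (fun t => √(g (γ₂ t) (deriv γ₂ t) (deriv γ₂ t))) 1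
    rw [sub_self, show (2 : ℝ) - 1 = 1 by norm_num] at k1
    rw [len, ← k1]
    refine intervalIntegral.integral_congr_Ioo_of_le one_le_two fun t ht => ?_
    have k : c =ᶠ[𝓝 t] fun s => γ₂ (s - 1) := (eventually_gt_nhds ht.1).mono fun s hs => d3 s hs.le
    simp only [k.deriv_eq, k.eq_of_nhds, deriv_comp_sub_const]
  rw [h5, ← intervalIntegral.integral_add_adjacent_intervals (b := 1) (d5.intervalIntegrable _ _)
    (d5.intervalIntegrable _ _), k2, k3, a5, b5]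

theorem exists_joins {y y' : E} (hy : y ∈ μ.U) (hy' : y' ∈ μ.U) : ∃ c, Joins μ c y y' := by
  have k1 : ∀ i a b, ∃ c, Joins μ c (μ.χ i a) (μ.χ i b) := fun i a b =>
    ⟨fun s => μ.χ i (a + s • (b - a)), ((μ.χ_smooth i).of_le (by simp)).comp (by fun_prop),
      fun s => (χ_M i _).1, by simp, by simp⟩
  have k2 : ∀ z ∈ μ.U, ∃ c, Joins μ c z (μ.χ 0 0) := fun z hz => by
    obtain ⟨i, a, e⟩ := exists_chart (r_mem hz)
    obtain ⟨a', b, e'⟩ := μ.exists_overlap i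
    obtain ⟨c₁, j₁⟩ := k1 i a a'
    obtain ⟨c₂, j₂⟩ := k1 0 b 0
    obtain ⟨c, j, -⟩ := h.distA_concat j₁ (e' ▸ j₂)
    exact ⟨c, j.congr (by rw [e, μ.idem z hz]) rfl⟩
  obtain ⟨c₁, j₁⟩ := k2 y hy
  obtain ⟨c₂, j₂⟩ := k2 y' hy'
  obtain ⟨c, j, -⟩ := h.distA_concat j₁ j₂.symm
  exact ⟨c, j⟩

theorem exists_len_lt {y y' : E} (hy : y ∈ μ.U) (hy' : y' ∈ μ.U) {r : ℝ} (hr : dd μ g y y' < r) :
    ∃ c, Joins μ c y y' ∧ len g c < r := by
  obtain ⟨c, hc⟩ := h.exists_joins hy hy'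
  obtain ⟨l, ⟨c', h1, rfl⟩, h2⟩ := exists_lt_of_csInf_lt
    (s := {l | ∃ c, Joins μ c y y' ∧ l = len g c}) ⟨_, c, hc, rfl⟩ hr
  exact ⟨c', h1, h2⟩

theorem dd_triangle {y y' y'' : E} (hy : y ∈ μ.U) (hy' : y' ∈ μ.U) (hy'' : y'' ∈ μ.U) :
    dd μ g y y'' ≤ dd μ g y y' + dd μ g y' y'' := by
  refine le_of_forall_pos_le_add fun ε hε => ?_
  obtain ⟨c₁, j₁, k₁⟩ := h.exists_len_lt hy hy' (lt_add_of_pos_right (dd μ g y y') (half_pos hε))
  obtain ⟨c₂, j₂, k₂⟩ := h.exists_len_lt hy' hy'' (lt_add_of_pos_right (dd μ g y' y'') (half_pos hε))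
  obtain ⟨c, j, e⟩ := h.distA_concat j₁ j₂
  linarith [dd_le_len (g := g) j]

theorem distA_seg {z u : E} {M : ℝ}
    (H : ∀ s ∈ Icc (0 : ℝ) 1, z + s • u ∈ μ.U ∧ √(g (z + s • u) u u) ≤ M) :
    dd μ g z (z + u) ≤ M := by
  have h1 := h.dd_le_curve (c := fun s : ℝ => z + s • u) (c' := fun _ => u) zero_le_one
    (fun t _ => by simpa using ((hasDerivAt_id t).smul_const u).const_add z) continuousOn_const
    fun t ht => (H t ht).1
  simp only [zero_smul, add_zero, one_smul] at h1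
  refine h1.trans ?_
  have h2 : ContinuousOn (fun s : ℝ => √(g (z + s • u) u u)) (Icc 0 1) :=
    (h.distA_cont (c := fun s : ℝ => z + s • u) (u := fun _ => u) (by fun_prop) continuousOn_const
      fun t ht => (H t ht).1).sqrt
  have h3 := intervalIntegral.integral_mono_on (μ := volume) zero_le_one
    (h2.intervalIntegrable_of_Icc zero_le_one) intervalIntegrable_const fun s hs => (H s hs).2
  simpa using h3

theorem dd_local {y a b : E} (hy : y ∈ μ.U) {c₁ c₂ : ℝ → E} (h₁ : HasDerivAt c₁ a 0)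
    (h₂ : HasDerivAt c₂ b 0) (e₁ : c₁ 0 = y) (e₂ : c₂ 0 = y) {η : ℝ} (hη : 0 < η) :
    ∀ᶠ ε in 𝓝[>] (0 : ℝ), dd μ g (c₁ ε) (c₂ ε) ≤ ε * (√(g y (a - b) (a - b)) + η) := by
  have h1 : ContinuousAt (fun p : E × E => √(g p.1 p.2 p.2)) (y, b - a) :=
    ((h.distA_cont (S := μ.UU) continuousOn_fst continuousOn_snd
      fun _ k => k).continuousAt (μ.isOpen_UU.mem_nhds hy)).sqrt
  have h2 : g y (b - a) (b - a) = g y (a - b) (a - b) := by
    rw [← neg_sub a b]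
    simp only [map_neg, neg_apply, neg_neg]
  have h3 : ∀ᶠ p : E × E in 𝓝 (y, b - a),
      p.1 ∈ μ.U ∧ √(g p.1 p.2 p.2) ≤ √(g y (a - b) (a - b)) + η := by
    refine Eventually.and (μ.isOpen_UU.mem_nhds hy) (h1.eventually (ge_mem_nhds ?_))
    simp only [h2]
    linarith
  obtain ⟨δ, hδ, h4⟩ := Metric.eventually_nhds_iff_ball.1 h3
  have k1 : ∀ᶠ ε in 𝓝[>] (0 : ℝ), c₁ ε ∈ Metric.ball y δ :=
    (h₁.continuousAt.eventually (e₁ ▸ Metric.ball_mem_nhds _ hδ)).filter_mono nhdsWithin_le_nhds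
  have k2 : ∀ᶠ ε in 𝓝[>] (0 : ℝ), c₂ ε ∈ Metric.ball y δ :=
    (h₂.continuousAt.eventually (e₂ ▸ Metric.ball_mem_nhds _ hδ)).filter_mono nhdsWithin_le_nhds
  have k3 := (h₂.sub h₁).tendsto_slope_zero_right.eventually (Metric.ball_mem_nhds _ hδ)
  filter_upwards [k1, k2, k3, self_mem_nhdsWithin] with ε m1 m2 m3 (hε : 0 < ε)
  simp only [Pi.sub_apply, zero_add, e₁, e₂, sub_self, sub_zero] at m3
  have m4 := h.distA_seg (z := c₁ ε) (u := c₂ ε - c₁ ε)
    (M := ε * (√(g y (a - b) (a - b)) + η)) fun s hs => by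
      have m5 : c₁ ε + s • (c₂ ε - c₁ ε) ∈ Metric.ball y δ :=
        (convex_ball y δ).add_smul_sub_mem m1 m2 hs
      obtain ⟨m6, m7⟩ := h4 (c₁ ε + s • (c₂ ε - c₁ ε), ε⁻¹ • (c₂ ε - c₁ ε)) (by
        rw [← ball_prod_same]
        exact ⟨m5, m3⟩)
      refine ⟨m6, ?_⟩
      simp only [map_smul, smul_apply, smul_eq_mul] at m7
      rw [← mul_assoc, Real.sqrt_mul (mul_self_nonneg _), Real.sqrt_mul_self (inv_pos.2 hε).le,
        inv_mul_le_iff₀ hε] at m7
      exact m7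
  rwa [add_sub_cancel] at m4

/-- The distance is locally bounded by a multiple of the Euclidean one. -/
theorem dd_le_norm {y : E} (hy : y ∈ μ.U) : ∃ C δ : ℝ, 0 < C ∧ 0 < δ ∧ Metric.ball y δ ⊆ μ.U ∧
    ∀ z ∈ Metric.ball y δ, ∀ z' ∈ Metric.ball y δ, dd μ g z z' ≤ C * ‖z' - z‖ := by
  have h1 : ContinuousAt (fun z => ‖g z‖) y := (h.contDiffAt hy).continuousAt.norm
  have h3 : ∀ᶠ z in 𝓝 y, z ∈ μ.U ∧ ‖g z‖ ≤ ‖g y‖ + 1 :=
    Eventually.and (μ.isOpen.mem_nhds hy) (h1.eventually (ge_mem_nhds (lt_add_one _)))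
  obtain ⟨δ, hδ, h4⟩ := Metric.eventually_nhds_iff_ball.1 h3
  refine ⟨√(‖g y‖ + 1), δ, by positivity, hδ, fun z hz => (h4 z hz).1, fun z hz z' hz' => ?_⟩
  have m4 := h.distA_seg (z := z) (u := z' - z) (M := √(‖g y‖ + 1) * ‖z' - z‖) fun s hs => by
    obtain ⟨m6, m7⟩ := h4 _ ((convex_ball y δ).add_smul_sub_mem hz hz' hs)
    refine ⟨m6, ?_⟩
    rw [← Real.sqrt_sq (norm_nonneg (z' - z)), ← Real.sqrt_mul (by positivity)]
    refine Real.sqrt_le_sqrt ((le_abs_self _).trans ?_)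
    refine (((g _).le_opNorm₂ (z' - z) (z' - z))).trans ?_
    rw [mul_assoc, ← sq]
    exact mul_le_mul_of_nonneg_right m7 (by positivity)
  rwa [add_sub_cancel] at m4

theorem distA_tendsto {y : E} (hy : y ∈ μ.U) : Tendsto (dd μ g y) (𝓝 y) (𝓝 0) := by
  obtain ⟨C, δ, -, hδ, -, h4⟩ := h.dd_le_norm hy
  have h5 : Tendsto (fun z => C * ‖z - y‖) (𝓝 y) (𝓝 0) := by
    have : Continuous fun z => C * ‖z - y‖ := by fun_prop
    simpa using this.tendsto y
  refine squeeze_zero' (Eventually.of_forall fun _ => dd_nonneg _ _) ?_ h5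
  filter_upwards [Metric.ball_mem_nhds y hδ] with z hz using h4 y (Metric.mem_ball_self hδ) z hz

theorem continuousOn_dd :
    ContinuousOn (fun p : E × E => dd μ g p.1 p.2) {p | p.1 ∈ μ.U ∧ p.2 ∈ μ.U} := by
  rintro p ⟨hp1, hp2⟩
  have h1 : Tendsto (fun q : E × E => dd μ g p.1 q.1 + dd μ g p.2 q.2) (𝓝 p) (𝓝 0) := by
    simpa using ((h.distA_tendsto hp1).comp continuous_fst.continuousAt).add
      ((h.distA_tendsto hp2).comp continuous_snd.continuousAt)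
  rw [ContinuousWithinAt, tendsto_iff_dist_tendsto_zero]
  refine squeeze_zero' (Eventually.of_forall fun _ => dist_nonneg) ?_
    (h1.mono_left nhdsWithin_le_nhds)
  filter_upwards [self_mem_nhdsWithin] with q ⟨hq1, hq2⟩
  have k1 := h.dd_triangle hq1 hp1 hq2
  have k2 := h.dd_triangle hp1 hp2 hq2
  have k3 := h.dd_triangle hp1 hq1 hp2
  have k4 := h.dd_triangle hq1 hq2 hp2
  rw [dd_symm q.1 p.1] at k1
  rw [dd_symm q.2 p.2] at k4
  rw [Real.dist_eq, abs_le]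
  constructor <;> linarith

theorem isOpen_DD : IsOpen (DD μ g) := by
  have ho : IsOpen {p : E × E | p.1 ∈ μ.U ∧ p.2 ∈ μ.U} :=
    (μ.isOpen.preimage continuous_fst).inter (μ.isOpen.preimage continuous_snd)
  have h1 := h.continuousOn_dd.isOpen_inter_preimage ho (isOpen_Iio (a := Real.pi / 2))
  convert h1 using 1
  ext p
  simp only [DD, mem_setOf_eq, mem_inter_iff, mem_preimage, mem_Iio, and_assoc]

/-- Length is controlled by energy. -/
theorem len_le_energy {c c' : ℝ → E} {a b : ℝ} (hab : a ≤ b)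
    (hc : ContinuousOn c (Icc a b)) (hc' : ContinuousOn c' (Icc a b))
    (h0 : ∀ t ∈ Icc a b, c t ∈ μ.U) :
    (∫ t in a..b, √(g (c t) (c' t) (c' t))) ≤ (b - a) / 2 + ∫ t in a..b, Lg g (c t, c' t) := by
  have h1 := h.distA_cont hc hc' h0
  have h2 : IntervalIntegrable (fun t => Lg g (c t, c' t)) volume a b :=
    (continuousOn_const.mul h1).intervalIntegrable_of_Icc hab
  have h3 := intervalIntegral.integral_mono_on (μ := volume) hab
    (h1.sqrt.intervalIntegrable_of_Icc hab)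
    ((intervalIntegrable_const (c := (1 / 2 : ℝ))).add h2) fun t ht => by
      have k1 := Real.sq_sqrt (h.nonneg (h0 t ht) (c' t))
      simp only [Lg]
      nlinarith [sq_nonneg (√(g (c t) (c' t) (c' t)) - 1)]
  rw [intervalIntegral.integral_add intervalIntegrable_const h2] at h3
  simp only [intervalIntegral.integral_const, smul_eq_mul] at h3
  linarith

theorem dd_φ_le (G : Geo μ g) {x : E × E} (hx : x.1 ∈ μ.U) (s t : ℝ) :
    dd μ g (G.φ s x).1 (G.φ t x).1 ≤ |t - s| * spd g x := by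
  have h1 : Continuous fun t => G.φ t x :=
    G.smooth.continuousOn.comp_continuous (f := fun t : ℝ => (t, x)) (by fun_prop) fun _ => hx
  have key : ∀ s t, s ≤ t → dd μ g (G.φ s x).1 (G.φ t x).1 ≤ (t - s) * spd g x := by
    intro s t hst
    refine (h.dd_le_curve hst (fun r _ => G.deriv_fst r x hx) h1.snd.continuousOn
      fun r _ => G.φ_U r hx).trans_eq ?_
    simp only [G.energy _ x hx, intervalIntegral.integral_const, smul_eq_mul, spd]
  rcases le_total s t with k | k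
  · rw [abs_of_nonneg (sub_nonneg.2 k)]
    exact key s t k
  · rw [abs_sub_comm, abs_of_nonneg (sub_nonneg.2 k), dd_symm]
    exact key t s k

theorem dd_Z_le (G : Geo μ g) {x : E × E} (hx : x ∈ μ.OO) (s t : ℝ) :
    dd μ g (G.Z s x) (G.Z t x) ≤ |t - s| := by
  have h1 := h.dd_φ_le G hx.1 (s / spd g x) (t / spd g x)
  have h2 := h.spd_pos hx
  rwa [← sub_div, abs_div, abs_of_pos h2, div_mul_cancel₀ _ h2.ne'] at h1

/-- A corner can be cut. -/
theorem corner (G : Geo μ g) {x x' : E × E} (hx : x ∈ μ.TT) (hx' : x' ∈ μ.TT) (e : x'.1 = x.1)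
    (hv : vel g x' ≠ vel g x) {r r' : ℝ} (hr : 0 < r) (hr' : 0 < r') :
    dd μ g (G.Z (-r) x) (G.Z r' x') < r + r' := by
  have ho := TT_OO hx
  have ho' := TT_OO hx'
  have h1 : HasDerivAt (fun ε => G.Z (-ε) x) (-vel g x) 0 := by
    have k := G.hasDerivAt_Z h (-0) ho
    have k2 := k.scomp (0 : ℝ) (hasDerivAt_neg (0 : ℝ))
    rw [neg_zero, G.psi_zero' hx, neg_one_smul] at k2
    exact k2
  have h2 : HasDerivAt (fun ε => G.Z ε x') (vel g x') 0 := by
    have k := G.hasDerivAt_Z h 0 ho'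
    rwa [G.psi_zero' hx'] at k
  have h3 : g x.1 (vel g x) (vel g x) = 1 := h.vel_unit ho
  have h4 : g x.1 (vel g x') (vel g x') = 1 := e ▸ h.vel_unit ho'
  have h5 : 0 < g x.1 (vel g x - vel g x') (vel g x - vel g x') := by
    refine h.pos _ _ ho.1 fun k => hv ?_
    rw [map_sub, P_vel hx, ← e, P_vel hx', sub_eq_zero] at k
    exact k.symm
  have h6 : √(g x.1 (-vel g x - vel g x') (-vel g x - vel g x')) < 2 := by
    rw [Real.sqrt_lt' two_pos]
    simp only [map_sub, map_neg, sub_apply, neg_apply, h3, h4] at h5 ⊢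
    linarith
  set q := √(g x.1 (-vel g x - vel g x') (-vel g x - vel g x')) with hq
  have h7 := h.dd_local ho.1 h1 h2 (by simp only [neg_zero, G.Z_zero' hx])
    (by simp only [G.Z_zero' hx', e]) (η := (2 - q) / 2) (by linarith)
  obtain ⟨ε, k1, k2, k3⟩ := (h7.and (Ioo_mem_nhdsGT (lt_min hr hr'))).exists
  have k4 := h.dd_Z_le G ho (-r) (-ε)
  have k5 := h.dd_Z_le G ho' ε r'
  have k6 := h.dd_triangle (G.Z_U (-r) ho) (G.Z_U (-ε) ho) (G.Z_U r' ho')
  have k7 := h.dd_triangle (G.Z_U (-ε) ho) (G.Z_U ε ho') (G.Z_U r' ho')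
  rw [abs_of_nonneg (by linarith [min_le_left r r'])] at k4
  rw [abs_of_nonneg (by linarith [min_le_right r r'])] at k5
  rw [← hq] at k1
  nlinarith

end IsMetric

/-- `E` with the pseudo-metric `dd`. -/
def Mg (_h : IsMetric μ g) : Type := E

/-- Replace points outside `U` by a fixed point. -/
def fixz (μ : Model E d) (y : E) : E := by
  classical exact if y ∈ μ.U then y else μ.χ 0 0

theorem fixz_mem (y : E) : fixz μ y ∈ μ.U := by
  unfold fixz
  split_ifs with h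
  · exact h
  · exact (χ_M 0 0).1

theorem fixz_of_mem {y : E} (hy : y ∈ μ.U) : fixz μ y = y := by
  unfold fixz
  exact if_pos hy

instance (h : IsMetric μ g) : PseudoMetricSpace (Mg h) where
  dist a b := dd μ g (fixz μ a) (fixz μ b)
  dist_self a := dd_self (fixz_mem (μ := μ) a)
  dist_comm _ _ := dd_symm _ _
  dist_triangle a b c := h.dd_triangle (fixz_mem (μ := μ) a) (fixz_mem (μ := μ) b) (fixz_mem (μ := μ) c)

/-- The identity map to the pseudo-metric space. -/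
def toM (h : IsMetric μ g) (y : E) : Mg h := y

theorem dist_toM (h : IsMetric μ g) {y y' : E} (hy : y ∈ μ.U) (hy' : y' ∈ μ.U) :
    dist (toM h y) (toM h y') = dd μ g y y' := by
  show dd μ g (fixz μ y) (fixz μ y') = _
  rw [fixz_of_mem hy, fixz_of_mem hy']

end Pool.Agent.Work.MP_8c604c_gt.O
end
end

-- merged part: Pool.Agent.Work.MP_8c604c_gt.O.Jac
section
/-!
Jacobi fields, the contact form and its derivative along the flow.
-/

set_option maxSynthPendingDepth 3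
set_option linter.unusedSectionVars false

open Set Filter Topology MeasureTheory
open scoped ContDiff

noncomputable section
namespace Pool.Agent.Work.MP_8c604c_gt.O

open Model

variable {E : Type} [NormedAddCommGroup E] [InnerProductSpace ℝ E] [FiniteDimensional ℝ E] {d : ℕ}
  {μ : Model E d} {g : Met E}

theorem om_sub (x a b δ : E × E) : om g x (a - b) δ = om g x a δ - om g x b δ := by
  simp only [om, map_sub, Prod.fst_sub, sub_apply]
  ring

theorem om_add (x a b δ : E × E) : om g x (a + b) δ = om g x a δ + om g x b δ := by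
  simp only [om, map_add, Prod.fst_add, add_apply]
  ring

theorem om_smul (x : E × E) (r : ℝ) (a δ : E × E) : om g x (r • a) δ = r * om g x a δ := by
  simp only [om, map_smul, Prod.smul_fst, smul_apply, smul_eq_mul]
  ring

theorem om_skew (x a b : E × E) : om g x a b = -om g x b a := by
  simp only [om]
  ring

theorem al_apply (x δ : E × E) : al g x δ = g x.1 (vel g x) δ.1 := rfl

theorem hasFDerivAt_sc (m : ℝ) (x : E × E) : HasFDerivAt (sc m : E × E → E × E)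
    ((ContinuousLinearMap.fst ℝ E E).prod (m • ContinuousLinearMap.snd ℝ E E)) x :=
  hasFDerivAt_fst.prodMk (hasFDerivAt_snd.const_smul m)

namespace IsMetric
variable (h : IsMetric μ g)
include h

theorem jac_dA {x : E × E} (hx : x ∈ μ.OO) :
    DifferentiableAt ℝ (fun y : E × E => g y.1 (vel g y)) x :=
  ((h.hasFDerivAt hx.1).differentiableAt.comp x differentiableAt_fst).clm_apply (h.jac_dvel hx)

theorem om_R {x : E × E} (hx : x ∈ μ.OO) (δ₁ δ₂ : E × E) :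
    om g (μ.R x) (μ.DR x δ₁) (μ.DR x δ₂) = om g x δ₁ δ₂ := by
  have key : ∀ (δ : E × E) (η : E), fderiv ℝ (fun y : E × E => g y.1 (vel g y)) x δ η =
      fderiv ℝ (fun y : E × E => g y.1 (vel g y)) (μ.R x) (μ.DR x δ) (μ.P x.1 η) +
        g (μ.R x).1 (vel g (μ.R x)) (fderiv ℝ μ.P x.1 δ.1 η) := fun δ η => by
    have h1 := (h.jac_dA hx).hasFDerivAt.clm_apply (hasFDerivAt_const η x)
    have h2 := ((h.jac_dA (TT_OO (R_mem_TT hx))).hasFDerivAt.comp x (hasFDerivAt_R hx.1)).clm_apply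
      (((hasFDerivAt_P hx.1).comp x hasFDerivAt_fst).clm_apply (hasFDerivAt_const η x))
    have h3 := congrArg (fun L => L δ) (h1.unique (h2.congr_of_eventuallyEq (by
      filter_upwards [isOpen_OO.mem_nhds hx] with y hy
      simp only [Function.comp_apply, h.vel_R hy.1]
      exact (h.inv _ _ _ hy.1).symm)))
    simpa [add_comm] using h3
  rw [om, om, key, key, DR_fst hx.1, DR_fst hx.1, fderiv_P_symm hx.1 δ₁.1]
  ring

theorem om_fibre {x : E × E} (hx : x ∈ μ.OO) (u : E) (δ : E × E) : om g x (0, u) δ =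
    (spd g x)⁻¹ * (g x.1 u δ.1 - g x.1 (vel g x) u * g x.1 (vel g x) δ.1) := by
  rw [om, h.jac_DP hx, h.jac_vel hx]
  simp

theorem om_Bdir {x : E × E} (hx : x ∈ μ.OO) {v : E × E} (hv : v ∈ μ.Bdir x) (δ : E × E) :
    om g x v δ = 0 := by
  obtain ⟨a, ha⟩ := mem_Bdir.1 hv
  have hy := TT_OO (R_mem_TT hx)
  rw [← h.om_R hx, ha, h.om_fibre hy, show μ.P x.1 x.2 = (μ.R x).2 from rfl, h.snd_eq hy]
  simp only [map_smul, smul_apply, smul_eq_mul, h.vel_unit hy]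
  ring

theorem al_Bdir {x : E × E} (hx : x ∈ μ.OO) {v : E × E} (hv : v ∈ μ.Bdir x) : al g x v = 0 := by
  obtain ⟨a, ha⟩ := mem_Bdir.1 hv
  rw [← h.al_R hx.1, ha, al_apply, map_zero]

end IsMetric

namespace Geo
variable (G : Geo μ g) (h : IsMetric μ g)

theorem JJ_zero {x : E × E} (hx : x ∈ μ.OO) (δ : E × E) : G.JJ 0 x δ = μ.P x.1 δ.1 := by
  have := G.jac_zero hx (f := Prod.fst) differentiableAt_fst δ
  rw [fderiv_fst] at this
  exact this.trans (DR_fst hx.1 δ)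

include h

theorem jac_PP_zero {x : E × E} (hx : x ∈ μ.OO) (δ : E × E) :
    G.PP 0 x δ = fderiv ℝ (fun y : E × E => g y.1 (vel g y)) (μ.R x) (μ.DR x δ) :=
  G.jac_zero hx (h.jac_dA (TT_OO (R_mem_TT hx))) δ

theorem JJ_tan (t : ℝ) {x : E × E} (hx : x ∈ μ.OO) (δ : E × E) :
    μ.P (G.Z t x) (G.JJ t x δ) = G.JJ t x δ :=
  tan_of_map (G.jac_dZ h t hx).hasFDerivAt
    (eventually_of_mem (isOpen_OO.mem_nhds hx) fun _ hy => G.Z_mem t hy) δ

theorem hasDerivAt_JJ (t : ℝ) {x : E × E} (hx : x ∈ μ.OO) (δ : E × E) :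
    HasDerivAt (fun s => G.JJ s x δ) (G.JD t x δ) t :=
  jac_swap isOpen_OO (G.contDiffOn_Z h) hx (fun y hy => G.hasDerivAt_Z h t hy) δ

theorem PP_apply (t : ℝ) {x : E × E} (hx : x ∈ μ.OO) (δ : E × E) (η : E) :
    G.PP t x δ η = fderiv ℝ g (G.Z t x) (G.JJ t x δ) (vel g (G.psi t x)) η +
      g (G.Z t x) (G.JD t x δ) η := by
  have h1 := ((h.hasFDerivAt (G.Z_U t hx)).comp x
    (G.jac_dZ h t hx).hasFDerivAt).clm_apply (G.jac_dV h t hx).hasFDerivAt
  refine (congrArg (fun L => L δ η) h1.fderiv).trans ?_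
  simp [JJ, JD, add_comm]

/-- The Jacobi equation in weak form. -/
theorem var (t : ℝ) {x : E × E} (hx : x ∈ μ.OO) (δ : E × E) {η : ℝ → E} {η' : E}
    (hη : HasDerivAt η η' t) :
    HasDerivAt (fun s => G.PP s x δ (η s))
      (D2 g (G.Z t x, vel g (G.psi t x)) (G.JJ t x δ, G.JD t x δ) (η t, η')) t := by
  obtain ⟨P', hP⟩ : ∃ P', HasDerivAt (fun s => G.PP s x δ) P' t :=
    ⟨_, (jac_fst ((jac_at isOpen_OO (G.contDiffOn_PP h) t hx).differentiableAt
      (by simp))).clm_apply (hasDerivAt_const t δ)⟩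
  have h1 : ∀ s, G.PP s x δ (η t) =
      fderiv ℝ (fun y => g (G.Z s y) (vel g (G.psi s y)) (η t)) x δ := by
    intro s
    rw [((G.jac_dP h s hx).hasFDerivAt.clm_apply (hasFDerivAt_const (η t) x)).fderiv]
    simp [PP]
  have h2 := jac_swap (F := fun s y => g (G.Z s y) (vel g (G.psi s y)) (η t)) isOpen_OO
    ((G.jacA_mom h).clm_apply contDiffOn_const) hx
    (fun y hy => G.first_var h t hy (hasDerivAt_const t (η t))) δ
  rw [G.jac_D2 h t hx] at h2
  have h3 := (hP.clm_apply (hasDerivAt_const t (η t))).unique (by simpa only [h1] using h2)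
  refine (hP.clm_apply hη).congr_deriv ?_
  rw [map_zero, add_zero] at h3
  have hz : (G.Z t x, vel g (G.psi t x)).1 ∈ μ.U := G.Z_U t hx
  rw [h3, G.PP_apply h t hx, h.D2_apply hz, h.D2_apply hz]
  simp only [map_zero]
  ring

/-- Gauss lemma. -/
theorem al_inv (t : ℝ) {x : E × E} (hx : x ∈ μ.OO) (δ : E × E) :
    g (G.Z t x) (vel g (G.psi t x)) (G.JJ t x δ) = al g x δ := by
  have h1 : ∀ s, HasDerivAt (fun s => g (G.Z s x) (vel g (G.psi s x)) (G.JJ s x δ)) 0 s := by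
    intro s
    refine (G.first_var h s hx (G.hasDerivAt_JJ h s hx δ)).congr_deriv ?_
    have h2 := (((G.jac_Lg h s hx).differentiableAt (by simp)).hasFDerivAt.comp x
      (G.jac_pair h s hx)).fderiv
    have h3 : (Lg g ∘ fun y => (G.Z s y, vel g (G.psi s y))) =ᶠ[𝓝 x] fun _ => 1 / 2 := by
      filter_upwards [isOpen_OO.mem_nhds hx] with y hy
      have := h.vel_unit (G.psi_mem h s hy)
      simp only [Function.comp_apply, Lg, Z, this, mul_one]
    rw [h3.fderiv_eq, fderiv_fun_const] at h2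
    exact (congrArg (fun L => L δ) h2).symm
  have h2 := is_const_of_deriv_eq_zero (fun s => (h1 s).differentiableAt)
    (fun s => (h1 s).deriv) t 0
  simp only [G.JJ_zero hx] at h2
  rw [h2, G.Z_zero hx, G.psi_zero hx, h.vel_R hx.1, h.inv _ _ _ hx.1]
  rfl

theorem om_inv (t : ℝ) {x : E × E} (hx : x ∈ μ.OO) (δ₁ δ₂ : E × E) :
    G.PP t x δ₁ (G.JJ t x δ₂) - G.PP t x δ₂ (G.JJ t x δ₁) = om g x δ₁ δ₂ := by
  have h1 : ∀ s, HasDerivAt
      (fun s => G.PP s x δ₁ (G.JJ s x δ₂) - G.PP s x δ₂ (G.JJ s x δ₁)) 0 s := by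
    intro s
    refine ((G.var h s hx δ₁ (G.hasDerivAt_JJ h s hx δ₂)).sub
      (G.var h s hx δ₂ (G.hasDerivAt_JJ h s hx δ₁))).congr_deriv ?_
    rw [h.D2_symm (p := (G.Z s x, vel g (G.psi s x))) (G.Z_U s hx), sub_self]
  have h2 := is_const_of_deriv_eq_zero (fun s => (h1 s).differentiableAt)
    (fun s => (h1 s).deriv) t 0
  simp only [G.JJ_zero hx, G.jac_PP_zero h hx] at h2
  rw [h2, ← h.om_R hx, om, DR_fst hx.1, DR_fst hx.1]

theorem fst_fderiv_psi (t : ℝ) {x : E × E} (hx : x ∈ μ.OO) (δ : E × E) :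
    (fderiv ℝ (G.psi t) x δ).1 = G.JJ t x δ :=
  (congrArg (fun L => L δ) (G.jac_dpsi h t hx).hasFDerivAt.fst.fderiv).symm

theorem JJ_add (s t : ℝ) {x : E × E} (hx : x ∈ μ.OO) (δ : E × E) :
    G.JJ (s + t) x δ = G.JJ s (G.psi t x) (fderiv ℝ (G.psi t) x δ) :=
  G.jac_chain h t hx (G.jac_dZ h s (G.psi_mem h t hx)) (fun y hy => (G.Z_add s t hy).symm) δ

theorem JD_add (s t : ℝ) {x : E × E} (hx : x ∈ μ.OO) (δ : E × E) :
    G.JD (s + t) x δ = G.JD s (G.psi t x) (fderiv ℝ (G.psi t) x δ) :=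
  G.jac_chain h t hx (G.jac_dV h s (G.psi_mem h t hx)) (fun y hy => by rw [G.psi_add s t hy]) δ

theorem PP_add (s t : ℝ) {x : E × E} (hx : x ∈ μ.OO) (δ : E × E) :
    G.PP (s + t) x δ = G.PP s (G.psi t x) (fderiv ℝ (G.psi t) x δ) :=
  G.jac_chain h t hx (G.jac_dP h s (G.psi_mem h t hx))
    (fun y hy => by rw [G.Z_add s t hy, G.psi_add s t hy]) δ

theorem fderiv_psi_add (s t : ℝ) {x : E × E} (hx : x ∈ μ.OO) (δ : E × E) :
    fderiv ℝ (G.psi (s + t)) x δ = fderiv ℝ (G.psi s) (G.psi t x) (fderiv ℝ (G.psi t) x δ) :=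
  G.jac_chain h t hx (G.jac_dpsi h s (G.psi_mem h t hx)) (fun y hy => G.psi_add s t hy) δ

omit h in
theorem fderiv_psi_zero {x : E × E} (hx : x ∈ μ.OO) : fderiv ℝ (G.psi 0) x = μ.DR x :=
  Filter.EventuallyEq.fderiv_eq (eventually_of_mem (isOpen_OO.mem_nhds hx) fun _ hy => G.psi_zero hy)

theorem fderiv_psi_neg (t : ℝ) {x : E × E} (hx : x ∈ μ.OO) (δ : E × E) :
    fderiv ℝ (G.psi (-t)) (G.psi t x) (fderiv ℝ (G.psi t) x δ) = μ.DR x δ := by
  rw [← G.fderiv_psi_add h _ _ hx, neg_add_cancel, G.fderiv_psi_zero hx]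

theorem fderiv_psi_R (t : ℝ) {x : E × E} (hx : x ∈ μ.OO) (δ : E × E) :
    fderiv ℝ (G.psi t) (μ.R x) (μ.DR x δ) = fderiv ℝ (G.psi t) x δ := by
  have := G.fderiv_psi_add h t 0 hx δ
  rw [add_zero, G.psi_zero hx, G.fderiv_psi_zero hx] at this
  exact this.symm

/-- The derivative of the flow is tangent to the tangent bundle. -/
theorem DR_fderiv_psi (t : ℝ) {x : E × E} (hx : x ∈ μ.OO) (δ : E × E) :
    μ.DR (G.psi t x) (fderiv ℝ (G.psi t) x δ) = fderiv ℝ (G.psi t) x δ := by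
  have := G.fderiv_psi_add h 0 t hx δ
  rw [zero_add, G.fderiv_psi_zero (G.psi_mem h t hx)] at this
  exact this.symm

theorem JJ_R (t : ℝ) {x : E × E} (hx : x ∈ μ.OO) (δ : E × E) :
    G.JJ t (μ.R x) (μ.DR x δ) = G.JJ t x δ := by
  rw [← G.fst_fderiv_psi h t (TT_OO (R_mem_TT hx)), G.fderiv_psi_R h t hx, G.fst_fderiv_psi h t hx]

theorem JJ_DR (t : ℝ) {x : E × E} (hx : x ∈ μ.TT) (δ : E × E) :
    G.JJ t x (μ.DR x δ) = G.JJ t x δ := by
  have := G.JJ_R h t (TT_OO hx) δ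
  rwa [R_of_TT hx] at this

theorem JJ_P (t : ℝ) {x : E × E} (hx : x ∈ μ.TT) (u : E) :
    G.JJ t x (0, μ.P x.1 u) = G.JJ t x (0, u) := by
  rw [← DR_fibre hx.1.1, G.JJ_DR h t hx]

theorem om_psi (t : ℝ) {x : E × E} (hx : x ∈ μ.OO) (δ₁ δ₂ : E × E) :
    om g (G.psi t x) (fderiv ℝ (G.psi t) x δ₁) (fderiv ℝ (G.psi t) x δ₂) = om g x δ₁ δ₂ := by
  rw [← G.om_inv h 0 (G.psi_mem h t hx), ← G.PP_add h 0 t hx, ← G.PP_add h 0 t hx,
    ← G.JJ_add h 0 t hx, ← G.JJ_add h 0 t hx, zero_add, G.om_inv h t hx]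

theorem al_psi (t : ℝ) {x : E × E} (hx : x ∈ μ.OO) (δ : E × E) :
    al g (G.psi t x) (fderiv ℝ (G.psi t) x δ) = al g x δ := by
  rw [← G.al_inv h t hx, ← G.fst_fderiv_psi h t hx]
  rfl

/-- Initial derivative of the fields vanishing at time zero. -/
theorem JD_zero {x : E × E} (hx : x ∈ μ.TT) (u : E) :
    G.JD 0 x (0, u) = (spd g x)⁻¹ • nrm μ g x u := by
  have h1 := G.jac_zero (TT_OO hx) (h.jac_dvel (TT_OO (R_mem_TT (TT_OO hx)))) (0, u)
  rw [R_of_TT hx, DR_fibre hx.1.1, h.jac_vel (TT_OO hx), h.P_right hx.1] at h1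
  exact h1

theorem fderiv_psi_snd (t : ℝ) {x : E × E} (hx : x ∈ μ.OO) :
    fderiv ℝ (G.psi t) x (0, x.2) = (0, (G.psi t x).2) := by
  have l : ∀ y : E × E, HasDerivAt (fun s : ℝ => sc (1 + s) y) (0, y.2) 0 := fun y => by
    have := (hasDerivAt_const (0 : ℝ) y.1).prodMk (((hasDerivAt_id (0 : ℝ)).const_add 1).smul_const y.2)
    simpa [sc] using this
  refine (jac_curve (G.jac_dpsi h t hx) (l x) (by simp [sc])).unique ((l _).congr_of_eventuallyEq ?_)
  filter_upwards [Ioi_mem_nhds (show (-1 : ℝ) < 0 by norm_num)] with s hs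
  exact G.psi_sc t (by linarith [mem_Ioi.1 hs]) hx

theorem fderiv_psi_Bdir' (t : ℝ) {x : E × E} (hx : x ∈ μ.OO) {v : E × E} (hv : v ∈ μ.Bdir x) :
    ∃ a : ℝ, fderiv ℝ (G.psi t) x v = (0, a • (G.psi t x).2) := by
  obtain ⟨a, ha⟩ := mem_Bdir.1 hv
  refine ⟨a, ?_⟩
  have := G.fderiv_psi_snd h t (TT_OO (R_mem_TT hx))
  rw [G.psi_R h t hx] at this
  rw [← G.fderiv_psi_R h t hx, ha, show ((0, a • μ.P x.1 x.2) : E × E) = a • (0, (μ.R x).2) by simp [R],
    map_smul, this]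
  simp

theorem fderiv_psi_Bdir (t : ℝ) {x : E × E} (hx : x ∈ μ.OO) {v : E × E} (hv : v ∈ μ.Bdir x) :
    fderiv ℝ (G.psi t) x v ∈ μ.Bdir (G.psi t x) := by
  obtain ⟨a, ha⟩ := G.fderiv_psi_Bdir' h t hx hv
  exact mem_Bdir.2 ⟨a, by rw [G.DR_fderiv_psi h t hx, ha, (G.psi_TM t hx).2]⟩

theorem Bdir_of_fderiv_psi (t : ℝ) {x : E × E} (hx : x ∈ μ.OO) {v : E × E}
    (hv : fderiv ℝ (G.psi t) x v ∈ μ.Bdir (G.psi t x)) : v ∈ μ.Bdir x := by
  have h4 := G.fderiv_psi_Bdir h (-t) (G.psi_mem h t hx) hv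
  rwa [G.fderiv_psi_neg h t hx, ← G.psi_add (-t) t hx, neg_add_cancel, G.psi_zero hx,
    Bdir_R hx.1] at h4

theorem JJ_Bdir (t : ℝ) {x : E × E} (hx : x ∈ μ.OO) {v : E × E} (hv : v ∈ μ.Bdir x) :
    G.JJ t x v = 0 := by
  obtain ⟨a, ha⟩ := G.fderiv_psi_Bdir' h t hx hv
  rw [← G.fst_fderiv_psi h t hx, ha]

theorem JJ_Bs (t : ℝ) {x : E × E} (hx : x ∈ μ.OO) {u : E} (hu : u ∈ μ.Bs x) :
    G.JJ t x (0, u) = 0 :=
  G.JJ_Bdir h t hx ((fibre_mem_Bdir hx.1).2 hu)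

theorem JD_Bdir (t : ℝ) {x : E × E} (hx : x ∈ μ.OO) {v : E × E} (hv : v ∈ μ.Bdir x) :
    G.JD t x v = 0 := by
  have := G.hasDerivAt_JJ h t hx v
  simp only [G.JJ_Bdir h _ hx hv] at this
  exact this.unique (hasDerivAt_const _ _)

theorem PP_Bdir (t : ℝ) {x : E × E} (hx : x ∈ μ.OO) {v : E × E} (hv : v ∈ μ.Bdir x) (η : E) :
    G.PP t x v η = 0 := by
  rw [G.PP_apply h t hx, G.JJ_Bdir h t hx hv, G.JD_Bdir h t hx hv]
  simp

theorem JJ_sc (t : ℝ) {m : ℝ} (hm : 0 < m) {x : E × E} (hx : x ∈ μ.OO) (δ : E × E) :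
    G.JJ t (sc m x) (sc m δ) = G.JJ t x δ := by
  have h1 := (G.jac_dZ h t (sc_mem_OO hm.ne' hx)).hasFDerivAt.comp x (hasFDerivAt_sc m x)
  exact congrArg (fun L => L δ) ((h1.congr_of_eventuallyEq (eventually_of_mem (isOpen_OO.mem_nhds hx)
    fun y hy => (G.Z_sc t hm hy).symm)).unique (G.jac_dZ h t hx).hasFDerivAt)

theorem JJ_sc_fibre (t : ℝ) {m : ℝ} (hm : 0 < m) {x : E × E} (hx : x ∈ μ.OO) (u : E) :
    G.JJ t (sc m x) (0, u) = m⁻¹ • G.JJ t x (0, u) := by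
  rw [← map_smul, ← G.JJ_sc h t hm hx]
  simp [sc, smul_smul, mul_inv_cancel₀ hm.ne']

/-- At a zero of a Jacobi field its derivative represents the symplectic form. -/
theorem star (t : ℝ) {x : E × E} (hx : x ∈ μ.OO) {ξ : E × E} (hξ : G.JJ t x ξ = 0) (η : E × E) :
    g (G.Z t x) (G.JD t x ξ) (G.JJ t x η) = om g x ξ η := by
  rw [← G.om_inv h t hx, G.PP_apply h t hx, hξ]
  simp

/-- At a zero of a Jacobi field its derivative is tangent. -/
theorem JD_tan (t : ℝ) {x : E × E} (hx : x ∈ μ.OO) {ξ : E × E} (hξ : G.JJ t x ξ = 0) :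
    μ.P (G.Z t x) (G.JD t x ξ) = G.JD t x ξ := by
  have h1 := (((hasFDerivAt_P (G.Z_U t hx)).comp_hasDerivAt t (G.hasDerivAt_Z h t hx)).clm_apply
    (G.hasDerivAt_JJ h t hx ξ)).unique ((G.hasDerivAt_JJ h t hx ξ).congr_of_eventuallyEq
      (Eventually.of_forall fun s => G.JJ_tan h s hx ξ))
  simpa [hξ] using h1

/-- If the only fields from the fibre vanishing at time `t` are trivial, they fill the normal space. -/
theorem JJ_surj (t : ℝ) {x : E × E} (hx : x ∈ μ.TT) (hi : ∀ u, G.JJ t x (0, u) = 0 → u ∈ μ.Bs x)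
    {y : E} (hy : μ.P (G.Z t x) y = y) (hy' : g (G.Z t x) (vel g (G.psi t x)) y = 0) :
    ∃ u, G.JJ t x (0, u) = y := by
  have hx' := TT_OO hx
  have hp := G.psi_TT h t hx'
  let T : E →ₗ[ℝ] E := (G.JJ t x : E × E →ₗ[ℝ] E).comp (LinearMap.inr ℝ E E)
  let S : μ.Tan (G.Z t x) →ₗ[ℝ] ℝ :=
    (g (G.Z t x) (vel g (G.psi t x)) : E →ₗ[ℝ] ℝ).comp (Submodule.subtype _)
  have hT : ∀ u, T u = G.JJ t x (0, u) := fun _ => rfl
  have h1 : LinearMap.ker T = μ.Bs x := by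
    ext u
    rw [LinearMap.mem_ker, hT]
    exact ⟨hi u, G.JJ_Bs h t hx'⟩
  have h2 : LinearMap.range S = ⊤ := by
    refine LinearMap.range_eq_top.2 fun p =>
      ⟨p • ⟨vel g (G.psi t x), mem_Tan.2 (P_vel hp)⟩, ?_⟩
    rw [map_smul, show S ⟨vel g (G.psi t x), mem_Tan.2 (P_vel hp)⟩ = 1 from h.vel_unit (TT_OO hp),
      smul_eq_mul, mul_one]
  have h3 : LinearMap.range T ≤ (LinearMap.ker S).map (Submodule.subtype _) := by
    rintro _ ⟨u, rfl⟩
    refine ⟨⟨T u, mem_Tan.2 (G.JJ_tan h t hx' _)⟩, ?_, rfl⟩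
    exact (G.al_inv h t hx' (0, u)).trans (map_zero (g x.1 (vel g x)))
  have h4 := T.finrank_range_add_finrank_ker
  have h5 := S.finrank_range_add_finrank_ker
  have h6 := finrank_Bs hx
  rw [h1] at h4
  rw [h2, finrank_top, Module.finrank_self, finrank_Tan (G.Z_mem t hx')] at h5
  have h7 := Submodule.eq_of_le_of_finrank_eq h3 (by
    rw [Submodule.finrank_map_subtype_eq]; omega)
  have h8 : y ∈ LinearMap.range T := by
    rw [h7]
    exact ⟨⟨y, mem_Tan.2 hy⟩, hy', rfl⟩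
  exact h8

/-- Derivative of the exponential map along a ray. -/
theorem fderiv_ex (τ : ℝ) {x : E × E} (hx : x ∈ μ.OO) (hτ : 0 < τ) (u : E) :
    fderiv ℝ (G.ex x.1) (τ • vel g x) u =
      g x.1 (vel g x) u • vel g (G.psi τ x) + (spd g x / τ) • G.JJ τ x (0, u) := by
  have hp := h.spd_pos hx
  have hm : 0 < τ / spd g x := div_pos hτ hp
  have e0 : sc (τ / spd g x) x = (x.1, τ • vel g x) := by rw [sc, vel, smul_smul, div_eq_mul_inv]
  have hx0 : (x.1, τ • vel g x) ∈ μ.OO := e0 ▸ sc_mem_OO hm.ne' hx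
  have e1 : spd g (x.1, τ • vel g x) = τ := by rw [← e0, spd_sc hm.le, div_mul_cancel₀ _ hp.ne']
  have e2 : vel g (x.1, τ • vel g x) = vel g x := by rw [← e0, vel_sc hm]
  have e3 : vel g (G.psi τ (x.1, τ • vel g x)) = vel g (G.psi τ x) := by
    rw [← e0, G.psi_sc τ hm hx, vel_sc hm]
  have e4 : G.JJ τ (x.1, τ • vel g x) (0, u) = (spd g x / τ) • G.JJ τ x (0, u) := by
    rw [← e0, G.JJ_sc_fibre h τ hm hx, inv_div]
  have hd := (G.hasFDerivAt_ex hx.1 (τ • vel g x)).differentiableAt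
  have hl := (hasDerivAt_const (0 : ℝ) x.1).prodMk (jac_line (τ • vel g x) u)
  have hZ := (jac_at isOpen_OO (G.contDiffOn_Z h) τ hx0).differentiableAt (by simp)
  have h1 := jac_curve hZ ((h.jac_spd hx0 u).prodMk hl) (by simp [e1])
  rw [jac_total hZ (G.hasDerivAt_Z h τ hx0), e2, e3] at h1
  rw [← e4]
  refine (jac_curve hd (jac_line (τ • vel g x) u) (by simp)).unique (h1.congr_of_eventuallyEq ?_)
  have h3 : ∀ᶠ s : ℝ in 𝓝 0, (x.1, τ • vel g x + s • u) ∈ μ.OO :=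
    hl.continuousAt.eventually (isOpen_OO.mem_nhds (by simpa using hx0))
  filter_upwards [h3] with s hs
  exact G.ex_eq_Z h hs

end Geo

namespace Bl
variable {G : Geo μ g} (B : Bl g G)
include B

theorem Z_add_pi (t : ℝ) {x : E × E} (hx : x ∈ μ.OO) : G.Z (t + Real.pi) x = G.Z t x := B.per x hx t

theorem vel_add_pi (t : ℝ) {x : E × E} (hx : x ∈ μ.OO) :
    vel g (G.psi (t + Real.pi) x) = vel g (G.psi t x) := by
  have h1 : HasDerivAt (fun s => G.Z (s + Real.pi) x) (vel g (G.psi (t + Real.pi) x)) t :=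
    HasDerivAt.comp_add_const t Real.pi (G.hasDerivAt_Z B.met _ hx)
  simp only [B.per x hx] at h1
  exact h1.unique (G.hasDerivAt_Z B.met t hx)

theorem psi_add_pi (t : ℝ) {x : E × E} (hx : x ∈ μ.OO) : G.psi (t + Real.pi) x = G.psi t x := by
  refine Prod.ext (B.per x hx t) ?_
  rw [B.met.snd_eq (G.psi_mem B.met _ hx), B.met.snd_eq (G.psi_mem B.met t hx), B.vel_add_pi t hx,
    G.spd_psi _ hx, G.spd_psi _ hx]

theorem psi_pi {x : E × E} (hx : x ∈ μ.TT) : G.psi Real.pi x = x := by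
  have := B.psi_add_pi 0 (TT_OO hx)
  rwa [zero_add, G.psi_zero' hx] at this

theorem JJ_add_pi (t : ℝ) {x : E × E} (hx : x ∈ μ.OO) : G.JJ (t + Real.pi) x = G.JJ t x :=
  Filter.EventuallyEq.fderiv_eq (eventually_of_mem (isOpen_OO.mem_nhds hx) fun y hy => B.per y hy t)

theorem JD_add_pi (t : ℝ) {x : E × E} (hx : x ∈ μ.OO) : G.JD (t + Real.pi) x = G.JD t x :=
  Filter.EventuallyEq.fderiv_eq (eventually_of_mem (isOpen_OO.mem_nhds hx) fun _ hy =>
    B.vel_add_pi t hy)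

theorem PP_add_pi (t : ℝ) {x : E × E} (hx : x ∈ μ.OO) : G.PP (t + Real.pi) x = G.PP t x :=
  Filter.EventuallyEq.fderiv_eq (eventually_of_mem (isOpen_OO.mem_nhds hx) fun y hy => by
    simp only [B.vel_add_pi t hy, B.per y hy t])

end Bl

end Pool.Agent.Work.MP_8c604c_gt.O
end
end
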