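import Pool.Agent.Work.MP_8c604c_gt.O.BKG
import Pool.Agent.Work.MP_8c604c_gt.OM.Hur
import Pool.Agent.Work.MP_8c604c_gt.O.RigC1
import Pool.Agent.Work.MP_8c604c_gt.B.NegF
import Pool.Agent.Work.MP_8c604c_gt.OB.Lp

-- merged part: Pool.Agent.Work.MP_8c604c_gt.O.Liou
section
/-!
Liouville theorem for the unit speed flow, in charts.
-/

set_option maxSynthPendingDepth 3
set_option linter.unusedSectionVars false

open Set Filter Topology MeasureTheory
open scoped ContDiff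

noncomputable section
namespace Pool.Agent.Work.MP_8c604c_gt.O

open Real

open Model

variable {E : Type} [NormedAddCommGroup E] [InnerProductSpace ℝ E] [FiniteDimensional ℝ E] {d : ℕ}
  {μ : Model E d} {g : Met E}

section LinAlg
variable {W : Type} [AddCommGroup W] [Module ℝ W] {ι : Type} [Fintype ι] [DecidableEq ι]

theorem liou_gram_comp (b : Module.Basis ι ℝ W) (B : LinearMap.BilinForm ℝ W) (T : W →ₗ[ℝ] W) :
    (LinearMap.BilinForm.toMatrix b (B.comp T T)).det =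
      LinearMap.det T ^ 2 * (LinearMap.BilinForm.toMatrix b B).det := by
  rw [LinearMap.BilinForm.toMatrix_comp b b, Matrix.det_mul, Matrix.det_mul, Matrix.det_transpose,
    LinearMap.det_toMatrix]
  ring

theorem liou_gram_block (b : Module.Basis ι ℝ W) (B : LinearMap.BilinForm ℝ (W × W))
    (Gm : W → W → ℝ) (hA : ∀ a c, B a c = -B c a) (h0 : ∀ u c, B (0, u) c = Gm u c.1)
    (hz : ∀ u, Gm u 0 = 0) :
    (LinearMap.BilinForm.toMatrix (b.prod b) B).det *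
        (Matrix.fromBlocks 0 1 1 0 : Matrix (ι ⊕ ι) (ι ⊕ ι) ℝ).det =
      (-1) ^ Fintype.card ι * (Matrix.of fun i j => Gm (b i) (b j)).det ^ 2 := by
  have e : LinearMap.BilinForm.toMatrix (b.prod b) B =
      Matrix.fromBlocks (Matrix.of fun i j => B (b i, 0) (b j, 0))
        (-(Matrix.of fun i j => Gm (b i) (b j)).transpose)
        (Matrix.of fun i j => Gm (b i) (b j)) 0 := by
    ext i j
    rcases i with i | i <;> rcases j with j | j
    · simp [Module.Basis.prod_apply]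
    · simp [Module.Basis.prod_apply, hA (b i, 0), h0]
    · simp [Module.Basis.prod_apply, h0]
    · simp [Module.Basis.prod_apply, h0, hz]
  rw [← Matrix.det_mul, e, Matrix.fromBlocks_multiply]
  simp only [Matrix.mul_zero, Matrix.mul_one, zero_add, add_zero]
  rw [Matrix.det_fromBlocks_zero₂₁, Matrix.det_neg, Matrix.det_transpose]
  ring

theorem liou_alg (b : Module.Basis ι ℝ W) (B B' : LinearMap.BilinForm ℝ (W × W))
    (Gm Gm' : W → W → ℝ) (hA : ∀ a c, B a c = -B c a) (h0 : ∀ u c, B (0, u) c = Gm u c.1)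
    (hz : ∀ u, Gm u 0 = 0) (hA' : ∀ a c, B' a c = -B' c a) (h0' : ∀ u c, B' (0, u) c = Gm' u c.1)
    (hz' : ∀ u, Gm' u 0 = 0) (T : (W × W) →ₗ[ℝ] (W × W)) (h : ∀ a c, B' (T a) (T c) = B a c) :
    LinearMap.det T ^ 2 * (Matrix.of fun i j => Gm' (b i) (b j)).det ^ 2 =
      (Matrix.of fun i j => Gm (b i) (b j)).det ^ 2 := by
  have e : B'.comp T T = B := LinearMap.ext fun a => LinearMap.ext fun c => h a c
  have h1 := liou_gram_comp (b.prod b) B' T
  have h3 := liou_gram_block b B Gm hA h0 hz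
  have h4 := liou_gram_block b B' Gm' hA' h0' hz'
  rw [e] at h1
  have h5 : ((-1 : ℝ)) ^ Fintype.card ι ≠ 0 := pow_ne_zero _ (by norm_num)
  apply mul_left_cancel₀ h5
  rw [← h3, mul_left_comm, ← h4, ← mul_assoc, ← h1]

end LinAlg

/-- The symplectic form. -/
def liouB (g : Met E) (x : E × E) : LinearMap.BilinForm ℝ (E × E) :=
  LinearMap.mk₂ ℝ (fun a b => (fderiv ℝ (spd g) x a * al g x b - fderiv ℝ (spd g) x b * al g x a) +
      spd g x * om g x a b)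
    (fun _ _ _ => by simp only [map_add, om_add]; ring)
    (fun _ _ _ => by simp only [map_smul, om_smul, smul_eq_mul]; ring)
    (fun _ _ _ => by simp only [om, map_add, Prod.fst_add, add_apply]; ring)
    (fun _ _ _ => by simp only [om, map_smul, Prod.smul_fst, smul_apply, smul_eq_mul]; ring)

theorem liouB_apply (g : Met E) (x a b : E × E) : liouB g x a b =
    (fderiv ℝ (spd g) x a * al g x b - fderiv ℝ (spd g) x b * al g x a) + spd g x * om g x a b := rfl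

theorem liouB_anti (g : Met E) (x a b : E × E) : liouB g x a b = -liouB g x b a := by
  simp only [liouB_apply, om]
  ring

theorem liou_diff_spd (h : IsMetric μ g) {x : E × E} (hx : x ∈ μ.OO) :
    DifferentiableAt ℝ (spd g) x :=
  (h.contDiffOn_spd.contDiffAt (isOpen_OO.mem_nhds hx)).differentiableAt (by simp)

theorem liou_spd_fibre (h : IsMetric μ g) {x : E × E} (hx : x ∈ μ.OO) (u : E) :
    fderiv ℝ (spd g) x (0, u) = g x.1 (vel g x) u :=
  (jac_curve (liou_diff_spd h hx) ((hasDerivAt_const 0 x.1).prodMk (jac_line x.2 u))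
    (by simp)).unique (h.jac_spd hx u)

theorem liouB_fibre (h : IsMetric μ g) {x : E × E} (hx : x ∈ μ.OO) (u : E) (c : E × E) :
    liouB g x (0, u) c = g x.1 u c.1 := by
  have h0 := (h.spd_pos hx).ne'
  rw [liouB_apply, h.om_fibre hx, liou_spd_fibre h hx, al_apply, al_apply, map_zero]
  field_simp
  ring

theorem hasFDerivAt_κ (i : Fin (μ.N + 1)) (y : RF d × RF d) :
    HasFDerivAt (μ.κ i) (fderiv ℝ (μ.κ i) y) y :=
  ((contDiff_κ i).differentiable (by simp) y).hasFDerivAt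

theorem hasFDerivAt_σ {i : Fin (μ.N + 1)} {x : E × E} (hx : x.1 ∈ μ.W i) :
    HasFDerivAt (μ.σ i) (fderiv ℝ (μ.σ i) x) x :=
  (((contDiffOn_σ i).contDiffAt (((μ.W_open i).preimage continuous_fst).mem_nhds hx)).differentiableAt
    (by simp)).hasFDerivAt

theorem Dκ_fst (i : Fin (μ.N + 1)) (y c : RF d × RF d) :
    (fderiv ℝ (μ.κ i) y c).1 = fderiv ℝ (μ.χ i) y.1 c.1 :=
  congrArg (fun L => L c) ((hasFDerivAt_κ i y).fst.unique ((hasFDerivAt_χ i y.1).comp y hasFDerivAt_fst))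

theorem Dκ_fibre (i : Fin (μ.N + 1)) (y : RF d × RF d) (b : RF d) :
    fderiv ℝ (μ.κ i) y (0, b) = (0, fderiv ℝ (μ.χ i) y.1 b) :=
  (jac_curve (hasFDerivAt_κ i y).differentiableAt ((hasDerivAt_const 0 y.1).prodMk (jac_line y.2 b))
    (by simp)).unique ((hasDerivAt_const 0 (μ.χ i y.1)).prodMk
      ((fderiv ℝ (μ.χ i) y.1).hasFDerivAt.comp_hasDerivAt 0 (jac_line y.2 b)))

/-- A map into the tangent bundle is read in a chart. -/
theorem Dκ_Dσ {X : Type} [NormedAddCommGroup X] [NormedSpace ℝ X] {f : X → E × E}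
    {f' : X →L[ℝ] E × E} {y : X} (hf : HasFDerivAt f f' y) (hT : ∀ᶠ z in 𝓝 y, f z ∈ μ.TM)
    {j : Fin (μ.N + 1)} (hj : (f y).1 ∈ μ.W j) (a : X) :
    fderiv ℝ (μ.κ j) (μ.σ j (f y)) (fderiv ℝ (μ.σ j) (f y) (f' a)) = f' a := by
  have h1 := (hasFDerivAt_κ j _).comp y ((hasFDerivAt_σ hj).comp y hf)
  refine congrArg (fun L => L a) ((h1.congr_of_eventuallyEq ?_).unique hf)
  filter_upwards [hT, hf.continuousAt.fst.eventually ((μ.W_open j).mem_nhds hj)] with z h2 h3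
  exact (κσ h2 h3).symm

theorem Geo.liouB_psi (G : Geo μ g) (h : IsMetric μ g) (t : ℝ) {x : E × E} (hx : x ∈ μ.OO) (a c : E × E) :
    liouB g (G.psi t x) (fderiv ℝ (G.psi t) x a) (fderiv ℝ (G.psi t) x c) = liouB g x a c := by
  have hs := fun a => (G.jac_chain h t hx (liou_diff_spd h (G.psi_mem h t hx))
    (fun y hy => (G.spd_psi t hy).symm) a).symm
  rw [liouB_apply, liouB_apply, hs, hs, G.al_psi h t hx, G.al_psi h t hx, G.om_psi h t hx,
    G.spd_psi t hx]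

theorem Geo.det_psi (G : Geo μ g) (h : IsMetric μ g) (t : ℝ) (i : Fin (μ.N + 1)) {j : Fin (μ.N + 1)}
    {y : RF d × RF d} (hy : y.2 ≠ 0) (hj : (G.psi t (μ.κ i y)).1 ∈ μ.W j) :
    |((fderiv ℝ (μ.σ j) (G.psi t (μ.κ i y))).comp ((fderiv ℝ (G.psi t) (μ.κ i y)).comp
      (fderiv ℝ (μ.κ i) y))).det| * μ.den g j (μ.σ j (G.psi t (μ.κ i y))).1 ^ 2 = μ.den g i y.1 ^ 2 := by
  have hx := TT_OO (κ_TT i hy)
  have hp := G.psi_TT h t hx
  have e := κσ (TT_TM hp) hj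
  have hD := Dκ_Dσ ((G.jac_dpsi h t hx).hasFDerivAt.comp y (hasFDerivAt_κ i y)) (by
    filter_upwards [(contDiff_κ i).continuous.continuousAt.eventually (isOpen_OO.mem_nhds hx)]
      with z hz using G.psi_TM t hz) hj
  have k : ∀ (i : Fin (μ.N + 1)) (y : RF d × RF d), μ.κ i y ∈ μ.OO → ∀ u c,
      (liouB g (μ.κ i y)).compl₁₂ (fderiv ℝ (μ.κ i) y).toLinearMap (fderiv ℝ (μ.κ i) y).toLinearMap
        (0, u) c = μ.gc g i y.1 u c.1 := fun i y hy u c => by
    change liouB g _ (fderiv ℝ (μ.κ i) y (0, u)) (fderiv ℝ (μ.κ i) y c) = _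
    rw [Dκ_fibre, liouB_fibre h hy, Dκ_fst]
    rfl
  have main := liou_alg (stdOrthonormalBasis ℝ (RF d)).toBasis _ _ (fun u w => μ.gc g i y.1 u w)
    (fun u w => μ.gc g j (μ.σ j (G.psi t (μ.κ i y))).1 u w) (fun a c => liouB_anti g _ _ _)
    (k i y hx) (fun u => map_zero _) (fun a c => liouB_anti g _ _ _)
    (k j _ (e.symm ▸ TT_OO hp)) (fun u => map_zero _)
    ((fderiv ℝ (μ.σ j) (G.psi t (μ.κ i y))).comp ((fderiv ℝ (G.psi t) (μ.κ i y)).comp
      (fderiv ℝ (μ.κ i) y))).toLinearMap fun a c => by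
        refine Eq.trans ?_ (G.liouB_psi h t hx _ _)
        exact congr($(congrArg (liouB g) e) $(hD a) $(hD c))
  refine (pow_left_inj₀ (by positivity) (by positivity) two_ne_zero).1 ?_
  rw [mul_pow, sq_abs, h.den_sq, h.den_sq]
  exact main

end Pool.Agent.Work.MP_8c604c_gt.O
end
end

-- merged part: Pool.Agent.Work.MP_8c604c_gt.O.Vol
section
/-!
The volume inequality and its equality case.
-/

set_option maxSynthPendingDepth 3
set_option linter.unusedSectionVars false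

open Set Filter Topology MeasureTheory
open scoped ContDiff

noncomputable section
namespace Pool.Agent.Work.MP_8c604c_gt.O

open Real

open Model

variable {E : Type} [NormedAddCommGroup E] [InnerProductSpace ℝ E] [FiniteDimensional ℝ E] {d : ℕ}
  {μ : Model E d} {g : Met E}

/-- The region of integration in a chart. -/
def Vol_R (μ : Model E d) (g : Met E) (i : Fin (μ.N + 1)) : Set (RF d × RF d) :=
  {y | y.2 ≠ 0 ∧ spd g (μ.κ i y) < π / 2}

/-- The Jacobian. -/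
def Vol_J (G : Geo μ g) (x : E × E) : ℝ := G.jac x.1 x.2

/-- The integral of the Jacobian along the flow. -/
def Vol_avg (G : Geo μ g) (x : E × E) : ℝ := ∫ t in (0 : ℝ)..π, Vol_J G (G.psi t x)

/-- The model Jacobian. -/
def Vol_j (d k : ℕ) (τ : ℝ) : ℝ := thk d k τ / τ ^ (d - 1)

theorem Vol_OO {i : Fin (μ.N + 1)} {y : RF d × RF d} (hy : y ∈ Vol_R μ g i) : μ.κ i y ∈ μ.OO :=
  TT_OO (κ_TT i hy.1)

theorem Vol_open (h : IsMetric μ g) (i : Fin (μ.N + 1)) : IsOpen (Vol_R μ g i) :=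
  (isOpen_ne_fun continuous_snd continuous_const).inter (isOpen_lt
    ((((h.contDiff_gc i).continuous.comp continuous_fst).clm_apply continuous_snd).clm_apply
      continuous_snd).sqrt continuous_const)

theorem Vol_comp {i : Fin (μ.N + 1)} {f : E × E → ℝ} (hf : ContinuousOn f μ.OO) :
    ContinuousOn (fun y => f (μ.κ i y)) (Vol_R μ g i) :=
  hf.comp (contDiff_κ i).continuous.continuousOn fun _ hy => Vol_OO hy

theorem Vol_w_cont (h : IsMetric μ g) (i : Fin (μ.N + 1)) :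
    Continuous fun y : RF d × RF d => μ.den g i y.1 ^ 2 :=
  ((h.continuous_den i).comp continuous_fst).pow 2

theorem Vol_J_nonneg (G : Geo μ g) (x : E × E) : 0 ≤ Vol_J G x := G.jac_nonneg _ _

theorem Vol_J_cont (G : Geo μ g) (h : IsMetric μ g) : ContinuousOn (Vol_J G) μ.OO :=
  (G.continuousOn_jac h).mono fun _ hx => hx.1

theorem Vol_psi (G : Geo μ g) (h : IsMetric μ g) (t : ℝ) (f : E × E → ℝ) :
    ∫⁻ y in Vol_R μ g 0, ENNReal.ofReal (f (G.psi t (μ.κ 0 y)) * μ.den g 0 y.1 ^ 2) ≤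
      ∫⁻ y in Vol_R μ g 0, ENNReal.ofReal (f (μ.κ 0 y) * μ.den g 0 y.1 ^ 2) := by
  have hd := fun y (hy : y ∈ Vol_R μ g 0) =>
    (G.jac_dpsi h t (Vol_OO hy)).hasFDerivAt.comp y (hasFDerivAt_κ 0 y)
  have hT := fun y (hy : y ∈ Vol_R μ g 0) => G.psi_TT h t (Vol_OO hy)
  refine (param_le volume 0 (T := fun j => Vol_R μ g 0 ∩ (fun y => (G.psi t (μ.κ 0 y)).1) ⁻¹' μ.W j)
    (N := fun j => {y | μ.χ j y.1 ∉ μ.W 0}) (fun j => (ContinuousOn.isOpen_inter_preimage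
      (fun y hy => (hd y hy).continuousAt.fst.continuousWithinAt) (Vol_open h 0)
        (μ.W_open j)).measurableSet) (fun y hy => ?_)
    (φ := fun j y => μ.σ j (G.psi t (μ.κ 0 y)))
    (fun j y hy => HasFDerivAt.comp (f := G.psi t ∘ μ.κ 0) y (hasFDerivAt_σ (i := j) hy.2) (hd y hy.1)) (fun j y hy y' hy' e => ?_)
    (H := fun j y => ENNReal.ofReal (f (μ.κ j y) * μ.den g j y.1 ^ 2)) (fun j y hy => ?_)
    (null_κ μ) fun j y hy h0 h1 => h0 ⟨hy.1, ?_⟩).trans (lintegral_mono_set ?_)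
  · obtain ⟨j, hj⟩ := μ.cover _ (hT y hy).1.1 (hT y hy).1.2
    exact mem_iUnion.2 ⟨j, hy, hj⟩
  · have e1 := congrArg (fun z => μ.σ 0 (G.psi (-t) (μ.κ j z))) e
    simp only [κσ (TT_TM (hT y hy.1)) hy.2, κσ (TT_TM (hT y' hy'.1)) hy'.2] at e1
    rwa [← G.psi_add _ _ (Vol_OO hy.1), ← G.psi_add _ _ (Vol_OO hy'.1), neg_add_cancel,
      G.psi_zero' (κ_TT 0 hy.1.1), G.psi_zero' (κ_TT 0 hy'.1.1), σκ, σκ] at e1
  · rw [← ENNReal.ofReal_mul (abs_nonneg _), κσ (TT_TM (hT y hy.1)) hy.2, mul_left_comm,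
      Function.comp_apply, G.det_psi h t 0 hy.1.1 hy.2]
  · rwa [σ, μ.χρ j _ hy.2 (hT y hy.1).1.2] at h1
  · rintro _ ⟨y, hy, rfl⟩
    have e := κσ (TT_TM (hT y hy.1)) hy.2
    refine ⟨fun h0 => (hT y hy.1).2.2 ?_, by rw [e, G.spd_psi t (Vol_OO hy.1)]; exact hy.1.2⟩
    rw [← e, κ, h0, map_zero]

theorem Vol_jac_cont (G : Geo μ g) (h : IsMetric μ g) :
    ContinuousOn (fun p : ℝ × E × E => Vol_J G (G.psi p.1 p.2)) {p | p.2 ∈ μ.OO} :=
  (Vol_J_cont G h).comp (G.contDiffOn_psi h).continuousOn fun p hp => G.psi_mem h p.1 hp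

theorem Vol_jac_cont' (G : Geo μ g) (h : IsMetric μ g) {x : E × E} (hx : x ∈ μ.OO) :
    Continuous fun t => Vol_J G (G.psi t x) := by
  have := (Vol_jac_cont G h).comp_continuous (f := fun t : ℝ => (t, x)) (by fun_prop) fun _ => hx
  exact this

theorem Vol_avg_cont (G : Geo μ g) (h : IsMetric μ g) : ContinuousOn (Vol_avg G) (μ.OO) := by
  rw [continuousOn_iff_continuous_domRestrict]
  have := (Vol_jac_cont G h).comp_continuous (f := fun p : μ.OO × ℝ => (p.2, (p.1 : E × E)))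
    (by fun_prop) fun p => p.1.2
  exact intervalIntegral.continuous_parametric_intervalIntegral_of_continuous'
    (f := fun (x : μ.OO) t => Vol_J G (G.psi t x)) this 0 π

theorem Vol_avg_lint (G : Geo μ g) (h : IsMetric μ g) :
    ∫⁻ y in Vol_R μ g 0, ENNReal.ofReal (Vol_avg G (μ.κ 0 y) * μ.den g 0 y.1 ^ 2) ≤
      ENNReal.ofReal π *
        ∫⁻ y in Vol_R μ g 0, ENNReal.ofReal (Vol_J G (μ.κ 0 y) * μ.den g 0 y.1 ^ 2) := by
  refine le_trans (le_of_eq ?_) ((lintegral_mono (μ := volume.restrict (Ioc 0 π))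
    fun t => Vol_psi G h t (Vol_J G)).trans_eq
      (by rw [setLIntegral_const, Real.volume_Ioc, sub_zero, mul_comm]))
  rw [lintegral_lintegral_swap]
  · refine setLIntegral_congr_fun (Vol_open h 0).measurableSet fun x hx => ?_
    rw [← ofReal_integral_eq_lintegral_ofReal, integral_mul_const,
      ← intervalIntegral.integral_of_le pi_pos.le]
    · rfl
    · exact ((Vol_jac_cont' G h (Vol_OO hx)).mul continuous_const).integrableOn_Ioc
    · exact Eventually.of_forall fun t => mul_nonneg (Vol_J_nonneg G _) (sq_nonneg _)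
  · rw [Measure.prod_restrict]
    refine ContinuousOn.aemeasurable ?_ (measurableSet_Ioc.prod (Vol_open h 0).measurableSet)
    have c1 := (Vol_jac_cont G h).comp (s := Ioc 0 π ×ˢ Vol_R μ g 0)
      (continuous_fst.prodMk ((contDiff_κ 0).continuous.comp continuous_snd)).continuousOn
      fun p hp => Vol_OO hp.2
    exact ENNReal.continuous_ofReal.comp_continuousOn
      (c1.mul ((Vol_w_cont h 0).comp continuous_snd).continuousOn)

theorem Vol_log {θ : ℝ → ℝ} (hc : Continuous θ) (hp : ∀ t, 0 < θ t) {a : ℝ} (ha : 0 < a) :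
    a * ((∫ t in (0 : ℝ)..π, log (θ t)) - π * log a) ≤ (∫ t in (0 : ℝ)..π, θ t) - π * a := by
  have hl : Continuous fun t => log (θ t) := hc.log fun t => (hp t).ne'
  have h1 : ∫ t in (0 : ℝ)..π, a * (log (θ t) - log a) ≤ ∫ t in (0 : ℝ)..π, (θ t - a) := by
    refine intervalIntegral.integral_mono_on pi_pos.le
      ((continuous_const.mul (hl.sub continuous_const)).intervalIntegrable _ _)
      ((hc.sub continuous_const).intervalIntegrable _ _) fun t _ => ?_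
    have h2 := log_le_sub_one_of_pos (div_pos (hp t) ha)
    rw [log_div (hp t).ne' ha.ne'] at h2
    refine (mul_le_mul_of_nonneg_left h2 ha.le).trans (le_of_eq ?_)
    field_simp
  rw [intervalIntegral.integral_const_mul,
    intervalIntegral.integral_sub (hl.intervalIntegrable _ _) intervalIntegrable_const,
    intervalIntegral.integral_sub (hc.intervalIntegrable _ _) intervalIntegrable_const] at h1
  simpa using h1

theorem Vol_thk_pos {k : ℕ} {τ : ℝ} (hτ : τ ∈ Ioo 0 (π / 2)) : 0 < thk d k τ := by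
  have h1 : 0 < sin τ := sin_pos_of_pos_of_lt_pi hτ.1 (by linarith [hτ.2, pi_pos])
  have h2 : 0 < sin (2 * τ) := sin_pos_of_pos_of_lt_pi (by linarith [hτ.1]) (by linarith [hτ.2])
  unfold thk
  positivity

theorem Vol_j_pos {k : ℕ} {τ : ℝ} (hτ : τ ∈ Ioo 0 (π / 2)) : 0 < Vol_j d k τ :=
  div_pos (Vol_thk_pos hτ) (pow_pos hτ.1 _)

theorem continuous_thk (k : ℕ) : Continuous (thk d k) := by
  unfold thk
  fun_prop

theorem Vol_j_cont (h : IsMetric μ g) (k : ℕ) : ContinuousOn (fun x => Vol_j d k (spd g x)) μ.OO :=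
  ((continuous_thk k).comp_continuousOn h.contDiffOn_spd.continuousOn).div
    (h.contDiffOn_spd.continuousOn.pow _) fun x hx => pow_ne_zero _ (h.spd_pos hx).ne'

theorem vmod_ne_top {k : ℕ} (hk : k + 1 ≤ d) : vmod d k ≠ ⊤ := by
  refine ne_top_of_le_ne_top (measure_ball_lt_top (μ := volume) (x := (0 : RF d)) (r := π / 2)).ne ?_
  rw [← lintegral_indicator_one Metric.isOpen_ball.measurableSet]
  refine lintegral_mono fun y => ?_
  by_cases hy : ‖y‖ ∈ Ioo 0 (π / 2)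
  · rw [indicator_of_mem hy, indicator_of_mem (mem_ball_zero_iff.2 hy.2), Pi.one_apply,
      ENNReal.ofReal_le_one, div_le_one (pow_pos hy.1 _), thk, show d - 1 = d - 1 - k + k by omega,
      pow_add, Nat.add_sub_cancel]
    have h1 := sin_pos_of_pos_of_lt_pi hy.1 (by linarith [hy.2, pi_pos])
    have h2 : 0 < sin (2 * ‖y‖) := sin_pos_of_pos_of_lt_pi (by linarith [hy.1]) (by linarith [hy.2])
    have h3 := sin_le hy.1.le
    have h4 : sin (2 * ‖y‖) / 2 ≤ ‖y‖ := by linarith [sin_le (x := 2 * ‖y‖) (by positivity)]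
    gcongr
  · simp [indicator_of_notMem hy]

theorem Vol_model (h : IsMetric μ g) (k : ℕ) :
    ∫⁻ y in Vol_R μ g 0, ENNReal.ofReal (Vol_j d k (spd g (μ.κ 0 y)) * μ.den g 0 y.1 ^ 2) =
      vol μ g * vmod d k := by
  have hR := (Vol_open h 0).measurableSet
  have hf : Measurable fun r => ENNReal.ofReal ((Ioo 0 (π / 2)).indicator (Vol_j d k) r) :=
    (((continuous_thk k).measurable.div (measurable_id.pow_const _)).indicator
      measurableSet_Ioo).ennreal_ofReal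
  rw [← lintegral_indicator hR, Measure.volume_eq_prod, lintegral_prod, vol,
    ← lintegral_mul_const _ (h.continuous_den 0).measurable.ennreal_ofReal]
  · refine lintegral_congr fun a => ?_
    rw [show vmod d k = _ from (fibre_integral (h.gc_symm 0 a) (fun _ => h.gc_pos 0 a) hf).symm,
      ← lintegral_const_mul' _ _ ENNReal.ofReal_ne_top]
    refine lintegral_congr fun u => ?_
    by_cases hu : (a, u) ∈ Vol_R μ g 0
    · have h1 : √(μ.gc g 0 a u u) ∈ Ioo 0 (π / 2) := ⟨h.spd_pos (Vol_OO hu), hu.2⟩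
      rw [indicator_of_mem hu, indicator_of_mem h1, ← ENNReal.ofReal_mul (Vol_j_pos h1).le,
        ← ENNReal.ofReal_mul (h.den_pos 0 a).le, ← den_eq, spd_κ, mul_left_comm, sq]
    · rw [indicator_of_notMem hu, indicator_of_notMem fun h1 => hu ⟨fun h2 => ?_, h1.2⟩]
      · simp
      · rw [show u = 0 from h2, map_zero, sqrt_zero] at h1
        exact h1.1.false
  · rw [← Measure.volume_eq_prod, aemeasurable_indicator_iff hR]
    exact (ENNReal.continuous_ofReal.comp_continuousOn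
      ((Vol_comp (Vol_j_cont h k)).mul (Vol_w_cont h 0).continuousOn)).aemeasurable hR

namespace Bl
variable {G : Geo μ g} (B : Bl g G)
include B

/-- Change of variables for the exponential map. -/
theorem jac_le_vol (i : Fin (μ.N + 1)) (a : RF d) :
    ∫⁻ b in {b | √(μ.gc g i a b b) < π / 2},
      ENNReal.ofReal (G.jac (μ.χ i a) (fderiv ℝ (μ.χ i) a b) * μ.den g i a) ≤ vol μ g := by
  have h := B.met
  have hq := χ_M i a
  have hd := fun b => (G.hasFDerivAt_ex hq.1 _).comp b (fderiv ℝ (μ.χ i) a).hasFDerivAt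
  have hM := fun b => G.ex_mem hq.1 (fderiv ℝ (μ.χ i) a b)
  refine (param_le volume 0 (T := fun j => {b | √(μ.gc g i a b b) < π / 2} ∩
      (fun b => G.ex (μ.χ i a) (fderiv ℝ (μ.χ i) a b)) ⁻¹' μ.W j)
    (N := fun j => {y | μ.χ j y ∉ μ.W 0}) (fun j => ((isOpen_lt (by fun_prop) continuous_const).inter
      ((μ.W_open j).preimage (continuous_iff_continuousAt.2
        fun b => (hd b).continuousAt))).measurableSet) (fun b hb => ?_)
    (φ := fun j b => μ.ρ j (G.ex (μ.χ i a) (fderiv ℝ (μ.χ i) a b)))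
    (fun j b hb => (hasFDerivAt_ρ hb.2).comp b (hd b)) (fun j b hb b' hb' e => ?_)
    (H := fun j y => ENNReal.ofReal (μ.den g j y)) (fun j b hb => ?_)
    (fun j => ae_iff.1 (μ.null j)) fun j b hb h0 h1 => h0 ⟨hb.1, ?_⟩).trans
      (setLIntegral_le_lintegral _ _)
  · obtain ⟨j, hj⟩ := μ.cover _ (hM b).1 (hM b).2
    exact mem_iUnion.2 ⟨j, hb, hj⟩
  · have e1 := congrArg (μ.χ j) e
    rw [μ.χρ j _ hb.2 (hM b).2, μ.χρ j _ hb'.2 (hM b').2] at e1
    exact Dχ_inj i a ((P_χ i a b).symm.trans ((B.ex_inj hq.1 hb.1 hb'.1 e1).trans (P_χ i a b')))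
  · rw [← ENNReal.ofReal_mul (abs_nonneg _), G.jac_chart h i a hb.2]
  · rwa [μ.χρ j _ hb.2 (hM b).2] at h1

theorem Vol_le :
    ∫⁻ y in Vol_R μ g 0, ENNReal.ofReal (Vol_J G (μ.κ 0 y) * μ.den g 0 y.1 ^ 2) ≤
      vol μ g * vol μ g := by
  rw [← lintegral_indicator (Vol_open B.met 0).measurableSet, Measure.volume_eq_prod]
  refine (lintegral_prod_le _).trans ?_
  nth_rewrite 1 [vol]
  rw [← lintegral_mul_const _ (B.met.continuous_den 0).measurable.ennreal_ofReal]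
  refine lintegral_mono fun z => ?_
  refine le_trans ?_ (mul_le_mul_right (B.jac_le_vol 0 z) _)
  refine le_trans ?_ (mul_le_mul_right (lintegral_indicator_le _ _) _)
  rw [← lintegral_const_mul' _ _ ENNReal.ofReal_ne_top]
  refine lintegral_mono fun u => ?_
  by_cases hu : (z, u) ∈ Vol_R μ g 0
  · have h1 : u ∈ {u | √(μ.gc g 0 z u u) < π / 2} := hu.2
    rw [indicator_of_mem hu, indicator_of_mem h1, ← ENNReal.ofReal_mul (B.met.den_pos 0 z).le,
      mul_left_comm, sq]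
    rfl
  · rw [indicator_of_notMem hu]
    exact zero_le

theorem Vol_point (k : ℕ) {x : E × E} (hx : x ∈ μ.OO) (hs : spd g x < π / 2) :
    thk d k (spd g x) * ((∫ t in (0 : ℝ)..π, log (G.th (G.psi t x) (spd g x))) -
      π * log (thk d k (spd g x))) ≤ spd g x ^ (d - 1) * Vol_avg G x - π * thk d k (spd g x) := by
  have h := B.met
  have hs0 := h.spd_pos hx
  have e : ∀ t, G.th (G.psi t x) (spd g x) =
      spd g x ^ (d - 1) * Vol_J G (G.psi t x) := fun t => by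
    have := G.th_spd h (G.psi_mem h t hx)
    rwa [G.spd_psi t hx] at this
  have hp : ∀ t, 0 < spd g x ^ (d - 1) * Vol_J G (G.psi t x) := fun t =>
    mul_pos (pow_pos hs0 _) (B.jac_pos (G.Z_mem t hx) ((G.spd_psi t hx).trans_lt hs))
  simp only [e]
  have hc : Continuous fun t => spd g x ^ (d - 1) * Vol_J G (G.psi t x) :=
    continuous_const.mul (Vol_jac_cont' G h hx)
  unfold Vol_avg
  rw [← intervalIntegral.integral_const_mul (spd g x ^ (d - 1))]
  exact Vol_log hc hp (Vol_thk_pos ⟨hs0, hs⟩)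

theorem eq_of_vol_le {k : ℕ} (hk : ∀ x ∈ μ.TT, G.kk x = k) (hv : vol μ g ≤ vmod d k) {x : E × E}
    (hx : x ∈ μ.TT) {τ : ℝ} (hτ : τ ∈ Ioo 0 (π / 2)) :
    π * log (thk d k τ) = ∫ t in (0 : ℝ)..π, log (G.th (G.psi t x) τ) := by
  have h := B.met
  have hR := Vol_open h
  have hbk : ∀ y ∈ μ.TT, ∀ s ∈ Ioo 0 (π / 2),
      π * log (thk d k s) ≤ ∫ t in (0 : ℝ)..π, log (G.th (G.psi t y) s) := fun y hy s hs =>
    hk y hy ▸ B.bk_ineq hy hs
  have hD : ∀ y ∈ μ.TT, spd g y < π / 2 → π * Vol_j d k (spd g y) ≤ Vol_avg G y := fun y hy hs => by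
    have h0 := h.spd_pos (TT_OO hy)
    have h1 := B.Vol_point k (TT_OO hy) hs
    have h3 := mul_nonneg (Vol_thk_pos (d := d) (k := k) ⟨h0, hs⟩).le (sub_nonneg.2 (hbk y hy _ ⟨h0, hs⟩))
    rw [Vol_j, ← mul_div_assoc, div_le_iff₀ (pow_pos h0 _)]
    linarith
  have hm : ∫⁻ y in Vol_R μ g 0,
      ENNReal.ofReal (π * Vol_j d k (spd g (μ.κ 0 y)) * μ.den g 0 y.1 ^ 2) =
      ENNReal.ofReal π * (vol μ g * vmod d k) := by
    rw [← Vol_model h, ← lintegral_const_mul' _ _ ENNReal.ofReal_ne_top]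
    refine lintegral_congr fun y => ?_
    rw [← ENNReal.ofReal_mul pi_pos.le, mul_assoc]
  have c1 := fun i => Vol_comp (g := g) (i := i) ((continuousOn_const (c := π)).mul (Vol_j_cont h k))
  have c2 := fun i => Vol_comp (g := g) (i := i) (Vol_avg_cont G h)
  have c3 := ENNReal.continuous_ofReal.comp_continuousOn ((c1 0).mul (Vol_w_cont h 0).continuousOn)
  have c4 := ENNReal.continuous_ofReal.comp_continuousOn ((c2 0).mul (Vol_w_cont h 0).continuousOn)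
  have hf := vmod_ne_top (d := d) (k := k) (by
    have := B.bkg_card hx
    rw [hk x hx, Fintype.card_fin] at this
    omega)
  have key := Measure.eqOn_open_of_ae_eq (μ := volume) (ae_eq_of_ae_le_of_lintegral_le
    ((ae_restrict_iff' (hR 0).measurableSet).2 (Eventually.of_forall fun y hy =>
      ENNReal.ofReal_le_ofReal (mul_le_mul_of_nonneg_right (hD _ (κ_TT 0 hy.1) hy.2) (sq_nonneg _))))
    (hm.trans_ne (ENNReal.mul_ne_top ENNReal.ofReal_ne_top
      (ENNReal.mul_ne_top (ne_top_of_le_ne_top hf hv) hf)))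
    (c4.aemeasurable (hR 0).measurableSet)
    (((Vol_avg_lint G h).trans (mul_le_mul_right (B.Vol_le.trans
        (mul_le_mul_right hv _)) _)).trans_eq hm.symm)) (hR 0) c3 c4
  have key2 : ∀ i, ∀ y ∈ Vol_R μ g i, π * Vol_j d k (spd g (μ.κ i y)) = Vol_avg G (μ.κ i y) := fun i => by
    refine Measure.eqOn_open_of_ae_eq (μ := volume) ((ae_restrict_iff' (hR i).measurableSet).2 ?_)
      (hR i) (c1 i) (c2 i)
    filter_upwards [(ae_iff (p := fun y : RF d × RF d => μ.χ i y.1 ∈ μ.W 0)).2 (null_κ μ i)] with y h0 hy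
    have e := κσ (κ_TM i y) h0
    have h1 : μ.σ 0 (μ.κ i y) ∈ Vol_R μ g 0 :=
      ⟨fun h2 => (κ_TT i hy.1).2.2 (by rw [← e, κ, h2, map_zero]), e.symm ▸ hy.2⟩
    have h2 := key h1
    have h3 := hD _ (κ_TT i hy.1) hy.2
    have h4 := (mul_pos pi_pos (Vol_j_pos (d := d) (k := k) ⟨h.spd_pos (Vol_OO hy), hy.2⟩)).le
    simp only [Function.comp_apply, Pi.mul_apply, e] at h2
    rw [ENNReal.ofReal_eq_ofReal_iff (mul_nonneg h4 (sq_nonneg _))
      (mul_nonneg (h4.trans h3) (sq_nonneg _))] at h2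
    exact mul_right_cancel₀ (pow_pos (h.den_pos _ _) 2).ne' h2
  have hs := h.spd_pos (TT_OO hx)
  have hm0 : 0 < τ / spd g x := div_pos hτ.1 hs
  have e1 : spd g (sc (τ / spd g x) x) = τ := by rw [spd_sc hm0.le, div_mul_cancel₀ _ hs.ne']
  have e4 : ∀ t, G.th (G.psi t (sc (τ / spd g x) x)) τ = G.th (G.psi t x) τ := fun t => by
    rw [G.psi_sc t hm0 (TT_OO hx), G.th_sc hm0]
  obtain ⟨i, y, hy, e⟩ := exists_κ (sc_mem_TT hm0.ne' hx)
  have h5 := key2 i y ⟨hy, by rw [e, e1]; exact hτ.2⟩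
  have h3 := B.Vol_point k (sc_mem_OO hm0.ne' (TT_OO hx)) (e1.symm ▸ hτ.2)
  rw [e, e1, Vol_j, ← mul_div_assoc, div_eq_iff (pow_pos hτ.1 _).ne'] at h5
  rw [e1] at h3
  simp only [e4] at h3
  refine le_antisymm (hbk x hx τ hτ)
    (sub_nonpos.1 (nonpos_of_mul_nonpos_right ?_ (Vol_thk_pos (d := d) (k := k) hτ)))
  linarith

end Bl

end Pool.Agent.Work.MP_8c604c_gt.O
end
end

-- merged part: Pool.Agent.Work.MP_8c604c_gt.O.RigQ8
section
/-!
Two fibrations of a 16-dimensional Euclidean space by 8-planes with quadratic projector are isometric.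
For a unit x, X = W x, V its complement, L : X x V -> V with L x = id, |L w y| = |w| |y|, w + L w y in W (x + y).
A unit y0 in V identifies X with V; the resulting product is a composition algebra of dimension 8, so the octonions (OM/Hur).
In these coordinates the fibres are the graphs a -> (a, a m) and the second factor.
-/

set_option maxSynthPendingDepth 3

noncomputable section
namespace Pool.Agent.Work.MP_8c604c_gt.O

variable {H : Type} [NormedAddCommGroup H] [NormedSpace ℝ H] [FiniteDimensional ℝ H]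

/-- A fibration of the nonzero vectors by 8-planes whose projector is quadratic. -/
structure IsFib (B : H →L[ℝ] H →L[ℝ] ℝ) (W : H → Submodule ℝ H) : Prop where
  symm : ∀ u w, B u w = B w u
  pos : ∀ u, u ≠ 0 → 0 < B u u
  rank : ∀ u, u ≠ 0 → Module.finrank ℝ (W u) = 8
  self : ∀ u, u ≠ 0 → u ∈ W u
  eq : ∀ u, u ≠ 0 → ∀ w ∈ W u, w ≠ 0 → W w = W u
  quad : ∃ P : H → H → H, (∀ u, u ≠ 0 → ∀ a, P u a ∈ W u ∧ ∀ w ∈ W u, B w (P u a) = B w a) ∧
    ∀ a, ∃ q : H →L[ℝ] H →L[ℝ] ℝ, ∀ u, u ≠ 0 → B u u * B a (P u a) = q u u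

open OM
open scoped RealInnerProductSpace

theorem RigQ8_onb {V : Type} [AddCommGroup V] [Module ℝ V] [FiniteDimensional ℝ V] (B : V →ₗ[ℝ] V →ₗ[ℝ] ℝ)
    (hs : ∀ u w, B u w = B w u) (hp : ∀ u, u ≠ 0 → 0 < B u u) {n : ℕ} (hn : Module.finrank ℝ V = n) :
    ∃ α : EuclideanSpace ℝ (Fin n) ≃ₗ[ℝ] V, ∀ a b, B (α a) (α b) = ⟪a, b⟫ := by
  subst hn
  let c : InnerProductSpace.Core ℝ V :=
    { inner := fun u w => B u w
      conj_inner_symm := fun u w => hs w u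
      re_inner_nonneg := fun u => by
        by_cases h : u = 0
        · simp [h]
        · exact (hp u h).le
      add_left := fun u w y => by simp
      smul_left := fun u w r => by simp
      definite := fun u h => by_contra fun h' => (hp u h').ne' h }
  let : NormedAddCommGroup V := c.toNormedAddCommGroup
  let : InnerProductSpace ℝ V := InnerProductSpace.ofCore c.toCore
  exact ⟨(stdOrthonormalBasis ℝ V).repr.symm.toLinearEquiv,
    fun a b => (stdOrthonormalBasis ℝ V).repr.symm.inner_map_map a b⟩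

open Classical in
/-- The parametrisation of the octonionic line through `u`. -/
def RigQ8_ga (u : O × O) : O →ₗ[ℝ] O × O :=
  if u.1 = 0 then LinearMap.inr ℝ O O
  else LinearMap.id.prod (mulL.flip (⟪u.1, u.1⟫⁻¹ • (star u.1 * u.2)) : O →ₗ[ℝ] O)

theorem RigQ8_ga_inj (u : O × O) : Function.Injective (RigQ8_ga u) := by
  unfold RigQ8_ga
  split_ifs
  · exact LinearMap.inr_injective
  · exact fun a b h => congrArg Prod.fst h

theorem RigQ8_nf {B : H →L[ℝ] H →L[ℝ] ℝ} {W : H → Submodule ℝ H} (h : IsFib B W)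
    (hd : Module.finrank ℝ H = 16) : ∃ Φ : (O × O) ≃ₗ[ℝ] H,
      (∀ a b, B (Φ a) (Φ b) = ⟪a.1, b.1⟫ + ⟪a.2, b.2⟫) ∧
      ∀ u, u ≠ 0 → W (Φ u) = LinearMap.range (Φ.toLinearMap ∘ₗ RigQ8_ga u) := by
  obtain ⟨hs, hp, hr, hu, hw, P, hP, hq⟩ := h
  obtain ⟨A, hA⟩ := RigQ8_tri hs hp hu hw hP hq
  have : Nontrivial H := Module.nontrivial_of_finrank_pos (R := ℝ) (by omega)
  obtain ⟨u0, u00⟩ := exists_ne (0 : H)
  obtain ⟨t, x1⟩ := MP_8c604c_gt.H.RigQA_unit hp u00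
  generalize t • u0 = x at x1
  have x0 : x ≠ 0 := by
    rintro rfl
    simp at x1
  obtain ⟨V, L, hc⟩ := hA.cl x1
  obtain ⟨y0, hy0, y1⟩ : ∃ y ∈ V, B y y = 1 := by
    obtain ⟨a, ha⟩ : ∃ a, a ∉ W x := by
      by_contra k
      push Not at k
      have := hr x x0
      rw [Submodule.eq_top_iff'.2 k, finrank_top] at this
      omega
    obtain ⟨t, ht⟩ := MP_8c604c_gt.H.RigQA_unit hp (x := a - P x a) fun e => ha (sub_eq_zero.1 e ▸ (hP x x0 a).1)
    exact ⟨_, V.smul_mem t ((hc.hV _).2 fun w k => by rw [map_sub, (hP x x0 a).2 w k, sub_self]), ht⟩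
  obtain ⟨α₀, hα₀⟩ := RigQ8_onb (V := W x) (B.toLinearMap₁₂.compl₁₂ (W x).subtype (W x).subtype)
    (fun u w => hs _ _) (fun u k => hp _ fun e => k (Subtype.ext e)) (hr x x0)
  let α : EuclideanSpace ℝ (Fin 8) →ₗ[ℝ] H := (W x).subtype ∘ₗ α₀.toLinearMap
  have hα : ∀ a b, B (α a) (α b) = ⟪a, b⟫ := hα₀
  have αW : ∀ a, α a ∈ W x := fun a => (α₀ a).2
  obtain ⟨e, he⟩ : ∃ e, α e = x := ⟨α₀.symm ⟨x, hu x x0⟩, by simp [α]⟩
  let β : EuclideanSpace ℝ (Fin 8) →ₗ[ℝ] H := L.flip y0 ∘ₗ α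
  have βV : ∀ a, β a ∈ V := fun a => hc.memV _ (αW a) _ hy0
  have hβ : ∀ a b, B (β a) (β b) = ⟪a, b⟫ := fun a b =>
    (hc.nrm _ (αW a) _ (αW b) _ hy0).trans (by rw [y1, hα, one_mul])
  have αβ : ∀ a b, B (α a) (β b) = 0 := fun a b => (hc.hV _).1 (βV b) _ (αW a)
  have key : ∀ {F : Type} [NormedAddCommGroup F] [InnerProductSpace ℝ F] [FiniteDimensional ℝ F]
      (θ : F →ₗ[ℝ] EuclideanSpace ℝ (Fin 8)), (∀ a b, ⟪θ a, θ b⟫ = ⟪a, b⟫) → Module.finrank ℝ F = 8 →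
      ∃ Ψ : (F × F) ≃ₗ[ℝ] H, (∀ a, Ψ a = α (θ a.1) + β (θ a.2)) ∧
        ∀ a b, B (Ψ a) (Ψ b) = ⟪a.1, b.1⟫ + ⟪a.2, b.2⟫ := by
    intro F _ _ _ θ hθ hF
    have k : ∀ a b : F × F, B ((α ∘ₗ θ).coprod (β ∘ₗ θ) a) ((α ∘ₗ θ).coprod (β ∘ₗ θ) b) =
        ⟪a.1, b.1⟫ + ⟪a.2, b.2⟫ := fun a b => by
      simp only [LinearMap.coprod_apply, LinearMap.comp_apply, map_add, add_apply, hα, hβ, αβ,
        hs (β _) (α _), hθ, add_zero, zero_add]
    refine ⟨LinearEquiv.ofInjectiveOfFinrankEq ((α ∘ₗ θ).coprod (β ∘ₗ θ)) ?_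
      (by rw [Module.finrank_prod, hF, hd]), fun _ => rfl, k⟩
    rw [injective_iff_map_eq_zero]
    intro a ha
    have k1 := k a a
    rw [ha, map_zero] at k1
    have k2 := real_inner_self_nonneg (x := a.1)
    have k3 := real_inner_self_nonneg (x := a.2)
    exact Prod.ext (inner_self_eq_zero.1 (by linarith : ⟪a.1, a.1⟫ = 0))
      (inner_self_eq_zero.1 (by linarith : ⟪a.2, a.2⟫ = 0))
  obtain ⟨Ψ, Ψ1, -⟩ := key LinearMap.id (fun _ _ => rfl) (by simp)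
  have βs : ∀ v ∈ V, β (Ψ.symm v).2 = v := fun v hv => by
    have k1 : α (Ψ.symm v).1 + β (Ψ.symm v).2 = v := (Ψ1 _).symm.trans (Ψ.apply_symm_apply v)
    have k2 := (hc.hV v).1 hv _ (αW (Ψ.symm v).1)
    rw [← k1, map_add, αβ, hα, add_zero, k1, inner_self_eq_zero] at k2
    rwa [k2, map_zero, zero_add] at k1
  have βi : ∀ a b, β a = β b → a = b := fun a b k => by
    have := hβ (a - b) (a - b)
    rw [map_sub, k, sub_self, map_zero] at this
    exact sub_eq_zero.1 (inner_self_eq_zero.1 this.symm)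
  obtain ⟨m, hm⟩ : ∃ m : EuclideanSpace ℝ (Fin 8) → EuclideanSpace ℝ (Fin 8) → EuclideanSpace ℝ (Fin 8),
      ∀ a b, β (m a b) = L (α a) (β b) := ⟨_, fun a b => βs _ (hc.memV _ (αW a) _ (βV b))⟩
  have βe : β e = y0 := by
    change L (α e) y0 = y0
    rw [he, hc.one _ hy0]
  let C : CA (EuclideanSpace ℝ (Fin 8)) :=
    { mul := m
      one := e
      star := fun a => (2 * ⟪a, e⟫) • e - a
      mul_add' := fun a b c => βi _ _ (by
        change β (m a (b + c)) = β (m a b + m a c)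
        simp only [map_add, hm])
      add_mul' := fun a b c => βi _ _ (by
        change β (m (a + b) c) = β (m a c + m b c)
        simp only [map_add, hm, LinearMap.add_apply])
      smul_mul' := fun t a b => βi _ _ (by
        change β (m (t • a) b) = β (t • m a b)
        simp only [map_smul, hm, LinearMap.smul_apply])
      mul_smul' := fun t a b => βi _ _ (by
        change β (m a (t • b)) = β (t • m a b)
        simp only [map_smul, hm])
      one_mul' := fun a => βi _ _ (by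
        change β (m e a) = β a
        rw [hm, he, hc.one _ (βV a)])
      mul_one' := fun a => βi _ _ (by
        change β (m a e) = β a
        rw [hm, βe]
        rfl)
      one_one := by
        change ⟪e, e⟫ = 1
        rw [← hα, he, x1]
      nm := fun a b => by
        change ⟪m a b, m a b⟫ = _
        rw [← hβ, hm, hc.nrm _ (αW a) _ (αW a) _ (βV b), hα, hβ, mul_comm]
      star_def := fun _ => rfl }
  obtain ⟨θ, θ1, θm, θi⟩ := hurwitz (V := EuclideanSpace ℝ (Fin 8)) (by simp)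
  replace θ1 : θ 1 = e := θ1
  replace θm : ∀ a b, β (θ (a * b)) = L (α (θ a)) (β (θ b)) := fun a b => by
    rw [θm]
    exact hm _ _
  obtain ⟨Φ, Φ1, Φ2⟩ := key θ θi finrank_O
  refine ⟨Φ, Φ2, fun u u0 => (Submodule.eq_of_le_of_finrank_eq ?_ ?_).symm⟩
  · rintro _ ⟨a, rfl⟩
    have hΦ : Φ u ≠ 0 := fun k => u0 (Φ.map_eq_zero_iff.1 k)
    change Φ (RigQ8_ga u a) ∈ _
    unfold RigQ8_ga
    split_ifs with k
    · have k2 : ⟪u.2, u.2⟫ ≠ 0 := fun k' => u0 (Prod.ext k (inner_self_eq_zero.1 k'))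
      have k3 : Φ u = β (θ u.2) := by rw [Φ1, k, map_zero, map_zero, zero_add]
      have k4 := hc.memW _ (αW (θ (⟪u.2, u.2⟫⁻¹ • (a * star u.2)))) _ (βV (θ u.2)) (k3 ▸ hΦ)
      rw [← θm, smul_mul_assoc, CA.inv_r', inv_smul_smul₀ k2] at k4
      rw [k3, Φ1]
      simpa using k4
    · have k2 : ⟪u.1, u.1⟫ ≠ 0 := fun k' => k (inner_self_eq_zero.1 k')
      set n := ⟪u.1, u.1⟫⁻¹ • (star u.1 * u.2) with hn
      have k3 : ∀ a, Φ (a, a * n) ∈ W (x + β (θ n)) := fun a => by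
        rw [Φ1, θm]
        exact hc.gr _ (αW _) _ (βV _)
      have k4 := k3 u.1
      rw [hn, mul_smul_comm, CA.inv_l', inv_smul_smul₀ k2, ← hn] at k4
      have k5 : x + β (θ n) ≠ 0 := fun k' => by
        have := congrArg (B x) k'
        rw [map_add, x1, ← he, αβ, map_zero] at this
        norm_num at this
      rw [hw _ k5 _ k4 hΦ]
      exact k3 a
  · have hi : Function.Injective (Φ.toLinearMap ∘ₗ RigQ8_ga u) :=
      fun a b k => RigQ8_ga_inj u (Φ.injective k)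
    rw [LinearMap.finrank_range_of_inj hi, finrank_O, hr _ fun k => u0 (Φ.map_eq_zero_iff.1 k)]

theorem fib_iso {B₀ B : H →L[ℝ] H →L[ℝ] ℝ} {W₀ W : H → Submodule ℝ H} (h₀ : IsFib B₀ W₀) (h : IsFib B W)
    (hd : Module.finrank ℝ H = 16) : ∃ L : H →L[ℝ] H, (∀ u w, B (L u) (L w) = B₀ u w) ∧
      ∀ u, u ≠ 0 → ∀ w ∈ W₀ u, L w ∈ W (L u) := by
  obtain ⟨Φ₀, p₀, q₀⟩ := RigQ8_nf h₀ hd
  obtain ⟨Φ, p, q⟩ := RigQ8_nf h hd
  have e : ∀ a, LinearMap.toContinuousLinearMap (Φ₀.symm.trans Φ).toLinearMap (Φ₀ a) = Φ a := fun a =>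
    congrArg Φ (Φ₀.symm_apply_apply a)
  refine ⟨LinearMap.toContinuousLinearMap (Φ₀.symm.trans Φ).toLinearMap, fun u w => ?_, fun u hu w hw => ?_⟩
  · obtain ⟨a, rfl⟩ := Φ₀.surjective u
    obtain ⟨b, rfl⟩ := Φ₀.surjective w
    rw [e, e, p, p₀]
  · obtain ⟨a, rfl⟩ := Φ₀.surjective u
    have ha : a ≠ 0 := fun k => hu (by rw [k, map_zero])
    rw [q₀ a ha] at hw
    obtain ⟨b, rfl⟩ := hw
    rw [e, q a ha]
    exact ⟨b, (e _).symm⟩

end Pool.Agent.Work.MP_8c604c_gt.O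
end
end

-- merged part: Pool.Agent.Work.MP_8c604c_gt.O.RigB
section
/-!
Two metrics with model Jacobi fields of multiplicity seven agree in normal coordinates.
-/

set_option maxSynthPendingDepth 3
set_option linter.unusedSectionVars false

open Set Filter Topology MeasureTheory
open scoped ContDiff

noncomputable section
namespace Pool.Agent.Work.MP_8c604c_gt.O

open Model Real

theorem rb_polar {H : Type} [AddCommGroup H] {f : H → H → ℝ} (hs : ∀ u w, f u w = f w u)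
    (ha : ∀ u v w, f (u + v) w = f u w + f v w) (h0 : ∀ u, f u u = 0) (u w : H) : f u w = 0 := by
  have h1 := h0 (u + w)
  rw [ha, hs u, hs w, ha, ha, h0, h0, hs w u] at h1
  linarith

theorem RigF_lim3 : Tendsto (fun x : ℝ => (sin x - x) / x ^ 3) (𝓝[>] 0) (𝓝 (-1 / 6)) := by
  have h0 : Tendsto (fun x : ℝ => x * (5 / 96)) (𝓝[>] 0) (𝓝 0) := by
    have : Tendsto (fun x : ℝ => x * (5 / 96)) (𝓝 0) (𝓝 (0 * (5 / 96))) :=
      (continuous_id.mul continuous_const).tendsto 0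
    rw [zero_mul] at this
    exact this.mono_left nhdsWithin_le_nhds
  rw [tendsto_iff_norm_sub_tendsto_zero]
  refine squeeze_zero' (Eventually.of_forall fun _ => norm_nonneg _) ?_ h0
  filter_upwards [Ioo_mem_nhdsGT (show (0 : ℝ) < 1 by norm_num)] with x hx
  have hx0 : 0 < x := hx.1
  have h1 := Real.sin_bound (x := x) (by rw [abs_of_pos hx0]; exact hx.2.le)
  have e : (sin x - x) / x ^ 3 - -1 / 6 = (sin x - (x - x ^ 3 / 6)) / x ^ 3 := by
    field_simp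
    ring
  rw [e, Real.norm_eq_abs, abs_div, abs_of_pos (pow_pos hx0 3), div_le_iff₀ (pow_pos hx0 3)]
  rw [abs_of_pos hx0] at h1
  have h2 : x ^ 5 ≤ x ^ 4 := pow_le_pow_of_le_one hx0.le hx.2.le (by norm_num)
  have h3 : 0 < x ^ 4 := pow_pos hx0 4
  nlinarith

theorem RigF_lim1 : Tendsto (fun x : ℝ => sin x / x) (𝓝[>] 0) (𝓝 1) := by
  have h0 : Tendsto (fun x : ℝ => x) (𝓝[>] 0) (𝓝 0) := tendsto_id.mono_left nhdsWithin_le_nhds
  have h1 := (RigF_lim3.mul (h0.pow 2)).add_const 1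
  simp only [ne_eq, OfNat.ofNat_ne_zero, not_false_eq_true, zero_pow, mul_zero, zero_add] at h1
  refine h1.congr' ?_
  filter_upwards [self_mem_nhdsWithin] with x hx
  have : x ≠ 0 := ne_of_gt hx
  field_simp
  ring

theorem rb_lim (X Y : ℝ) {s : ℝ} (hs : 0 < s) :
    Tendsto (fun t : ℝ => (((sin (t * s) / (t * s)) ^ 2 - 1) * X -
      sin (t * s) ^ 4 / (t * s) ^ 2 * Y) / t ^ 2) (𝓝[>] 0) (𝓝 (s ^ 2 * (-1 / 3 * X - Y))) := by
  have h0 : Tendsto (fun t : ℝ => t * s) (𝓝[>] 0) (𝓝[>] 0) := by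
    refine tendsto_nhdsWithin_iff.2 ⟨?_, ?_⟩
    · have : Tendsto (fun x : ℝ => x * s) (𝓝 0) (𝓝 (0 * s)) :=
        (continuous_id.mul continuous_const).tendsto 0
      rw [zero_mul] at this
      exact this.mono_left nhdsWithin_le_nhds
    · filter_upwards [self_mem_nhdsWithin] with t ht
      exact mul_pos ht hs
  have h1 := ((((RigF_lim3.mul (RigF_lim1.add_const 1)).mul_const X).sub
    ((RigF_lim1.pow 4).mul_const Y)).const_mul (s ^ 2)).comp h0
  have e : s ^ 2 * (-1 / 6 * (1 + 1) * X - 1 ^ 4 * Y) = s ^ 2 * (-1 / 3 * X - Y) := by ring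
  rw [e] at h1
  refine h1.congr' ?_
  filter_upwards [self_mem_nhdsWithin] with t ht
  have : t ≠ 0 := ne_of_gt ht
  have : s ≠ 0 := hs.ne'
  simp only [Function.comp]
  field_simp
  ring

variable {E : Type} [NormedAddCommGroup E] [InnerProductSpace ℝ E] [FiniteDimensional ℝ E] {d : ℕ}
  {μ : Model E d} {g g₀ : Met E} {G : Geo μ g} {G₀ : Geo μ g₀}

/-- All Jacobi fields have the model length. -/
def ModelJ (G : Geo μ g) : Prop :=
  ∀ x ∈ μ.TT, ∀ τ ∈ Ioo 0 (π / 2), ∀ u, g x.1 u x.2 = 0 →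
    g (G.Z τ x) (spd g x • G.JJ τ x (0, u)) (spd g x • G.JJ τ x (0, u)) =
      sin τ ^ 2 * (g x.1 u u - g x.1 u (G.KP x u)) + (sin (2 * τ) / 2) ^ 2 * g x.1 u (G.KP x u)

/-- Restriction of a metric to the tangent space. -/
def RigBB (μ : Model E d) (g : Met E) (o : E) : μ.Tan o →L[ℝ] μ.Tan o →L[ℝ] ℝ :=
  (g o).bilinearComp (μ.Tan o).subtypeL (μ.Tan o).subtypeL

theorem RigBB_apply (g : Met E) (o : E) (u w : μ.Tan o) : RigBB μ g o u w = g o u w := rfl

/-- Projection to the tangent space. -/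
def RigBPr {o : E} (ho : o ∈ μ.M) : E →L[ℝ] μ.Tan o :=
  (μ.P o).codRestrict (μ.Tan o) fun u => mem_Tan.2 (P_idem ho u)

theorem RigB_TT {o : E} (ho : o ∈ μ.M) {u : μ.Tan o} (hu : u ≠ 0) : (o, (u : E)) ∈ μ.TT :=
  ⟨ho, mem_Tan.1 u.2, fun h => hu (Subtype.ext h)⟩

theorem RigB_unit {o v : E} (ho : o ∈ μ.M) (h0 : μ.P o v = v) (h1 : g o v v = 1) : (o, v) ∈ μ.TT :=
  ⟨ho, h0, fun e => by simp [show v = 0 from e] at h1⟩

/-- The metric in normal coordinates. -/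
theorem RigB_normal (h : IsMetric μ g) (hM : ModelJ G) {o v : E} (ho : o ∈ μ.M)
    (h0 : μ.P o v = v) (h1 : g o v v = 1) {τ : ℝ} (hτ : τ ∈ Ioo 0 (π / 2)) (a : E) :
    G.pb o (τ • v) a a = g o v a ^ 2 + (sin τ / τ) ^ 2 * (g o a a - g o v a ^ 2) -
        sin τ ^ 4 / τ ^ 2 * g o a (G.KP (o, v) a) := by
  obtain ⟨hx, hs, hv⟩ := h.unit_mem ho.1 h1
  have hT := RigB_unit ho h0 h1
  have e1 := G.fderiv_ex h τ hx hτ.1 a
  have e2 := G.ex_vel h τ hx
  simp only [hv, hs] at e1 e2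
  have hK : G.KP (o, v) v = 0 := G.KP_Bs h hT (snd_mem_Bs _)
  have hK' : g o v (G.KP (o, v) a) = 0 := by
    have := G.KP_symm h hT v a
    simp only at this
    rw [← this, hK, map_zero, zero_apply]
  have hav : g o a v = g o v a := h.symm _ _ _ ho.1
  have e3 : G.JJ τ (o, v) (0, a - g o v a • v) = G.JJ τ (o, v) (0, a) := by
    have hB : g o v a • v ∈ μ.Bs (o, v) := Submodule.smul_mem _ _ (snd_mem_Bs (o, v))
    have : ((0, a - g o v a • v) : E × E) = (0, a) - (0, g o v a • v) := by simp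
    rw [this, map_sub, G.JJ_Bs h τ hx hB, sub_zero]
  have e4 := hM _ hT τ hτ (a - g o v a • v) (by simp [hav, h1])
  simp only [hs, one_smul, e3, map_sub, map_smul, sub_apply, smul_apply, smul_eq_mul, hav, h1,
    hK', hK, smul_zero, map_zero] at e4
  have e5 : g (G.Z τ (o, v)) (vel g (G.psi τ (o, v))) (vel g (G.psi τ (o, v))) = 1 :=
    h.vel_unit (G.psi_mem h τ hx)
  have e6 : g (G.Z τ (o, v)) (vel g (G.psi τ (o, v))) (G.JJ τ (o, v) (0, a)) = 0 := by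
    rw [G.al_inv h τ hx]
    simp [al]
  have e7 : g (G.Z τ (o, v)) (G.JJ τ (o, v) (0, a)) (vel g (G.psi τ (o, v))) = 0 := by
    rw [h.symm _ _ _ (G.Z_U τ hx), e6]
  rw [Geo.pb_apply, e1, e2]
  simp only [map_add, map_smul, add_apply, smul_apply, smul_eq_mul, e4, e5, e6, e7]
  have := hτ.1.ne'
  rw [sin_two_mul]
  field_simp
  linear_combination (sin τ ^ 2 * g o a (G.KP (o, v) a)) * sin_sq_add_cos_sq τ

/-- The projector is quadratic. -/
theorem RigB_quadratic (h : IsMetric μ g) (hM : ModelJ G) {o : E} (ho : o ∈ μ.M) (a : μ.Tan o) :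
    ∃ q : μ.Tan o →L[ℝ] μ.Tan o →L[ℝ] ℝ, ∀ u : μ.Tan o, u ≠ 0 →
      g o u u * g o a (G.KP (o, u) a) = q u u := by
  let γ : μ.Tan o → ℝ := fun u =>
    g (G.ex o u) (fderiv ℝ (G.ex o) u a) (fderiv ℝ (G.ex o) u a)
  have hs := G.contDiff_ex ho.1
  have hγ : ContDiffAt ℝ ∞ γ 0 := by
    have b0 : ContDiff ℝ ∞ fun u : μ.Tan o => (u : E) := (μ.Tan o).subtypeL.contDiff
    have b1 : ContDiffAt ℝ ∞ (fun u : μ.Tan o => g (G.ex o u)) 0 :=
      ContDiffAt.comp (g := g) (f := fun u : μ.Tan o => G.ex o u) 0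
        (h.contDiffAt (G.ex_mem ho.1 _).1) (hs.comp b0).contDiffAt
    have b2 : ContDiff ℝ ∞ fun u : μ.Tan o => fderiv ℝ (G.ex o) u a :=
      ((hs.fderiv_right (m := ∞) (by simp)).comp b0).clm_apply contDiff_const
    exact (b1.clm_apply b2.contDiffAt).clm_apply b2.contDiffAt
  have hγ0 : γ 0 = g o a a := by
    show g (G.ex o 0) (fderiv ℝ (G.ex o) 0 a) (fderiv ℝ (G.ex o) 0 a) = _
    rw [G.ex_zero ho.1, (G.hasFDerivAt_ex_zero ho.1).fderiv, ho.2, mem_Tan.1 a.2]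
  refine Exists.elim (quadratic_of_ray hγ (c := fun u =>
    -1 / 3 * (RigBB μ g o a a * RigBB μ g o u u - RigBB μ g o a u * RigBB μ g o a u) -
      g o u u * g o a (G.KP (o, u) a)) fun u hu => ?_) fun q hq => ?_
  swap
  · refine ⟨(-1 / 3 : ℝ) • (RigBB μ g o a a • RigBB μ g o -
      (RigBB μ g o a).smulRight (RigBB μ g o a)) - q, fun u hu => ?_⟩
    simp only [sub_apply, smul_apply, smul_eq_mul, ContinuousLinearMap.smulRight_apply,
      ← hq u hu]
    ring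
  · have hT := RigB_TT ho hu
    have hx := TT_OO hT
    have e1 := h.snd_eq hx
    have e2 : G.KP (o, vel g (o, (u : E))) = G.KP (o, u) := G.KP_sc h hT (inv_pos.2 (h.spd_pos hx))
    have hs := h.spd_pos hx
    have e := h.spd_sq (x := (o, (u : E))) ho.1
    simp only at e1 e
    have hv0 := P_vel (g := g) hT
    have hv1 := h.vel_unit hx
    simp only at hv0 hv1
    set s := spd g (o, (u : E)) with hsd
    set v := vel g (o, (u : E)) with hvd
    have hl := rb_lim (g o a a - g o v a ^ 2) (g o a (G.KP (o, u) a)) hs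
    have e3 : s ^ 2 * (-1 / 3 * (g o a a - g o v a ^ 2) - g o a (G.KP (o, u) a)) =
        -1 / 3 * (RigBB μ g o a a * RigBB μ g o u u - RigBB μ g o a u * RigBB μ g o a u) -
          g o u u * g o a (G.KP (o, u) a) := by
      have e4 : g o a u = s * g o v a := by
        rw [e1, map_smul, h.symm _ _ _ ho.1, smul_eq_mul]
      simp only [RigBB_apply, ← e, e4]
      ring
    rw [e3] at hl
    refine hl.congr' ?_
    filter_upwards [Ioo_mem_nhdsGT (show (0 : ℝ) < π / 2 / s by positivity)] with t ht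
    have ht' : t * s ∈ Ioo 0 (π / 2) := ⟨mul_pos ht.1 hs, (lt_div_iff₀ hs).1 ht.2⟩
    have e5 : ((t • u : μ.Tan o) : E) = (t * s) • v := by
      rw [Submodule.coe_smul, mul_smul, ← e1]
    have e6 : γ (t • u) = G.pb o (t • u : μ.Tan o) a a := rfl
    rw [e6, hγ0, e5, RigB_normal h hM ho hv0 hv1 ht', e2]
    ring

/-- The conjugate directions form a fibration with quadratic projector. -/
theorem RigB_fib (B : Bl g G) (hk : ∀ x ∈ μ.TT, G.kk x = 7) (hM : ModelJ G) {o : E} (ho : o ∈ μ.M) :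
    IsFib (RigBB μ g o) fun u => (G.WS (o, u)).comap (μ.Tan o).subtype := by
  have h := B.met
  let P : μ.Tan o → μ.Tan o → μ.Tan o := fun u a =>
    RigBPr ho (g o (vel g (o, u)) a • vel g (o, u) + G.KP (o, u) a)
  have hW : ∀ u : μ.Tan o, u ≠ 0 → ∀ a : E,
      g o (vel g (o, u)) a • vel g (o, u) + G.KP (o, u) a ∈ G.WS (o, u) := fun u hu a =>
    (Geo.mem_WS_iff h (RigB_TT ho hu)).2 ⟨_, _, G.KP_mem h (RigB_TT ho hu) a, rfl⟩
  have hP : ∀ u : μ.Tan o, u ≠ 0 → ∀ a : μ.Tan o,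
      (P u a : E) = g o (vel g (o, u)) a • vel g (o, u) + G.KP (o, u) a := fun u hu a =>
    (Geo.mem_WS.1 (hW u hu a)).1
  have hl : ∀ u w : μ.Tan o, u ≠ 0 → w ≠ 0 → ((w : E) ∈ G.WS (o, u) ↔
      G.Z (π / 2) (o, w) = G.Z (π / 2) (o, u)) := fun u w hu hw => by
    rw [Geo.mem_WS, B.link_iff (RigB_TT ho hu) (TT_OO (RigB_TT ho hw))]
    exact and_iff_right (mem_Tan.1 w.2)
  refine ⟨fun u w => h.symm _ _ _ ho.1, fun u hu => h.pos _ _ ho.1 (TT_OO (RigB_TT ho hu)).2,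
    fun u hu => ?_, fun u hu => (hl u u hu hu).2 rfl, fun u hu w hw hw0 => ?_,
    P, fun u hu a => ⟨?_, fun w hw => ?_⟩, fun a => ?_⟩
  · have hle : G.WS (o, u) ≤ μ.Tan o := inf_le_left
    rw [(Submodule.comapSubtypeEquivOfLe hle).finrank_eq, Geo.finrank_WS h (RigB_TT ho hu),
      hk _ (RigB_TT ho hu)]
  · ext v
    by_cases hv : v = 0
    · simp [hv]
    refine (hl w v hw0 hv).trans (Iff.trans ?_ (hl u v hu hv).symm)
    rw [(hl u w hu hw0).1 hw]
  · change (P u a : E) ∈ G.WS (o, u)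
    rw [hP u hu]
    exact hW u hu a
  · have hx := RigB_TT ho hu
    obtain ⟨t, κ, hκ, e⟩ := (Geo.mem_WS_iff h hx).1 hw
    replace e : (w : E) = t • vel g (o, u) + κ := e
    have a1 := h.vel_unit (TT_OO hx)
    have a2 := Geo.vel_KS hκ
    have a3 := Geo.vel_KS (G.KP_mem h hx a)
    have a4 := G.g_KP h hx hκ a
    simp only at a1 a2 a3 a4
    rw [h.symm _ _ _ ho.1] at a2
    rw [RigBB_apply, RigBB_apply, hP u hu, e]
    simp only [map_add, map_smul, add_apply, smul_apply, smul_eq_mul, a1, a2, a3, a4]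
    ring
  · obtain ⟨q, hq⟩ := RigB_quadratic h hM ho a
    refine ⟨q + (RigBB μ g o a).smulRight (RigBB μ g o a), fun u hu => ?_⟩
    have hx := TT_OO (RigB_TT ho hu)
    have e1 := h.snd_eq hx
    have e := h.spd_sq (x := (o, (u : E))) ho.1
    simp only at e1 e
    have e4 : g o a u = spd g (o, u) * g o a (vel g (o, u)) := by
      conv_lhs => rw [e1]
      rw [map_smul, smul_eq_mul]
    simp only [add_apply, ContinuousLinearMap.smulRight_apply, smul_apply, smul_eq_mul, ← hq u hu,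
      RigBB_apply, hP u hu, map_add, map_smul, e4, ← e, h.symm o (vel g (o, u)) a ho.1]
    ring

/-- A linear isometry that matches the normal coordinates. -/
theorem RigB_L {μ : Model E 16} {G : Geo μ g} {G₀ : Geo μ g₀} (B : Bl g G) (B₀ : Bl g₀ G₀)
    (hk : ∀ x ∈ μ.TT, G.kk x = 7) (hk₀ : ∀ x ∈ μ.TT, G₀.kk x = 7) (hM : ModelJ G) (hM₀ : ModelJ G₀)
    {o : E} (ho : o ∈ μ.M) : ∃ L : E →L[ℝ] E, (∀ u, μ.P o (L u) = L u) ∧
      (∀ u w, g o (L u) (L w) = g₀ o u w) ∧ ∀ u, μ.P o u = u → √(g₀ o u u) < π / 2 → ∀ a b,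
        G.pb o (L u) (L a) (L b) = G₀.pb o u a b := by
  have h := B.met
  have h₀ := B₀.met
  obtain ⟨L₀, h4, h5⟩ := fib_iso (RigB_fib B₀ hk₀ hM₀ ho) (RigB_fib B hk hM ho) (finrank_Tan ho)
  let L : E →L[ℝ] E := (μ.Tan o).subtypeL.comp (L₀.comp (RigBPr ho))
  have l1 : ∀ u, μ.P o (L u) = L u := fun u => mem_Tan.1 (L₀ (RigBPr ho u)).2
  have l2 : ∀ u w, g o (L u) (L w) = g₀ o u w := fun u w =>
    (h4 (RigBPr ho u) (RigBPr ho w)).trans ((h₀.P_left ho _ _).trans (h₀.P_right ho _ _))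
  have l3 : ∀ v, μ.P o v = v → g₀ o v v = 1 → ∀ a, G.KP (o, L v) (L a) = L (G₀.KP (o, v) a) := by
    intro v v1 v2 a
    have x0 := RigB_unit ho v1 v2
    have x1 := RigB_unit ho (l1 v) ((l2 v v).trans v2)
    have k1 : (G₀.KS (o, v)).map (L : E →ₗ[ℝ] E) ≤ G.KS (o, L v) := by
      rintro _ ⟨k, hk', rfl⟩
      obtain ⟨a1, a2, a3⟩ := (G₀.mem_KS h₀ x0).1 hk'
      have e1 : RigBPr ho v = ⟨v, mem_Tan.2 v1⟩ := Subtype.ext v1
      have e2 : RigBPr ho k = ⟨k, mem_Tan.2 a1⟩ := Subtype.ext a1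
      have a4 := h5 (RigBPr ho v) (fun e => x0.2.2 (v1.symm.trans (congrArg Subtype.val e)))
        (RigBPr ho k) (by rw [e1, e2]; exact Geo.mem_WS.2 ⟨a1, a3⟩)
      exact (G.mem_KS h x1).2 ⟨l1 k, (l2 k v).trans a2, (Geo.mem_WS.1 a4).2⟩
    have k2 := Submodule.eq_of_le_of_finrank_eq k1 (by
      rw [← Geo.kk, hk _ x1, ← hk₀ _ x0, Geo.kk, ← LinearMap.range_domRestrict]
      refine LinearMap.finrank_range_of_inj ((injective_iff_map_eq_zero _).2 fun k e => Subtype.ext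
        (h₀.eq_zero_of_tan ho.1 ((G₀.mem_KS h₀ x0).1 k.2).1 ?_))
      rw [← l2, show L k = 0 from e, map_zero])
    refine G.KP_eq h x1 (k1 ⟨_, G₀.KP_mem h₀ x0 a, rfl⟩) fun k hk' => ?_
    obtain ⟨k, a1, rfl⟩ := k2.ge hk'
    exact (l2 _ _).trans ((G₀.g_KP h₀ x0 a1 a).trans (l2 _ _).symm)
  refine ⟨L, l1, l2, fun u u1 u2 a b => sub_eq_zero.1 (rb_polar
    (f := fun a b => G.pb o (L u) (L a) (L b) - G₀.pb o u a b) (fun a b => ?_) (fun a b c => ?_)
    (fun a => sub_eq_zero.2 ?_) a b)⟩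
  · simp only [Geo.pb_apply]
    rw [h.symm _ _ _ (G.ex_mem ho.1 _).1, h₀.symm _ _ _ (G₀.ex_mem ho.1 _).1]
  · simp only [map_add, add_apply]
    ring
  by_cases hu : u = 0
  · simp only [hu, map_zero, Geo.pb_apply, G.ex_zero ho.1, G₀.ex_zero ho.1, ho.2,
      (G.hasFDerivAt_ex_zero ho.1).fderiv, (G₀.hasFDerivAt_ex_zero ho.1).fderiv, l1, l2,
      h₀.P_left ho, h₀.P_right ho]
  have x0 : (o, u) ∈ μ.TT := ⟨ho, u1, hu⟩
  have v1 := P_vel (g := g₀) x0
  have v2 := h₀.vel_unit (TT_OO x0)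
  have hτ : spd g₀ (o, u) ∈ Ioo 0 (π / 2) := ⟨h₀.spd_pos (TT_OO x0), u2⟩
  rw [show u = _ from h₀.snd_eq (TT_OO x0), map_smul, RigB_normal h₀ hM₀ ho v1 v2 hτ,
    RigB_normal h hM ho (l1 _) ((l2 _ _).trans v2) hτ, l3 _ v1 v2, l2, l2, l2]

end Pool.Agent.Work.MP_8c604c_gt.O
end
end

-- merged part: Pool.Agent.Work.MP_8c604c_gt.O.RigC
section
/-!
Gluing normal coordinates to a global isometry.
-/

set_option maxSynthPendingDepth 3
set_option linter.unusedSectionVars false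

open Set Filter Topology MeasureTheory
open scoped ContDiff

noncomputable section
namespace Pool.Agent.Work.MP_8c604c_gt.O

open Model Real

variable {E : Type} [NormedAddCommGroup E] [InnerProductSpace ℝ E] [FiniteDimensional ℝ E] {d : ℕ}
  {μ : Model E d} {g g₀ : Met E} {G : Geo μ g} {G₀ : Geo μ g₀}

/-- Points at distance less than `π/2` from `q`. -/
def DS (μ : Model E d) (g : Met E) (q : E) : Set E := {y | (q, y) ∈ DD μ g}

theorem DS_open (h : IsMetric μ g) (q : E) : IsOpen (DS μ g q) :=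
  h.isOpen_DD.preimage (continuous_const.prodMk continuous_id)

theorem DS_symm {q y : E} (h : y ∈ DS μ g q) : q ∈ DS μ g y :=
  ⟨h.2.1, h.1, (dd_symm y q).trans_lt h.2.2⟩

theorem DS_self {q : E} (hq : q ∈ μ.U) : q ∈ DS μ g q :=
  ⟨hq, hq, (dd_self hq).trans_lt pi_div_two_pos⟩

theorem DS_r {q y : E} (h : y ∈ DS μ g q) : μ.r y ∈ DS μ g q :=
  ⟨h.1, μ.maps _ h.2.1, (dd_r_right q h.2.1).trans_lt h.2.2⟩

theorem Bl.DS_Z (B : Bl g G) {x : E × E} (hx : x ∈ μ.OO) {t : ℝ} (ht : t ∈ Ico 0 (π / 2)) :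
    G.Z t x ∈ DS μ g x.1 := by
  have h1 : |t| < π / 2 := by rw [abs_of_nonneg ht.1]; exact ht.2
  exact ⟨hx.1, G.Z_U t hx, (B.dd_Z_zero hx h1.le).trans_lt h1⟩

theorem Bl.DS_dense (B : Bl g G) {z y : E} (hz : z ∈ μ.M) (hy : y ∈ μ.M) :
    y ∈ closure (μ.M ∩ DS μ g z) := by
  by_cases e : y = z
  · exact subset_closure ⟨hy, e ▸ DS_self hy.1⟩
  obtain ⟨w, hx, t, ht, rfl⟩ := B.exists_Z hz hy e
  have hx' := TT_OO hx
  refine mem_closure_of_tendsto (((G.hasDerivAt_Z B.met t hx').continuousAt.tendsto).mono_left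
    (nhdsWithin_le_nhds (s := Iio t))) ?_
  filter_upwards [Ioo_mem_nhdsLT ht.1] with s hs
  exact ⟨G.Z_mem s hx', B.DS_Z hx' ⟨hs.1.le, hs.2.trans_le ht.2⟩⟩

theorem Bl.DS_near (B : Bl g G) {z y : E} (hz : z ∈ μ.M) (hy : y ∈ μ.M) {W : Set E}
    (hW : IsOpen W) (hyW : y ∈ W) : y ∈ closure (W ∩ (μ.M ∩ DS μ g z)) :=
  hW.inter_closure ⟨hyW, B.DS_dense hz hy⟩

theorem Lgm.smooth' (l : Lgm g G) (q : E) : ContDiffOn ℝ ∞ (l.lg q) (DS μ g q) :=
  l.smooth.comp (contDiff_const.prodMk contDiff_id).contDiffOn fun _ hy => hy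

theorem Lgm.spec (l : Lgm g G) {q y : E} (hq : q ∈ μ.M) (hy : y ∈ DS μ g q) :
    μ.P q (l.lg q y) = l.lg q y ∧ √(g q (l.lg q y) (l.lg q y)) < π / 2 ∧
      G.ex q (l.lg q y) = μ.r y := by
  have h1 := l.tan q y hy
  have h2 := l.norm_lg q y hy
  have h3 := l.eq q y hy
  rw [hq.2] at h1 h2 h3
  exact ⟨h1, h2.trans_lt hy.2.2, h3⟩

/-- The map that is `L` in normal coordinates at `o` and `p`. -/
def chart (G : Geo μ g) (l : Lgm g₀ G₀) (o p : E) (L : E →L[ℝ] E) (y : E) : E :=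
  G.ex p (L (l.lg o y))

theorem chart_smooth (G : Geo μ g) (l : Lgm g₀ G₀) (o : E) {p : E} (hp : p ∈ μ.U)
    (L : E →L[ℝ] E) : ContDiffOn ℝ ∞ (chart G l o p L) (DS μ g₀ o) :=
  (G.contDiff_ex hp).comp_contDiffOn (L.contDiff.comp_contDiffOn (l.smooth' o))

theorem chart_r (G : Geo μ g) (l : Lgm g₀ G₀) {o : E} (ho : o ∈ μ.M) (p : E) (L : E →L[ℝ] E)
    {y : E} (hy : y ∈ DS μ g₀ o) : chart G l o p L (μ.r y) = chart G l o p L y := by
  have h1 := l.inv o y hy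
  rw [ho.2] at h1
  rw [chart, chart, h1]

theorem chart_iso (h₀ : IsMetric μ g₀) (l : Lgm g₀ G₀) {o : E} (ho : o ∈ μ.M) {L : E →L[ℝ] E}
    (hL : ∀ u, μ.P o u = u → √(g₀ o u u) < π / 2 → ∀ a b,
      G.pb o (L u) (L a) (L b) = G₀.pb o u a b) {y : E} (hy : y ∈ DS μ g₀ o) (u w : E) :
    g (chart G l o o L y) (fderiv ℝ (chart G l o o L) y u) (fderiv ℝ (chart G l o o L) y w) =
      g₀ y u w := by
  have hn := (DS_open h₀ o).mem_nhds hy
  have d0 := (((l.smooth' o).contDiffAt hn).differentiableAt (by simp)).hasFDerivAt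
  have d1 : HasFDerivAt (chart G l o o L) _ y :=
    (G.hasFDerivAt_ex ho.1 _).comp y (L.hasFDerivAt.comp y d0)
  have d2 := ((G₀.hasFDerivAt_ex ho.1 _).comp y d0).unique
    ((hasFDerivAt_r hy.2.1).congr_of_eventuallyEq (by
      filter_upwards [hn] with z hz using (l.spec ho hz).2.2))
  obtain ⟨s1, s2, s3⟩ := l.spec ho hy
  have e := hL _ s1 s2 (fderiv ℝ (l.lg o) y u) (fderiv ℝ (l.lg o) y w)
  rw [d1.fderiv, ← h₀.inv y u w hy.2.1, ← d2, ← s3]
  exact e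

theorem rigc_ray (h : IsMetric μ g) (h₀ : IsMetric μ g₀) {W : Set E} (hW : IsOpen W) {F : E → E}
    (hF : ContDiffOn ℝ ∞ F W) (hF0 : ∀ y ∈ W, F y ∈ μ.M)
    (hiso : ∀ y ∈ W, ∀ u w, g (F y) (fderiv ℝ F y u) (fderiv ℝ F y w) = g₀ y u w)
    {o u : E} (ho : o ∈ μ.M) (hu : μ.P o u = u)
    (hs : ∀ s ∈ Icc (0 : ℝ) 1, G₀.ex o (s • u) ∈ W) :
    F (G₀.ex o u) = G.ex (F o) (fderiv ℝ F o u) := by
  set c : ℝ → E := fun s => G₀.ex o (s • u) with hc
  have hc' : c = fun s => (G₀.φ s (o, u)).1 := funext fun s => G₀.ex_real_smul ho.1 u s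
  have hcs : ContDiff ℝ ∞ c := (G₀.contDiff_ex ho.1).comp (contDiff_id.smul contDiff_const)
  have hcd : ∀ s, HasDerivAt c (G₀.φ s (o, u)).2 s := fun s =>
    hc' ▸ G₀.deriv_fst s (o, u) ho.1
  have hder : deriv c = fun s => (G₀.φ s (o, u)).2 := funext fun s => (hcd s).deriv
  have hS : IsOpen (c ⁻¹' W) := hW.preimage hcs.continuous
  obtain ⟨a, a', ha, ha'⟩ := mem_nhds_iff_exists_Ioo_subset.mp
    (hS.mem_nhds (hs 0 ⟨le_rfl, zero_le_one⟩))
  obtain ⟨b', b, hb, hb'⟩ := mem_nhds_iff_exists_Ioo_subset.mp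
    (hS.mem_nhds (hs 1 ⟨zero_le_one, le_rfl⟩))
  have hab : ∀ s ∈ Ioo a b, c s ∈ W := by
    intro s hs'
    rcases lt_or_ge s 0 with h2 | h2
    · exact ha' ⟨hs'.1, h2.trans ha.2⟩
    · rcases le_or_gt s 1 with h3 | h3
      · exact hs s ⟨h2, h3⟩
      · exact hb' ⟨hb.1.trans h3, hs'.2⟩
  have e := G.uniq (F ∘ c) a b 0 ⟨ha.1, zero_lt_one.trans hb.2⟩
    (hF.comp hcs.contDiffOn hab) (fun s hs' => hF0 _ (hab s hs'))
    (fun s hs' η => el_map h h₀ hW hF hF0 hiso hcs.contDiffAt (hab s hs') (G₀.ex_mem ho.1 _)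
      (fun η => by rw [hder, hc']; exact G₀.el s (o, u) η ho.1) η) 1
      ⟨ha.1.trans zero_lt_one, hb.2⟩
  have hc0 : c 0 = o := by simp only [hc, zero_smul, G₀.ex_zero ho.1, ho.2]
  have hd0 : deriv (F ∘ c) 0 = fderiv ℝ F o u := by
    have h2 : DifferentiableAt ℝ F (c 0) :=
      (hF.contDiffAt (hW.mem_nhds (hs 0 ⟨le_rfl, zero_le_one⟩))).differentiableAt (by simp)
    rw [(h2.hasFDerivAt.comp_hasDerivAt 0 (hcd 0)).deriv, hc0, G₀.zero _ ho.1]
    exact congrArg _ hu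
  rw [hd0, sub_zero, Function.comp_apply, Function.comp_apply, hc0] at e
  simp only [hc, one_smul] at e
  exact e

theorem rigc_thin {X Y : Type} [NormedAddCommGroup X] [NormedSpace ℝ X] [FiniteDimensional ℝ X]
    [NormedAddCommGroup Y] [NormedSpace ℝ Y] [FiniteDimensional ℝ Y] {f : X → Y} {s : Set X}
    (hf : ∀ x ∈ s, ContDiffAt ℝ 1 f x) (hd : Module.finrank ℝ X < Module.finrank ℝ Y) :
    Dense (f '' s)ᶜ := by
  refine dense_compl_of_dimH_lt_finrank (((dimH_image_le_of_locally_lipschitzOn fun x hx => ?_).trans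
    (dimH_mono (subset_univ _))).trans_lt ?_)
  · obtain ⟨K, t, ht, e⟩ := (hf x hx).exists_lipschitzOnWith
    exact ⟨K, t, mem_nhdsWithin_of_mem_nhds ht, e⟩
  · rw [Real.dimH_univ_eq_finrank]
    exact_mod_cast hd

/-- The cut locus is reached from a subspace of dimension nine. -/
theorem Bl.cut {μ : Model E 16} {G : Geo μ g} (B : Bl g G) (hk : ∀ x ∈ μ.TT, G.kk x = 7) {o : E}
    (ho : o ∈ μ.M) : ∃ V : Submodule ℝ E, Module.finrank ℝ V = 9 ∧ ∀ y ∈ μ.M, y ∉ DS μ g o →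
      ∃ v ∈ V, (o, v) ∈ μ.OO ∧ G.Z (π / 2) (o, v) = y := by
  obtain ⟨f, hf⟩ := exists_linearIndependent_of_le_finrank (R := ℝ) (M := μ.Tan o) (n := 9)
    (by rw [finrank_Tan ho]; norm_num)
  have hf' := hf.map' (μ.Tan o).subtype (Submodule.ker_subtype _)
  have h1 := finrank_span_eq_card hf'
  rw [Fintype.card_fin] at h1
  set V := Submodule.span ℝ (range ((μ.Tan o).subtype ∘ f))
  have h2 : V ≤ μ.Tan o := Submodule.span_le.2 (by rintro _ ⟨i, rfl⟩; exact (f i).2)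
  refine ⟨V, h1, fun y hy hy' => ?_⟩
  obtain ⟨w, hx, t, ht, rfl⟩ := B.exists_Z ho hy fun e => hy' (e ▸ DS_self hy.1)
  obtain rfl : t = π / 2 := by
    by_contra hne
    exact hy' (B.DS_Z (TT_OO hx) ⟨ht.1.le, lt_of_le_of_ne ht.2 hne⟩)
  have h3 := Submodule.finrank_sup_add_finrank_inf_eq V (G.WS (o, w))
  have h4 := Submodule.finrank_mono (sup_le h2 (show G.WS (o, w) ≤ μ.Tan o from inf_le_left))
  rw [h1, Geo.finrank_WS B.met hx, hk _ hx] at h3
  rw [finrank_Tan ho] at h4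
  obtain ⟨v, hv, hv0⟩ := Submodule.exists_mem_ne_zero_of_ne_bot (p := V ⊓ G.WS (o, w)) fun e => by
    rw [e, finrank_bot] at h3
    omega
  have h5 := Geo.mem_WS.1 hv.2
  have h6 : (o, v) ∈ μ.OO := TT_OO ⟨ho, h5.1, hv0⟩
  exact ⟨v, hv.1, h6, (B.link_iff hx h6).2 h5.2⟩

theorem rigc_agree {μ : Model E 16} {G : Geo μ g} {G₀ : Geo μ g₀} (h : IsMetric μ g)
    (B₀ : Bl g₀ G₀) (hk : ∀ x ∈ μ.TT, G₀.kk x = 7) (l : Lgm g₀ G₀) {o : E} (ho : o ∈ μ.M)
    {F : E → E} (hF : ContDiffOn ℝ ∞ F (DS μ g₀ o)) (hF0 : ∀ y, F y ∈ μ.M)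
    (hiso : ∀ y ∈ DS μ g₀ o, ∀ u w, g (F y) (fderiv ℝ F y u) (fderiv ℝ F y w) = g₀ y u w)
    {o' y : E} (ho' : o' ∈ μ.M) (hoo : o' ∈ DS μ g₀ o) (hy : y ∈ μ.M) (h1 : y ∈ DS μ g₀ o)
    (h2 : y ∈ DS μ g₀ o') : chart G l o' (F o') (fderiv ℝ F o') y = F y := by
  have h₀ := B₀.met
  obtain ⟨V, hV, hcut⟩ := B₀.cut hk ho
  let Pr : E →L[ℝ] μ.Tan o' := (μ.P o').codRestrict _ fun u => mem_Tan.2 (P_idem ho' u)
  let f : ℝ × V → μ.Tan o' := fun p => p.1 • Pr (l.lg o' (G₀.Z (π / 2) (o, p.2)))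
  have hD : Dense (f '' {p | (o, (p.2 : E)) ∈ μ.OO ∧ G₀.Z (π / 2) (o, p.2) ∈ DS μ g₀ o'})ᶜ := by
    refine rigc_thin (fun p hp => ContDiffAt.of_le (n := ∞) ?_ (by exact_mod_cast le_top)) ?_
    · have a1 : ContDiff ℝ ∞ fun p : ℝ × V => ((π / 2, o, (p.2 : E)) : ℝ × E × E) :=
        contDiff_const.prodMk (contDiff_const.prodMk (V.subtypeL.contDiff.comp contDiff_snd))
      have a2 : ContDiffAt ℝ ∞ (fun p : ℝ × V => G₀.Z (π / 2) (o, p.2)) p :=
        ContDiffAt.comp (g := fun p : ℝ × E × E => G₀.Z p.1 p.2)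
          (f := fun p : ℝ × V => ((π / 2, o, (p.2 : E)) : ℝ × E × E)) p
          (jac_at isOpen_OO (G₀.contDiffOn_Z h₀) _ hp.1) a1.contDiffAt
      exact contDiffAt_fst.smul (Pr.contDiff.contDiffAt.comp p
        (((l.smooth' o').contDiffAt ((DS_open h₀ o').mem_nhds hp.2)).comp p a2))
    · rw [Module.finrank_prod, hV, finrank_Tan ho', Module.finrank_self]
      norm_num
  have c1 : Continuous fun u : μ.Tan o' => G₀.ex o' u :=
    (G₀.contDiff_ex ho'.1).continuous.comp continuous_subtype_val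
  have hO : IsOpen {u : μ.Tan o' | √(g₀ o' u u) < π / 2 ∧ G₀.ex o' u ∈ DS μ g₀ o} :=
    IsOpen.and (isOpen_lt (by fun_prop) continuous_const) ((DS_open h₀ o).preimage c1)
  have key : EqOn (fun u : μ.Tan o' => F (G₀.ex o' u))
      (fun u => G.ex (F o') (fderiv ℝ F o' u))
      {u : μ.Tan o' | √(g₀ o' u u) < π / 2 ∧ G₀.ex o' u ∈ DS μ g₀ o} := by
    refine EqOn.of_subset_closure ?_ (hF.continuousOn.comp c1.continuousOn fun u hu => hu.2)
      ((G.contDiff_ex (hF0 o').1).continuous.comp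
        ((fderiv ℝ F o').continuous.comp continuous_subtype_val)).continuousOn inter_subset_left
      (hD.open_subset_closure_inter hO)
    rintro u ⟨⟨u1, -⟩, u3⟩
    refine rigc_ray h h₀ (DS_open h₀ o) hF (fun y _ => hF0 y) hiso ho' (mem_Tan.1 u.2)
      fun s hs => by_contra fun hn => u3 ?_
    obtain ⟨v, hv, v1, v2⟩ := hcut _ (G₀.ex_mem ho'.1 _) hn
    have hs0 : s ≠ 0 := by
      rintro rfl
      rw [zero_smul, G₀.ex_zero ho'.1, ho'.2] at hn
      exact hn hoo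
    have hsu : √(g₀ o' (s • (u : E)) (s • (u : E))) < π / 2 := by
      refine lt_of_le_of_lt (sqrt_le_sqrt ?_) u1
      simp only [map_smul, smul_apply, smul_eq_mul]
      have := h₀.nonneg ho'.1 u
      nlinarith [mul_nonneg hs.1 this, mul_nonneg (mul_nonneg hs.1 this) (sub_nonneg.2 hs.2),
        mul_nonneg this (sub_nonneg.2 hs.2)]
    refine ⟨(s⁻¹, ⟨v, hv⟩), ⟨v1, v2 ▸ B₀.Log_mem ho'.1 hsu⟩, Subtype.ext ?_⟩
    change s⁻¹ • μ.P o' (l.lg o' (G₀.Z (π / 2) (o, v))) = u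
    rw [v2, l.uniq o' _ ho'.1 hsu, P_idem ho', map_smul, mem_Tan.1 u.2, inv_smul_smul₀ hs0]
  obtain ⟨s1, s2, s3⟩ := l.spec ho' h2
  rw [hy.2] at s3
  have := key (x := ⟨l.lg o' y, mem_Tan.2 s1⟩) ⟨s2, s3.symm ▸ h1⟩
  simp only [s3] at this
  exact this.symm

theorem Bl.exists_isometry {μ : Model E 16} {G : Geo μ g} {G₀ : Geo μ g₀} (B : Bl g G)
    (B₀ : Bl g₀ G₀) (hk : ∀ x ∈ μ.TT, G₀.kk x = 7) {o : E} (ho : o ∈ μ.M) {L : E →L[ℝ] E}
    (l1 : ∀ u, μ.P o (L u) = L u) (l2 : ∀ u w, g o (L u) (L w) = g₀ o u w)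
    (l3 : ∀ u, μ.P o u = u → √(g₀ o u u) < π / 2 → ∀ a b,
      G.pb o (L u) (L a) (L b) = G₀.pb o u a b) :
    ∃ Ψ : E → E, BijOn Ψ μ.M μ.M ∧ ∀ p ∈ μ.M, ContDiffAt ℝ ∞ Ψ p ∧ ∀ u w,
      g (Ψ p) (fderiv ℝ Ψ p u) (fderiv ℝ Ψ p w) = g₀ p u w := by
  have h := B.met
  have h₀ := B₀.met
  obtain ⟨l⟩ := B₀.exists_lgm
  set F := chart G l o o L with hFd
  have hF : ContDiffOn ℝ ∞ F (DS μ g₀ o) := chart_smooth G l o ho.1 L
  have hF0 : ∀ y, F y ∈ μ.M := fun y => G.ex_mem ho.1 _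
  have hiso : ∀ y ∈ DS μ g₀ o, ∀ u w, g (F y) (fderiv ℝ F y u) (fderiv ℝ F y w) = g₀ y u w :=
    fun y hy => chart_iso h₀ l ho l3 hy
  set ch : E → E → E := fun o' => chart G l o' (F o') (fderiv ℝ F o') with hch
  have hne : ∀ o' y, ch o' y ∈ μ.M := fun o' y => G.ex_mem (hF0 _).1 _
  have hsm : ∀ o', ContDiffOn ℝ ∞ (ch o') (DS μ g₀ o') := fun o' => chart_smooth G l o' (hF0 _).1 _
  have hag : ∀ o' ∈ μ.M ∩ DS μ g₀ o, ∀ y ∈ DS μ g₀ o, y ∈ DS μ g₀ o' → ch o' y = F y :=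
    fun o' ho' y hy hy' => (chart_r G l ho'.1 _ _ hy').symm.trans ((rigc_agree h B₀ hk l ho hF hF0
      hiso ho'.1 ho'.2 (r_mem hy.2.1) (DS_r hy) (DS_r hy')).trans (chart_r G l ho _ _ hy))
  have hag2 : ∀ o' ∈ μ.M ∩ DS μ g₀ o, ∀ o'' ∈ μ.M ∩ DS μ g₀ o, ∀ y ∈ DS μ g₀ o', y ∈ DS μ g₀ o'' →
      ch o' y = ch o'' y := by
    intro o' ho' o'' ho'' y hy' hy''
    have hW := (DS_open h₀ o').inter (DS_open h₀ o'')
    have h1 : EqOn (ch o') (ch o'') (DS μ g₀ o' ∩ DS μ g₀ o'' ∩ μ.M) :=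
      EqOn.of_subset_closure (s := DS μ g₀ o' ∩ DS μ g₀ o'' ∩ (μ.M ∩ DS μ g₀ o))
        (fun z hz => (hag o' ho' z hz.2.2 hz.1.1).trans (hag o'' ho'' z hz.2.2 hz.1.2).symm)
        ((hsm o').continuousOn.mono fun z hz => hz.1.1)
        ((hsm o'').continuousOn.mono fun z hz => hz.1.2) (fun z hz => ⟨hz.1, hz.2.1⟩)
        fun z hz => B₀.DS_near ho hz.2 hW hz.1
    exact (chart_r G l ho'.1 _ _ hy').symm.trans
      ((h1 ⟨⟨DS_r hy', DS_r hy''⟩, r_mem hy'.2.1⟩).trans (chart_r G l ho''.1 _ _ hy''))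
  have hsel : ∀ p ∈ μ.M, ∃ o' ∈ μ.M ∩ DS μ g₀ o, p ∈ DS μ g₀ o' := fun p hp =>
    (closure_nonempty_iff.1 ⟨p, B₀.DS_near ho hp (DS_open h₀ p) (DS_self hp.1)⟩).imp
      fun o' ho' => ⟨ho'.2, DS_symm ho'.1⟩
  choose! sel hsel1 hsel2 using hsel
  set Ψ : E → E := fun y => ch (sel (μ.r y)) (μ.r y) with hΨ
  have key : ∀ o' ∈ μ.M ∩ DS μ g₀ o, ∀ y ∈ DS μ g₀ o', Ψ y = ch o' y := fun o' ho' y hy =>
    (hag2 _ (hsel1 _ (r_mem hy.2.1)) o' ho' _ (hsel2 _ (r_mem hy.2.1)) (DS_r hy)).trans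
      (chart_r G l ho'.1 _ _ hy)
  have hev : ∀ p ∈ μ.M, Ψ =ᶠ[𝓝 p] ch (sel p) := fun p hp => by
    filter_upwards [(DS_open h₀ _).mem_nhds (hsel2 p hp)] with y hy using key _ (hsel1 p hp) y hy
  have hcd : ∀ p ∈ μ.M, ContDiffAt ℝ ∞ Ψ p := fun p hp =>
    ((hsm _).contDiffAt ((DS_open h₀ _).mem_nhds (hsel2 p hp))).congr_of_eventuallyEq (hev p hp)
  refine ⟨Ψ, ⟨fun p _ => hne _ _, fun p₁ h₁ p₂ h₂ e => ?_, fun z hz => ?_⟩,
    fun p hp => ⟨hcd p hp, fun u w => ?_⟩⟩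
  · obtain ⟨y, y1, y2, y3⟩ := closure_nonempty_iff.1
      ⟨p₂, B₀.DS_near h₁ h₂ (DS_open h₀ p₂) (DS_self h₂.1)⟩
    obtain ⟨o', ⟨a1, a2⟩, a3⟩ := closure_nonempty_iff.1
      ⟨y, B₀.DS_near ho y2 ((DS_open h₀ p₁).inter (DS_open h₀ p₂)) ⟨y3, y1⟩⟩
    rw [key o' a3 _ (DS_symm a1), key o' a3 _ (DS_symm a2)] at e
    obtain ⟨s1, s2, s3⟩ := l.spec a3.1 (DS_symm a1)
    obtain ⟨t1, t2, t3⟩ := l.spec a3.1 (DS_symm a2)
    have e1 := B.ex_inj (hF0 o').1 (by rw [hiso o' a3.2]; exact s2)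
      (by rw [hiso o' a3.2]; exact t2) e
    have e2 : l.lg o' p₁ = l.lg o' p₂ := by
      refine sub_eq_zero.1 (h₀.eq_zero_of_tan a3.1.1 (by rw [map_sub, s1, t1]) ?_)
      rw [← hiso o' a3.2]
      exact h.vert (hF0 o').1 (by rw [map_sub, map_sub, e1, sub_self]) _
    rw [← h₁.2, ← h₂.2, ← s3, ← t3, e2]
  · have hcl : IsClosed (Ψ '' μ.M) :=
      (μ.compact.image_of_continuousOn fun p hp =>
        (hcd p hp).continuousAt.continuousWithinAt).isClosed
    refine closure_minimal ?_ hcl (B.DS_dense ho hz)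
    rintro z ⟨z1, z2⟩
    obtain ⟨u', u1, u2, u3⟩ := B.exists_ex z2
    rw [ho.2] at u1 u2 u3
    obtain ⟨u, a1, a2⟩ := tan_surj h₀ ho ho L l1 l2 u'
    rw [u1] at a2
    rw [← a2, l2] at u2
    have a3 : G₀.ex o u ∈ DS μ g₀ o := B₀.Log_mem ho.1 u2
    have a4 : o ∈ μ.M ∩ DS μ g₀ o := ⟨ho, DS_self ho.1⟩
    refine ⟨G₀.ex o u, G₀.ex_mem ho.1 u, ?_⟩
    rw [key o a4 _ a3, hag o a4 _ a3 a3, hFd, chart, l.uniq o u ho.1 u2, a1, a2, u3, z1.2]
  · rw [(hev p hp).fderiv_eq, (hev p hp).eq_of_nhds]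
    have h1 := hsel1 p hp
    have hW := DS_open h₀ (sel p)
    have h4 := (hsm (sel p)).continuousOn_fderiv_of_isOpen hW (by simp)
    refine EqOn.of_subset_closure (s := DS μ g₀ (sel p) ∩ (μ.M ∩ DS μ g₀ o))
      (t := DS μ g₀ (sel p) ∩ μ.M)
      (f := fun y => g (ch (sel p) y) (fderiv ℝ (ch (sel p)) y u) (fderiv ℝ (ch (sel p)) y w))
      (g := fun y => g₀ y u w) (fun y hy => ?_) ?_ ?_ (fun z hz => ⟨hz.1, hz.2.1⟩)
      (fun z hz => B₀.DS_near ho hz.2 hW hz.1) ⟨hsel2 p hp, hp⟩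
    · have e : ch (sel p) =ᶠ[𝓝 y] F := by
        filter_upwards [hW.mem_nhds hy.1, (DS_open h₀ o).mem_nhds hy.2.2] with z z1 z2
          using hag _ h1 z z2 z1
      simp only [e.fderiv_eq, e.eq_of_nhds, hiso y hy.2.2]
    · exact (((h.smooth.continuousOn.comp (hsm _).continuousOn fun y _ => (hne _ _).1).clm_apply
        (h4.clm_apply continuousOn_const)).clm_apply (h4.clm_apply continuousOn_const)).mono
        inter_subset_left
    · exact ((h₀.smooth.continuousOn.mono fun y hy => hy.2.1).clm_apply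
        continuousOn_const).clm_apply continuousOn_const

end Pool.Agent.Work.MP_8c604c_gt.O
end
end

-- merged part: Pool.Agent.Work.MP_8c604c_gt.O.Rig
section
/-!
Two Blaschke metrics with multiplicity seven and volume at most that of the model are isometric.
-/

set_option maxSynthPendingDepth 3
set_option linter.unusedSectionVars false

open Set Filter Topology MeasureTheory
open scoped ContDiff

noncomputable section
namespace Pool.Agent.Work.MP_8c604c_gt.O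

open Model Real

variable {E : Type} [NormedAddCommGroup E] [InnerProductSpace ℝ E] [FiniteDimensional ℝ E]

theorem Bl.isometric {μ : Model E 16} {g₀ g : Met E} {G₀ : Geo μ g₀} {G : Geo μ g}
    (B₀ : Bl g₀ G₀) (B : Bl g G) (k₀ : ∀ x ∈ μ.TT, G₀.kk x = 7) (k : ∀ x ∈ μ.TT, G.kk x = 7)
    (v₀ : vol μ g₀ ≤ vmod 16 7) (v : vol μ g ≤ vmod 16 7) :
    ∃ Ψ : E → E, BijOn Ψ μ.M μ.M ∧ ∀ p ∈ μ.M, ContDiffAt ℝ ∞ Ψ p ∧ ∀ u w, μ.P p u = u → μ.P p w = w →
      g (Ψ p) (fderiv ℝ Ψ p u) (fderiv ℝ Ψ p w) = g₀ p u w := by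
  have hM : ModelJ G := fun x hx τ hτ u hu =>
    B.bk_eq hx hτ (by rw [k x hx]; exact B.eq_of_vol_le k v hx hτ) hu
  have hM₀ : ModelJ G₀ := fun x hx τ hτ u hu =>
    B₀.bk_eq hx hτ (by rw [k₀ x hx]; exact B₀.eq_of_vol_le k₀ v₀ hx hτ) hu
  obtain ⟨o, ho⟩ := μ.M_nonempty
  obtain ⟨L, l1, l2, l3⟩ := RigB_L B B₀ k k₀ hM hM₀ ho
  obtain ⟨Ψ, h1, h2⟩ := B.exists_isometry B₀ k₀ ho l1 l2 l3
  exact ⟨Ψ, h1, fun p hp => ⟨(h2 p hp).1, fun u w _ _ => (h2 p hp).2 u w⟩⟩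

end Pool.Agent.Work.MP_8c604c_gt.O
end
end
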